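import Pool.Agent.TreeS.Shell

/-!
# A mass on a finite union of nets
-/

set_option autoImplicit false

open MeasureTheory Set Metric Filter Topology
open scoped ENNReal

namespace Pool.Agent.TreeS

open Pool.Agent.RayM

variable {n : ℕ}

open Classical in
/-- The weighted sum of the normalized counting measures of the nets `P 0, ..., P K`. -/
noncomputable def mass (P : ℕ → Finset (E n)) (v : ℝ) (K : ℕ) (A : Set (E n)) : ℝ :=
  ∑ k ∈ Finset.range (K + 1), v ^ k / (P k).card * (((P k).filter (fun p => p ∈ A)).card : ℝ)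

variable {P : ℕ → Finset (E n)} {v : ℝ} {K : ℕ}

theorem mass_mono (hv : 0 ≤ v) {A B : Set (E n)} (h : A ⊆ B) : mass P v K A ≤ mass P v K B := by
  classical
  unfold mass
  apply Finset.sum_le_sum
  intro k _
  apply mul_le_mul_of_nonneg_left _ (by positivity)
  have h1 : (P k).filter (fun p => p ∈ A) ⊆ (P k).filter (fun p => p ∈ B) := by
    intro p hp
    rw [Finset.mem_filter] at hp ⊢
    exact ⟨hp.1, h hp.2⟩
  exact_mod_cast Finset.card_le_card h1

theorem mass_add (hv : 0 ≤ v) {A B D : Set (E n)} (hA : A ⊆ D) (hB : B ⊆ D)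
    (hAB : Disjoint A B) : mass P v K A + mass P v K B ≤ mass P v K D := by
  classical
  unfold mass
  rw [← Finset.sum_add_distrib]
  apply Finset.sum_le_sum
  intro k _
  rw [← mul_add]
  apply mul_le_mul_of_nonneg_left _ (by positivity)
  have h1 : Disjoint ((P k).filter (fun p => p ∈ A)) ((P k).filter (fun p => p ∈ B)) := by
    rw [Finset.disjoint_left]
    intro p hp1 hp2
    exact Set.disjoint_left.1 hAB (Finset.mem_filter.1 hp1).2 (Finset.mem_filter.1 hp2).2
  have h2 : (P k).filter (fun p => p ∈ A) ∪ (P k).filter (fun p => p ∈ B) ⊆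
      (P k).filter (fun p => p ∈ D) := by
    intro p hp
    rw [Finset.mem_union, Finset.mem_filter, Finset.mem_filter] at hp
    rw [Finset.mem_filter]
    rcases hp with h | h
    · exact ⟨h.1, hA h.2⟩
    · exact ⟨h.1, hB h.2⟩
  have h3 := Finset.card_le_card h2
  rw [Finset.card_union_of_disjoint h1] at h3
  exact_mod_cast h3

theorem mass_ge (hv : 0 ≤ v) {A : Set (E n)} {k : ℕ} (hk : k ≤ K) {p : E n} (hp : p ∈ P k)
    (hpA : p ∈ A) : v ^ k / (P k).card ≤ mass P v K A := by
  classical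
  unfold mass
  have h1 : v ^ k / (P k).card * (((P k).filter (fun p => p ∈ A)).card : ℝ) ≤
      ∑ k ∈ Finset.range (K + 1), v ^ k / (P k).card *
        (((P k).filter (fun p => p ∈ A)).card : ℝ) :=
    Finset.single_le_sum (f := fun k => v ^ k / (P k).card *
      (((P k).filter (fun p => p ∈ A)).card : ℝ)) (fun i _ => by positivity)
      (Finset.mem_range.2 (by omega))
  refine le_trans ?_ h1
  have h2 : (1 : ℝ) ≤ (((P k).filter (fun p => p ∈ A)).card : ℝ) := by
    exact_mod_cast Finset.card_pos.2 ⟨p, Finset.mem_filter.2 ⟨hp, hpA⟩⟩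
  have h3 : 0 ≤ v ^ k / ((P k).card : ℝ) := by positivity
  nlinarith

theorem mass_le (hv0 : 0 ≤ v) (hv1 : v < 1) (A : Set (E n)) : mass P v K A ≤ 1 / (1 - v) := by
  classical
  have h1 : mass P v K A ≤ ∑ k ∈ Finset.range (K + 1), v ^ k := by
    unfold mass
    apply Finset.sum_le_sum
    intro k _
    rcases Nat.eq_zero_or_pos (P k).card with h0 | h0
    · rw [h0]
      simp only [Nat.cast_zero, div_zero, zero_mul]
      positivity
    · have h2 : (((P k).filter (fun p => p ∈ A)).card : ℝ) ≤ (P k).card := by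
        exact_mod_cast Finset.card_filter_le _ _
      have h3 : (0 : ℝ) < (P k).card := by exact_mod_cast h0
      rw [div_mul_eq_mul_div, div_le_iff₀ h3]
      gcongr
  refine h1.trans ?_
  have h4 : 0 < 1 - v := by linarith
  rw [le_div_iff₀ h4, mul_comm, mul_neg_geom_sum]
  have : 0 ≤ v ^ (K + 1) := by positivity
  linarith

/-- The net data: `P k` is a `q^k`-net of `S ∩ closedBall x₁ ρ`, contained in it, of cardinality
at most `C v^(-k)`. -/
structure Nets (S : Set (E n)) (x₁ : E n) (ρ q v C : ℝ) (P : ℕ → Finset (E n)) : Prop where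
  sub : ∀ k, ∀ p ∈ P k, p ∈ S ∩ closedBall x₁ ρ
  cov : ∀ k, ∀ s ∈ S ∩ closedBall x₁ ρ, ∃ p ∈ P k, dist s p ≤ q ^ k
  card : ∀ k, ((P k).card : ℝ) * v ^ k ≤ C

variable {S : Set (E n)} {x₁ : E n} {ρ q C : ℝ}

theorem mass_ball_ge (h : Nets S x₁ ρ q v C P) (hv0 : 0 < v) {s : E n}
    (hs : s ∈ S ∩ closedBall x₁ ρ) {k : ℕ} (hk : k ≤ K) {r : ℝ} (hr : q ^ k ≤ r) :
    0 < C ∧ v ^ (2 * k) / C ≤ mass P v K (closedBall s r) := by
  obtain ⟨p, hp, hd⟩ := h.cov k s hs
  have h1 := mass_ge (P := P) (v := v) (K := K) hv0.le (A := closedBall s r) hk hp (by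
    rw [mem_closedBall, dist_comm]; exact hd.trans hr)
  have h2 : (0 : ℝ) < (P k).card := by exact_mod_cast Finset.card_pos.2 ⟨p, hp⟩
  have h3 := h.card k
  have h4 : 0 < C := lt_of_lt_of_le (by positivity) h3
  refine ⟨h4, le_trans ?_ h1⟩
  rw [div_le_div_iff₀ h4 h2, pow_mul', sq]
  have h5 : 0 < v ^ k := by positivity
  calc v ^ k * v ^ k * ((P k).card : ℝ) = v ^ k * (((P k).card : ℝ) * v ^ k) := by ring
    _ ≤ v ^ k * C := by gcongr

/-- A level is good for `c` if the mass is concentrated near `c`. -/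
def Good (P : ℕ → Finset (E n)) (v : ℝ) (K : ℕ) (q η : ℝ) (l : ℕ) (c : E n) : Prop :=
  mass P v K (closedBall c (q ^ l / η)) ≤ 3 / 2 * mass P v K (closedBall c (η * q ^ (l + 1)))

/-- Concentration: two good points at comparable distance are close to each other. -/
theorem conc (hv0 : 0 < v) {η : ℝ} (hη0 : 0 < η) (hη1 : η ≤ 1)
    (hq0 : 0 < q) (hq1 : q ≤ 1) {c c' : E n} (hc : c ∈ P K) {j j' : ℕ} (hjj : j ≤ j')
    (hg : Good P v K q η j c) (hg' : Good P v K q η j' c')
    (hd : dist c c' + η * q ^ (j + 1) ≤ q ^ j' / η) : dist c c' ≤ 2 * η * q ^ (j + 1) := by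
  have hm := fun {A B : Set (E n)} (hAB : A ⊆ B) =>
    mass_mono (P := P) (K := K) hv0.le hAB
  have hqj : ∀ i, 0 < q ^ i := fun i => by positivity
  have hqm : q ^ (j' + 1) ≤ q ^ (j + 1) := pow_le_pow_of_le_one hq0.le hq1 (by omega)
  have hqm' : q ^ j' ≤ q ^ j := pow_le_pow_of_le_one hq0.le hq1 hjj
  have hsmall : ∀ i, η * q ^ (i + 1) ≤ q ^ i / η := by
    intro i
    rw [le_div_iff₀ hη0]
    have h1 : q ^ (i + 1) ≤ q ^ i := pow_le_pow_of_le_one hq0.le hq1 (by omega)
    have h2 := hqj i
    calc η * q ^ (i + 1) * η ≤ 1 * q ^ i * 1 := by gcongr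
      _ = q ^ i := by ring
  set b := closedBall c (η * q ^ (j + 1)) with hb
  set b' := closedBall c' (η * q ^ (j' + 1)) with hb'
  have hbB : b ⊆ closedBall c (q ^ j / η) := closedBall_subset_closedBall (hsmall j)
  have hbB' : b' ⊆ closedBall c' (q ^ j' / η) := closedBall_subset_closedBall (hsmall j')
  have hbc : b ⊆ closedBall c' (q ^ j' / η) := closedBall_subset_closedBall' (by linarith)
  have hbc' : b' ⊆ closedBall c (q ^ j / η) := by
    apply closedBall_subset_closedBall'
    rw [dist_comm c' c]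
    have h1 : η * q ^ (j' + 1) ≤ η * q ^ (j + 1) := by gcongr
    have h2 : q ^ j' / η ≤ q ^ j / η := by gcongr
    linarith
  by_cases hdis : Disjoint b b'
  · exfalso
    have h1 := mass_add (P := P) (K := K) hv0.le hbB hbc' hdis
    have h2 := mass_add (P := P) (K := K) hv0.le hbc hbB' hdis
    unfold Good at hg hg'
    have h3 : 0 < mass P v K b := by
      have h4 := mass_ge (P := P) (v := v) (K := K) hv0.le (A := b) le_rfl hc
        (mem_closedBall_self (by positivity))
      refine lt_of_lt_of_le ?_ h4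
      have h5 : (0 : ℝ) < (P K).card := by exact_mod_cast Finset.card_pos.2 ⟨c, hc⟩
      positivity
    linarith
  · rw [Set.not_disjoint_iff] at hdis
    obtain ⟨z, hz1, hz2⟩ := hdis
    have h1 := dist_triangle c z c'
    rw [dist_comm c z] at h1
    have h2 := mem_closedBall.1 hz1
    have h3 := mem_closedBall.1 hz2
    have h4 : η * q ^ (j' + 1) ≤ η * q ^ (j + 1) := by gcongr
    linarith

/-- The representatives. -/
theorem exists_reps (G : Finset (E n)) (t : ℝ) (ht : 0 ≤ t) :
    ∃ C ⊆ G, (∀ c ∈ C, ∀ c' ∈ C, c ≠ c' → t < dist c c') ∧ ∀ g ∈ G, ∃ c ∈ C, dist g c ≤ t := by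
  classical
  induction G using Finset.induction_on with
  | empty => exact ⟨∅, Finset.Subset.refl _, by simp, by simp⟩
  | insert g G _ ih =>
    obtain ⟨C, hCG, h1, h2⟩ := ih
    by_cases hg : ∃ c ∈ C, dist g c ≤ t
    · refine ⟨C, hCG.trans (Finset.subset_insert _ _), h1, ?_⟩
      intro g' hg'
      rcases Finset.mem_insert.1 hg' with rfl | h
      · exact hg
      · exact h2 g' h
    · push Not at hg
      refine ⟨insert g C, Finset.insert_subset_insert _ hCG, ?_, ?_⟩
      · intro c hc c' hc' hne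
        rcases Finset.mem_insert.1 hc with h3 | h3
        · rcases Finset.mem_insert.1 hc' with h4 | h4
          · exact absurd (h3.trans h4.symm) hne
          · rw [h3]; exact hg c' h4
        · rcases Finset.mem_insert.1 hc' with h4 | h4
          · rw [h4, dist_comm]; exact hg c h3
          · exact h1 c h3 c' h4 hne
      · intro g' hg'
        rcases Finset.mem_insert.1 hg' with h | h
        · exact ⟨g, Finset.mem_insert_self _ _, by rw [h, dist_self]; exact ht⟩
        · obtain ⟨c, hc, hd⟩ := h2 g' h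
          exact ⟨c, Finset.mem_insert_of_mem hc, hd⟩

end Pool.Agent.TreeS
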