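import Pool.Agent.TreeS.Shell

/-!
# Families of shells: definitions and the telescoping inequality
-/

set_option autoImplicit false

open MeasureTheory Set Metric Filter Topology
open scoped ENNReal

namespace Pool.Agent.TreeS

open Pool.Agent.RayM

variable {n : ℕ}

/-- The depth of `x` in the first `N` shells. -/
noncomputable def depth (a : ℕ → E n) (r R : ℕ → ℝ) (N : ℕ) (x : E n) : ℝ :=
  ∑ i ∈ Finset.range N, dep (a i) (r i) (R i) x

/-- A nested family of shells in `U`: for `i < j` the ball `j` is disjoint from the ball `i` or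
lies in the inner ball of the shell `i`. -/
structure Nested (U : Set (E n)) (a : ℕ → E n) (r R : ℕ → ℝ) : Prop where
  pos : ∀ i, 0 < r i
  sub : ∀ i, ball (a i) (R i) ⊆ U
  nest : ∀ i j, i < j → Disjoint (ball (a i) (R i)) (ball (a j) (R j)) ∨
    ball (a j) (R j) ⊆ closedBall (a i) (r i)

variable {U : Set (E n)} {a : ℕ → E n} {r R : ℕ → ℝ}

theorem depth_nonneg (N : ℕ) (x : E n) : 0 ≤ depth a r R N x :=
  Finset.sum_nonneg (fun _ _ => dep_nonneg _ _ _ x)

theorem depth_succ (N : ℕ) (x : E n) :
    depth a r R (N + 1) x = depth a r R N x + dep (a N) (r N) (R N) x :=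
  Finset.sum_range_succ _ _

theorem depth_mono (x : E n) : Monotone (fun N => depth a r R N x) := by
  apply monotone_nat_of_le_succ
  intro N
  rw [depth_succ]
  linarith [dep_nonneg (a N) (r N) (R N) x]

theorem measurable_depth (N : ℕ) : Measurable (depth a r R N) := by
  unfold depth
  exact Finset.measurable_fun_sum _ (fun i _ => measurable_dep _ _ _)

theorem dep_le_log {a : E n} {r R : ℝ} (hr : 0 < r) (x : E n) :
    dep a r R x ≤ Real.log (max 1 (R / r)) := by
  unfold dep
  apply Real.log_le_log (by positivity)
  rcases le_or_gt R 0 with hR | hR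
  · have h1 : R / max r (dist x a) ≤ 0 :=
      div_nonpos_of_nonpos_of_nonneg hR (le_max_of_le_left hr.le)
    rw [max_eq_left (by linarith)]
    exact le_max_left _ _
  · apply max_le_max le_rfl
    exact div_le_div_of_nonneg_left hR.le hr (le_max_left _ _)

theorem depth_le (h : Nested U a r R) (N : ℕ) :
    ∃ D : ℝ, ∀ x, depth a r R N x ≤ D :=
  ⟨∑ i ∈ Finset.range N, Real.log (max 1 (R i / r i)), fun x =>
    Finset.sum_le_sum (fun i _ => dep_le_log (h.pos i) x)⟩

/-- The depth of the earlier shells is constant on a ball of the family. -/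
theorem depth_const (h : Nested U a r R) (N : ℕ) {x y : E n}
    (hx : x ∈ ball (a N) (R N)) (hy : y ∈ ball (a N) (R N)) :
    depth a r R N x = depth a r R N y := by
  unfold depth
  apply Finset.sum_congr rfl
  intro i hi
  rw [Finset.mem_range] at hi
  rcases h.nest i N hi with hd | hs
  · have h1 : ∀ z ∈ ball (a N) (R N), R i ≤ dist z (a i) := by
      intro z hz
      by_contra hcon
      exact (Set.disjoint_left.1 hd) (show z ∈ ball (a i) (R i) from not_le.1 hcon) hz
    rw [dep_of_ge (h.pos i) (h1 x hx), dep_of_ge (h.pos i) (h1 y hy)]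
  · rw [dep_of_inner (hs hx), dep_of_inner (hs hy)]

/-- On the shell `k` no later shell contributes. -/
theorem depth_of_sh (h : Nested U a r R) {k N : ℕ} (hkN : k < N) {x : E n}
    (hx : x ∈ sh (a k) (r k) (R k)) : depth a r R N x = depth a r R (k + 1) x := by
  induction N, hkN using Nat.le_induction with
  | base => rfl
  | succ N hN ih =>
    rw [depth_succ, ih]
    have hkN' : k < N := hN
    have h1 : R N ≤ dist x (a N) := by
      by_contra hcon
      have hxN : x ∈ ball (a N) (R N) := not_le.1 hcon
      rcases h.nest k N hkN' with hd | hs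
      · exact (Set.disjoint_left.1 hd) (show x ∈ ball (a k) (R k) from hx.2) hxN
      · exact absurd (mem_closedBall.1 (hs hxN)) (not_le.2 hx.1)
    rw [dep_of_ge (h.pos N) h1, add_zero]

theorem depth_le_of_sh (h : Nested U a r R) {k : ℕ} (N : ℕ) {x : E n}
    (hx : x ∈ sh (a k) (r k) (R k)) : depth a r R N x ≤ depth a r R (k + 1) x := by
  rcases lt_or_ge k N with hk | hk
  · exact (depth_of_sh h hk hx).le
  · exact depth_mono x (by omega)

theorem sh_disjoint (h : Nested U a r R) {i j : ℕ} (hij : i < j) :
    Disjoint (sh (a i) (r i) (R i)) (sh (a j) (r j) (R j)) := by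
  rw [Set.disjoint_left]
  intro x hx hx'
  rcases h.nest i j hij with hd | hs
  · exact (Set.disjoint_left.1 hd) (show x ∈ ball (a i) (R i) from hx.2)
      (show x ∈ ball (a j) (R j) from hx'.2)
  · exact absurd (mem_closedBall.1 (hs (show x ∈ ball (a j) (R j) from hx'.2))) (not_le.2 hx.1)

theorem sh_pairwise (h : Nested U a r R) (s : Set ℕ) :
    s.PairwiseDisjoint (fun i => sh (a i) (r i) (R i)) := by
  intro i _ j _ hij
  rcases lt_or_gt_of_ne hij with h1 | h1
  · exact sh_disjoint h h1
  · exact (sh_disjoint h h1).symm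

theorem sh_sub (h : Nested U a r R) (i : ℕ) : sh (a i) (r i) (R i) ⊆ U :=
  fun _ hx => h.sub i hx.2

/-- The telescoping inequality. -/
theorem telescope (hn : 2 ≤ n) {f : E n → E n} (hU : IsOpen U) (hf : Emb f U)
    (hae : ∀ᵐ x ∂((volume : Measure (E n)).restrict U), DifferentiableAt ℝ f x ∧ 0 ≤ jac f x)
    (h : Nested U a r R) (hs : ∀ i, ContDiffOn ℝ 1 f (sh (a i) (r i) (R i)))
    (hJ : ∀ i, ∀ x ∈ sh (a i) (r i) (R i), 0 < jac f x) {α : ℝ} (hα : 0 < α) (N : ℕ) :
    (n : ℝ≥0∞) * ∫⁻ x in U, ENNReal.ofReal (jac f x) *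
        ENNReal.ofReal ((1 + depth a r R N x) ^ α) ≤
      (n : ℝ≥0∞) * (∫⁻ x in U, ENNReal.ofReal (jac f x)) +
      ∑ k ∈ Finset.range N, ∫⁻ x in sh (a k) (r k) (R k),
        ENNReal.ofReal (α * (1 + depth a r R (k + 1) x) ^ (α - 1)) *
          ENNReal.ofReal (‖fderiv ℝ f x‖ ^ n) := by
  induction N with
  | zero => simp [depth]
  | succ N ih =>
    rw [Finset.sum_range_succ]
    have hmJ : Measurable (fun x : E n => ENNReal.ofReal (jac f x)) :=
      (measurable_jac f).ennreal_ofReal
    have hmd := measurable_depth (a := a) (r := r) (R := R) N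
    have hmd' := measurable_depth (a := a) (r := r) (R := R) (N + 1)
    set br : E n → ℝ := fun x => (1 + depth a r R (N + 1) x) ^ α - (1 + depth a r R N x) ^ α
      with hbr
    have hbr0 : ∀ x, 0 ≤ br x := by
      intro x
      have h1 := depth_nonneg (a := a) (r := r) (R := R) N x
      have h2 : depth a r R N x ≤ depth a r R (N + 1) x := depth_mono x (Nat.le_succ N)
      have h3 : (1 + depth a r R N x) ^ α ≤ (1 + depth a r R (N + 1) x) ^ α :=
        Real.rpow_le_rpow (by linarith) (by linarith) hα.le
      change 0 ≤ (1 + depth a r R (N + 1) x) ^ α - (1 + depth a r R N x) ^ α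
      linarith
    have hbrm : Measurable br := by
      exact ((hmd'.const_add 1).pow_const α).sub ((hmd.const_add 1).pow_const α)
    have e1 : ∫⁻ x in U, ENNReal.ofReal (jac f x) *
        ENNReal.ofReal ((1 + depth a r R (N + 1) x) ^ α) =
        (∫⁻ x in U, ENNReal.ofReal (jac f x) * ENNReal.ofReal ((1 + depth a r R N x) ^ α)) +
        ∫⁻ x in U, ENNReal.ofReal (jac f x) * ENNReal.ofReal (br x) := by
      have hm1 : Measurable (fun x : E n => ENNReal.ofReal (jac f x) *
          ENNReal.ofReal ((1 + depth a r R N x) ^ α)) :=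
        hmJ.mul ((hmd.const_add 1).pow_const α).ennreal_ofReal
      rw [← lintegral_add_left hm1]
      apply lintegral_congr
      intro x
      rw [← mul_add, ← ENNReal.ofReal_add (by
        have := depth_nonneg (a := a) (r := r) (R := R) N x
        positivity) (hbr0 x)]
      congr 2
      rw [hbr]
      ring
    have hbrz : ∀ x, x ∉ ball (a N) (R N) → br x = 0 := by
      intro x hx
      have h1 : R N ≤ dist x (a N) := not_lt.1 hx
      have h2 : depth a r R (N + 1) x = depth a r R N x := by
        rw [depth_succ, dep_of_ge (h.pos N) h1, add_zero]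
      rw [hbr]
      simp only
      rw [h2, sub_self]
    have e2 : ∫⁻ x in U, ENNReal.ofReal (jac f x) * ENNReal.ofReal (br x) =
        ∫⁻ x in ball (a N) (R N), ENNReal.ofReal (jac f x) * ENNReal.ofReal (br x) := by
      rw [← lintegral_indicator hU.measurableSet, ← lintegral_indicator measurableSet_ball]
      apply lintegral_congr
      intro x
      by_cases hx : x ∈ ball (a N) (R N)
      · rw [indicator_of_mem hx, indicator_of_mem (h.sub N hx)]
      · rw [indicator_of_notMem hx]
        by_cases hxU : x ∈ U
        · rw [indicator_of_mem hxU, hbrz x hx, ENNReal.ofReal_zero, mul_zero]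
        · rw [indicator_of_notMem hxU]
    have e3 : (n : ℝ≥0∞) * ∫⁻ x in ball (a N) (R N), ENNReal.ofReal (jac f x) *
        ENNReal.ofReal (br x) ≤ ∫⁻ x in sh (a N) (r N) (R N),
        ENNReal.ofReal (α * (1 + depth a r R (N + 1) x) ^ (α - 1)) *
          ENNReal.ofReal (‖fderiv ℝ f x‖ ^ n) := by
      rcases le_or_gt (R N) (r N) with hle | hlt
      · have h1 : ∀ x ∈ ball (a N) (R N), ENNReal.ofReal (jac f x) * ENNReal.ofReal (br x) = 0 := by
          intro x hx
          have h2 : dist x (a N) ≤ r N := (mem_ball.1 hx).le.trans hle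
          have h3 : depth a r R (N + 1) x = depth a r R N x := by
            rw [depth_succ, dep_of_inner h2, max_eq_left (by
              rw [div_le_one (h.pos N)]; exact hle), Real.log_one, add_zero]
          have h4 : br x = 0 := by
            rw [hbr]
            simp only
            rw [h3, sub_self]
          rw [h4, ENNReal.ofReal_zero, mul_zero]
        rw [setLIntegral_congr_fun measurableSet_ball h1]
        simp
      · have hR0 : 0 < R N := (h.pos N).trans hlt
        have hcen : a N ∈ ball (a N) (R N) := mem_ball_self hR0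
        have hc : ∀ x ∈ ball (a N) (R N), depth a r R N x = depth a r R N (a N) :=
          fun x hx => depth_const h N hx hcen
        set c := 1 + depth a r R N (a N) with hcdef
        have hc1 : 1 ≤ c := by
          have := depth_nonneg (a := a) (r := r) (R := R) N (a N)
          linarith
        have key := shell hn (h.pos N) hlt (hf.mono (h.sub N))
          (ae_restrict_of_ae_restrict_of_subset (h.sub N) hae) (hs N) (hJ N) hα hc1
        have h5 : ∀ x ∈ ball (a N) (R N), 1 + depth a r R (N + 1) x =
            c + dep (a N) (r N) (R N) x := by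
          intro x hx
          rw [depth_succ, hc x hx, hcdef]
          ring
        calc (n : ℝ≥0∞) * ∫⁻ x in ball (a N) (R N), ENNReal.ofReal (jac f x) *
              ENNReal.ofReal (br x)
            = (n : ℝ≥0∞) * ∫⁻ x in ball (a N) (R N), ENNReal.ofReal (jac f x) *
                ENNReal.ofReal ((c + dep (a N) (r N) (R N) x) ^ α - c ^ α) := by
              congr 1
              apply setLIntegral_congr_fun measurableSet_ball
              intro x hx
              simp only [hbr]
              rw [h5 x hx, hc x hx]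
          _ ≤ _ := key
          _ = _ := by
              apply setLIntegral_congr_fun (isOpen_sh _ _ _).measurableSet
              intro x hx
              simp only
              rw [h5 x hx.2]
    rw [e1, e2, mul_add]
    calc _ ≤ ((n : ℝ≥0∞) * (∫⁻ x in U, ENNReal.ofReal (jac f x)) +
        ∑ k ∈ Finset.range N, ∫⁻ x in sh (a k) (r k) (R k),
          ENNReal.ofReal (α * (1 + depth a r R (k + 1) x) ^ (α - 1)) *
            ENNReal.ofReal (‖fderiv ℝ f x‖ ^ n)) + ∫⁻ x in sh (a N) (r N) (R N),
        ENNReal.ofReal (α * (1 + depth a r R (N + 1) x) ^ (α - 1)) *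
          ENNReal.ofReal (‖fderiv ℝ f x‖ ^ n) := add_le_add ih e3
      _ = _ := by rw [add_assoc]

end Pool.Agent.TreeS
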