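import Pool.Agent.TreeS.Asd1
import Pool.Agent.TreeS.Tree

/-!
# The nested family of clean cells
-/

set_option autoImplicit false

open MeasureTheory Set Metric Filter Topology
open scoped ENNReal

namespace Pool.Agent.TreeS

open Pool.Agent.RayM

variable {n : ℕ} {P : ℕ → Finset (E n)} {v : ℝ} {K : ℕ} {S : Set (E n)} {q : ℝ}

/-- The level `l` is clean for `c`: no point of `S` has its distance to `c` between `q^(l+2)` and
`q^(l-1)`. -/
def Clean (S : Set (E n)) (q : ℝ) (l : ℕ) (c : E n) : Prop :=
  ∀ s ∈ S, ¬ (q ^ (l + 2) < dist s c ∧ q * dist s c < q ^ l)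

/-- Two cells are nested. -/
theorem nest_pair (hv0 : 0 < v) {η : ℝ} (hη0 : 0 < η) (hη1 : 8 * η ≤ 1 - q)
    (hq0 : 1 / 2 ≤ q) (hq1 : q < 1) {c c' : E n} (hc : c ∈ P K) (hc'S : c' ∈ S) {j j' : ℕ}
    (hg : Good P v K q η j c) (hg' : Good P v K q η j' c') (hcl : Clean S q j c)
    (hjj : j < j' ∨ (j = j' ∧ 2 * η * q ^ (j + 1) < dist c c')) :
    Disjoint (ball c (q ^ j)) (ball c' (q ^ j')) ∨
      ball c' (q ^ j') ⊆ closedBall c ((1 + 2 * η) * q ^ (j + 1)) := by
  have hq00 : 0 < q := by linarith
  have hqj : 0 < q ^ j := by positivity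
  have hle : j ≤ j' := by rcases hjj with h | h <;> omega
  have hqm : q ^ j' ≤ q ^ j := pow_le_pow_of_le_one hq00.le hq1.le hle
  have e1 : q ^ (j + 1) = q * q ^ j := pow_succ' q j
  have e2 : q ^ (j + 2) = q * (q * q ^ j) := by rw [← pow_succ', ← pow_succ']
  by_cases hnear : dist c c' + η * q ^ (j + 1) ≤ q ^ j' / η
  · have h1 := conc hv0 hη0 (by linarith) hq00 hq1.le hc hle hg hg' hnear
    rcases hjj with h | h
    · right
      apply closedBall_subset_closedBall' _ |>.trans' ball_subset_closedBall
      rw [dist_comm]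
      have h2 : q ^ j' ≤ q ^ (j + 1) := pow_le_pow_of_le_one hq00.le hq1.le h
      linarith
    · exact absurd h1 (not_le.2 h.2)
  · push Not at hnear
    rcases le_or_gt (q ^ j + q ^ j') (dist c c') with h1 | h1
    · left
      exact ball_disjoint_ball h1
    · have h2 : q ^ j' < η * (dist c c' + η * q ^ (j + 1)) := by
        rw [div_lt_iff₀ hη0] at hnear
        linarith
      have h3 : q ^ j' ≤ 3 * η * q ^ j := by
        have h4 : dist c c' + η * q ^ (j + 1) ≤ 3 * q ^ j := by
          rw [e1]
          have h5 : η * (q * q ^ j) ≤ 1 * (1 * q ^ j) := by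
            gcongr
            linarith
          linarith
        have h6 : η * (dist c c' + η * q ^ (j + 1)) ≤ η * (3 * q ^ j) := by gcongr
        linarith
      rcases hjj with h | h
      · have h5 := hcl c' hc'S
        rw [not_and_or, not_lt, not_lt, dist_comm c' c] at h5
        rcases h5 with h5 | h5
        · right
          apply closedBall_subset_closedBall' _ |>.trans' ball_subset_closedBall
          rw [dist_comm]
          have h6 : 3 * η * q ^ j + q * (q * q ^ j) ≤ (1 + 2 * η) * (q * q ^ j) := by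
            have h7 : 3 * η ≤ q * (1 - q) := by nlinarith
            have h8 : 3 * η * q ^ j ≤ q * (1 - q) * q ^ j := by gcongr
            have h9 : 0 ≤ 2 * η * (q * q ^ j) := by positivity
            nlinarith
          rw [e2] at h5
          rw [e1]
          linarith
        · exfalso
          have h6 : q ^ j * (1 + 8 * η) ≤ dist c c' := by
            have h7 : q ^ j * (1 + (1 - q)) ≤ dist c c' := by
              have h8 : q * (q ^ j * (1 + (1 - q))) ≤ q * dist c c' := by
                refine le_trans ?_ h5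
                have h9 : q * (1 + (1 - q)) ≤ 1 := by nlinarith [sq_nonneg (1 - q)]
                calc q * (q ^ j * (1 + (1 - q))) = q * (1 + (1 - q)) * q ^ j := by ring
                  _ ≤ 1 * q ^ j := by gcongr
                  _ = q ^ j := one_mul _
              exact le_of_mul_le_mul_left h8 hq00
            refine le_trans ?_ h7
            gcongr
          have h7 : 3 * η * q ^ j < 8 * η * q ^ j := by
            apply mul_lt_mul_of_pos_right _ hqj
            linarith
          nlinarith
      · exfalso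
        rw [← h.1] at h3
        have h7 : 3 * η < 1 := by linarith
        nlinarith

theorem sum_getElem {α : Type*} (L : List α) (g : α → ℝ) (G : ℕ → ℝ)
    (hG : ∀ i (hi : i < L.length), G i = g L[i]) :
    ∑ i ∈ Finset.range L.length, G i = (L.map g).sum := by
  induction L generalizing G with
  | nil => simp
  | cons a L ih =>
    rw [List.length_cons, Finset.sum_range_succ', List.map_cons, List.sum_cons,
      ih (fun i => G (i + 1)) (fun i hi => by
        have := hG (i + 1) (by rw [List.length_cons]; omega)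
        rw [this]
        rfl), add_comm]
    congr 1
    exact hG 0 (by rw [List.length_cons]; omega)

/-- A finite family of cells, nested in the order of the levels, gives a nested sequence. -/
theorem exists_seq {U : Set (E n)} {F : Finset (E n × ℕ)} (rr RR : ℕ → ℝ) (a₀ : E n)
    (hpos : ∀ l, 0 < rr l) (hsub : ∀ p ∈ F, ball p.1 (RR p.2) ⊆ U)
    (hnest : ∀ p ∈ F, ∀ p' ∈ F, p ≠ p' → p.2 ≤ p'.2 →
      Disjoint (ball p.1 (RR p.2)) (ball p'.1 (RR p'.2)) ∨
        ball p'.1 (RR p'.2) ⊆ closedBall p.1 (rr p.2)) :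
    ∃ (a : ℕ → E n) (r R : ℕ → ℝ) (N : ℕ), Nested U a r R ∧
      (∀ i, (∃ p ∈ F, a i = p.1 ∧ r i = rr p.2 ∧ R i = RR p.2) ∨ (a i = a₀ ∧ R i = 0)) ∧
      ∀ x, depth a r R N x = ∑ p ∈ F, dep p.1 (rr p.2) (RR p.2) x := by
  classical
  set L := F.toList.insertionSort (fun p p' => p.2 ≤ p'.2) with hL
  have hperm : L.Perm F.toList := List.perm_insertionSort _ _
  have : Std.Total (fun p p' : E n × ℕ => p.2 ≤ p'.2) := ⟨fun a b => le_total _ _⟩
  have : IsTrans (E n × ℕ) (fun p p' : E n × ℕ => p.2 ≤ p'.2) := ⟨fun a b c => le_trans⟩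
  have hsort : L.Pairwise (fun p p' => p.2 ≤ p'.2) := List.pairwise_insertionSort _ _
  have hnd : L.Nodup := hperm.nodup_iff.2 F.nodup_toList
  have hmem : ∀ p, p ∈ L ↔ p ∈ F := fun p => by rw [hperm.mem_iff, Finset.mem_toList]
  set a : ℕ → E n := fun i => if h : i < L.length then L[i].1 else a₀ with ha
  set r : ℕ → ℝ := fun i => if h : i < L.length then rr L[i].2 else 1 with hr
  set R : ℕ → ℝ := fun i => if h : i < L.length then RR L[i].2 else 0 with hR
  have ha1 : ∀ i (h : i < L.length), a i = L[i].1 := fun i h => by rw [ha]; exact dif_pos h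
  have hr1 : ∀ i (h : i < L.length), r i = rr L[i].2 := fun i h => by rw [hr]; exact dif_pos h
  have hR1 : ∀ i (h : i < L.length), R i = RR L[i].2 := fun i h => by rw [hR]; exact dif_pos h
  have hR0 : ∀ i, ¬ i < L.length → R i = 0 := fun i h => by rw [hR]; exact dif_neg h
  have ha0 : ∀ i, ¬ i < L.length → a i = a₀ := fun i h => by rw [ha]; exact dif_neg h
  have hin : ∀ i (h : i < L.length), L[i] ∈ F := fun i h => (hmem _).1 (List.getElem_mem h)
  refine ⟨a, r, R, L.length, ⟨?_, ?_, ?_⟩, ?_, ?_⟩
  · intro i
    by_cases h : i < L.length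
    · rw [hr1 i h]; exact hpos _
    · rw [show r i = 1 by rw [hr]; exact dif_neg h]; exact one_pos
  · intro i
    by_cases h : i < L.length
    · rw [ha1 i h, hR1 i h]; exact hsub _ (hin i h)
    · rw [hR0 i h, ball_zero]; exact empty_subset _
  · intro i k hik
    by_cases hk : k < L.length
    · have hi : i < L.length := hik.trans hk
      rw [ha1 i hi, hR1 i hi, hr1 i hi, ha1 k hk, hR1 k hk]
      apply hnest _ (hin i hi) _ (hin k hk)
      · intro heq
        have := (List.Nodup.getElem_inj_iff hnd).1 heq
        omega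
      · exact (List.pairwise_iff_getElem.1 hsort) i k hi hk hik
    · left
      rw [hR0 k hk, ball_zero]
      exact disjoint_empty _
  · intro i
    by_cases h : i < L.length
    · left
      exact ⟨L[i], hin i h, ha1 i h, hr1 i h, hR1 i h⟩
    · right
      exact ⟨ha0 i h, hR0 i h⟩
  · intro x
    unfold depth
    rw [sum_getElem L (fun p => dep p.1 (rr p.2) (RR p.2) x) _ (fun i hi => by
      rw [ha1 i hi, hr1 i hi, hR1 i hi]), (hperm.map _).sum_eq, Finset.sum_map_toList]

end Pool.Agent.TreeS
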