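import Pool.Agent.TreeS.Asd2

/-!
# Counting bad and unclean levels
-/

set_option autoImplicit false

open MeasureTheory Set Metric Filter Topology
open scoped ENNReal

namespace Pool.Agent.TreeS

open Pool.Agent.RayM

variable {n : ℕ} {P : ℕ → Finset (E n)} {v : ℝ} {K : ℕ} {S : Set (E n)} {q : ℝ}
  {x₁ : E n} {ρ C : ℝ}

open Classical in
/-- The number of bad levels. -/
theorem bad_count (h : Nets S x₁ ρ q v C P) (hv0 : 0 < v) (hv1 : v < 1) {η : ℝ}
    (hη0 : 0 < η) (hη1 : η ≤ 1) (hq0 : 0 < q) (hq1 : q < 1) {g₂ : ℕ}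
    (hg₂ : q ^ g₂ ≤ η ^ 2 * q) {p : E n} (hp : p ∈ S ∩ closedBall x₁ ρ) {L : ℕ}
    (hL : L + g₂ ≤ K) :
    (((Finset.range L).filter (fun l => ¬ Good P v K q η l p)).card : ℝ) * Real.log (3 / 2) ≤
      g₂ * (Real.log (1 / (1 - v)) + Real.log C + 2 * (L + g₂) * Real.log (1 / v)) := by
  set μ : ℕ → ℝ := fun l => mass P v K (closedBall p (q ^ l / η)) with hμ
  have hC0 : 0 < C := (mass_ball_ge (K := K) h hv0 hp (k := 0) (by omega) (le_refl (q ^ 0))).1
  have hμlow : ∀ l, l ≤ K → v ^ (2 * l) / C ≤ μ l := by
    intro l hl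
    refine (mass_ball_ge h hv0 hp hl ?_).2
    rw [le_div_iff₀ hη0]
    have : 0 < q ^ l := by positivity
    nlinarith
  have hμpos : ∀ l, l ≤ K → 0 < μ l := fun l hl => lt_of_lt_of_le (by positivity) (hμlow l hl)
  have hμle : ∀ l, μ l ≤ 1 / (1 - v) := fun l => mass_le hv0.le hv1 _
  set Φ : ℕ → ℝ := fun L => ∑ i ∈ Finset.range g₂, Real.log (μ (L + i)) with hΦ
  have hstep : ∀ L, Φ L - Φ (L + 1) = Real.log (μ L) - Real.log (μ (L + g₂)) := by
    intro L
    have h1 : ∑ i ∈ Finset.range (g₂ + 1), Real.log (μ (L + i)) =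
        Φ L + Real.log (μ (L + g₂)) := Finset.sum_range_succ _ _
    have h2 : ∑ i ∈ Finset.range (g₂ + 1), Real.log (μ (L + i)) =
        Φ (L + 1) + Real.log (μ L) := by
      rw [Finset.sum_range_succ', hΦ]
      simp only [add_zero]
      congr 1
      apply Finset.sum_congr rfl
      intro i _
      rw [show L + (i + 1) = L + 1 + i by ring]
    linarith
  have hind : ∀ L, L + g₂ ≤ K →
      (((Finset.range L).filter (fun l => ¬ Good P v K q η l p)).card : ℝ) * Real.log (3 / 2) ≤
        Φ 0 - Φ L := by
    intro L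
    induction L with
    | zero => intro _; simp
    | succ L ih =>
      intro hLK
      have h1 := ih (by omega)
      have h2 := hstep L
      have hmon : q ^ (L + g₂) / η ≤ η * q ^ (L + 1) := by
        rw [div_le_iff₀ hη0, pow_add, pow_succ]
        have : 0 < q ^ L := by positivity
        calc q ^ L * q ^ g₂ ≤ q ^ L * (η ^ 2 * q) := by gcongr
          _ = _ := by ring
      have h3 : μ (L + g₂) ≤ mass P v K (closedBall p (η * q ^ (L + 1))) :=
        mass_mono hv0.le (closedBall_subset_closedBall hmon)
      have hp1 := hμpos (L + g₂) (by omega)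
      have hp2 := hμpos L (by omega)
      rw [Finset.range_add_one, Finset.filter_insert]
      by_cases hb : Good P v K q η L p
      · rw [if_neg (not_not.2 hb)]
        have h4 : μ (L + g₂) ≤ μ L := by
          refine h3.trans (mass_mono hv0.le (closedBall_subset_closedBall ?_))
          rw [le_div_iff₀ hη0]
          have h5 : q ^ (L + 1) ≤ q ^ L := pow_le_pow_of_le_one hq0.le hq1.le (by omega)
          have h6 : 0 < q ^ (L + 1) := by positivity
          calc η * q ^ (L + 1) * η = (η * η) * q ^ (L + 1) := by ring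
            _ ≤ (1 * 1) * q ^ (L + 1) := by gcongr
            _ ≤ q ^ L := by linarith
        have h5 : Real.log (μ (L + g₂)) ≤ Real.log (μ L) := Real.log_le_log hp1 h4
        linarith
      · rw [if_pos hb, Finset.card_insert_of_notMem (by simp)]
        push_cast
        have h4 : 3 / 2 * μ (L + g₂) ≤ μ L := by
          unfold Good at hb
          push Not at hb
          have : 3 / 2 * μ (L + g₂) ≤ 3 / 2 * mass P v K (closedBall p (η * q ^ (L + 1))) := by
            gcongr
          exact this.trans hb.le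
        have h5 : Real.log (3 / 2) + Real.log (μ (L + g₂)) ≤ Real.log (μ L) := by
          rw [← Real.log_mul (by norm_num) hp1.ne']
          exact Real.log_le_log (by positivity) h4
        linarith
  refine (hind L hL).trans ?_
  have h1 : Φ 0 ≤ g₂ * Real.log (1 / (1 - v)) := by
    rw [hΦ]
    calc ∑ i ∈ Finset.range g₂, Real.log (μ (0 + i)) ≤
          ∑ i ∈ Finset.range g₂, Real.log (1 / (1 - v)) := by
          apply Finset.sum_le_sum
          intro i hi
          rw [Finset.mem_range] at hi
          exact Real.log_le_log (hμpos _ (by omega)) (hμle _)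
      _ = _ := by rw [Finset.sum_const, Finset.card_range, nsmul_eq_mul]
  have hlv : 0 ≤ Real.log (1 / v) := Real.log_nonneg (by rw [le_div_iff₀ hv0]; linarith)
  have h2 : -(g₂ * (Real.log C + 2 * (L + g₂) * Real.log (1 / v))) ≤ Φ L := by
    rw [hΦ]
    calc -(g₂ * (Real.log C + 2 * (L + g₂) * Real.log (1 / v))) =
          ∑ i ∈ Finset.range g₂, -(Real.log C + 2 * (L + g₂) * Real.log (1 / v)) := by
          rw [Finset.sum_const, Finset.card_range, nsmul_eq_mul]
          ring
      _ ≤ ∑ i ∈ Finset.range g₂, Real.log (μ (L + i)) := by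
          apply Finset.sum_le_sum
          intro i hi
          rw [Finset.mem_range] at hi
          have h3 := hμlow (L + i) (by omega)
          have h4 : Real.log (v ^ (2 * (L + i)) / C) ≤ Real.log (μ (L + i)) :=
            Real.log_le_log (by positivity) h3
          rw [Real.log_div (by positivity) hC0.ne', Real.log_pow] at h4
          refine le_trans ?_ h4
          rw [one_div, Real.log_inv] at hlv ⊢
          have h5 : ((2 * (L + i) : ℕ) : ℝ) ≤ 2 * (L + g₂) := by
            push_cast
            have : (i : ℝ) ≤ g₂ := by exact_mod_cast hi.le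
            linarith
          nlinarith
      _ = _ := rfl
  linarith

/-- The annulus around `p` at level `l` contains no point of `S`. -/
def Free (S : Set (E n)) (q : ℝ) (l : ℕ) (p : E n) : Prop :=
  ∀ s ∈ S, ¬ (q ^ (l + 3) < dist s p ∧ q ^ 2 * dist s p < q ^ l)

open Classical in
/-- The number of unclean levels in a group. -/
theorem group_count (hq0 : 0 < q) (hq1 : q < 1) {p : E n} {i g : ℕ} {F : Finset (E n)}
    (hF : S ∩ closedBall p (q ^ (i * g) / q ^ 2) ⊆
      ⋃ y ∈ F, closedBall y ((1 - q) * q ^ ((i + 1) * g + 3) / 4)) :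
    ((Finset.Ico (i * g) ((i + 1) * g)).filter (fun l => ¬ Free S q l p)).card ≤
      F.card * 6 := by
  set A := (Finset.Ico (i * g) ((i + 1) * g)).filter (fun l => ¬ Free S q l p) with hA
  have hch : ∀ l : ℕ, ∃ (s y : E n), l ∈ A → s ∈ S ∧ q ^ (l + 3) < dist s p ∧
      q ^ 2 * dist s p < q ^ l ∧ y ∈ F ∧
      dist s y ≤ (1 - q) * q ^ ((i + 1) * g + 3) / 4 := by
    intro l
    by_cases hl : l ∈ A
    · have h1 := (Finset.mem_filter.1 hl).2
      have h2 := Finset.mem_Ico.1 (Finset.mem_filter.1 hl).1
      unfold Free at h1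
      push Not at h1
      obtain ⟨s, hs, h3, h4⟩ := h1
      have h5 : s ∈ S ∩ closedBall p (q ^ (i * g) / q ^ 2) := by
        refine ⟨hs, ?_⟩
        rw [mem_closedBall, le_div_iff₀ (by positivity), mul_comm]
        exact h4.le.trans (pow_le_pow_of_le_one hq0.le hq1.le h2.1)
      have h6 := hF h5
      rw [mem_iUnion₂] at h6
      obtain ⟨y, hy, h7⟩ := h6
      exact ⟨s, y, fun _ => ⟨hs, h3, h4, hy, h7⟩⟩
    · exact ⟨p, p, fun h => absurd h hl⟩
  choose s y hsy using hch
  have hcard : A.card ≤ (F ×ˢ Finset.range 6).card := by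
    apply Finset.card_le_card_of_injOn (fun l => (y l, l % 6))
    · intro l hl
      simp only [Finset.coe_product, Set.mem_prod, Finset.mem_coe, Finset.mem_range]
      exact ⟨(hsy l hl).2.2.2.1, Nat.mod_lt _ (by norm_num)⟩
    · have key : ∀ l ∈ A, ∀ l' ∈ A, l < l' → y l = y l' → l % 6 = l' % 6 → False := by
        intro l hl l' hl' hlt hy hmod
        obtain ⟨_, h1, _, _, h2⟩ := hsy l hl
        obtain ⟨_, _, h3, _, h4⟩ := hsy l' hl'
        have h5 := Finset.mem_Ico.1 (Finset.mem_filter.1 hl).1
        have h6 : l + 6 ≤ l' := by omega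
        have h7 : q ^ l' ≤ q ^ (l + 6) := pow_le_pow_of_le_one hq0.le hq1.le h6
        have h8 : dist (s l') p < q ^ (l + 4) := by
          have h9 : q ^ 2 * dist (s l') p < q ^ 2 * q ^ (l + 4) := by
            rw [← pow_add, show 2 + (l + 4) = l + 6 by ring]
            linarith
          exact lt_of_mul_lt_mul_left h9 (by positivity)
        have h9 : q ^ ((i + 1) * g + 3) ≤ q ^ (l + 3) :=
          pow_le_pow_of_le_one hq0.le hq1.le (by omega)
        have h10 := dist_triangle (s l) (y l) p
        have h11 := dist_triangle (y l) (s l') p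
        rw [hy, dist_comm (y l') (s l')] at h11
        rw [hy] at h10 h2
        have h12 : (1 - q) * q ^ ((i + 1) * g + 3) ≤ (1 - q) * q ^ (l + 3) :=
          mul_le_mul_of_nonneg_left h9 (by linarith)
        have h13 : q ^ (l + 4) = q * q ^ (l + 3) := by rw [← pow_succ']
        have h14 : 0 < (1 - q) * q ^ ((i + 1) * g + 3) :=
          mul_pos (by linarith) (by positivity)
        linarith
      intro l hl l' hl' heq
      simp only [Prod.mk.injEq] at heq
      rcases lt_trichotomy l l' with h1 | h1 | h1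
      · exact (key l hl l' hl' h1 heq.1 heq.2).elim
      · exact h1
      · exact (key l' hl' l hl h1 heq.1.symm heq.2.symm).elim
  rwa [Finset.card_product, Finset.card_range] at hcard

open Classical in
/-- The number of unclean levels. -/
theorem unclean_count {p : E n} {g i₀ : ℕ} (hg : 0 < g) {N₁ : ℝ} (hN : 0 ≤ N₁)
    (hgr : ∀ i, i₀ ≤ i → (((Finset.Ico (i * g) ((i + 1) * g)).filter
      (fun l => ¬ Free S q l p)).card : ℝ) ≤ N₁) (L : ℕ) :
    (((Finset.Ico (i₀ * g) L).filter (fun l => ¬ Free S q l p)).card : ℝ) ≤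
      (L / g + 1) * N₁ := by
  have hind : ∀ m, i₀ ≤ m → (((Finset.Ico (i₀ * g) (m * g)).filter
      (fun l => ¬ Free S q l p)).card : ℝ) ≤ m * N₁ := by
    intro m hm
    induction m, hm using Nat.le_induction with
    | base =>
      rw [Finset.Ico_self]
      simp only [Finset.filter_empty, Finset.card_empty, Nat.cast_zero]
      positivity
    | succ m hm ih =>
      have h1 : i₀ * g ≤ m * g := Nat.mul_le_mul_right _ hm
      have h2 : m * g ≤ (m + 1) * g := Nat.mul_le_mul_right _ (by omega)
      rw [← Finset.Ico_union_Ico_eq_Ico h1 h2, Finset.filter_union]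
      have h3 := Finset.card_union_le ((Finset.Ico (i₀ * g) (m * g)).filter
        (fun l => ¬ Free S q l p)) ((Finset.Ico (m * g) ((m + 1) * g)).filter
        (fun l => ¬ Free S q l p))
      have h4 := hgr m hm
      calc _ ≤ (((Finset.Ico (i₀ * g) (m * g)).filter (fun l => ¬ Free S q l p)).card : ℝ) +
            (((Finset.Ico (m * g) ((m + 1) * g)).filter (fun l => ¬ Free S q l p)).card : ℝ) := by
            exact_mod_cast h3
        _ ≤ m * N₁ + N₁ := add_le_add ih h4
        _ = _ := by push_cast; ring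
  rcases le_or_gt L (i₀ * g) with h1 | h1
  · rw [Finset.Ico_eq_empty (by omega)]
    simp only [Finset.filter_empty, Finset.card_empty, Nat.cast_zero]
    positivity
  · set m := L / g + 1 with hm
    have h2 : L ≤ m * g := by
      have h3 := Nat.div_add_mod L g
      have h4 := Nat.mod_lt L hg
      rw [hm, add_mul, one_mul, mul_comm]
      omega
    have h3 : i₀ ≤ m := by
      by_contra hcon
      push Not at hcon
      have : m * g ≤ i₀ * g := Nat.mul_le_mul_right _ hcon.le
      omega
    have h4 := hind m h3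
    have h5 : (((Finset.Ico (i₀ * g) L).filter (fun l => ¬ Free S q l p)).card : ℝ) ≤
        (((Finset.Ico (i₀ * g) (m * g)).filter (fun l => ¬ Free S q l p)).card : ℝ) := by
      exact_mod_cast Finset.card_le_card (Finset.filter_subset_filter _
        (Finset.Ico_subset_Ico_right h2))
    refine h5.trans (h4.trans ?_)
    apply mul_le_mul_of_nonneg_right _ hN
    rw [hm]
    push_cast
    have : ((L / g : ℕ) : ℝ) ≤ (L : ℝ) / g := Nat.cast_div_le
    linarith

end Pool.Agent.TreeS
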