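import Pool.Agent.TreeS.Asd3

/-!
# The family of clean cells with concentrated mass
-/

set_option autoImplicit false

open MeasureTheory Set Metric Filter Topology
open scoped ENNReal

namespace Pool.Agent.TreeS

open Pool.Agent.RayM

variable {n : ℕ} {P : ℕ → Finset (E n)} {v : ℝ} {K : ℕ} {S : Set (E n)} {q : ℝ}
  {x₁ : E n} {ρ C : ℝ}

open Classical in
theorem cell_family (h : Nets S x₁ ρ q v C P) (hx₁ : x₁ ∈ S) (hv0 : 0 < v) {η : ℝ}
    (hη0 : 0 < η) (hη1 : 8 * η ≤ 1 - q) (hq0 : 1 / 2 ≤ q) (hq1 : q < 1) {ε : ℝ}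
    (hηε : 2 * η ≤ ε * Real.log (1 / q)) {U : Set (E n)} {j₀ J : ℕ}
    (hU : ball x₁ (ρ + q ^ j₀) ⊆ U) :
    ∃ (a : ℕ → E n) (r R : ℕ → ℝ) (N : ℕ), Nested U a r R ∧ (∀ i, a i ∈ S) ∧
      (∀ i, Disjoint (sh (a i) (r i) (R i)) S) ∧
      (∀ i, (∃ l ≤ J, a i ∈ P K ∧ r i = (1 + 2 * η) * q ^ (l + 1) ∧ R i = q ^ l) ∨ R i = 0) ∧
      ∀ p ∈ P K, ∀ (x : E n) (t : ℝ) (L : ℕ), dist x p ≤ t → t ≤ q ^ L → L ≤ J + 1 →
        (1 - ε) * Real.log (1 / q) * (((Finset.Ico j₀ L).filter
          (fun l => Good P v K q η l p ∧ Free S q l p)).card : ℝ) ≤ depth a r R N x := by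
  have hq00 : 0 < q := by linarith
  have hre : ∀ l : ℕ, ∃ D ⊆ (P K).filter (fun p => Good P v K q η l p),
      (∀ c ∈ D, ∀ c' ∈ D, c ≠ c' → 2 * η * q ^ (l + 1) < dist c c') ∧
      ∀ g ∈ (P K).filter (fun p => Good P v K q η l p), ∃ c ∈ D,
        dist g c ≤ 2 * η * q ^ (l + 1) :=
    fun l => exists_reps _ _ (by positivity)
  choose Cl hClsub hClsep hClcov using hre
  have hClgood : ∀ l, ∀ c ∈ Cl l, c ∈ P K ∧ Good P v K q η l c := fun l c hc =>
    ⟨(Finset.mem_filter.1 (hClsub l hc)).1, (Finset.mem_filter.1 (hClsub l hc)).2⟩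
  set F : Finset (E n × ℕ) := ((P K) ×ˢ (Finset.Ico j₀ (J + 1))).filter
    (fun p => p.1 ∈ Cl p.2 ∧ Clean S q p.2 p.1) with hF
  have hFmem : ∀ c l, (c, l) ∈ F ↔ (c ∈ P K ∧ j₀ ≤ l ∧ l < J + 1) ∧ c ∈ Cl l ∧
      Clean S q l c := by
    intro c l
    rw [hF, Finset.mem_filter, Finset.mem_product, Finset.mem_Ico]
  obtain ⟨a, r, R, N, hnest, hshape, hdepth⟩ := exists_seq (U := U) (F := F)
    (fun l => (1 + 2 * η) * q ^ (l + 1)) (fun l => q ^ l) x₁ (fun l => by positivity)
    (by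
      rintro ⟨c, l⟩ hp
      rw [hFmem] at hp
      simp only
      refine Subset.trans (ball_subset_ball' ?_) hU
      have h1 : q ^ l ≤ q ^ j₀ := pow_le_pow_of_le_one hq00.le hq1.le hp.1.2.1
      have h2 := mem_closedBall.1 (h.sub K c hp.1.1).2
      linarith)
    (by
      rintro ⟨c, j⟩ hp ⟨c', j'⟩ hp' hne hle
      rw [hFmem] at hp hp'
      simp only at hle ⊢
      apply nest_pair (P := P) (K := K) (S := S) hv0 hη0 hη1 hq0 hq1 hp.1.1
        (h.sub K c' hp'.1.1).1 (hClgood j c hp.2.1).2 (hClgood j' c' hp'.2.1).2 hp.2.2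
      rcases Nat.lt_or_ge j j' with hlt | hge
      · exact Or.inl hlt
      · right
        have hjj : j = j' := le_antisymm hle hge
        refine ⟨hjj, hClsep j c hp.2.1 c' (hjj ▸ hp'.2.1) ?_⟩
        intro hcc
        apply hne
        rw [hcc, hjj])
  refine ⟨a, r, R, N, hnest, ?_, ?_, ?_, ?_⟩
  · intro i
    rcases hshape i with ⟨⟨c, l⟩, hp, h1, _, _⟩ | ⟨h1, _⟩
    · rw [hFmem] at hp
      rw [h1]
      exact (h.sub K c hp.1.1).1
    · rw [h1]; exact hx₁
  · intro i
    rcases hshape i with ⟨⟨c, l⟩, hp, h1, h2, h3⟩ | ⟨_, h3⟩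
    · rw [hFmem] at hp
      rw [Set.disjoint_left, h1, h2, h3]
      intro x hx hxS
      simp only at hx
      obtain ⟨g1, g2⟩ := hx
      apply hp.2.2 x hxS
      have e1 : q ^ (l + 1) = q * q ^ l := pow_succ' q l
      have e2 : q ^ (l + 2) = q * q ^ (l + 1) := by rw [← pow_succ']
      have hql : 0 < q ^ l := by positivity
      have hql1 : 0 < q ^ (l + 1) := by positivity
      constructor
      · rw [e2]
        have h4 : q * q ^ (l + 1) ≤ 1 * q ^ (l + 1) := by gcongr
        have h5 : 0 ≤ 2 * η * q ^ (l + 1) := by positivity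
        linarith
      · have h4 : q * dist x c ≤ 1 * dist x c := by gcongr
        linarith
    · rw [Set.disjoint_left]
      intro x hx _
      have h4 := hx.2
      rw [h3] at h4
      exact absurd h4 (not_lt.2 dist_nonneg)
  · intro i
    rcases hshape i with ⟨⟨c, l⟩, hp, h1, h2, h3⟩ | ⟨_, h3⟩
    · left
      rw [hFmem] at hp
      refine ⟨l, by omega, ?_, h2, h3⟩
      rw [h1]
      exact hp.1.1
    · exact Or.inr h3
  · intro p hp x t L hxp htL hLJ
    set G := (Finset.Ico j₀ L).filter (fun l => Good P v K q η l p ∧ Free S q l p) with hG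
    have hpS := (h.sub K p hp).1
    have hch : ∀ l : ℕ, ∃ c : E n, l ∈ G → c ∈ Cl l ∧ dist p c ≤ 2 * η * q ^ (l + 1) := by
      intro l
      by_cases hl : l ∈ G
      · obtain ⟨c, hc, hd⟩ := hClcov l p
          (Finset.mem_filter.2 ⟨hp, (Finset.mem_filter.1 hl).2.1⟩)
        exact ⟨c, fun _ => ⟨hc, hd⟩⟩
      · exact ⟨p, fun h' => absurd h' hl⟩
    choose c hc using hch
    have hmemF : ∀ l ∈ G, (c l, l) ∈ F := by
      intro l hl
      obtain ⟨h1, h2⟩ := hc l hl
      obtain ⟨h3, h4, h5⟩ := Finset.mem_filter.1 hl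
      rw [Finset.mem_Ico] at h3
      rw [hFmem]
      refine ⟨⟨(hClgood l _ h1).1, h3.1, by omega⟩, h1, ?_⟩
      intro s hs hcon
      apply h5 s hs
      obtain ⟨g1, g2⟩ := hcon
      have e1 : q ^ (l + 1) = q * q ^ l := pow_succ' q l
      have e2 : q ^ (l + 2) = q * q ^ (l + 1) := by rw [← pow_succ']
      have e3 : q ^ (l + 3) = q * q ^ (l + 2) := by rw [← pow_succ']
      have hql1 : 0 < q ^ (l + 1) := by positivity
      have hql : 0 < q ^ l := by positivity
      have t1 := dist_triangle s p (c l)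
      have t2 := dist_triangle s (c l) p
      rw [dist_comm (c l) p] at t2
      have hηq : 2 * η ≤ q * (1 - q) := by nlinarith
      constructor
      · have h6 : 2 * η * q ^ (l + 1) ≤ q * (1 - q) * q ^ (l + 1) := by gcongr
        rw [e3, e2]
        rw [e2] at g1
        nlinarith
      · have h6 : q ^ 2 * dist s p ≤ q * (q * dist s (c l)) + q ^ 2 * (2 * η * q ^ (l + 1)) := by
          have h7 : dist s p ≤ dist s (c l) + 2 * η * q ^ (l + 1) := by linarith
          calc q ^ 2 * dist s p ≤ q ^ 2 * (dist s (c l) + 2 * η * q ^ (l + 1)) := by gcongr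
            _ = _ := by ring
        have h8 : q * (q * dist s (c l)) < q * q ^ l := by gcongr
        have h9 : q ^ 2 * (2 * η * q ^ (l + 1)) ≤ (1 - q) * q ^ l := by
          rw [e1]
          have h10 : q ^ 2 * (2 * η * q) ≤ 1 - q := by
            have : q ^ 2 * (2 * η * q) ≤ 1 * (2 * η * 1) := by
              gcongr
              exact pow_le_one₀ hq00.le hq1.le
            linarith
          calc q ^ 2 * (2 * η * (q * q ^ l)) = q ^ 2 * (2 * η * q) * q ^ l := by ring
            _ ≤ _ := by gcongr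
        linarith
    have hdepl : ∀ l ∈ G, (1 - ε) * Real.log (1 / q) ≤
        dep (c l) ((1 + 2 * η) * q ^ (l + 1)) (q ^ l) x := by
      intro l hl
      obtain ⟨h1, h2⟩ := hc l hl
      obtain ⟨h3, _, _⟩ := Finset.mem_filter.1 hl
      rw [Finset.mem_Ico] at h3
      have h4 : q ^ L ≤ q ^ (l + 1) := pow_le_pow_of_le_one hq00.le hq1.le (by omega)
      have t1 := dist_triangle x p (c l)
      have h5 : dist x (c l) ≤ (1 + 2 * η) * q ^ (l + 1) := by linarith
      rw [dep_of_inner h5]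
      have e1 : q ^ l / ((1 + 2 * η) * q ^ (l + 1)) = 1 / q / (1 + 2 * η) := by
        rw [pow_succ']
        field_simp
      have h6 : Real.log (1 / q / (1 + 2 * η)) ≤
          Real.log (max 1 (q ^ l / ((1 + 2 * η) * q ^ (l + 1)))) := by
        rw [e1]
        exact Real.log_le_log (by positivity) (le_max_right _ _)
      refine le_trans ?_ h6
      have h8 : Real.log (1 / q / (1 + 2 * η)) = Real.log (1 / q) - Real.log (1 + 2 * η) :=
        Real.log_div (by positivity) (by positivity)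
      rw [h8]
      have h7 : Real.log (1 + 2 * η) ≤ 2 * η := by
        have := Real.log_le_sub_one_of_pos (show 0 < 1 + 2 * η by positivity)
        linarith
      linarith
    rw [hdepth x]
    calc (1 - ε) * Real.log (1 / q) * (G.card : ℝ)
        = ∑ l ∈ G, (1 - ε) * Real.log (1 / q) := by
          rw [Finset.sum_const, nsmul_eq_mul, mul_comm]
      _ ≤ ∑ l ∈ G, dep (c l) ((1 + 2 * η) * q ^ (l + 1)) (q ^ l) x :=
          Finset.sum_le_sum hdepl
      _ = ∑ p ∈ G.image (fun l => (c l, l)), dep p.1 ((1 + 2 * η) * q ^ (p.2 + 1))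
            (q ^ p.2) x := by
          rw [Finset.sum_image]
          intro l _ l' _ heq
          exact (Prod.mk.injEq _ _ _ _ ▸ heq).2
      _ ≤ ∑ p ∈ F, dep p.1 ((1 + 2 * η) * q ^ (p.2 + 1)) (q ^ p.2) x := by
          apply Finset.sum_le_sum_of_subset_of_nonneg
          · intro p hp
            obtain ⟨l, hl, rfl⟩ := Finset.mem_image.1 hp
            exact hmemF l hl
          · intro p _ _
            exact dep_nonneg _ _ _ _

end Pool.Agent.TreeS
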