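import Pool.Agent.RayM.Real

/-!
# Two elementary inequalities
-/

set_option autoImplicit false

namespace Pool.Agent.TreeS

open Pool.Agent.RayM

/-- Absorption of the distortion. -/
theorem absorb {n : ℕ} (hn : 1 ≤ n) {α β lam : ℝ} (hα : 0 < α) (hlam : 0 < lam)
    (hαβ : lam * α < β) :
    ∃ ε s : ℝ, 0 < ε ∧ ε < β ∧ 0 < s ∧ s < 1 ∧ ∀ M : ℝ, 0 ≤ M → ∃ C : ℝ, 0 ≤ C ∧
      ∀ t J K : ℝ, 1 ≤ t → 0 ≤ J → 1 ≤ K →
        J ≤ M * Real.exp ((lam * n + ε) * (t - 1) + ε * K) →
        α * t ^ (α - 1) * (K * J) ≤ s * n * (J * t ^ α) + C * Real.exp (β * K) := by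
  have hn0 : (0 : ℝ) < n := by exact_mod_cast hn
  have hn1 : (1 : ℝ) ≤ n := by exact_mod_cast hn
  set γ := β - lam * α with hγ
  have hγ0 : 0 < γ := by linarith
  have hla : 0 < lam * α := by positivity
  set θ := lam * α + γ / 2 with hθ
  have hθ0 : 0 < θ := by linarith
  set s := lam * α / θ with hs
  have hs0 : 0 < s := by positivity
  have hs1 : s < 1 := by rw [hs, div_lt_one hθ0]; linarith
  set ε := γ / 4 / (θ / (lam * n) + 1) with hε
  have hden : 1 ≤ θ / (lam * n) + 1 := by
    have : 0 < θ / (lam * n) := by positivity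
    linarith
  have hε0 : 0 < ε := by positivity
  have hεγ : ε ≤ γ / 4 := by
    rw [hε, div_le_iff₀ (by linarith)]
    nlinarith
  have hεβ : ε < β := by linarith
  refine ⟨ε, s, hε0, hεβ, hs0, hs1, ?_⟩
  intro M hM
  have hq : α / (s * n) = θ / (lam * n) := by
    rw [hs]; field_simp
  have hsum : (lam * n + ε) * (θ / (lam * n)) + ε ≤ β - γ / 4 := by
    have h1 : ε * (θ / (lam * n) + 1) = γ / 4 := by
      rw [hε]; field_simp
    have h2 : (lam * n + ε) * (θ / (lam * n)) + ε = θ + ε * (θ / (lam * n) + 1) := by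
      field_simp
      ring
    rw [h2, h1, hθ, hγ]
    linarith
  obtain ⟨C, hC, hCx⟩ := rpow_le_exp (α + 1) (c := γ / 4) (by positivity)
  refine ⟨α * ((θ / (lam * n)) ^ α * (M * C)), by positivity, ?_⟩
  intro t J K ht hJ hK hle
  have ht0 : 0 < t := by linarith
  have hK0 : 0 < K := by linarith
  have hpow : t ^ (α - 1) * t = t ^ α := by
    rw [← Real.rpow_add_one ht0.ne']; ring_nf
  rcases le_or_gt (α * K) (s * n * t) with h1 | h1
  · have h2 : α * t ^ (α - 1) * (K * J) ≤ s * n * (J * t ^ α) := by
      calc α * t ^ (α - 1) * (K * J) = (α * K) * (t ^ (α - 1) * J) := by ring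
        _ ≤ (s * n * t) * (t ^ (α - 1) * J) := by gcongr
        _ = s * n * (J * (t ^ (α - 1) * t)) := by ring
        _ = _ := by rw [hpow]
    have h3 : 0 ≤ α * ((θ / (lam * n)) ^ α * (M * C)) * Real.exp (β * K) := by positivity
    linarith
  · have htK : t ≤ θ / (lam * n) * K := by
      rw [← hq, div_mul_eq_mul_div, le_div_iff₀ (by positivity)]
      linarith
    have h4 : t ^ (α - 1) ≤ (θ / (lam * n)) ^ α * K ^ α := by
      calc t ^ (α - 1) ≤ t ^ α := Real.rpow_le_rpow_of_exponent_le ht (by linarith)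
        _ ≤ (θ / (lam * n) * K) ^ α := Real.rpow_le_rpow ht0.le htK hα.le
        _ = _ := Real.mul_rpow (by positivity) hK0.le
    have h5 : (lam * n + ε) * (t - 1) + ε * K ≤ (β - γ / 4) * K := by
      calc (lam * n + ε) * (t - 1) + ε * K ≤ (lam * n + ε) * (θ / (lam * n) * K) + ε * K := by
            have : (lam * n + ε) * (t - 1) ≤ (lam * n + ε) * (θ / (lam * n) * K) := by
              apply mul_le_mul_of_nonneg_left _ (by positivity)
              linarith
            linarith
        _ = ((lam * n + ε) * (θ / (lam * n)) + ε) * K := by ring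
        _ ≤ _ := by gcongr
    have h6 : J ≤ M * Real.exp ((β - γ / 4) * K) := by
      refine hle.trans ?_
      gcongr
    have h7 : K ^ α * K ≤ C * Real.exp (γ / 4 * K) := by
      rw [← Real.rpow_add_one hK0.ne']
      exact hCx K hK
    have h8 : 0 ≤ s * n * (J * t ^ α) := by positivity
    calc α * t ^ (α - 1) * (K * J)
        ≤ α * ((θ / (lam * n)) ^ α * K ^ α) * (K * (M * Real.exp ((β - γ / 4) * K))) := by
          gcongr
      _ = α * ((θ / (lam * n)) ^ α * (M * ((K ^ α * K) * Real.exp ((β - γ / 4) * K)))) := by ring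
      _ ≤ α * ((θ / (lam * n)) ^ α * (M * ((C * Real.exp (γ / 4 * K)) *
            Real.exp ((β - γ / 4) * K)))) := by gcongr
      _ = α * ((θ / (lam * n)) ^ α * (M * C)) * Real.exp (β * K) := by
          have : Real.exp (β * K) = Real.exp (γ / 4 * K) * Real.exp ((β - γ / 4) * K) := by
            rw [← Real.exp_add]; ring_nf
          rw [this]; ring
      _ ≤ _ := by linarith

/-- From the weight to the logarithm of the Jacobian. -/
theorem jlog_le' {α β ε A M : ℝ} (hα : 0 < α) (hε : 0 < ε) (hεβ : ε < β) (hA : 0 < A)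
    (hM : 0 ≤ M) :
    ∃ C : ℝ, 0 ≤ C ∧ ∀ t J K : ℝ, 1 ≤ t → 0 ≤ J → 1 ≤ K →
      J ≤ M * Real.exp (A * (t - 1) + ε * K) →
      J * Real.log (Real.exp 1 + J) ^ α ≤ C * (J * t ^ α + Real.exp (β * K)) := by
  set c : ℝ := Real.log (Real.exp 1 + M) + (A + ε) with hc
  have hlogM := one_le_log_exp_add hM
  have hc0 : 0 < c := by positivity
  set η := (β + ε) / 2 with hη
  have hηε : 0 < η - ε := by rw [hη]; linarith
  have hηβ : 0 < β - η := by rw [hη]; linarith
  set c₂ : ℝ := (A + Real.log (Real.exp 1 + M)) / (η - ε) with hc₂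
  have hc₂0 : 0 < c₂ := by positivity
  obtain ⟨C, hC, hCx⟩ := rpow_le_exp α hηβ
  refine ⟨c ^ α + c ^ α * C + (c * c₂) ^ α, by positivity, ?_⟩
  intro t J K ht hJ hK hle
  have ht0 : 0 < t := by linarith
  have hK0 : 0 < K := by linarith
  have h8 := one_le_log_exp_add hJ
  have hlog : Real.log (Real.exp 1 + J) ≤ Real.log (Real.exp 1 + M) + (A * t + ε * K) := by
    have h1 : Real.exp 1 + J ≤ (Real.exp 1 + M) * Real.exp (A * t + ε * K) := by
      have h2 : Real.exp (A * (t - 1) + ε * K) ≤ Real.exp (A * t + ε * K) := by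
        apply Real.exp_le_exp.2
        nlinarith
      have h3 : 1 ≤ Real.exp (A * t + ε * K) := Real.one_le_exp (by positivity)
      have h4 : J ≤ M * Real.exp (A * t + ε * K) := hle.trans (by gcongr)
      have h5 : Real.exp 1 ≤ Real.exp 1 * Real.exp (A * t + ε * K) := by
        nlinarith [Real.exp_pos 1]
      linarith
    calc Real.log (Real.exp 1 + J) ≤ Real.log ((Real.exp 1 + M) * Real.exp (A * t + ε * K)) :=
          Real.log_le_log (by positivity) h1
      _ = _ := by rw [Real.log_mul (by positivity) (by positivity), Real.log_exp]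
  have hJt : 0 ≤ J * t ^ α := by positivity
  have hE : 0 ≤ Real.exp (β * K) := (Real.exp_pos _).le
  have hX : 0 ≤ J * t ^ α + Real.exp (β * K) := by positivity
  have hcα : 0 ≤ c ^ α := by positivity
  have hcC : 0 ≤ c ^ α * C := by positivity
  have hcc : 0 ≤ (c * c₂) ^ α := by positivity
  rcases le_or_gt K t with h1 | h1
  · have h2 : Real.log (Real.exp 1 + J) ≤ c * t := by
      calc Real.log (Real.exp 1 + J) ≤ Real.log (Real.exp 1 + M) + (A * t + ε * K) := hlog
        _ ≤ Real.log (Real.exp 1 + M) * t + (A * t + ε * t) := by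
            gcongr
            nlinarith
        _ = c * t := by rw [hc]; ring
    calc J * Real.log (Real.exp 1 + J) ^ α ≤ J * (c * t) ^ α := by gcongr
      _ = c ^ α * (J * t ^ α) := by rw [Real.mul_rpow hc0.le ht0.le]; ring
      _ ≤ c ^ α * (J * t ^ α + Real.exp (β * K)) := by gcongr; linarith
      _ ≤ (c ^ α + c ^ α * C + (c * c₂) ^ α) * (J * t ^ α + Real.exp (β * K)) := by
          gcongr
          linarith
  · have h2 : Real.log (Real.exp 1 + J) ≤ c * K := by
      calc Real.log (Real.exp 1 + J) ≤ Real.log (Real.exp 1 + M) + (A * t + ε * K) := hlog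
        _ ≤ Real.log (Real.exp 1 + M) * K + (A * K + ε * K) := by
            gcongr
            nlinarith
        _ = c * K := by rw [hc]; ring
    rcases le_or_gt J (Real.exp (η * K)) with h3 | h3
    · have h4 : K ^ α ≤ C * Real.exp ((β - η) * K) := hCx K hK
      calc J * Real.log (Real.exp 1 + J) ^ α ≤ Real.exp (η * K) * (c * K) ^ α := by gcongr
        _ = Real.exp (η * K) * (c ^ α * K ^ α) := by rw [Real.mul_rpow hc0.le hK0.le]
        _ ≤ Real.exp (η * K) * (c ^ α * (C * Real.exp ((β - η) * K))) := by gcongr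
        _ = c ^ α * C * Real.exp (β * K) := by
            have : Real.exp (β * K) = Real.exp (η * K) * Real.exp ((β - η) * K) := by
              rw [← Real.exp_add]; ring_nf
            rw [this]; ring
        _ ≤ c ^ α * C * (J * t ^ α + Real.exp (β * K)) := by gcongr; linarith
        _ ≤ (c ^ α + c ^ α * C + (c * c₂) ^ α) * (J * t ^ α + Real.exp (β * K)) := by
            gcongr
            linarith
    · have h4 : K ≤ c₂ * t := by
        have h5 : Real.exp (η * K) ≤ (Real.exp 1 + M) * Real.exp (A * t + ε * K) := by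
          have h6 : Real.exp (A * (t - 1) + ε * K) ≤ Real.exp (A * t + ε * K) := by
            apply Real.exp_le_exp.2
            nlinarith
          calc Real.exp (η * K) ≤ J := h3.le
            _ ≤ M * Real.exp (A * (t - 1) + ε * K) := hle
            _ ≤ (Real.exp 1 + M) * Real.exp (A * t + ε * K) := by
                gcongr
                linarith [Real.exp_pos 1]
        have h7 : η * K ≤ Real.log (Real.exp 1 + M) + (A * t + ε * K) := by
          have := Real.log_le_log (Real.exp_pos _) h5
          rwa [Real.log_exp, Real.log_mul (by positivity) (by positivity), Real.log_exp] at this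
        rw [hc₂, div_mul_eq_mul_div, le_div_iff₀ hηε]
        nlinarith
      calc J * Real.log (Real.exp 1 + J) ^ α ≤ J * (c * (c₂ * t)) ^ α := by
            gcongr
            exact h2.trans (by gcongr)
        _ = (c * c₂) ^ α * (J * t ^ α) := by
            rw [← mul_assoc, Real.mul_rpow (by positivity) ht0.le]; ring
        _ ≤ (c * c₂) ^ α * (J * t ^ α + Real.exp (β * K)) := by gcongr; linarith
        _ ≤ (c ^ α + c ^ α * C + (c * c₂) ^ α) * (J * t ^ α + Real.exp (β * K)) := by
            gcongr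
            linarith

end Pool.Agent.TreeS
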