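import Pool.Agent.TreeS.Low
import Pool.Agent.TreeS.Real2

/-!
# Tight families
-/

set_option autoImplicit false

open MeasureTheory Set Metric Filter Topology
open scoped ENNReal

namespace Pool.Agent.TreeS

open Pool.Agent.RayM

variable {n : ℕ} {U : Set (E n)} {a : ℕ → E n} {r R : ℕ → ℝ} {f : E n → E n}

/-- The tightness of a family: on each shell the depth is, up to the factor `lam`, at least
`(1 - ε) log (1 / |x - a_i|) - M`. -/
def TightFam (lam ε M : ℝ) (a : ℕ → E n) (r R : ℕ → ℝ) : Prop :=
  ∀ i, ∀ x ∈ sh (a i) (r i) (R i),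
    (1 - ε) * Real.log (1 / dist x (a i)) ≤ lam * depth a r R (i + 1) x + M

theorem exists_sphere (hn : 2 ≤ n) : Nonempty (sphere (0 : E n) 1) := by
  have := nontrivial_E hn
  exact (NormedSpace.sphere_nonempty.2 zero_le_one).to_subtype

/-- The error on one shell. -/
theorem err_bound (hn : 2 ≤ n) (h : GoodFam f U a r R) {lam ε M b β C : ℝ} (hlam : 0 < lam)
    (hε : ε < 1) (ht : TightFam lam ε M a r R) (hb : 0 < b) (hC0 : 0 ≤ C)
    (hC : ∀ (f : E n → E n) (a : E n) (r R τ : ℝ), 0 < r →
      ContDiffOn ℝ 1 f (sh a r R) → (∀ x ∈ sh a r R, 0 < jac f x) → τ ∈ Ioo r R →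
      Real.exp (b * kbar f a τ) ≤ C * ∫ ω : sphere (0 : E n) 1,
        Real.exp (β * distortion f (a + τ • (ω : E n))) ∂(volume : Measure (E n)).toSphere)
    (i : ℕ) :
    ∫⁻ τ in Ioo (r i) (R i), ENNReal.ofReal (err b (lam * n / (b * (1 - ε)))
      (1 + depth a r R i (a i)) f (a i) (R i) τ) ≤
      ENNReal.ofReal (Real.exp (n * M / (1 - ε)) * C) *
        ∫⁻ x in sh (a i) (r i) (R i), ENNReal.ofReal (Real.exp (β * distortion f x)) := by
  have hnt := nontrivial_E hn
  have hn0 : (0 : ℝ) < n := by exact_mod_cast (by omega : 0 < n)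
  have hε' : 0 < 1 - ε := by linarith
  have hr := h.pos i
  have hs := (h.good i).smooth
  have hJ := (h.good i).jpos
  obtain ⟨ω₀⟩ := exists_sphere hn
  have hpt : ∀ τ ∈ Ioo (r i) (R i), ENNReal.ofReal (err b (lam * n / (b * (1 - ε)))
      (1 + depth a r R i (a i)) f (a i) (R i) τ) ≤
      ENNReal.ofReal (Real.exp (n * M / (1 - ε)) * C) * ∫⁻ ω : sphere (0 : E n) 1,
        ENNReal.ofReal (τ ^ (n - 1)) *
          ENNReal.ofReal (Real.exp (β * distortion f (a i + τ • (ω : E n))))
          ∂(volume : Measure (E n)).toSphere := by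
    intro τ hτ
    have hτ0 : 0 < τ := hr.trans hτ.1
    have hR0 : 0 < R i := hτ0.trans hτ.2
    have hmem := mem_sh_sphere (a := a i) hr hτ ω₀
    have hx := ht i _ hmem
    rw [dist_sphere (a i) ω₀ hτ0.le, depth_succ, dep_of_sh hr hmem, dist_sphere (a i) ω₀ hτ0.le,
      depth_const h.toNested i (show a i + τ • (ω₀ : E n) ∈ ball (a i) (R i) from hmem.2)
        (mem_ball_self hR0)] at hx
    set D := depth a r R i (a i) with hD
    have hD0 : 0 ≤ D := depth_nonneg _ _
    have h1 := hC f (a i) (r i) (R i) τ hr hs hJ hτ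
    set T := ∫ ω : sphere (0 : E n) 1,
        Real.exp (β * distortion f (a i + τ • (ω : E n))) ∂(volume : Measure (E n)).toSphere
      with hT
    have hlog : Real.log (1 / τ) = -Real.log τ := by rw [one_div, Real.log_inv]
    have h2 : Real.exp (-(b * (lam * n / (b * (1 - ε)) * (1 + D + Real.log (R i / τ))))) ≤
        Real.exp (n * M / (1 - ε)) * τ ^ n := by
      have e1 : τ ^ n = Real.exp (n * Real.log τ) := by
        rw [Real.exp_nat_mul, Real.exp_log hτ0]
      rw [e1, ← Real.exp_add]
      apply Real.exp_le_exp.2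
      have e2 : b * (lam * n / (b * (1 - ε)) * (1 + D + Real.log (R i / τ))) =
          n / (1 - ε) * (lam * (1 + D + Real.log (R i / τ))) := by
        field_simp
      rw [e2]
      have h3 : n / (1 - ε) * ((1 - ε) * Real.log (1 / τ)) ≤
          n / (1 - ε) * (lam * (D + Real.log (R i / τ)) + M) :=
        mul_le_mul_of_nonneg_left hx (by positivity)
      have e3 : n / (1 - ε) * ((1 - ε) * Real.log (1 / τ)) = -(n * Real.log τ) := by
        rw [hlog]; field_simp
      have e4 : n / (1 - ε) * (lam * (D + Real.log (R i / τ)) + M) =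
          n / (1 - ε) * (lam * (1 + D + Real.log (R i / τ))) - n / (1 - ε) * lam +
            n * M / (1 - ε) := by
        field_simp
        ring
      have h4 : 0 < n / (1 - ε) * lam := by positivity
      rw [e3, e4] at h3
      linarith
    have h5 : err b (lam * n / (b * (1 - ε))) (1 + D) f (a i) (R i) τ ≤
        Real.exp (n * M / (1 - ε)) * C * (τ ^ (n - 1) * T) := by
      unfold err
      rw [div_le_iff₀ hτ0]
      have e5 : τ ^ n = τ ^ (n - 1) * τ := by
        rw [← pow_succ]; congr 1; omega
      calc Real.exp (b * (kbar f (a i) τ - lam * n / (b * (1 - ε)) *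
            (1 + D + Real.log (R i / τ))))
          = Real.exp (b * kbar f (a i) τ) *
            Real.exp (-(b * (lam * n / (b * (1 - ε)) * (1 + D + Real.log (R i / τ))))) := by
            rw [← Real.exp_add]; ring_nf
        _ ≤ (C * T) * (Real.exp (n * M / (1 - ε)) * τ ^ n) := by gcongr
        _ = _ := by rw [e5]; ring
    refine (ENNReal.ofReal_le_ofReal h5).trans (le_of_eq ?_)
    have hKc := continuous_distortion_sphere hr hs hJ hτ
    have hint : Integrable (fun ω : sphere (0 : E n) 1 =>
        Real.exp (β * distortion f (a i + τ • (ω : E n)))) (volume : Measure (E n)).toSphere :=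
      (Real.continuous_exp.comp (continuous_const.mul hKc)).integrable_of_hasCompactSupport
        (HasCompactSupport.of_compactSpace _)
    rw [ENNReal.ofReal_mul (show 0 ≤ Real.exp (n * M / (1 - ε)) * C by positivity),
      ENNReal.ofReal_mul (show 0 ≤ τ ^ (n - 1) by positivity), hT,
      ofReal_integral_eq_lintegral_ofReal hint (Filter.Eventually.of_forall (fun ω => by
        simp only [Pi.zero_apply]; positivity)),
      lintegral_const_mul' _ _ ENNReal.ofReal_ne_top]
  have hmK : Measurable (fun x : E n => ENNReal.ofReal (Real.exp (β * distortion f x))) :=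
    ((((measurable_distortion f).const_mul β).exp).ennreal_ofReal)
  rw [← polar_shell hmK hr, ← lintegral_const_mul' _ _ ENNReal.ofReal_ne_top]
  exact setLIntegral_mono' measurableSet_Ioo hpt

/-- The lower bound of the weight by the depth. -/
theorem pk_lower (hn : 2 ≤ n) (h : GoodFam f U a r R) {b κ : ℝ} (hb : 0 < b) (hκ : 0 < κ)
    {e : ℕ → ℝ} (he0 : ∀ i, 0 ≤ e i)
    (he : ∀ i, ∫⁻ τ in Ioo (r i) (R i), ENNReal.ofReal (err b κ
      (1 + depth a r R i (a i)) f (a i) (R i) τ) ≤ ENNReal.ofReal (e i)) (N : ℕ) (x : E n) :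
    (Real.log (1 + depth a r R N x) - ∑ i ∈ Finset.range N, e i) / κ ≤ pk f a r R N x := by
  induction N with
  | zero => simp [depth, pk]
  | succ N ih =>
    rw [pk_succ, Finset.sum_range_succ]
    have hstep : (Real.log (1 + depth a r R (N + 1) x) - Real.log (1 + depth a r R N x) - e N) / κ ≤
        phiK f (a N) (r N) (R N) (dist x (a N)) := by
      have hph := phiK_nonneg hn (h.good N) (dist x (a N))
      have htriv : depth a r R (N + 1) x = depth a r R N x →
          (Real.log (1 + depth a r R (N + 1) x) - Real.log (1 + depth a r R N x) - e N) / κ ≤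
          phiK f (a N) (r N) (R N) (dist x (a N)) := by
        intro h1
        rw [h1, sub_self, zero_sub]
        refine le_trans ?_ hph
        have := he0 N
        apply div_nonpos_of_nonpos_of_nonneg (by linarith) hκ.le
      rcases le_or_gt (R N) (dist x (a N)) with h1 | h1
      · apply htriv
        rw [depth_succ, dep_of_ge (h.pos N) h1, add_zero]
      · rcases le_or_gt (R N) (r N) with h2 | h2
        · apply htriv
          rw [depth_succ, dep_of_inner (h1.le.trans h2), max_eq_left (by
              rw [div_le_one (h.pos N)]; exact h2), Real.log_one, add_zero]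
        · have hR0 : 0 < R N := (h.pos N).trans h2
          have hc : depth a r R N x = depth a r R N (a N) :=
            depth_const h.toNested N h1 (mem_ball_self hR0)
          have hc1 : 1 ≤ 1 + depth a r R N (a N) := by
            have := depth_nonneg (a := a) (r := r) (R := R) N (a N)
            linarith
          have h3 := phi_lower hn (h.good N) hb hκ hc1 (he0 N) (he N)
            (d := max (r N) (dist x (a N))) (le_max_left _ _) (max_lt h2 h1)
          have h4 : phiK f (a N) (r N) (R N) (dist x (a N)) =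
              phiK f (a N) (r N) (R N) (max (r N) (dist x (a N))) := by
            rcases le_total (dist x (a N)) (r N) with h5 | h5
            · rw [max_eq_left h5, phiK_of_le hn (h.good N) h5]
            · rw [max_eq_right h5]
          rw [h4, depth_succ, dep_of_lt (h.pos N) h2 h1, hc, ← add_assoc]
          exact h3
    calc (Real.log (1 + depth a r R (N + 1) x) - (∑ i ∈ Finset.range N, e i + e N)) / κ
        = (Real.log (1 + depth a r R N x) - ∑ i ∈ Finset.range N, e i) / κ +
          (Real.log (1 + depth a r R (N + 1) x) - Real.log (1 + depth a r R N x) - e N) / κ := by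
          field_simp
          ring
      _ ≤ _ := add_le_add ih hstep

/-- The uniform bound for the weighted integrals of a tight family. -/
theorem weighted_bound2 (hn : 2 ≤ n) (hU : IsOpen U) (hf : Emb f U)
    (hae : ∀ᵐ x ∂((volume : Measure (E n)).restrict U), DifferentiableAt ℝ f x ∧ 0 ≤ jac f x)
    (h : GoodFam f U a r R) {lam ε M α β η : ℝ} (hlam : 0 < lam) (hε0 : 0 < ε) (hεη : ε ≤ η)
    (hη1 : η < 1) (ht : TightFam lam ε M a r R) (hβ : 0 < β)
    (hη : lam * α ≤ (1 - η) ^ 3 * β)
    (hfin : ∫⁻ x in U, ENNReal.ofReal (jac f x) ≠ ⊤)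
    (hexp : ∫⁻ x in U, ENNReal.ofReal (Real.exp (β * distortion f x)) ≠ ⊤) :
    ∃ B : ℝ, ∀ N, ∫⁻ x in U, ENNReal.ofReal (jac f x) *
      ENNReal.ofReal ((1 + depth a r R N x) ^ α) ≤ ENNReal.ofReal B := by
  have hn0 : (0 : ℝ) < n := by exact_mod_cast (by omega : 0 < n)
  have hη0 : 0 < η := hε0.trans_le hεη
  have hη' : 0 < 1 - η := by linarith
  have hε' : 0 < 1 - ε := by linarith
  set b := (1 - η) * β with hb
  have hb0 : 0 < b := by positivity
  have hbβ : b < β := by rw [hb]; nlinarith
  obtain ⟨C, hC0, hC⟩ := exp_mean hn hb0 hbβ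
  set κ := lam * n / (b * (1 - ε)) with hκ
  have hκ0 : 0 < κ := by positivity
  set θ := (1 - η) * n with hθ
  have hθ0 : 0 < θ := by positivity
  have hθn : θ < n := by rw [hθ]; nlinarith
  have hαθ : α ≤ θ / κ := by
    have e1 : θ / κ = (1 - η) ^ 2 * (1 - ε) * β / lam := by
      rw [hθ, hκ, hb]; field_simp
    rw [e1, le_div_iff₀ hlam]
    calc α * lam = lam * α := mul_comm _ _
      _ ≤ (1 - η) ^ 3 * β := hη
      _ = (1 - η) ^ 2 * (1 - η) * β := by ring
      _ ≤ (1 - η) ^ 2 * (1 - ε) * β := by gcongr
  set D := Real.exp (n * M / (1 - ε)) * C with hD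
  have hD0 : 0 ≤ D := by positivity
  set I : ℕ → ℝ≥0∞ := fun i => ∫⁻ x in sh (a i) (r i) (R i),
    ENNReal.ofReal (Real.exp (β * distortion f x)) with hI
  set W := ∫⁻ x in U, ENNReal.ofReal (Real.exp (β * distortion f x)) with hW
  have hIW : ∀ i, I i ≤ W := fun i => lintegral_mono_set (sh_sub h.toNested i)
  have hIfin : ∀ i, I i ≠ ⊤ := fun i => ne_top_of_le_ne_top hexp (hIW i)
  set e : ℕ → ℝ := fun i => D * (I i).toReal with he
  have he0 : ∀ i, 0 ≤ e i := fun i => mul_nonneg hD0 ENNReal.toReal_nonneg
  have heb : ∀ i, ∫⁻ τ in Ioo (r i) (R i), ENNReal.ofReal (err b κ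
      (1 + depth a r R i (a i)) f (a i) (R i) τ) ≤ ENNReal.ofReal (e i) := by
    intro i
    have h1 := err_bound hn h hlam (by linarith) ht hb0 hC0 hC i
    refine h1.trans (le_of_eq ?_)
    rw [he]
    simp only
    rw [ENNReal.ofReal_mul hD0, ENNReal.ofReal_toReal (hIfin i)]
  have hsum : ∀ N, ∑ i ∈ Finset.range N, e i ≤ D * W.toReal := by
    intro N
    rw [he, ← Finset.mul_sum]
    apply mul_le_mul_of_nonneg_left _ hD0
    rw [← ENNReal.toReal_sum (fun i _ => hIfin i)]
    apply ENNReal.toReal_mono hexp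
    calc ∑ i ∈ Finset.range N, I i = ∫⁻ x in ⋃ k ∈ Finset.range N, sh (a k) (r k) (R k),
          ENNReal.ofReal (Real.exp (β * distortion f x)) :=
          (lintegral_biUnion_finset (sh_pairwise h.toNested _)
            (fun k _ => (isOpen_sh _ _ _).measurableSet) _).symm
      _ ≤ W := by
          apply lintegral_mono_set
          exact iUnion₂_subset (fun k _ => sh_sub h.toNested k)
  set G := D * W.toReal with hG
  have hstar := star hn hU hf hae h hθ0 hθn hfin
  set A := n * (∫⁻ x in U, ENNReal.ofReal (jac f x)).toReal / (n - θ) with hA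
  refine ⟨Real.exp (θ / κ * G) * A, fun N => ?_⟩
  have hpt : ∀ x, ENNReal.ofReal ((1 + depth a r R N x) ^ α) ≤
      ENNReal.ofReal (Real.exp (θ / κ * G)) * ENNReal.ofReal (Real.exp (θ * pk f a r R N x)) := by
    intro x
    rw [← ENNReal.ofReal_mul (Real.exp_pos _).le]
    apply ENNReal.ofReal_le_ofReal
    have hdn := depth_nonneg (a := a) (r := r) (R := R) N x
    have h1 := pk_lower hn h hb0 hκ0 he0 heb N x
    have h2 := hsum N
    have hl : 0 ≤ Real.log (1 + depth a r R N x) := Real.log_nonneg (by linarith)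
    rw [Real.rpow_def_of_pos (by linarith), ← Real.exp_add]
    apply Real.exp_le_exp.2
    have h3 : (Real.log (1 + depth a r R N x) - G) / κ ≤ pk f a r R N x := by
      refine le_trans ?_ h1
      gcongr
    have h4 : θ * ((Real.log (1 + depth a r R N x) - G) / κ) ≤ θ * pk f a r R N x :=
      mul_le_mul_of_nonneg_left h3 hθ0.le
    have h5 : Real.log (1 + depth a r R N x) * α ≤ Real.log (1 + depth a r R N x) * (θ / κ) :=
      mul_le_mul_of_nonneg_left hαθ hl
    have e6 : θ * ((Real.log (1 + depth a r R N x) - G) / κ) =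
        Real.log (1 + depth a r R N x) * (θ / κ) - θ / κ * G := by
      field_simp
    rw [e6] at h4
    linarith
  calc ∫⁻ x in U, ENNReal.ofReal (jac f x) * ENNReal.ofReal ((1 + depth a r R N x) ^ α)
      ≤ ∫⁻ x in U, ENNReal.ofReal (Real.exp (θ / κ * G)) * (ENNReal.ofReal (jac f x) *
          ENNReal.ofReal (Real.exp (θ * pk f a r R N x))) := by
        apply lintegral_mono
        intro x
        simp only
        calc ENNReal.ofReal (jac f x) * ENNReal.ofReal ((1 + depth a r R N x) ^ α)
            ≤ ENNReal.ofReal (jac f x) * (ENNReal.ofReal (Real.exp (θ / κ * G)) *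
              ENNReal.ofReal (Real.exp (θ * pk f a r R N x))) := mul_le_mul_right (hpt x) _
          _ = _ := by ring
    _ = ENNReal.ofReal (Real.exp (θ / κ * G)) * ∫⁻ x in U, (ENNReal.ofReal (jac f x) *
          ENNReal.ofReal (Real.exp (θ * pk f a r R N x))) :=
        lintegral_const_mul' _ _ ENNReal.ofReal_ne_top
    _ ≤ ENNReal.ofReal (Real.exp (θ / κ * G)) * ENNReal.ofReal A := mul_le_mul_right (hstar N) _
    _ = _ := (ENNReal.ofReal_mul (Real.exp_pos _).le).symm

end Pool.Agent.TreeS
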