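import Pool.Agent.TreeS.Asd4
import Pool.Agent.TreeS.Tight

/-!
# Sets of Assouad dimension zero have families of shells of almost full depth
-/

set_option autoImplicit false

open MeasureTheory Set Metric Filter Topology
open scoped ENNReal

namespace Pool.Agent.TreeS

open Pool.Agent.RayM

variable {n : ℕ}

/-- Near `x₁` the set `S` has Assouad dimension zero: for some radius `ρ` and every exponent
`θ > 0` there is a constant `C` such that the part of `S` in any closed ball of radius `R ≤ ρ`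
centred at a point of `S ∩ B(x₁, ρ)` is covered by at most `C (R / r)^θ` closed balls of radius
`r`, for all `0 < r ≤ R`. -/
def AssouadZeroAt (S : Set (E n)) (x₁ : E n) : Prop :=
  ∃ ρ : ℝ, 0 < ρ ∧ ∀ θ : ℝ, 0 < θ → ∃ C : ℝ, ∀ s ∈ S ∩ ball x₁ ρ, ∀ r R : ℝ, 0 < r → r ≤ R →
    R ≤ ρ → ∃ F : Finset (E n), (F.card : ℝ) ≤ C * (R / r) ^ θ ∧
      S ∩ closedBall s R ⊆ ⋃ y ∈ F, closedBall y r

theorem net_exists {S : Set (E n)} {x₁ : E n} {ρ q θ C : ℝ} (hx₁ : x₁ ∈ S) (hρ : 0 < ρ)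
    (hρ1 : 2 * ρ ≤ 1) (hq0 : 0 < q) (hq1 : q < 1) (hθ : 0 < θ)
    (hC : ∀ r : ℝ, 0 < r → r ≤ ρ → ∃ F : Finset (E n), (F.card : ℝ) ≤ C * (ρ / r) ^ θ ∧
      S ∩ closedBall x₁ ρ ⊆ ⋃ y ∈ F, closedBall y r) :
    ∃ P : ℕ → Finset (E n), Nets S x₁ ρ q (q ^ θ) C P := by
  classical
  have key : ∀ k : ℕ, ∃ P : Finset (E n), (∀ p ∈ P, p ∈ S ∩ closedBall x₁ ρ) ∧
      (∀ s ∈ S ∩ closedBall x₁ ρ, ∃ p ∈ P, dist s p ≤ q ^ k) ∧
      (P.card : ℝ) * (q ^ θ) ^ k ≤ C := by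
    intro k
    have hqk : 0 < q ^ k := by positivity
    have hqk1 : q ^ k ≤ 1 := pow_le_one₀ hq0.le hq1.le
    set r := min (q ^ k / 2) ρ with hr
    have hr0 : 0 < r := lt_min (by positivity) hρ
    obtain ⟨F, hF1, hF2⟩ := hC r hr0 (min_le_right _ _)
    have hch : ∀ y : E n, ∃ p : E n, (∃ z, z ∈ S ∩ closedBall x₁ ρ ∧ z ∈ closedBall y r) →
        p ∈ S ∩ closedBall x₁ ρ ∧ p ∈ closedBall y r := by
      intro y
      by_cases h : ∃ z, z ∈ S ∩ closedBall x₁ ρ ∧ z ∈ closedBall y r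
      · obtain ⟨z, hz⟩ := h
        exact ⟨z, fun _ => hz⟩
      · exact ⟨y, fun h' => absurd h' h⟩
    choose φ hφ using hch
    set P := (F.filter (fun y => ∃ z, z ∈ S ∩ closedBall x₁ ρ ∧ z ∈ closedBall y r)).image φ
      with hP
    have hPF : P.card ≤ F.card := Finset.card_image_le.trans (Finset.card_filter_le _ _)
    have hC0 : 0 ≤ C := by
      have h1 : x₁ ∈ S ∩ closedBall x₁ ρ := ⟨hx₁, mem_closedBall_self hρ.le⟩
      have h2 := hF2 h1
      rw [mem_iUnion₂] at h2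
      obtain ⟨y, hy, _⟩ := h2
      have h3 : (1 : ℝ) ≤ F.card := by exact_mod_cast Finset.card_pos.2 ⟨y, hy⟩
      have h4 : 0 < (ρ / r) ^ θ := by positivity
      by_contra hcon
      push Not at hcon
      nlinarith
    refine ⟨P, ?_, ?_, ?_⟩
    · intro p hp
      obtain ⟨y, hy, rfl⟩ := Finset.mem_image.1 hp
      exact (hφ y (Finset.mem_filter.1 hy).2).1
    · intro s hs
      have h2 := hF2 hs
      rw [mem_iUnion₂] at h2
      obtain ⟨y, hy, h3⟩ := h2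
      have h4 : ∃ z, z ∈ S ∩ closedBall x₁ ρ ∧ z ∈ closedBall y r := ⟨s, hs, h3⟩
      refine ⟨φ y, Finset.mem_image.2 ⟨y, Finset.mem_filter.2 ⟨hy, h4⟩, rfl⟩, ?_⟩
      have h5 := mem_closedBall.1 h3
      have h6 := mem_closedBall.1 (hφ y h4).2
      have h7 := dist_triangle s y (φ y)
      rw [dist_comm y (φ y)] at h7
      have h8 : r ≤ q ^ k / 2 := min_le_left _ _
      linarith
    · have h1 : ρ / r ≤ 1 / q ^ k := by
        rw [div_le_div_iff₀ hr0 hqk, one_mul]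
        rcases min_choice (q ^ k / 2) ρ with h | h
        · rw [hr, h]
          nlinarith
        · rw [hr, h]
          nlinarith
      have h2 : (ρ / r) ^ θ ≤ ((q ^ θ) ^ k)⁻¹ := by
        calc (ρ / r) ^ θ ≤ (1 / q ^ k) ^ θ := Real.rpow_le_rpow (by positivity) h1 hθ.le
          _ = ((q ^ θ) ^ k)⁻¹ := by
            rw [one_div, Real.inv_rpow hqk.le, ← Real.rpow_natCast, ← Real.rpow_natCast,
              ← Real.rpow_mul hq0.le, ← Real.rpow_mul hq0.le, mul_comm]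
      have h3 : (P.card : ℝ) ≤ C * ((q ^ θ) ^ k)⁻¹ := by
        calc (P.card : ℝ) ≤ F.card := by exact_mod_cast hPF
          _ ≤ C * (ρ / r) ^ θ := hF1
          _ ≤ _ := by gcongr
      have h4 : 0 < (q ^ θ) ^ k := by positivity
      rw [← div_eq_mul_inv, le_div_iff₀ h4] at h3
      exact h3
  choose P h1 h2 h3 using key
  exact ⟨P, h1, h2, h3⟩

end Pool.Agent.TreeS
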