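import Pool.Agent.TreeS.Asd5

/-!
# Sets of Assouad dimension zero: the parameters
-/

set_option autoImplicit false

open MeasureTheory Set Metric Filter Topology
open scoped ENNReal

namespace Pool.Agent.TreeS

open Pool.Agent.RayM

variable {n : ℕ}

theorem count_good {A B : ℕ → Prop} {j₀ L : ℕ} {e B₁ B₂ : ℝ} [DecidablePred A] [DecidablePred B]
    (h1 : (((Finset.range L).filter (fun l => ¬ A l)).card : ℝ) ≤ B₁ + e * L)
    (h2 : (((Finset.Ico j₀ L).filter (fun l => ¬ B l)).card : ℝ) ≤ B₂ + e * L) :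
    (1 - 2 * e) * L - (j₀ + B₁ + B₂) ≤
      (((Finset.Ico j₀ L).filter (fun l => A l ∧ B l)).card : ℝ) := by
  classical
  have hsub : Finset.Ico j₀ L ⊆ ((Finset.Ico j₀ L).filter (fun l => A l ∧ B l)) ∪
      (((Finset.range L).filter (fun l => ¬ A l)) ∪
        ((Finset.Ico j₀ L).filter (fun l => ¬ B l))) := by
    intro l hl
    have hl' := Finset.mem_Ico.1 hl
    simp only [Finset.mem_union, Finset.mem_filter, Finset.mem_range]
    by_cases hA : A l
    · by_cases hB : B l
      · exact Or.inl ⟨hl, hA, hB⟩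
      · exact Or.inr (Or.inr ⟨hl, hB⟩)
    · exact Or.inr (Or.inl ⟨hl'.2, hA⟩)
  have h3 := (Finset.card_le_card hsub).trans ((Finset.card_union_le _ _).trans
    (Nat.add_le_add_left (Finset.card_union_le _ _) _))
  rw [Nat.card_Ico] at h3
  have h4 : ((L - j₀ : ℕ) : ℝ) ≤ (((Finset.Ico j₀ L).filter (fun l => A l ∧ B l)).card : ℝ) +
      ((((Finset.range L).filter (fun l => ¬ A l)).card : ℝ) +
        (((Finset.Ico j₀ L).filter (fun l => ¬ B l)).card : ℝ)) := by exact_mod_cast h3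
  have h5 : (L : ℝ) - j₀ ≤ ((L - j₀ : ℕ) : ℝ) := by
    have : (L : ℝ) ≤ ((L - j₀ : ℕ) : ℝ) + j₀ := by exact_mod_cast (by omega)
    linarith
  linarith

/-- The number `2^(-1/g)`. -/
theorem exists_q (g : ℕ) (hg : 5 ≤ g) : ∃ q : ℝ, 1 / 2 ≤ q ∧ q < 1 ∧ q ^ g = 1 / 2 ∧
    1 / 2 ≤ q ^ 5 ∧ 1 / (2 * g) ≤ 1 - q := by
  have hg0 : (0 : ℝ) < g := by exact_mod_cast (by omega : 0 < g)
  set q : ℝ := (1 / 2) ^ ((g : ℝ)⁻¹) with hq
  have hqg : q ^ g = 1 / 2 := Real.rpow_inv_natCast_pow (by norm_num) (by omega)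
  have hq0 : 0 < q := by positivity
  have hq1 : q < 1 := Real.rpow_lt_one (by norm_num) (by norm_num) (by positivity)
  have hq5 : 1 / 2 ≤ q ^ 5 := by
    rw [← hqg]; exact pow_le_pow_of_le_one hq0.le hq1.le hg
  have hqq : 1 / 2 ≤ q := by
    refine hq5.trans ?_
    calc q ^ 5 ≤ q ^ 1 := pow_le_pow_of_le_one hq0.le hq1.le (by norm_num)
      _ = q := pow_one q
  refine ⟨q, hqq, hq1, hqg, hq5, ?_⟩
  by_contra hcon
  push Not at hcon
  have h1 : 1 + (g : ℝ) * (-(1 / (2 * g))) ≤ (1 + -(1 / (2 * (g : ℝ)))) ^ g := by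
    apply one_add_mul_le_pow
    have : 1 / (2 * (g : ℝ)) ≤ 1 := by
      rw [div_le_one (by positivity)]
      have : (5 : ℝ) ≤ g := by exact_mod_cast hg
      linarith
    linarith
  have h2 : (1 + -(1 / (2 * (g : ℝ)))) ^ g < q ^ g := by
    apply pow_lt_pow_left₀ (by linarith) _ (by omega)
    have : 1 / (2 * (g : ℝ)) ≤ 1 := by
      rw [div_le_one (by positivity)]
      have : (5 : ℝ) ≤ g := by exact_mod_cast hg
      linarith
    linarith
  rw [hqg] at h2
  have h3 : (g : ℝ) * (-(1 / (2 * g))) = -(1 / 2) := by field_simp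
  rw [h3] at h1
  linarith

/-- The shells near a point of a set of Assouad dimension zero. -/
theorem assouad_shells {S : Set (E n)} {x₁ : E n} (hx₁ : x₁ ∈ S) (hS : AssouadZeroAt S x₁)
    {U : Set (E n)} (hU : U ∈ 𝓝 x₁) :
    ∃ ρ' : ℝ, 0 < ρ' ∧ ball x₁ ρ' ⊆ U ∧ ∀ ε : ℝ, 0 < ε → ε < 1 → ∃ M : ℝ, ∀ δ : ℝ, 0 < δ →
      ∃ (a : ℕ → E n) (r R : ℕ → ℝ) (N : ℕ), Nested U a r R ∧ (∀ i, a i ∈ S) ∧
        (∀ i, Disjoint (sh (a i) (r i) (R i)) S) ∧ TightFam 1 ε M a r R ∧
        ∀ x ∈ ball x₁ ρ', δ ≤ infDist x S →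
          (1 - ε) * Real.log (1 / infDist x S) ≤ depth a r R N x + M := by
  classical
  obtain ⟨ρ₀, hρ₀, hass⟩ := hS
  obtain ⟨ρU, hρU, hball⟩ := Metric.mem_nhds_iff.1 hU
  set ρ := min (min (ρ₀ / 2) (ρU / 2)) (1 / 2) with hρdef
  have hρ0 : 0 < ρ := lt_min (lt_min (by linarith) (by linarith)) (by norm_num)
  have hρρ₀ : ρ < ρ₀ := lt_of_le_of_lt ((min_le_left _ _).trans (min_le_left _ _)) (by linarith)
  have hρU2 : 2 * ρ ≤ ρU := by
    have : ρ ≤ ρU / 2 := (min_le_left _ _).trans (min_le_right _ _)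
    linarith
  have hρ1 : 2 * ρ ≤ 1 := by
    have : ρ ≤ 1 / 2 := min_le_right _ _
    linarith
  refine ⟨ρ / 4, by linarith, (ball_subset_ball (by linarith)).trans hball, ?_⟩
  intro ε hε0 hε1
  set e := ε / 3 with he
  have he0 : 0 < e := by positivity
  have he1 : e < 1 := by rw [he]; linarith
  -- the constant of exponent one half and the parameter `g`
  obtain ⟨C₂, hC₂⟩ := hass (1 / 2) (by norm_num)
  set X := 36 * |C₂| / e with hX
  have hX0 : 0 ≤ X := by positivity
  set g := ⌈X ^ 2⌉₊ + 5 with hgdef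
  have hg5 : 5 ≤ g := by omega
  have hg0 : (0 : ℝ) < g := by exact_mod_cast (by omega : 0 < g)
  have hgX : X ^ 2 ≤ g := by
    have h1 : X ^ 2 ≤ ⌈X ^ 2⌉₊ := Nat.le_ceil _
    have h2 : ((⌈X ^ 2⌉₊ : ℕ) : ℝ) ≤ g := by exact_mod_cast (by omega)
    linarith
  obtain ⟨q, hq12, hq1, hqg, hq5, hqgap⟩ := exists_q g hg5
  have hq0 : 0 < q := by linarith
  have hlq : 1 - q ≤ Real.log (1 / q) := by
    rw [one_div, Real.log_inv]
    linarith [Real.log_le_sub_one_of_pos hq0]
  have hlq0 : 0 < Real.log (1 / q) := by linarith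
  set η := e * (1 - q) / 8 with hη
  have hη0 : 0 < η := by
    have : 0 < 1 - q := by linarith
    positivity
  have hη8 : 8 * η ≤ 1 - q := by
    have h1 : 0 ≤ 1 - q := by linarith
    calc 8 * η = e * (1 - q) := by rw [hη]; ring
      _ ≤ 1 - q := mul_le_of_le_one_left h1 he1.le
  have hηε : 2 * η ≤ e * Real.log (1 / q) := by
    have h1 : e * (1 - q) ≤ e * Real.log (1 / q) := by gcongr
    have h2 : 0 < e * (1 - q) := mul_pos he0 (by linarith)
    rw [hη]
    linarith
  have hη1 : η ≤ 1 := by linarith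
  obtain ⟨g₂, hg₂⟩ := exists_pow_lt_of_lt_one (show 0 < η ^ 2 * q by positivity) hq1
  -- the exponent of the nets
  set τ := e * Real.log (3 / 2) / (2 * (g₂ + 1)) with hτ
  have hl32 : 0 < Real.log (3 / 2) := Real.log_pos (by norm_num)
  have hτ0 : 0 < τ := by positivity
  set θ := τ / Real.log (1 / q) with hθ
  have hθ0 : 0 < θ := by positivity
  set v := q ^ θ with hv
  have hv0 : 0 < v := by positivity
  have hv1 : v < 1 := Real.rpow_lt_one hq0.le hq1 hθ0
  have hlv : Real.log (1 / v) = τ := by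
    rw [hv, one_div, Real.log_inv, Real.log_rpow hq0, hθ, one_div, Real.log_inv]
    have : -Real.log q ≠ 0 := by
      rw [one_div, Real.log_inv] at hlq0
      exact hlq0.ne'
    have h2 : Real.log q ≠ 0 := fun h => this (by rw [h]; simp)
    field_simp
  obtain ⟨C₃, hC₃⟩ := hass θ hθ0
  obtain ⟨P, hP⟩ := net_exists (q := q) (C := C₃) hx₁ hρ0 hρ1 hq0 hq1 hθ0
    (fun r hr hrρ => hC₃ x₁ ⟨hx₁, mem_ball_self hρ₀⟩ r ρ hr hrρ hρρ₀.le)
  -- the first group
  obtain ⟨i₀, hi₀⟩ := exists_pow_lt_of_lt_one (show 0 < min ρ (ρ₀ / 2) from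
    lt_min hρ0 (by linarith)) (show (1 / 2 : ℝ) < 1 by norm_num)
  have hqi : ∀ i : ℕ, q ^ (i * g) = (1 / 2) ^ i := fun i => by
    rw [mul_comm, pow_mul, hqg]
  have hj₀ : q ^ (i₀ * g) ≤ ρ := by
    rw [hqi]; exact hi₀.le.trans (min_le_left _ _)
  -- the unclean levels
  have hgroup : ∀ p ∈ S ∩ closedBall x₁ ρ, ∀ i, i₀ ≤ i →
      (((Finset.Ico (i * g) ((i + 1) * g)).filter (fun l => ¬ Free S q l p)).card : ℝ) ≤
        e * g := by
    intro p hp i hi
    have hqq : 1 / 2 ≤ q ^ 2 := hq5.trans (pow_le_pow_of_le_one hq0.le hq1.le (by norm_num))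
    have hRρ : q ^ (i * g) / q ^ 2 ≤ ρ₀ := by
      rw [div_le_iff₀ (by positivity), hqi]
      have h1 : (1 / 2 : ℝ) ^ i ≤ (1 / 2) ^ i₀ :=
        pow_le_pow_of_le_one (by norm_num) (by norm_num) hi
      have h2 : (1 / 2 : ℝ) ^ i₀ ≤ ρ₀ / 2 := hi₀.le.trans (min_le_right _ _)
      have h3 : ρ₀ * (1 / 2) ≤ ρ₀ * q ^ 2 := by gcongr
      linarith
    have h1q : 0 < 1 - q := by linarith
    have hr0 : 0 < (1 - q) * q ^ ((i + 1) * g + 3) / 4 := by positivity
    have hratio : q ^ (i * g) / q ^ 2 / ((1 - q) * q ^ ((i + 1) * g + 3) / 4) =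
        8 / ((1 - q) * q ^ 5) := by
      have e1 : q ^ ((i + 1) * g + 3) = q ^ (i * g) * (1 / 2) * q ^ 3 := by
        rw [show (i + 1) * g + 3 = i * g + g + 3 by ring, pow_add, pow_add, hqg]
      rw [e1]
      have : 0 < q ^ (i * g) := by positivity
      field_simp
      ring
    have hratio2 : 8 / ((1 - q) * q ^ 5) ≤ 32 * g := by
      rw [div_le_iff₀ (by positivity)]
      have h3 : 1 / (2 * (g : ℝ)) * (1 / 2) ≤ (1 - q) * q ^ 5 := by gcongr
      calc (8 : ℝ) = 32 * g * (1 / (2 * (g : ℝ)) * (1 / 2)) := by field_simp; norm_num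
        _ ≤ 32 * g * ((1 - q) * q ^ 5) := by gcongr
    have hratio1 : 1 ≤ 8 / ((1 - q) * q ^ 5) := by
      rw [le_div_iff₀ (by positivity)]
      have h3 : (1 - q) * q ^ 5 ≤ 1 * 1 := by
        gcongr
        · linarith
        · exact pow_le_one₀ hq0.le hq1.le
      linarith
    have hrR : (1 - q) * q ^ ((i + 1) * g + 3) / 4 ≤ q ^ (i * g) / q ^ 2 := by
      rw [← hratio, one_le_div hr0] at hratio1
      exact hratio1
    have hpb : p ∈ S ∩ ball x₁ ρ₀ :=
      ⟨hp.1, closedBall_subset_ball hρρ₀ hp.2⟩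
    obtain ⟨F, hF1, hF2⟩ := hC₂ p hpb _ _ hr0 hrR hRρ
    have h4 := group_count (S := S) hq0 hq1 (p := p) (i := i) (g := g) hF2
    have h5 : (((Finset.Ico (i * g) ((i + 1) * g)).filter
        (fun l => ¬ Free S q l p)).card : ℝ) ≤ F.card * 6 := by exact_mod_cast h4
    refine h5.trans ?_
    rw [hratio] at hF1
    have h6 : (8 / ((1 - q) * q ^ 5)) ^ (1 / 2 : ℝ) ≤ 6 * √g := by
      calc (8 / ((1 - q) * q ^ 5)) ^ (1 / 2 : ℝ) ≤ (32 * g) ^ (1 / 2 : ℝ) := by
            apply Real.rpow_le_rpow (by positivity) hratio2 (by norm_num)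
        _ ≤ (36 * g) ^ (1 / 2 : ℝ) := by
            apply Real.rpow_le_rpow (by positivity) (by linarith) (by norm_num)
        _ = 6 * √g := by
            rw [← Real.sqrt_eq_rpow, Real.sqrt_mul (by norm_num),
              show (36 : ℝ) = 6 ^ 2 by norm_num, Real.sqrt_sq (by norm_num)]
    have h7 : (F.card : ℝ) ≤ |C₂| * (6 * √g) := by
      calc (F.card : ℝ) ≤ C₂ * (8 / ((1 - q) * q ^ 5)) ^ (1 / 2 : ℝ) := hF1
        _ ≤ |C₂| * (8 / ((1 - q) * q ^ 5)) ^ (1 / 2 : ℝ) := by
            gcongr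
            exact le_abs_self _
        _ ≤ _ := by gcongr
    have h8 : X * √g ≤ g := by
      have h9 : X ≤ √g := Real.le_sqrt_of_sq_le hgX
      calc X * √g ≤ √g * √g := by gcongr
        _ = g := Real.mul_self_sqrt hg0.le
    calc (F.card : ℝ) * 6 ≤ |C₂| * (6 * √g) * 6 := by gcongr
      _ = e * (X * √g) := by rw [hX]; field_simp; norm_num
      _ ≤ e * g := by gcongr
  -- constants
  set B₁ := g₂ * (Real.log (1 / (1 - v)) + Real.log C₃ + 2 * g₂ * τ) / Real.log (3 / 2) with hB₁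
  set B₂ := (i₀ * g : ℕ) + B₁ + e * g with hB₂
  set B₃ := Real.log (1 / q) * |B₂| with hB₃
  set M := B₃ + Real.log (1 / q) + Real.log 3 with hM
  have hl3 : 0 < Real.log 3 := Real.log_pos (by norm_num)
  have hB₃0 : 0 ≤ B₃ := by positivity
  refine ⟨M, ?_⟩
  intro δ hδ
  obtain ⟨J, hJ⟩ := exists_pow_lt_of_lt_one hδ hq1
  set K := J + 1 + g₂ with hK
  obtain ⟨a, r, R, N, hnest, haS, hdis, hshape, hdep⟩ := cell_family (K := K) (J := J)
    (j₀ := i₀ * g) (U := U) hP hx₁ hv0 hη0 hη8 hq12 hq1 hηε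
    ((ball_subset_ball (by linarith)).trans hball)
  -- the main estimate
  have star : ∀ p ∈ P K, ∀ (x : E n) (t : ℝ) (L : ℕ), dist x p ≤ t → t ≤ q ^ L → L ≤ J + 1 →
      (1 - ε) * Real.log (1 / q) * L - B₃ ≤ depth a r R N x := by
    intro p hp x t L h1 h2 h3
    have hpS := hP.sub K p hp
    have hbad : (((Finset.range L).filter (fun l => ¬ Good P v K q η l p)).card : ℝ) ≤
        B₁ + e * L := by
      have h4 := bad_count (K := K) hP hv0 hv1 hη0 hη1 hq0 hq1 hg₂.le hpS (L := L) (by omega)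
      rw [hlv, ← le_div_iff₀ hl32] at h4
      refine h4.trans ?_
      have h5 : g₂ * (2 * (L : ℝ) * τ) / Real.log (3 / 2) ≤ e * L := by
        rw [div_le_iff₀ hl32, hτ]
        have h6 : (g₂ : ℝ) * (2 * (L : ℝ) * (e * Real.log (3 / 2) / (2 * (g₂ + 1)))) =
            e * L * Real.log (3 / 2) * (g₂ / (g₂ + 1)) := by field_simp
        rw [h6]
        have h7 : (g₂ : ℝ) / (g₂ + 1) ≤ 1 := by
          rw [div_le_one (by positivity)]; linarith
        have h8 : 0 ≤ e * L * Real.log (3 / 2) := by positivity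
        exact mul_le_of_le_one_right h8 h7
      have h9 : (g₂ : ℝ) * (Real.log (1 / (1 - v)) + Real.log C₃ + 2 * (L + g₂) * τ) /
          Real.log (3 / 2) = B₁ + g₂ * (2 * (L : ℝ) * τ) / Real.log (3 / 2) := by
        rw [hB₁]; ring
      rw [h9]
      linarith
    have hunc : (((Finset.Ico (i₀ * g) L).filter (fun l => ¬ Free S q l p)).card : ℝ) ≤
        e * g + e * L := by
      have h4 := unclean_count (S := S) (q := q) (p := p) (by omega : 0 < g)
        (show 0 ≤ e * g by positivity) (hgroup p hpS) L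
      refine h4.trans (le_of_eq ?_)
      field_simp
      ring
    have h4 := count_good hbad hunc
    have h5 := hdep p hp x t L h1 h2 h3
    refine le_trans ?_ h5
    have hcoef : 0 ≤ (1 - e) * Real.log (1 / q) := mul_nonneg (by linarith) hlq0.le
    have h6 : (1 - e) * Real.log (1 / q) * ((1 - 2 * e) * L - B₂) ≤
        (1 - e) * Real.log (1 / q) * (((Finset.Ico (i₀ * g) L).filter
          (fun l => Good P v K q η l p ∧ Free S q l p)).card : ℝ) :=
      mul_le_mul_of_nonneg_left h4 hcoef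
    refine le_trans ?_ h6
    have h7 : (1 - e) * Real.log (1 / q) * B₂ ≤ B₃ := by
      rw [hB₃]
      have h8 : B₂ ≤ |B₂| := le_abs_self _
      have h9 : 0 ≤ |B₂| := abs_nonneg _
      calc (1 - e) * Real.log (1 / q) * B₂ ≤ (1 - e) * Real.log (1 / q) * |B₂| := by gcongr
        _ ≤ 1 * Real.log (1 / q) * |B₂| := by
            gcongr
            linarith
        _ = _ := by ring
    have h8 : (1 - ε) * Real.log (1 / q) * L ≤
        (1 - e) * Real.log (1 / q) * ((1 - 2 * e) * L) := by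
      have h9 : 1 - ε ≤ (1 - e) * (1 - 2 * e) := by
        have h10 : (1 - e) * (1 - 2 * e) = 1 - 3 * e + 2 * e ^ 2 := by ring
        rw [show ε = 3 * e by rw [he]; ring, h10]
        have h11 : 0 ≤ 2 * e ^ 2 := by positivity
        linarith
      have h10 : 0 ≤ Real.log (1 / q) * L := by positivity
      calc (1 - ε) * Real.log (1 / q) * L = (1 - ε) * (Real.log (1 / q) * L) := by ring
        _ ≤ (1 - e) * (1 - 2 * e) * (Real.log (1 / q) * L) := by gcongr
        _ = _ := by ring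
    linarith
  refine ⟨a, r, R, N, hnest, haS, hdis, ?_, ?_⟩
  · -- tightness
    intro i x hx
    rcases hshape i with ⟨l, hl, haP, hri, hRi⟩ | h0
    · have h1 := star (a i) haP x (dist x (a i)) l le_rfl (by
        have := hx.2; rw [hRi] at this; exact this.le) (by omega)
      have h2 := depth_le_of_sh hnest N hx
      have h3 : q ^ (l + 1) < dist x (a i) := by
        have h4 := hx.1
        rw [hri] at h4
        have h5 : 0 ≤ 2 * η * q ^ (l + 1) := by positivity
        have h6 : (1 + 2 * η) * q ^ (l + 1) = q ^ (l + 1) + 2 * η * q ^ (l + 1) := by ring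
        rw [h6] at h4
        linarith
      have h4 : Real.log (1 / dist x (a i)) ≤ (l + 1) * Real.log (1 / q) := by
        have h5 : 1 / dist x (a i) ≤ (1 / q) ^ (l + 1) := by
          rw [one_div_pow]
          exact one_div_le_one_div_of_le (by positivity) h3.le
        have h6 : 0 < dist x (a i) := lt_trans (by positivity) h3
        have h7 := Real.log_le_log (by positivity) h5
        rw [Real.log_pow] at h7
        push_cast at h7
        exact h7
      have h5 : (1 - ε) * Real.log (1 / dist x (a i)) ≤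
          (1 - ε) * ((l + 1) * Real.log (1 / q)) :=
        mul_le_mul_of_nonneg_left h4 (by linarith)
      have h6 : (1 - ε) * Real.log (1 / q) ≤ Real.log (1 / q) :=
        mul_le_of_le_one_left hlq0.le (by linarith)
      have h7 : (1 - ε) * (((l : ℝ) + 1) * Real.log (1 / q)) =
          (1 - ε) * Real.log (1 / q) * l + (1 - ε) * Real.log (1 / q) := by ring
      rw [h7] at h5
      rw [hM, one_mul]
      linarith
    · exfalso
      have h1 := hx.2
      rw [h0] at h1
      exact absurd h1 (not_lt.2 dist_nonneg)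
  · intro x hx hδx
    set d := infDist x S with hd
    have hd0 : 0 < d := lt_of_lt_of_le hδ hδx
    obtain ⟨s, hs, hxs⟩ := (infDist_lt_iff ⟨x₁, hx₁⟩).1 (show infDist x S < 2 * d by linarith)
    have hdx : d ≤ dist x x₁ := infDist_le_dist_of_mem hx₁
    have hxb := mem_ball.1 hx
    have hsb : s ∈ S ∩ closedBall x₁ ρ := by
      refine ⟨hs, ?_⟩
      rw [mem_closedBall]
      have := dist_triangle s x x₁
      rw [dist_comm s x] at this
      linarith
    obtain ⟨p, hp, hsp⟩ := hP.cov K s hsb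
    have hqK : q ^ K ≤ δ :=
      (pow_le_pow_of_le_one hq0.le hq1.le (show J ≤ K by omega)).trans hJ.le
    set t := 3 * d with ht
    have ht0 : 0 < t := by positivity
    have hxp : dist x p ≤ t := by
      have := dist_triangle x s p
      linarith
    have ht1 : t ≤ 1 := by rw [ht]; linarith
    obtain ⟨L, hL1, hL2⟩ := exists_nat_pow_near_of_lt_one ht0 ht1 hq0 hq1
    have hLJ : L ≤ J + 1 := by
      by_contra hcon
      push Not at hcon
      have h1 : q ^ L ≤ q ^ J := pow_le_pow_of_le_one hq0.le hq1.le (by omega)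
      linarith
    have h1 := star p hp x t L hxp hL2 hLJ
    have h2 : Real.log (1 / t) ≤ (L + 1) * Real.log (1 / q) := by
      have h5 : 1 / t ≤ (1 / q) ^ (L + 1) := by
        rw [one_div_pow]
        exact one_div_le_one_div_of_le (by positivity) hL1.le
      have h7 := Real.log_le_log (by positivity) h5
      rw [Real.log_pow] at h7
      push_cast at h7
      exact h7
    have h3 : Real.log (1 / d) = Real.log (1 / t) + Real.log 3 := by
      rw [ht, one_div, one_div, Real.log_inv, Real.log_inv,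
        Real.log_mul (by norm_num) hd0.ne']
      ring
    have h5 : (1 - ε) * Real.log (1 / t) ≤ (1 - ε) * ((L + 1) * Real.log (1 / q)) :=
      mul_le_mul_of_nonneg_left h2 (by linarith)
    have h6 : (1 - ε) * Real.log (1 / q) ≤ Real.log (1 / q) :=
      mul_le_of_le_one_left hlq0.le (by linarith)
    have h7 : (1 - ε) * Real.log 3 ≤ Real.log 3 :=
      mul_le_of_le_one_left hl3.le (by linarith)
    have h8 : (1 - ε) * (((L : ℝ) + 1) * Real.log (1 / q)) =
        (1 - ε) * Real.log (1 / q) * L + (1 - ε) * Real.log (1 / q) := by ring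
    rw [h8] at h5
    rw [h3, hM, mul_add]
    linarith

end Pool.Agent.TreeS
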