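import Pool.Agent.TreeS.Geh6

/-!
# From the distance to the Jacobian
-/

set_option autoImplicit false

open MeasureTheory Set Metric Filter Topology
open scoped ENNReal

namespace Pool.Agent.TreeS

open Pool.Agent.RayM

variable {n : ℕ}

theorem volume_ball_eq [Nontrivial (E n)] (x : E n) {r : ℝ} (hr : 0 ≤ r) :
    volume (ball x r) = ENNReal.ofReal (wv n * r ^ n) := by
  rw [Measure.addHaar_ball _ _ hr, finrank_euclideanSpace, Fintype.card_fin, wv,
    mul_comm, ENNReal.ofReal_mul ENNReal.toReal_nonneg,
    ENNReal.ofReal_toReal measure_ball_lt_top.ne]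

/-- The Gehring estimate at one point. -/
theorem step_A (hn : 2 ≤ n) {f : E n → E n} {S U : Set (E n)} (hf : Emb f U)
    (hs : ContDiffOn ℝ 1 f (U \ S)) (hJ : ∀ x ∈ U \ S, 0 < jac f x) {M : ℝ} (hM : 0 ≤ M)
    (hK : ∀ x ∈ U \ S, distortion f x ≤ M * ell (infDist x S))
    (hfin : ∫⁻ x in U, ENNReal.ofReal (jac f x) ≠ ⊤) {α : ℝ} (hα : 0 < α) :
    ∃ D : ℝ, 0 ≤ D ∧ ∀ y : E n, 0 < infDist y S → ball y (infDist y S) ⊆ U \ S →
      ∫⁻ x in ball y (infDist y S / 4),
        ENNReal.ofReal (jac f x * Real.log (Real.exp 1 + jac f x) ^ α) ≤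
      ENNReal.ofReal (D * ell (infDist y S) ^ α) *
        ∫⁻ x in ball y (infDist y S / 2), ENNReal.ofReal (jac f x) := by
  obtain ⟨D, hD0, hD⟩ := jlog_half hn hα
  have hw := wv_pos (n := n)
  set I := (∫⁻ x in U, ENNReal.ofReal (jac f x)).toReal with hI
  have hI0 : 0 ≤ I := ENNReal.toReal_nonneg
  set L := Real.log (Real.exp 1 + 2 ^ n * I / wv n) + n with hL
  have hL0 : 0 ≤ L := by
    have h1 : 1 ≤ Real.log (Real.exp 1 + 2 ^ n * I / wv n) := one_le_log_exp_add (by positivity)
    have h2 : (0 : ℝ) ≤ n := Nat.cast_nonneg n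
    linarith
  refine ⟨D * (L ^ α + (2 * M) ^ α), by positivity, ?_⟩
  intro y hd hsub
  set d := infDist y S with hdef
  have hell := one_le_ell d
  have hcb : closedBall y (d / 2) ⊆ U \ S :=
    (closedBall_subset_ball (by linarith)).trans hsub
  have hb : ball y (d / 2) ⊆ U \ S := ball_subset_closedBall.trans hcb
  have hbU : ball y (d / 2) ⊆ U := fun x hx => (hb hx).1
  have hRH : RH (jac f) y (d / 2) (2 * M * ell d) := by
    apply RH_of_emb hn (by linarith) (hf.mono hbU) (hs.mono hb) (fun x hx => hJ x (hb hx))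
    intro x hx
    have h1 : infDist y S ≤ infDist x S + dist y x := infDist_le_infDist_add_dist
    rw [dist_comm, ← hdef] at h1
    have h2 := mem_ball.1 hx
    have h3 : ell (infDist x S) ≤ 2 * ell d := ell_le hd (by linarith)
    calc distortion f x ≤ M * ell (infDist x S) := hK x (hb hx)
      _ ≤ M * (2 * ell d) := by gcongr
      _ = _ := by ring
  have hbdd : ∃ D', ∀ x ∈ ball y (d / 2), jac f x ≤ D' := by
    have hop : IsOpen (ball y d) := isOpen_ball
    have hc : ContinuousOn (jac f) (closedBall y (d / 2)) :=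
      (ContinuousLinearMap.continuous_det.comp_continuousOn
        ((hs.mono hsub).continuousOn_fderiv_of_isOpen hop le_rfl)).mono
        (closedBall_subset_ball (by linarith))
    obtain ⟨D', hD'⟩ := (isCompact_closedBall y (d / 2)).bddAbove_image hc
    exact ⟨D', fun x hx => hD' ⟨x, ball_subset_closedBall hx, rfl⟩⟩
  have hm1 : ∫⁻ x in ball y (d / 2), ENNReal.ofReal (jac f x) ≠ ⊤ :=
    ne_top_of_le_ne_top hfin (lintegral_mono_set hbU)
  set m := (∫⁻ x in ball y (d / 2), ENNReal.ofReal (jac f x)).toReal with hm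
  have hmI : m ≤ I := ENNReal.toReal_mono hfin (lintegral_mono_set hbU)
  have hm0 : 0 < m := by
    apply ENNReal.toReal_pos _ hm1
    have h1 : 0 < ∫⁻ x in ball y (d / 2), ENNReal.ofReal (jac f x) := by
      rw [setLIntegral_pos_iff (measurable_jac f).ennreal_ofReal]
      refine lt_of_lt_of_le (measure_ball_pos volume y (show 0 < d / 2 by linarith))
        (measure_mono ?_)
      intro x hx
      refine ⟨?_, hx⟩
      rw [Function.mem_support]
      exact (ENNReal.ofReal_pos.2 (hJ x (hb hx))).ne'
    exact h1.ne'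
  have h1 := hD (jac f) y (d / 2) (2 * M * ell d) m hRH (by linarith) hbdd hm0
    (ENNReal.ofReal_toReal hm1).symm
  rw [show d / 2 / 2 = d / 4 by ring] at h1
  refine h1.trans ?_
  rw [← ENNReal.ofReal_toReal hm1, ← hm, ← ENNReal.ofReal_mul (by positivity)]
  apply ENNReal.ofReal_le_ofReal
  apply mul_le_mul_of_nonneg_right _ hm0.le
  rw [mul_assoc D]
  apply mul_le_mul_of_nonneg_left _ hD0
  have h2 : Real.log (Real.exp 1 + m / (wv n * (d / 2) ^ n)) ≤ L * ell d := by
    have h3 := log_mean_le (n := n) (A := 2 ^ n * I / wv n) (t := d) (by positivity) hd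
    refine le_trans ?_ h3
    apply Real.log_le_log (by positivity)
    have e1 : m / (wv n * (d / 2) ^ n) = 2 ^ n * m / wv n / d ^ n := by
      rw [div_pow]; field_simp
    rw [e1]
    gcongr
  have h0 : 0 ≤ Real.log (Real.exp 1 + m / (wv n * (d / 2) ^ n)) := by
    have := one_le_log_exp_add (show 0 ≤ m / (wv n * (d / 2) ^ n) by positivity)
    linarith
  calc Real.log (Real.exp 1 + m / (wv n * (d / 2) ^ n)) ^ α + (2 * M * ell d) ^ α
      ≤ (L * ell d) ^ α + (2 * M * ell d) ^ α := by gcongr
    _ = _ := by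
      rw [Real.mul_rpow hL0 (by linarith), Real.mul_rpow (by positivity) (by linarith)]
      ring

/-- The averaging argument. -/
theorem whitney (hn : 2 ≤ n) {f : E n → E n} {S U : Set (E n)} (hf : Emb f U)
    (hs : ContDiffOn ℝ 1 f (U \ S)) (hJ : ∀ x ∈ U \ S, 0 < jac f x) {M : ℝ} (hM : 0 ≤ M)
    (hK : ∀ x ∈ U \ S, distortion f x ≤ M * ell (infDist x S))
    (hfin : ∫⁻ x in U, ENNReal.ofReal (jac f x) ≠ ⊤) {α : ℝ} (hα : 0 < α) {x₁ : E n} {ρ : ℝ}
    (hx₁ : x₁ ∈ S) (hball : ball x₁ ρ ⊆ U)
    (hell : ∫⁻ x in U, ENNReal.ofReal (jac f x) * ENNReal.ofReal (ell (infDist x S) ^ α) ≠ ⊤) :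
    ∫⁻ x in ball x₁ (ρ / 4) ∩ {x | 0 < infDist x S},
      ENNReal.ofReal (jac f x * Real.log (Real.exp 1 + jac f x) ^ α) ≠ ⊤ := by
  have hnt := nontrivial_E hn
  have hw := wv_pos (n := n)
  obtain ⟨D, hD0, hA⟩ := step_A hn hf hs hJ hM hK hfin hα
  set d : E n → ℝ := fun x => infDist x S with hd
  have hdc : Continuous d := continuous_infDist_pt S
  have hd1 : ∀ x y, d x ≤ d y + dist x y := fun x y => infDist_le_infDist_add_dist
  set V' : Set (E n) := ball x₁ (ρ / 2) ∩ {y | 0 < d y} with hV'
  have hV'o : IsOpen V' := isOpen_ball.inter (isOpen_lt continuous_const hdc)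
  have hV'sub : ∀ y ∈ V', ball y (d y) ⊆ U \ S := by
    intro y hy z hz
    have h1 : d y ≤ dist y x₁ := infDist_le_dist_of_mem hx₁
    have h2 := mem_ball.1 hy.1
    have h3 := mem_ball.1 hz
    refine ⟨hball ?_, ?_⟩
    · rw [mem_ball]
      have := dist_triangle z y x₁
      linarith
    · intro hzS
      have h4 : d y ≤ dist y z := infDist_le_dist_of_mem hzS
      rw [dist_comm] at h4
      linarith
  set T₁ : Set (E n × E n) := {p | p.1 ∈ V' ∧ dist p.2 p.1 < d p.1 / 4} with hT₁
  set T₂ : Set (E n × E n) := {p | p.1 ∈ V' ∧ dist p.2 p.1 < d p.1 / 2} with hT₂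
  have hT₁m : MeasurableSet T₁ := ((hV'o.preimage continuous_fst).inter
    (isOpen_lt (continuous_snd.dist continuous_fst)
      ((hdc.comp continuous_fst).div_const 4))).measurableSet
  have hT₂m : MeasurableSet T₂ := ((hV'o.preimage continuous_fst).inter
    (isOpen_lt (continuous_snd.dist continuous_fst)
      ((hdc.comp continuous_fst).div_const 2))).measurableSet
  set g₁ : E n → ℝ≥0∞ := fun y => ENNReal.ofReal (1 / d y ^ n) with hg₁
  set g₂ : E n → ℝ≥0∞ := fun y => ENNReal.ofReal (1 / d y ^ n) *
    ENNReal.ofReal (D * ell (d y) ^ α) with hg₂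
  have hg₁m : Measurable g₁ := by
    apply Measurable.ennreal_ofReal
    exact (hdc.measurable.pow_const n).const_div 1
  have hg₂m : Measurable g₂ := by
    apply hg₁m.mul
    apply Measurable.ennreal_ofReal
    exact ((measurable_ell.comp hdc.measurable).pow_const α).const_mul D
  set H₁ : E n → ℝ≥0∞ := fun x =>
    ENNReal.ofReal (jac f x * Real.log (Real.exp 1 + jac f x) ^ α) with hH₁
  set H₂ : E n → ℝ≥0∞ := fun x => ENNReal.ofReal (jac f x) with hH₂
  have hH₁m : Measurable H₁ := (measurable_jlog f α).ennreal_ofReal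
  have hH₂m : Measurable H₂ := (measurable_jac f).ennreal_ofReal
  -- Gehring at every point
  have hB : ∫⁻ y, g₁ y * ∫⁻ x in {x | (y, x) ∈ T₁}, H₁ x ≤
      ∫⁻ y, g₂ y * ∫⁻ x in {x | (y, x) ∈ T₂}, H₂ x := by
    apply lintegral_mono
    intro y
    simp only
    by_cases hy : y ∈ V'
    · have e1 : {x | (y, x) ∈ T₁} = ball y (d y / 4) := by
        ext x
        simp only [hT₁, mem_ofPred_eq, mem_ball]
        exact ⟨fun h => h.2, fun h => ⟨hy, h⟩⟩
      have e2 : {x | (y, x) ∈ T₂} = ball y (d y / 2) := by
        ext x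
        simp only [hT₂, mem_ofPred_eq, mem_ball]
        exact ⟨fun h => h.2, fun h => ⟨hy, h⟩⟩
      rw [e1, e2, hg₂]
      simp only
      rw [mul_assoc]
      exact mul_le_mul_right (hA y hy.2 (hV'sub y hy)) _
    · have e1 : {x | (y, x) ∈ T₁} = ∅ := by
        ext x
        simp only [hT₁, mem_ofPred_eq, mem_empty_iff_false, iff_false]
        exact fun h => hy h.1
      rw [e1]
      simp
  rw [tonelli_set hT₁m hg₁m hH₁m, tonelli_set hT₂m hg₂m hH₂m] at hB
  -- lower bound
  have hC : ENNReal.ofReal (wv n / 9 ^ n) * ∫⁻ x in ball x₁ (ρ / 4) ∩ {x | 0 < d x}, H₁ x ≤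
      ∫⁻ x, H₁ x * ∫⁻ y in {y | (y, x) ∈ T₁}, g₁ y := by
    rw [← lintegral_const_mul' _ _ ENNReal.ofReal_ne_top]
    refine le_trans ?_ (setLIntegral_le_lintegral (ball x₁ (ρ / 4) ∩ {x | 0 < d x}) _)
    apply setLIntegral_mono'
      (isOpen_ball.inter (isOpen_lt continuous_const hdc)).measurableSet
    intro x hx
    rw [mul_comm]
    apply mul_le_mul_right
    have hdx : 0 < d x := hx.2
    have hx1 := mem_ball.1 hx.1
    have hdρ : d x ≤ dist x x₁ := infDist_le_dist_of_mem hx₁
    calc ENNReal.ofReal (wv n / 9 ^ n)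
        = ENNReal.ofReal (1 / (9 * d x / 8) ^ n) * volume (ball x (d x / 8)) := by
          rw [volume_ball_eq x (by positivity), ← ENNReal.ofReal_mul (by positivity)]
          congr 1
          rw [div_pow, div_pow, mul_pow]
          field_simp
      _ = ∫⁻ _ in ball x (d x / 8), ENNReal.ofReal (1 / (9 * d x / 8) ^ n) := by
          rw [lintegral_const, Measure.restrict_apply_univ]
      _ ≤ ∫⁻ y in ball x (d x / 8), g₁ y := by
          apply setLIntegral_mono' measurableSet_ball
          intro y hy
          have h1 := mem_ball.1 hy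
          have h2 := hd1 y x
          have h3 := hd1 x y
          rw [dist_comm x y] at h3
          apply ENNReal.ofReal_le_ofReal
          have h4 : 0 < d y := by linarith
          have h5 : d y ≤ 9 * d x / 8 := by linarith
          exact one_div_le_one_div_of_le (by positivity) (by gcongr)
      _ ≤ ∫⁻ y in {y | (y, x) ∈ T₁}, g₁ y := by
          apply lintegral_mono_set
          intro y hy
          have h1 := mem_ball.1 hy
          have h3 := hd1 x y
          rw [dist_comm x y] at h3
          refine ⟨⟨?_, ?_⟩, ?_⟩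
          · rw [mem_ball]
            have := dist_triangle y x x₁
            linarith
          · change 0 < d y
            linarith
          · change dist x y < d y / 4
            rw [dist_comm]
            linarith
  -- upper bound
  set D₃ := D * 2 ^ α * (3 / 2) ^ n * wv n with hD₃
  have hE : ∫⁻ x, H₂ x * ∫⁻ y in {y | (y, x) ∈ T₂}, g₂ y ≤
      ENNReal.ofReal D₃ * ∫⁻ x in U, H₂ x * ENNReal.ofReal (ell (d x) ^ α) := by
    have hpt : ∀ x, H₂ x * ∫⁻ y in {y | (y, x) ∈ T₂}, g₂ y ≤
        (toMeasurable volume U).indicator (fun x => ENNReal.ofReal D₃ *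
          (H₂ x * ENNReal.ofReal (ell (d x) ^ α))) x := by
      intro x
      by_cases hne : {y | (y, x) ∈ T₂} = ∅
      · rw [hne]; simp
      · obtain ⟨y₀, hy₀⟩ := nonempty_iff_ne_empty.2 hne
        have hxU : x ∈ U \ S := hV'sub y₀ hy₀.1 (by
          rw [mem_ball]
          have h1 : dist x y₀ < d y₀ / 2 := hy₀.2
          have h2 : 0 < d y₀ := hy₀.1.2
          linarith)
        have hdx : 0 < d x := by
          have h1 : dist x y₀ < d y₀ / 2 := hy₀.2
          have h2 : 0 < d y₀ := hy₀.1.2
          have h3 := hd1 y₀ x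
          rw [dist_comm] at h3
          linarith
        rw [indicator_of_mem (subset_toMeasurable _ _ hxU.1)]
        have key : ∫⁻ y in {y | (y, x) ∈ T₂}, g₂ y ≤ ENNReal.ofReal (D₃ * ell (d x) ^ α) := by
          have hell1 := one_le_ell (d x)
          calc ∫⁻ y in {y | (y, x) ∈ T₂}, g₂ y
              ≤ ∫⁻ _ in {y | (y, x) ∈ T₂}, ENNReal.ofReal ((3 / 2) ^ n / d x ^ n *
                (D * (2 * ell (d x)) ^ α)) := by
                apply setLIntegral_mono' (measurable_prodMk_right hT₂m)
                intro y hy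
                have h1 : dist x y < d y / 2 := hy.2
                have h2 : 0 < d y := hy.1.2
                have h3 := hd1 x y
                have h4 : 2 * d x / 3 ≤ d y := by linarith
                rw [hg₂]
                simp only
                rw [← ENNReal.ofReal_mul (by positivity)]
                apply ENNReal.ofReal_le_ofReal
                have h5 : 1 / d y ^ n ≤ (3 / 2) ^ n / d x ^ n := by
                  rw [← div_pow, ← one_div_pow]
                  have : 1 / d y ≤ 3 / 2 / d x := by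
                    rw [div_div, div_le_div_iff₀ h2 (by positivity)]
                    linarith
                  gcongr
                have h6 : ell (d y) ≤ 2 * ell (d x) := ell_le hdx (by linarith)
                have h7 := one_le_ell (d y)
                gcongr
            _ ≤ ENNReal.ofReal ((3 / 2) ^ n / d x ^ n * (D * (2 * ell (d x)) ^ α)) *
                volume (ball x (d x)) := by
                rw [lintegral_const, Measure.restrict_apply_univ]
                apply mul_le_mul_right
                apply measure_mono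
                intro y hy
                have h1 : dist x y < d y / 2 := hy.2
                have h3 := hd1 y x
                rw [dist_comm] at h3
                rw [mem_ball, dist_comm]
                linarith
            _ = _ := by
                rw [volume_ball_eq x hdx.le, ← ENNReal.ofReal_mul (by positivity)]
                congr 1
                rw [hD₃, Real.mul_rpow (by norm_num) (by linarith)]
                field_simp
        calc H₂ x * ∫⁻ y in {y | (y, x) ∈ T₂}, g₂ y ≤
            H₂ x * ENNReal.ofReal (D₃ * ell (d x) ^ α) := mul_le_mul_right key _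
          _ = _ := by
              rw [ENNReal.ofReal_mul (by positivity)]
              ring
    refine (lintegral_mono hpt).trans (le_of_eq ?_)
    rw [lintegral_indicator (measurableSet_toMeasurable _ _),
      lintegral_const_mul' _ _ ENNReal.ofReal_ne_top, Measure.restrict_toMeasurable_of_sFinite]
  intro htop
  rw [htop] at hC
  have h1 : ENNReal.ofReal (wv n / 9 ^ n) * ⊤ = ⊤ :=
    ENNReal.mul_top (ENNReal.ofReal_pos.2 (by positivity)).ne'
  rw [h1] at hC
  exact ENNReal.mul_ne_top ENNReal.ofReal_ne_top hell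
    (top_le_iff.1 ((hC.trans hB).trans hE))

end Pool.Agent.TreeS
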