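import Pool.Agent.TreeS.Tight

/-!
# The weighted bound, uniform over tight families
-/

set_option autoImplicit false

open MeasureTheory Set Metric Filter Topology
open scoped ENNReal

namespace Pool.Agent.TreeS

open Pool.Agent.RayM

variable {n : ℕ} {U : Set (E n)} {f : E n → E n}

/-- The bound for the weighted integrals of tight families, uniform over the families. -/
theorem weighted_bound3 (hn : 2 ≤ n) (hU : IsOpen U) (hf : Emb f U)
    (hae : ∀ᵐ x ∂((volume : Measure (E n)).restrict U), DifferentiableAt ℝ f x ∧ 0 ≤ jac f x)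
    {lam ε M α β η : ℝ} (hlam : 0 < lam) (hε0 : 0 < ε) (hεη : ε ≤ η)
    (hη1 : η < 1) (hβ : 0 < β) (hη : lam * α ≤ (1 - η) ^ 3 * β)
    (hfin : ∫⁻ x in U, ENNReal.ofReal (jac f x) ≠ ⊤)
    (hexp : ∫⁻ x in U, ENNReal.ofReal (Real.exp (β * distortion f x)) ≠ ⊤) :
    ∃ B : ℝ, ∀ (a : ℕ → E n) (r R : ℕ → ℝ), GoodFam f U a r R → TightFam lam ε M a r R →
      ∀ N, ∫⁻ x in U, ENNReal.ofReal (jac f x) *
        ENNReal.ofReal ((1 + depth a r R N x) ^ α) ≤ ENNReal.ofReal B := by
  have hn0 : (0 : ℝ) < n := by exact_mod_cast (by omega : 0 < n)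
  have hη0 : 0 < η := hε0.trans_le hεη
  have hη' : 0 < 1 - η := by linarith
  have hε' : 0 < 1 - ε := by linarith
  set b := (1 - η) * β with hb
  have hb0 : 0 < b := by positivity
  have hbβ : b < β := by rw [hb]; nlinarith
  obtain ⟨C, hC0, hC⟩ := exp_mean hn hb0 hbβ
  set κ := lam * n / (b * (1 - ε)) with hκ
  have hκ0 : 0 < κ := by positivity
  set θ := (1 - η) * n with hθ
  have hθ0 : 0 < θ := by positivity
  have hθn : θ < n := by rw [hθ]; nlinarith
  have hαθ : α ≤ θ / κ := by
    have e1 : θ / κ = (1 - η) ^ 2 * (1 - ε) * β / lam := by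
      rw [hθ, hκ, hb]; field_simp
    rw [e1, le_div_iff₀ hlam]
    calc α * lam = lam * α := mul_comm _ _
      _ ≤ (1 - η) ^ 3 * β := hη
      _ = (1 - η) ^ 2 * (1 - η) * β := by ring
      _ ≤ (1 - η) ^ 2 * (1 - ε) * β := by gcongr
  set D := Real.exp (n * M / (1 - ε)) * C with hD
  have hD0 : 0 ≤ D := by positivity
  set W := ∫⁻ x in U, ENNReal.ofReal (Real.exp (β * distortion f x)) with hW
  set G := D * W.toReal with hG
  set A := n * (∫⁻ x in U, ENNReal.ofReal (jac f x)).toReal / (n - θ) with hA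
  refine ⟨Real.exp (θ / κ * G) * A, ?_⟩
  intro a r R h ht N
  set I : ℕ → ℝ≥0∞ := fun i => ∫⁻ x in sh (a i) (r i) (R i),
    ENNReal.ofReal (Real.exp (β * distortion f x)) with hI
  have hIW : ∀ i, I i ≤ W := fun i => lintegral_mono_set (sh_sub h.toNested i)
  have hIfin : ∀ i, I i ≠ ⊤ := fun i => ne_top_of_le_ne_top hexp (hIW i)
  set e : ℕ → ℝ := fun i => D * (I i).toReal with he
  have he0 : ∀ i, 0 ≤ e i := fun i => mul_nonneg hD0 ENNReal.toReal_nonneg
  have heb : ∀ i, ∫⁻ τ in Ioo (r i) (R i), ENNReal.ofReal (err b κ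
      (1 + depth a r R i (a i)) f (a i) (R i) τ) ≤ ENNReal.ofReal (e i) := by
    intro i
    have h1 := err_bound hn h hlam (by linarith) ht hb0 hC0 hC i
    refine h1.trans (le_of_eq ?_)
    rw [he]
    simp only
    rw [ENNReal.ofReal_mul hD0, ENNReal.ofReal_toReal (hIfin i)]
  have hsum : ∀ N, ∑ i ∈ Finset.range N, e i ≤ D * W.toReal := by
    intro N
    rw [he, ← Finset.mul_sum]
    apply mul_le_mul_of_nonneg_left _ hD0
    rw [← ENNReal.toReal_sum (fun i _ => hIfin i)]
    apply ENNReal.toReal_mono hexp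
    calc ∑ i ∈ Finset.range N, I i = ∫⁻ x in ⋃ k ∈ Finset.range N, sh (a k) (r k) (R k),
          ENNReal.ofReal (Real.exp (β * distortion f x)) :=
          (lintegral_biUnion_finset (sh_pairwise h.toNested _)
            (fun k _ => (isOpen_sh _ _ _).measurableSet) _).symm
      _ ≤ W := by
          apply lintegral_mono_set
          exact iUnion₂_subset (fun k _ => sh_sub h.toNested k)
  have hstar := star hn hU hf hae h hθ0 hθn hfin
  have hpt : ∀ x, ENNReal.ofReal ((1 + depth a r R N x) ^ α) ≤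
      ENNReal.ofReal (Real.exp (θ / κ * G)) * ENNReal.ofReal (Real.exp (θ * pk f a r R N x)) := by
    intro x
    rw [← ENNReal.ofReal_mul (Real.exp_pos _).le]
    apply ENNReal.ofReal_le_ofReal
    have hdn := depth_nonneg (a := a) (r := r) (R := R) N x
    have h1 := pk_lower hn h hb0 hκ0 he0 heb N x
    have h2 := hsum N
    have hl : 0 ≤ Real.log (1 + depth a r R N x) := Real.log_nonneg (by linarith)
    rw [Real.rpow_def_of_pos (by linarith), ← Real.exp_add]
    apply Real.exp_le_exp.2
    have h3 : (Real.log (1 + depth a r R N x) - G) / κ ≤ pk f a r R N x := by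
      refine le_trans ?_ h1
      gcongr
    have h4 : θ * ((Real.log (1 + depth a r R N x) - G) / κ) ≤ θ * pk f a r R N x :=
      mul_le_mul_of_nonneg_left h3 hθ0.le
    have h5 : Real.log (1 + depth a r R N x) * α ≤ Real.log (1 + depth a r R N x) * (θ / κ) :=
      mul_le_mul_of_nonneg_left hαθ hl
    have e6 : θ * ((Real.log (1 + depth a r R N x) - G) / κ) =
        Real.log (1 + depth a r R N x) * (θ / κ) - θ / κ * G := by
      field_simp
    rw [e6] at h4
    linarith
  calc ∫⁻ x in U, ENNReal.ofReal (jac f x) * ENNReal.ofReal ((1 + depth a r R N x) ^ α)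
      ≤ ∫⁻ x in U, ENNReal.ofReal (Real.exp (θ / κ * G)) * (ENNReal.ofReal (jac f x) *
          ENNReal.ofReal (Real.exp (θ * pk f a r R N x))) := by
        apply lintegral_mono
        intro x
        simp only
        calc ENNReal.ofReal (jac f x) * ENNReal.ofReal ((1 + depth a r R N x) ^ α)
            ≤ ENNReal.ofReal (jac f x) * (ENNReal.ofReal (Real.exp (θ / κ * G)) *
              ENNReal.ofReal (Real.exp (θ * pk f a r R N x))) := mul_le_mul_right (hpt x) _
          _ = _ := by ring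
    _ = ENNReal.ofReal (Real.exp (θ / κ * G)) * ∫⁻ x in U, (ENNReal.ofReal (jac f x) *
          ENNReal.ofReal (Real.exp (θ * pk f a r R N x))) :=
        lintegral_const_mul' _ _ ENNReal.ofReal_ne_top
    _ ≤ ENNReal.ofReal (Real.exp (θ / κ * G)) * ENNReal.ofReal A := mul_le_mul_right (hstar N) _
    _ = _ := (ENNReal.ofReal_mul (Real.exp_pos _).le).symm

end Pool.Agent.TreeS
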