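import Pool.Agent.TreeS.Asd6
import Pool.Agent.TreeS.Tight3
import Pool.Agent.TreeS.Geh7

/-!
# Integrability of the Jacobian against powers of the logarithm of the distance
-/

set_option autoImplicit false

open MeasureTheory Set Metric Filter Topology
open scoped ENNReal

namespace Pool.Agent.TreeS

open Pool.Agent.RayM

variable {n : ℕ}

/-- A set of Assouad dimension zero near `x₁` is a null set near `x₁`. -/
theorem null_of_assouad (hn : 2 ≤ n) {S : Set (E n)} {x₁ : E n} (hx₁ : x₁ ∈ S)
    (hS : AssouadZeroAt S x₁) : ∃ ρ : ℝ, 0 < ρ ∧ volume (S ∩ ball x₁ ρ) = 0 := by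
  have hnt := nontrivial_E hn
  have hw := wv_pos (n := n)
  obtain ⟨ρ, hρ, hass⟩ := hS
  refine ⟨ρ, hρ, ?_⟩
  obtain ⟨C, hC⟩ := hass 1 one_pos
  have hbound : ∀ r : ℝ, 0 < r → r ≤ ρ → r ≤ 1 →
      volume (S ∩ ball x₁ ρ) ≤ ENNReal.ofReal (|C| * ρ * wv n * r) := by
    intro r hr hrρ hr1
    obtain ⟨F, hF1, hF2⟩ := hC x₁ ⟨hx₁, mem_ball_self hρ⟩ r ρ hr hrρ le_rfl
    rw [Real.rpow_one] at hF1
    calc volume (S ∩ ball x₁ ρ) ≤ volume (⋃ y ∈ F, closedBall y r) :=
          measure_mono ((inter_subset_inter_right _ ball_subset_closedBall).trans hF2)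
      _ ≤ ∑ y ∈ F, volume (closedBall y r) := measure_biUnion_finset_le _ _
      _ = ENNReal.ofReal (F.card * (wv n * r ^ n)) := by
          have e1 : ENNReal.ofReal ((F.card : ℝ) * (wv n * r ^ n)) =
              (F.card : ℝ≥0∞) * ENNReal.ofReal (wv n * r ^ n) := by
            rw [ENNReal.ofReal_mul (by positivity), ENNReal.ofReal_natCast]
          rw [Finset.sum_congr rfl (fun y _ => volume_closedBall_eq y hr.le), Finset.sum_const,
            nsmul_eq_mul, e1]
      _ ≤ ENNReal.ofReal (|C| * ρ * wv n * r) := by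
          apply ENNReal.ofReal_le_ofReal
          have h1 : (F.card : ℝ) ≤ |C| * (ρ / r) := by
            refine hF1.trans ?_
            gcongr
            exact le_abs_self _
          have h2 : r ^ n ≤ r ^ 2 := pow_le_pow_of_le_one hr.le hr1 hn
          calc (F.card : ℝ) * (wv n * r ^ n) ≤ |C| * (ρ / r) * (wv n * r ^ 2) := by gcongr
            _ = _ := by field_simp
  have hlim : Tendsto (fun k : ℕ => ENNReal.ofReal (|C| * ρ * wv n * (min ρ 1 / (k + 1))))
      atTop (𝓝 0) := by
    have h1 : Tendsto (fun k : ℕ => |C| * ρ * wv n * (min ρ 1 / ((k : ℝ) + 1))) atTop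
        (𝓝 (|C| * ρ * wv n * 0)) := by
      apply Tendsto.const_mul
      have h2 := (tendsto_const_div_atTop_nhds_zero_nat (min ρ 1)).comp (tendsto_add_atTop_nat 1)
      refine h2.congr (fun k => ?_)
      simp only [Function.comp_apply, Nat.cast_add, Nat.cast_one]
    rw [mul_zero] at h1
    have h2 := ENNReal.tendsto_ofReal h1
    rwa [ENNReal.ofReal_zero] at h2
  have hle : volume (S ∩ ball x₁ ρ) ≤ 0 := by
    apply ge_of_tendsto' hlim
    intro k
    have hm : 0 < min ρ 1 := lt_min hρ one_pos
    have hk : (0 : ℝ) < (k : ℝ) + 1 := by positivity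
    have h3 : min ρ 1 / ((k : ℝ) + 1) ≤ min ρ 1 := div_le_self hm.le (by linarith)
    exact hbound _ (by positivity) (h3.trans (min_le_left _ _)) (h3.trans (min_le_right _ _))
  exact le_antisymm hle bot_le

/-- Near a point of `S` the Jacobian is integrable against `(1 + log⁺ (1 / dist(x, S)))^α`. -/
theorem ell_integrable (hn : 2 ≤ n) {f : E n → E n} {S U : Set (E n)} {x₁ : E n}
    (hx₁ : x₁ ∈ S) (hS : AssouadZeroAt S x₁) (hU : IsOpen U) (hxU : x₁ ∈ U)
    (hUS : IsOpen (U \ S)) (hf : Emb f U) (hs : ContDiffOn ℝ 1 f (U \ S))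
    (hJ : ∀ x ∈ U \ S, 0 < jac f x) (hnull : volume (S ∩ U) = 0) {α β : ℝ} (hα : 0 < α)
    (hαβ : α < β) (hfin : ∫⁻ x in U, ENNReal.ofReal (jac f x) ≠ ⊤)
    (hexp : ∫⁻ x in U, ENNReal.ofReal (Real.exp (β * distortion f x)) ≠ ⊤) :
    ∃ ρ : ℝ, 0 < ρ ∧ ball x₁ ρ ⊆ U ∧
      ∫⁻ x in ball x₁ ρ, ENNReal.ofReal (jac f x) * ENNReal.ofReal (ell (infDist x S) ^ α) ≠ ⊤ := by
  have hβ : 0 < β := hα.trans hαβ
  have hSnull : ∀ᵐ x ∂((volume : Measure (E n)).restrict U), x ∉ S := by
    rw [ae_restrict_iff' hU.measurableSet, ae_iff]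
    refine measure_mono_null ?_ hnull
    intro x hx
    simp only [mem_ofPred_eq, not_forall, not_not] at hx
    obtain ⟨h1, h2⟩ := hx
    exact ⟨h2, h1⟩
  have hmemU : ∀ᵐ x ∂((volume : Measure (E n)).restrict U), x ∈ U :=
    ae_restrict_mem hU.measurableSet
  have hae : ∀ᵐ x ∂((volume : Measure (E n)).restrict U), DifferentiableAt ℝ f x ∧
      0 ≤ jac f x := by
    filter_upwards [hSnull, hmemU] with x h1 h2
    have h3 : x ∈ U \ S := ⟨h2, h1⟩
    exact ⟨(hs.contDiffAt (hUS.mem_nhds h3)).differentiableAt (by norm_num), (hJ x h3).le⟩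
  have hSne : S.Nonempty := ⟨x₁, hx₁⟩
  have hdpos : ∀ x ∈ U \ S, 0 < infDist x S := by
    intro x hx
    have h2 : x ∉ closure S := by
      intro hcl
      obtain ⟨y, hy1, hy2⟩ := mem_closure_iff_nhds.1 hcl _ (hUS.mem_nhds hx)
      exact hy1.2 hy2
    have h3 : 0 < infDist x (closure S) :=
      (isClosed_closure.notMem_iff_infDist_pos hSne.closure).1 h2
    rwa [infDist_closure] at h3
  obtain ⟨ρ, hρ, hρU, hsh⟩ := assouad_shells hx₁ hS (hU.mem_nhds hxU)
  refine ⟨ρ, hρ, hρU, ?_⟩
  -- parameters
  set q := α / β with hq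
  have hq0 : 0 < q := by positivity
  have hq1 : q < 1 := by rw [hq, div_lt_one hβ]; exact hαβ
  set η := (1 - q) / 3 with hη
  have hη0 : 0 < η := by rw [hη]; linarith
  have hη1 : η < 1 := by rw [hη]; linarith
  have hη3 : 1 * α ≤ (1 - η) ^ 3 * β := by
    have h1 : q ≤ (1 - η) ^ 3 := by
      have h2 : q = 1 - 3 * η := by rw [hη]; ring
      rw [h2]
      nlinarith [sq_nonneg η, mul_pos hη0 hη0, mul_pos (mul_pos hη0 hη0) hη0,
        mul_nonneg (sq_nonneg η) (show 0 ≤ 3 - η by linarith)]
    calc 1 * α = q * β := by rw [hq]; field_simp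
      _ ≤ _ := by gcongr
  have hη' : 0 < 1 - η := by linarith
  obtain ⟨M, hM⟩ := hsh η hη0 hη1
  obtain ⟨B, hB⟩ := weighted_bound3 (M := M) hn hU hf hae one_pos hη0 le_rfl hη1 hβ hη3
    hfin hexp
  set C := (1 + |M|) / (1 - η) with hC
  have hC0 : 0 < C := by
    have := abs_nonneg M
    positivity
  set A : ℕ → Set (E n) := fun k => ball x₁ ρ ∩ {x | 1 / ((k : ℝ) + 1) ≤ infDist x S} with hA
  have hdm : Measurable (fun x : E n => infDist x S) := (continuous_infDist_pt S).measurable
  have hAm : ∀ k, MeasurableSet (A k) := fun k =>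
    measurableSet_ball.inter (measurableSet_le measurable_const hdm)
  have hbound : ∀ k, ∫⁻ x in A k, ENNReal.ofReal (jac f x) *
      ENNReal.ofReal (ell (infDist x S) ^ α) ≤ ENNReal.ofReal (C ^ α) * ENNReal.ofReal B := by
    intro k
    obtain ⟨a, r, R, N, hnest, haS, hdis, htight, hdepth⟩ := hM (1 / ((k : ℝ) + 1))
      (by positivity)
    have hshU : ∀ i, sh (a i) (r i) (R i) ⊆ U \ S := by
      intro i x hx
      exact ⟨sh_sub hnest i hx, fun hxS => Set.disjoint_left.1 (hdis i) hx hxS⟩
    have hgood : GoodFam f U a r R :=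
      { toNested := hnest
        good := fun i => ⟨hnest.pos i, hs.mono (hshU i), fun x hx => hJ x (hshU i hx)⟩ }
    have h1 := hB a r R hgood htight N
    calc ∫⁻ x in A k, ENNReal.ofReal (jac f x) * ENNReal.ofReal (ell (infDist x S) ^ α)
        ≤ ∫⁻ x in A k, ENNReal.ofReal (C ^ α) * (ENNReal.ofReal (jac f x) *
          ENNReal.ofReal ((1 + depth a r R N x) ^ α)) := by
          apply setLIntegral_mono' (hAm k)
          intro x hx
          have h2 := hdepth x hx.1 hx.2
          have hd : 0 < infDist x S := lt_of_lt_of_le (by positivity) hx.2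
          have hdn := depth_nonneg (a := a) (r := r) (R := R) N x
          have hle : ell (infDist x S) ≤ C * (1 + depth a r R N x) := by
            have h3 : Real.log (max 1 (1 / infDist x S)) ≤ (depth a r R N x + |M|) / (1 - η) := by
              rw [le_div_iff₀ hη']
              rcases max_choice 1 (1 / infDist x S) with h | h
              · rw [h, Real.log_one, zero_mul]
                have := abs_nonneg M
                linarith
              · rw [h]
                have := le_abs_self M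
                linarith
            unfold ell
            have h4 : C * (1 + depth a r R N x) - (1 + (depth a r R N x + |M|) / (1 - η)) =
                (η + |M| * depth a r R N x) / (1 - η) := by
              rw [hC]; field_simp; ring
            have h5 : 0 ≤ (η + |M| * depth a r R N x) / (1 - η) := by
              have := abs_nonneg M
              positivity
            linarith
          have hell := one_le_ell (infDist x S)
          calc ENNReal.ofReal (jac f x) * ENNReal.ofReal (ell (infDist x S) ^ α)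
              ≤ ENNReal.ofReal (jac f x) *
                ENNReal.ofReal (C ^ α * (1 + depth a r R N x) ^ α) := by
                apply mul_le_mul_right
                apply ENNReal.ofReal_le_ofReal
                rw [← Real.mul_rpow hC0.le (by linarith)]
                exact Real.rpow_le_rpow (by linarith) hle hα.le
            _ = _ := by
                rw [ENNReal.ofReal_mul (by positivity)]
                ring
      _ = ENNReal.ofReal (C ^ α) * ∫⁻ x in A k, ENNReal.ofReal (jac f x) *
          ENNReal.ofReal ((1 + depth a r R N x) ^ α) :=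
          lintegral_const_mul' _ _ ENNReal.ofReal_ne_top
      _ ≤ ENNReal.ofReal (C ^ α) * ∫⁻ x in U, ENNReal.ofReal (jac f x) *
          ENNReal.ofReal ((1 + depth a r R N x) ^ α) :=
          mul_le_mul_right (lintegral_mono_set (inter_subset_left.trans hρU)) _
      _ ≤ _ := mul_le_mul_right h1 _
  have hmonoA : Monotone A := by
    intro k k' hkk x hx
    have h1 : (k : ℝ) ≤ k' := by exact_mod_cast hkk
    have h2 : 1 / ((k' : ℝ) + 1) ≤ 1 / ((k : ℝ) + 1) :=
      one_div_le_one_div_of_le (by positivity) (by linarith)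
    exact ⟨hx.1, h2.trans hx.2⟩
  have hsub : ∫⁻ x in ball x₁ ρ, ENNReal.ofReal (jac f x) *
      ENNReal.ofReal (ell (infDist x S) ^ α) ≤ ∫⁻ x in ⋃ k, A k, ENNReal.ofReal (jac f x) *
      ENNReal.ofReal (ell (infDist x S) ^ α) := by
    apply lintegral_mono' _ le_rfl
    have hAU : (ball x₁ ρ : Set (E n)) ≤ᵐ[volume] ⋃ k, A k := by
      have h1 := ae_restrict_of_ae_restrict_of_subset hρU hSnull
      rw [ae_restrict_iff' measurableSet_ball] at h1
      filter_upwards [h1] with x h2 hx
      have h3 := hdpos x ⟨hρU hx, h2 hx⟩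
      obtain ⟨k, hk⟩ := exists_nat_one_div_lt h3
      change x ∈ ⋃ k, A k
      rw [mem_iUnion]
      exact ⟨k, hx, hk.le⟩
    exact Measure.restrict_mono_ae hAU
  have hlast : ∫⁻ x in ⋃ k, A k, ENNReal.ofReal (jac f x) *
      ENNReal.ofReal (ell (infDist x S) ^ α) ≤ ENNReal.ofReal (C ^ α) * ENNReal.ofReal B := by
    rw [setLIntegral_iUnion_of_directed _ hmonoA.directed_le]
    exact iSup_le hbound
  exact ne_top_of_le_ne_top (ENNReal.mul_ne_top ENNReal.ofReal_ne_top ENNReal.ofReal_ne_top)
    (hsub.trans hlast)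

end Pool.Agent.TreeS
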