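import Pool.Agent.TreeS.PLm
import Pool.Agent.RayM.Pt

/-!
# Thickenings of compact sets (Brunn-Minkowski) and the smallest stretching of a linear map
-/

set_option autoImplicit false

open MeasureTheory Set Metric
open scoped ENNReal

namespace Pool.Agent.TreeS

open Pool.Agent.RayM

variable {n : ℕ}

lemma prekopa {m : ℕ} (hm : 1 ≤ m) {f g h : E n → ℝ≥0∞} (hf : Measurable f) (hg : Measurable g)
    (hh : Measurable h)
    (H : ∀ x y, f x ^ m * g y ≤ h (PLm.w₁ m • x + PLm.w₂ m • y) ^ (m + 1)) :
    (∫⁻ x, f x) ^ m * (∫⁻ x, g x) ≤ (∫⁻ x, h x) ^ (m + 1) := by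
  have hmm : Measurable (WithLp.toLp 2 : (Fin n → ℝ) → E n) :=
    (PiLp.volume_preserving_toLp (Fin n)).measurable
  have key : ∀ F : E n → ℝ≥0∞, Measurable F → ∫⁻ x, F x = ∫⁻ x : Fin n → ℝ, F (WithLp.toLp 2 x) :=
    fun F hF => ((PiLp.volume_preserving_toLp (Fin n)).lintegral_comp hF).symm
  rw [key f hf, key g hg, key h hh]
  apply PLm.prekopa_leindler hm n (hf.comp hmm) (hg.comp hmm) (hh.comp hmm)
  intro x y
  exact H (WithLp.toLp 2 x) (WithLp.toLp 2 y)

lemma brunn {m : ℕ} (hm : 1 ≤ m) {A B C : Set (E n)} (hA : MeasurableSet A) (hB : MeasurableSet B)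
    (hC : MeasurableSet C) (H : ∀ x ∈ A, ∀ y ∈ B, PLm.w₁ m • x + PLm.w₂ m • y ∈ C) :
    volume A ^ m * volume B ≤ volume C ^ (m + 1) := by
  have h1 := prekopa (n := n) hm (f := A.indicator 1) (g := B.indicator 1)
    (h := C.indicator 1) (measurable_one.indicator hA) (measurable_one.indicator hB)
    (measurable_one.indicator hC) (by
      intro x y
      by_cases hx : x ∈ A
      · by_cases hy : y ∈ B
        · rw [indicator_of_mem hx, indicator_of_mem hy, indicator_of_mem (H x hx y hy)]
          simp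
        · rw [indicator_of_notMem hy]; simp
      · rw [indicator_of_notMem hx]
        simp [show m ≠ 0 by omega])
  rwa [lintegral_indicator_one hA, lintegral_indicator_one hB, lintegral_indicator_one hC] at h1

/-- The volume of a thickening of a compact set, compared with the ball of the same volume. -/
theorem vol_cthickening_ge {K : Set (E n)} (hK : IsCompact K) {ρ : ℝ}
    (hv : volume (closedBall (0 : E n) ρ) = volume K) {m : ℕ} (hm : 1 ≤ m) :
    ENNReal.ofReal ((1 + 1 / (m : ℝ)) ^ n) * volume K ≤ volume (cthickening (ρ / m) K) := by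
  have hm0 : (0 : ℝ) < m := by exact_mod_cast hm
  set T := cthickening (ρ / m) K with hT
  have hTc : IsCompact T := hK.cthickening
  -- the set `C = (1 + 1/m)⁻¹ T`
  set c : ℝ := 1 + 1 / (m : ℝ) with hc
  have hc0 : 0 < c := by positivity
  set C : Set (E n) := (fun x => c⁻¹ • x) '' T with hCdef
  have hCm : MeasurableSet C := (hTc.image (continuous_const_smul _)).measurableSet
  have hCv : volume C = ENNReal.ofReal (c⁻¹ ^ n) * volume T := by
    have := Measure.addHaar_smul (volume : Measure (E n)) c⁻¹ T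
    rw [finrank_euclideanSpace, Fintype.card_fin, abs_of_nonneg (by positivity)] at this
    exact this
  have h1 := brunn (n := n) hm hK.measurableSet (isClosed_closedBall (x := (0 : E n)) (ε := ρ)).measurableSet
    hCm (by
      intro x hx y hy
      refine ⟨x + (m : ℝ)⁻¹ • y, ?_, ?_⟩
      · apply mem_cthickening_of_dist_le (x + (m : ℝ)⁻¹ • y) x _ _ hx
        rw [dist_self_add_left, norm_smul, norm_inv, Real.norm_of_nonneg hm0.le]
        rw [mem_closedBall_zero_iff] at hy
        rw [div_eq_inv_mul]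
        gcongr
      · simp only [smul_add, smul_smul]
        congr 2
        · unfold PLm.w₁; rw [hc]; field_simp
        · unfold PLm.w₂; rw [hc]; field_simp)
  rw [hv, ← pow_succ, hCv] at h1
  have h2 : volume K ≤ ENNReal.ofReal (c⁻¹ ^ n) * volume T := by
    by_contra hcon
    exact absurd h1 (not_le.2 (ENNReal.pow_lt_pow_left (by omega) (not_le.1 hcon)))
  calc ENNReal.ofReal (c ^ n) * volume K ≤ ENNReal.ofReal (c ^ n) *
        (ENNReal.ofReal (c⁻¹ ^ n) * volume T) := by gcongr
    _ = volume T := by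
        rw [← mul_assoc, ← ENNReal.ofReal_mul (by positivity), ← mul_pow, mul_inv_cancel₀ hc0.ne',
          one_pow, ENNReal.ofReal_one, one_mul]

/-- Hadamard's inequality with one distinguished direction. -/
theorem abs_det_le_apply (A : E n →L[ℝ] E n) {w : E n} (hw : ‖w‖ = 1) :
    |A.det| ≤ ‖A w‖ * ‖A‖ ^ (n - 1) := by
  have hn : 0 < n := by
    rcases Nat.eq_zero_or_pos n with h | h
    · subst h
      have : w = 0 := Subsingleton.elim _ _
      rw [this, norm_zero] at hw
      exact absurd hw (by norm_num)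
    · exact h
  set i₀ : Fin n := ⟨0, hn⟩
  have hfr : Fact (Module.finrank ℝ (E n) = n) := ⟨by simp⟩
  obtain ⟨b, hb⟩ := (show Orthonormal ℝ (({i₀} : Set (Fin n)).domRestrict (fun _ : Fin n => w)) from by
    constructor
    · intro i; exact hw
    · intro i j hij
      exact absurd (Subsingleton.elim i j) hij).exists_orthonormalBasis_extension_of_card_eq
      (by simp)
  have hb0 : b i₀ = w := hb i₀ (mem_singleton _)
  have h1 : (b.toBasis.orientation.volumeForm : E n [⋀^Fin n]→ₗ[ℝ] ℝ) = b.toBasis.det :=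
    b.toBasis.orientation.volumeForm_robust b rfl
  have h2 := b.toBasis.orientation.abs_volumeForm_apply_le (fun i => A (b i))
  rw [h1] at h2
  have h3 : b.toBasis.det (fun i => A (b i)) = A.det := by
    have := b.toBasis.det_comp (A : E n →ₗ[ℝ] E n) (fun i => b i)
    have e : b.toBasis.det (fun i => b i) = 1 := by
      have := b.toBasis.det_self
      simpa using this
    rw [e, mul_one] at this
    exact this
  rw [h3] at h2
  refine h2.trans ?_
  rw [← Finset.mul_prod_erase Finset.univ _ (Finset.mem_univ i₀), hb0]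
  gcongr
  calc ∏ i ∈ Finset.univ.erase i₀, ‖A (b i)‖ ≤ ∏ _i ∈ Finset.univ.erase i₀, ‖A‖ := by
        apply Finset.prod_le_prod (fun i _ => norm_nonneg _)
        intro i _
        have := A.le_opNorm (b i)
        rwa [b.orthonormal.1 i, mul_one] at this
    _ = ‖A‖ ^ (n - 1) := by
        rw [Finset.prod_const, Finset.card_erase_of_mem (Finset.mem_univ _), Finset.card_univ,
          Fintype.card_fin]

/-- The inverse of a linear map with positive determinant. -/
theorem norm_inv_le {A : E n →L[ℝ] E n} (hA : 0 < A.det) (B : E n →L[ℝ] E n)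
    (hB : ∀ u, A (B u) = u) : ‖B‖ ≤ ‖A‖ ^ (n - 1) / A.det := by
  apply ContinuousLinearMap.opNorm_le_bound _ (by positivity)
  intro u
  by_cases hu : B u = 0
  · rw [hu, norm_zero]; positivity
  have hpos : 0 < ‖B u‖ := norm_pos_iff.2 hu
  have h1 := abs_det_le_apply A (w := ‖B u‖⁻¹ • B u) (by
    rw [norm_smul, norm_inv, norm_norm, inv_mul_cancel₀ hpos.ne'])
  rw [map_smul, hB, norm_smul, norm_inv, norm_norm, abs_of_pos hA] at h1
  rw [div_mul_eq_mul_div, le_div_iff₀ hA]
  have h2 : ‖B u‖ * A.det ≤ ‖B u‖ * (‖B u‖⁻¹ * ‖u‖ * ‖A‖ ^ (n - 1)) := by gcongr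
  refine h2.trans (le_of_eq ?_)
  field_simp

end Pool.Agent.TreeS
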