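import Pool.Agent.TreeS.Point

/-!
# The radial example is locally shelled
-/

set_option autoImplicit false

open MeasureTheory Set Metric Filter Topology
open scoped ENNReal

namespace Pool.Agent.TreeS

open Pool.Agent.RayM

variable {n : ℕ}

/-- The radial example. -/
noncomputable def radF (n : ℕ) (β : ℝ) : E n → E n := exG n β (fun x => x)

theorem phi_strictMonoOn (hn : 2 ≤ n) {β : ℝ} (hβ : 0 < β) :
    StrictMonoOn (phi n β) (Ioo 0 (Real.exp (-(4 + 2 * β)))) := by
  apply strictMonoOn_of_deriv_pos (convex_Ioo _ _)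
  · exact (contDiffOn_phi hβ).continuousOn
  · intro r hr
    rw [interior_Ioo] at hr
    obtain ⟨_, hs, _⟩ := t_facts hβ hr.1 hr.2
    rw [(hasDerivAt_phi hn hβ hr.1 hr.2).deriv]
    have h1 := phi_pos (n := n) (β := β) hs
    have h2 := one_le_kk hn hβ hr.1 hr.2
    have := hr.1
    positivity

theorem norm_radF {β : ℝ} {x : E n} (hn : 2 ≤ n) (hβ : 0 < β) (hx : x ≠ 0)
    (hxR : ‖x‖ < Real.exp (-(4 + 2 * β))) : ‖radF n β x‖ = phi n β ‖x‖ := by
  obtain ⟨_, hs, _⟩ := t_facts hβ (norm_pos_iff.2 hx) hxR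
  exact norm_exG (angular_id hn) hx (phi_pos hs).le

theorem contDiffAt_radF {β : ℝ} (hβ : 0 < β) {x : E n} (hx : x ≠ 0)
    (hxR : ‖x‖ < Real.exp (-(4 + 2 * β))) : ContDiffAt ℝ 1 (radF n β) x := by
  have hr : 0 < ‖x‖ := norm_pos_iff.2 hx
  have h2 : ContDiffAt ℝ 1 (fun z : E n => ‖z‖) x := contDiffAt_norm ℝ hx
  have h3 : ContDiffAt ℝ 1 (phi n β) ‖x‖ :=
    (contDiffOn_phi hβ).contDiffAt (Ioo_mem_nhds hr hxR)
  exact ((h3.comp x h2).div h2 hr.ne').smul contDiffAt_id

theorem jac_radF (hn : 2 ≤ n) {β : ℝ} (hβ : 0 < β) {x : E n} (hx : x ≠ 0)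
    (hxR : ‖x‖ < Real.exp (-(4 + 2 * β))) :
    jac (radF n β) x = (phi n β ‖x‖ / ‖x‖) ^ n / kk n β ‖x‖ := by
  unfold radF
  rw [jac_exG hn (angular_id hn) hβ hx hxR differentiableAt_id]
  have h2 : jac (fun x : E n => x) x = 1 := by
    unfold jac
    rw [fderiv_fun_id]
    unfold ContinuousLinearMap.det
    simp
  rw [h2, one_mul]

theorem jac_radF_pos (hn : 2 ≤ n) {β : ℝ} (hβ : 0 < β) {x : E n} (hx : x ≠ 0)
    (hxR : ‖x‖ < Real.exp (-(4 + 2 * β))) : 0 < jac (radF n β) x := by
  have hr : 0 < ‖x‖ := norm_pos_iff.2 hx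
  obtain ⟨_, hs, _⟩ := t_facts hβ hr hxR
  rw [jac_radF hn hβ hx hxR]
  have h1 := phi_pos (n := n) (β := β) hs
  have h2 := one_le_kk hn hβ hr hxR
  positivity

theorem emb_radF (hn : 2 ≤ n) {β : ℝ} (hβ : 0 < β) :
    Emb (radF n β) (ball 0 (Real.exp (-(4 + 2 * β)))) where
  cont := continuousOn_exG hn (angular_id hn) hβ
  inj := by
    have hf0 : radF n β (0 : E n) = 0 := by unfold radF exG; simp
    intro x hx y hy hxy
    rw [mem_ball_zero_iff] at hx hy
    have key : ∀ z : E n, ‖z‖ < Real.exp (-(4 + 2 * β)) → z ≠ 0 → radF n β z ≠ 0 := by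
      intro z hz hz0 h
      obtain ⟨_, hs, _⟩ := t_facts hβ (norm_pos_iff.2 hz0) hz
      have h1 := norm_radF hn hβ hz0 hz
      rw [h, norm_zero] at h1
      exact (phi_pos (n := n) (β := β) hs).ne h1
    by_cases hx0 : x = 0
    · subst hx0
      by_contra hy0
      exact key y hy (fun h => hy0 h.symm) (hxy.symm.trans hf0)
    · by_cases hy0 : y = 0
      · subst hy0
        exact absurd (hxy.trans hf0) (key x hx hx0)
      · have h1 := norm_radF hn hβ hx0 hx
        rw [hxy, norm_radF hn hβ hy0 hy] at h1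
        have h2 : ‖x‖ = ‖y‖ := ((phi_strictMonoOn hn hβ).injOn ⟨norm_pos_iff.2 hx0, hx⟩
          ⟨norm_pos_iff.2 hy0, hy⟩ h1.symm)
        obtain ⟨_, hs, _⟩ := t_facts hβ (norm_pos_iff.2 hy0) hy
        have h3 := phi_pos (n := n) (β := β) hs
        have h4 : 0 < ‖y‖ := norm_pos_iff.2 hy0
        unfold radF exG at hxy
        rw [h2] at hxy
        have h5 : phi n β ‖y‖ / ‖y‖ ≠ 0 := by positivity
        exact smul_right_injective (E n) h5 hxy
  opn := by
    have hf0 : radF n β (0 : E n) = 0 := by unfold radF exG; simp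
    intro V hV hVR
    rw [isOpen_iff_mem_nhds]
    rintro _ ⟨x, hx, rfl⟩
    have hxR : ‖x‖ < Real.exp (-(4 + 2 * β)) := by
      have := hVR hx
      rwa [mem_ball_zero_iff] at this
    by_cases hx0 : x = 0
    · subst hx0
      rw [hf0]
      obtain ⟨δ, hδ, hδV⟩ := Metric.isOpen_iff.1 hV 0 hx
      set ε := min (δ / 2) (Real.exp (-(4 + 2 * β)) / 2) with hε
      have hε0 : 0 < ε := lt_min (by positivity) (by positivity)
      have hεδ : ε < δ := (min_le_left _ _).trans_lt (by linarith)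
      have hεR : ε < Real.exp (-(4 + 2 * β)) := (min_le_right _ _).trans_lt (by
        linarith [Real.exp_pos (-(4 + 2 * β))])
      obtain ⟨_, hs, _⟩ := t_facts hβ hε0 hεR
      have hφ := phi_pos (n := n) (β := β) hs
      refine mem_of_superset (ball_mem_nhds (0 : E n) hφ) ?_
      intro z hz
      rw [mem_ball_zero_iff] at hz
      by_cases hz0 : z = 0
      · subst hz0
        exact ⟨0, hx, hf0⟩
      · have hz1 : 0 < ‖z‖ := norm_pos_iff.2 hz0
        have h1 := (tendsto_phi hn hβ).eventually (gt_mem_nhds hz1)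
        have h2 : ∀ᶠ r : ℝ in 𝓝[>] 0, r < ε := by
          apply mem_nhdsWithin_of_mem_nhds
          exact Iio_mem_nhds hε0
        have h3 : ∀ᶠ r : ℝ in 𝓝[>] 0, 0 < r := self_mem_nhdsWithin
        obtain ⟨r₀, h4, h5, h6⟩ := (h1.and (h2.and h3)).exists
        have h7 : ContinuousOn (phi n β) (Icc r₀ ε) :=
          (contDiffOn_phi hβ).continuousOn.mono
            (fun r hr => ⟨h6.trans_le hr.1, hr.2.trans_lt hεR⟩)
        obtain ⟨r, hr, hrz⟩ := intermediate_value_Icc h5.le h7 ⟨h4.le, hz.le⟩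
        have hr0 : 0 < r := h6.trans_le hr.1
        have hnx : ‖(r / ‖z‖) • z‖ = r := by
          rw [norm_smul, Real.norm_of_nonneg (by positivity)]
          field_simp
        refine ⟨(r / ‖z‖) • z, hδV ?_, ?_⟩
        · rw [mem_ball_zero_iff, hnx]
          exact hr.2.trans_lt hεδ
        · unfold radF exG
          rw [hnx, hrz, smul_smul]
          have : ‖z‖ / r * (r / ‖z‖) = 1 := by field_simp
          rw [this, one_smul]
    · have hc := contDiffAt_radF hβ hx0 hxR
      have hst := hc.hasStrictFDerivAt (by norm_num)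
      have hJ := jac_radF_pos hn hβ hx0 hxR
      have hne : (fderiv ℝ (radF n β) x).det ≠ 0 := hJ.ne'
      set L : E n ≃L[ℝ] E n :=
        ContinuousLinearMap.toContinuousLinearEquivOfDetNeZero (fderiv ℝ (radF n β) x) hne
      have hLe : (L : E n →L[ℝ] E n) = fderiv ℝ (radF n β) x := by
        ext v; simp [L]
      rw [← hLe] at hst
      rw [← hst.map_nhds_eq_of_equiv]
      exact image_mem_map (hV.mem_nhds hx)

theorem locallyShelled_radF (hn : 2 ≤ n) {β : ℝ} (hβ : 0 < β) :
    LocallyShelled 1 (ball (0 : E n) (Real.exp (-(4 + 2 * β)))) (radF n β) where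
  cont := continuousOn_exG hn (angular_id hn) hβ
  diff := (rayMap_exG hn one_pos (exactAngular_id hn) hβ).diff
  near := by
    intro x hx
    rw [mem_ball_zero_iff] at hx
    set R₀ := Real.exp (-(4 + 2 * β)) with hR₀
    have hR1 : R₀ < 1 := by rw [hR₀, Real.exp_lt_one_iff]; linarith
    set ρ := (‖x‖ + R₀) / 2 with hρ
    have hρ0 : 0 < ρ := by
      have := Real.exp_pos (-(4 + 2 * β))
      have := norm_nonneg x
      positivity
    have hρR : ρ < R₀ := by linarith
    have hρ1 : ρ < 1 := hρR.trans hR1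
    have hcl : closure (ball (0 : E n) ρ) ⊆ closedBall 0 ρ := closure_ball_subset_closedBall
    have hsub : ball (0 : E n) ρ ⊆ ball 0 R₀ := ball_subset_ball hρR.le
    refine ⟨ball 0 ρ, isOpen_ball, by rw [mem_ball_zero_iff]; linarith,
      (isCompact_closedBall (0 : E n) ρ).of_isClosed_subset isClosed_closure hcl,
      hcl.trans (closedBall_subset_ball hρR), (emb_radF hn hβ).mono hsub, ?_⟩
    intro ε hε
    refine ⟨_, _, _, _, shellBound_point (lam := 1) (M := 1) hn (by positivity) hρ0 ?_ ?_ ?_⟩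
    · rintro z ⟨hz, hz0⟩
      exact (contDiffAt_radF hβ hz0 (mem_ball_zero_iff.1 (hsub hz))).contDiffWithinAt
    · intro z hz hz0
      exact jac_radF_pos hn hβ hz0 (mem_ball_zero_iff.1 (hsub hz))
    · filter_upwards [ne_ae hn 0] with z hz0 hz
      have hzR := mem_ball_zero_iff.1 (hsub hz)
      have hz1 : ‖z‖ < 1 := (mem_ball_zero_iff.1 hz).trans hρ1
      have hr : 0 < ‖z‖ := norm_pos_iff.2 hz0
      obtain ⟨_, hs, _⟩ := t_facts hβ hr hzR
      have h1 := phi_pos (n := n) (β := β) hs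
      have h2 := one_le_kk hn hβ hr hzR
      have h3 := phi_le_one hn hβ hs
      rw [jac_radF hn hβ hz0 hzR, dist_zero_right, one_mul, one_mul]
      have h4 : 1 ≤ Real.exp (ε * distortion (radF n β) z) := by
        apply Real.one_le_exp
        have := one_le_distortion (radF n β) z
        positivity
      calc (phi n β ‖z‖ / ‖z‖) ^ n / kk n β ‖z‖ ≤ (phi n β ‖z‖ / ‖z‖) ^ n :=
            div_le_self (by positivity) h2
        _ ≤ (1 / ‖z‖) ^ n := by gcongr
        _ = ‖z‖ ^ (-(n : ℝ)) := by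
            rw [Real.rpow_neg hr.le, Real.rpow_natCast, one_div, inv_pow]
        _ ≤ ‖z‖ ^ (-((n : ℝ) + ε)) := by
            apply Real.rpow_le_rpow_of_exponent_ge hr hz1.le
            linarith
        _ = ‖z‖ ^ (-((n : ℝ) + ε)) * 1 := (mul_one _).symm
        _ ≤ _ := by gcongr

end Pool.Agent.TreeS
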