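import Pool.Agent.TreeS.Kbar

/-!
# A reverse Hölder inequality for the Jacobian
-/

set_option autoImplicit false

open MeasureTheory Set Metric Filter Topology
open scoped ENNReal

namespace Pool.Agent.TreeS

open Pool.Agent.RayM

variable {n : ℕ}

/-- The volume of the unit ball. -/
noncomputable def wv (n : ℕ) : ℝ := (volume (ball (0 : E n) 1)).toReal

theorem wv_pos : 0 < wv n :=
  ENNReal.toReal_pos (measure_ball_pos _ _ one_pos).ne' measure_ball_lt_top.ne

theorem volume_closedBall_eq (x : E n) {r : ℝ} (hr : 0 ≤ r) :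
    volume (closedBall x r) = ENNReal.ofReal (wv n * r ^ n) := by
  rw [Measure.addHaar_closedBall _ _ hr, finrank_euclideanSpace, Fintype.card_fin, wv,
    mul_comm, ENNReal.ofReal_mul ENNReal.toReal_nonneg,
    ENNReal.ofReal_toReal measure_ball_lt_top.ne]

/-- The exponent `(n - 1) / n`. -/
noncomputable def p0 (n : ℕ) : ℝ := ((n : ℝ) - 1) / n

/-- The reverse Hölder inequality, in the form needed below. -/
theorem rh (hn : 2 ≤ n) {f : E n → E n} {y : E n} {r R k T : ℝ} (hr : 0 < r) (h2r : 2 * r < R)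
    (hf : Emb f (ball y R)) (hs : ContDiffOn ℝ 1 f (ball y R))
    (hJ : ∀ x ∈ ball y R, 0 < jac f x) (hk : ∀ x ∈ ball y R, distortion f x ≤ k) (hT : 0 ≤ T)
    (hm : ENNReal.ofReal (T * (wv n * r ^ n)) ≤
      ∫⁻ x in closedBall y r, ENNReal.ofReal (jac f x)) :
    ENNReal.ofReal (n * (wv n * r ^ n) * T ^ p0 n) ≤
      ENNReal.ofReal (k ^ p0 n) *
        ∫⁻ x in closedBall y (2 * r), ENNReal.ofReal (jac f x ^ p0 n) := by
  have hnt := nontrivial_E hn
  have hn0 : (0 : ℝ) < n := by exact_mod_cast (by omega : 0 < n)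
  have hn1 : (1 : ℝ) < n := by exact_mod_cast (by omega : 1 < n)
  have hw := wv_pos (n := n)
  have hp0 : 0 < p0 n := div_pos (by linarith) hn0
  have hcast : ((n - 1 : ℕ) : ℝ) = (n : ℝ) - 1 := by
    push_cast [Nat.cast_sub (by omega : 1 ≤ n)]; ring
  have hk1 : 1 ≤ k := (one_le_distortion f y).trans (hk y (mem_ball_self (by linarith)))
  have hop : IsOpen (ball y R) := isOpen_ball
  have hcD : ContinuousOn (fderiv ℝ f) (ball y R) := hs.continuousOn_fderiv_of_isOpen hop le_rfl
  have hcJ : ContinuousOn (jac f) (ball y R) :=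
    ContinuousLinearMap.continuous_det.comp_continuousOn hcD
  have hpow : ∀ z : ℝ, 0 ≤ z → (z ^ n) ^ p0 n = z ^ (n - 1) := by
    intro z hz
    rw [← Real.rpow_natCast z n, ← Real.rpow_mul hz, p0, mul_div_cancel₀ _ hn0.ne', ← hcast,
      Real.rpow_natCast]
  have key : ∀ τ ∈ Ioo r (2 * r), ENNReal.ofReal (n * wv n * (T ^ p0 n * r ^ (n - 1))) ≤
      ENNReal.ofReal (k ^ p0 n) * ∫⁻ ω : sphere (0 : E n) 1, ENNReal.ofReal (τ ^ (n - 1)) *
        ENNReal.ofReal (jac f (y + τ • (ω : E n)) ^ p0 n)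
          ∂(volume : Measure (E n)).toSphere := by
    intro τ hτ
    have hτ0 : 0 < τ := hr.trans hτ.1
    have hτR : τ < R := by linarith [hτ.2]
    have hsub : ∀ x, dist x y ≤ (τ + R) / 2 → x ∈ ball y R := fun x hx => by
      rw [mem_ball]; linarith
    have hd : ∀ x, τ ≤ dist x y → dist x y ≤ (τ + R) / 2 →
        DifferentiableAt ℝ f x ∧ 0 < jac f x := fun x _ hx =>
      ⟨(hs.contDiffAt (hop.mem_nhds (hsub x hx))).differentiableAt (by norm_num), hJ x (hsub x hx)⟩
    have hc : ContinuousOn (fderiv ℝ f) {x | τ ≤ dist x y ∧ dist x y ≤ (τ + R) / 2} :=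
      hcD.mono (fun x hx => hsub x hx.2)
    obtain ⟨ρ, hρ0, hv, hI⟩ := iso1 hn hτ0 (by linarith : τ < (τ + R) / 2)
      (by linarith : (τ + R) / 2 < R) hf hd hc
    -- the volume of the image
    have hKc : IsCompact (f '' closedBall y τ) :=
      (isCompact_closedBall y τ).image_of_continuousOn
        (hf.cont.mono (closedBall_subset_ball hτR))
    have h1 : ENNReal.ofReal (T * (wv n * r ^ n)) ≤ volume (f '' closedBall y τ) := by
      refine hm.trans ?_
      have h2 : closedBall y τ ⊆ ball y R := closedBall_subset_ball hτR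
      rw [vol_image_eq hf h2 measurableSet_closedBall (fun x hx =>
        ⟨(hs.contDiffAt (hop.mem_nhds (h2 hx))).differentiableAt (by norm_num),
          (hJ x (h2 hx)).le⟩)]
      exact lintegral_mono_set (closedBall_subset_closedBall hτ.1.le)
    rw [← ENNReal.ofReal_toReal hKc.measure_lt_top.ne, hv] at h1
    have hρn : T * r ^ n ≤ ρ ^ n := by
      rw [ENNReal.ofReal_le_ofReal_iff (by positivity)] at h1
      have h2 : wv n * (T * r ^ n) ≤ wv n * ρ ^ n := by
        calc wv n * (T * r ^ n) = T * (wv n * r ^ n) := by ring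
          _ ≤ _ := h1
      exact le_of_mul_le_mul_left h2 hw
    have hρm : T ^ p0 n * r ^ (n - 1) ≤ ρ ^ (n - 1) := by
      have h2 := Real.rpow_le_rpow (by positivity) hρn hp0.le
      rwa [Real.mul_rpow hT (by positivity), hpow r hr.le, hpow ρ hρ0.le] at h2
    -- the spherical integral
    have hmem : ∀ ω : sphere (0 : E n) 1, y + τ • (ω : E n) ∈ ball y R := by
      intro ω
      rw [mem_ball, dist_sphere y ω hτ0.le]
      exact hτR
    have hcJs : Continuous (fun ω : sphere (0 : E n) 1 => jac f (y + τ • (ω : E n))) :=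
      hcJ.comp_continuous (by fun_prop) hmem
    have hcDs : Continuous (fun ω : sphere (0 : E n) 1 => fderiv ℝ f (y + τ • (ω : E n))) :=
      hcD.comp_continuous (by fun_prop) hmem
    have hJp : ∀ ω : sphere (0 : E n) 1, 0 < jac f (y + τ • (ω : E n)) := fun ω => hJ _ (hmem ω)
    have hcJp : Continuous (fun ω : sphere (0 : E n) 1 =>
        jac f (y + τ • (ω : E n)) ^ p0 n) :=
      hcJs.rpow_const (fun ω => Or.inl (hJp ω).ne')
    have hi : ∀ g : sphere (0 : E n) 1 → ℝ, Continuous g →
        Integrable g (volume : Measure (E n)).toSphere := fun g hg =>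
      hg.integrable_of_hasCompactSupport (HasCompactSupport.of_compactSpace _)
    have hpt : ∀ ω : sphere (0 : E n) 1, ‖fderiv ℝ f (y + τ • (ω : E n))‖ ^ (n - 1) ≤
        k ^ p0 n * jac f (y + τ • (ω : E n)) ^ p0 n := by
      intro ω
      have h3 : ‖fderiv ℝ f (y + τ • (ω : E n))‖ ^ n ≤ k * jac f (y + τ • (ω : E n)) := by
        have h4 := hk _ (hmem ω)
        rw [distortion_eq (hJp ω), div_le_iff₀ (hJp ω)] at h4
        exact h4
      rw [← hpow _ (norm_nonneg _), ← Real.mul_rpow (by linarith) (hJp ω).le]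
      exact Real.rpow_le_rpow (by positivity) h3 hp0.le
    have h5 : ∫ ω : sphere (0 : E n) 1, ‖fderiv ℝ f (y + τ • (ω : E n))‖ ^ (n - 1)
        ∂(volume : Measure (E n)).toSphere ≤
        k ^ p0 n * ∫ ω : sphere (0 : E n) 1, jac f (y + τ • (ω : E n)) ^ p0 n
          ∂(volume : Measure (E n)).toSphere := by
      rw [← integral_const_mul]
      exact integral_mono (hi _ (hcDs.norm.pow _)) (hi _ (hcJp.const_mul _)) hpt
    have h6 : n * wv n * (T ^ p0 n * r ^ (n - 1)) ≤
        k ^ p0 n * (τ ^ (n - 1) * ∫ ω : sphere (0 : E n) 1, jac f (y + τ • (ω : E n)) ^ p0 n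
          ∂(volume : Measure (E n)).toSphere) := by
      calc n * wv n * (T ^ p0 n * r ^ (n - 1)) ≤ n * wv n * ρ ^ (n - 1) := by gcongr
        _ ≤ τ ^ (n - 1) * ∫ ω : sphere (0 : E n) 1, ‖fderiv ℝ f (y + τ • (ω : E n))‖ ^ (n - 1)
              ∂(volume : Measure (E n)).toSphere := hI
        _ ≤ τ ^ (n - 1) * (k ^ p0 n * ∫ ω : sphere (0 : E n) 1,
              jac f (y + τ • (ω : E n)) ^ p0 n ∂(volume : Measure (E n)).toSphere) := by gcongr
        _ = _ := by ring
    refine (ENNReal.ofReal_le_ofReal h6).trans (le_of_eq ?_)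
    rw [ENNReal.ofReal_mul (by positivity), ENNReal.ofReal_mul (by positivity),
      ofReal_integral_eq_lintegral_ofReal (hi _ hcJp) (Filter.Eventually.of_forall (fun ω => by
        have := hJp ω
        simp only [Pi.zero_apply]
        positivity)),
      lintegral_const_mul' _ _ ENNReal.ofReal_ne_top]
  have hmJ : Measurable (fun x : E n => ENNReal.ofReal (jac f x ^ p0 n)) :=
    ((measurable_jac f).pow_const _).ennreal_ofReal
  have h7 : ∫⁻ τ in Ioo r (2 * r), ENNReal.ofReal (n * wv n * (T ^ p0 n * r ^ (n - 1))) ≤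
      ENNReal.ofReal (k ^ p0 n) * ∫⁻ x in sh y r (2 * r), ENNReal.ofReal (jac f x ^ p0 n) := by
    rw [← polar_shell hmJ hr, ← lintegral_const_mul' _ _ ENNReal.ofReal_ne_top]
    exact setLIntegral_mono' measurableSet_Ioo key
  rw [lintegral_const, Measure.restrict_apply_univ, Real.volume_Ioo,
    show 2 * r - r = r by ring, ← ENNReal.ofReal_mul (by positivity)] at h7
  have e1 : n * wv n * (T ^ p0 n * r ^ (n - 1)) * r = n * (wv n * r ^ n) * T ^ p0 n := by
    have : r ^ n = r ^ (n - 1) * r := by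
      rw [← pow_succ]; congr 1; omega
    rw [this]; ring
  rw [e1] at h7
  refine h7.trans (mul_le_mul_right (lintegral_mono_set ?_) _)
  intro x hx
  exact mem_closedBall.2 hx.2.le

end Pool.Agent.TreeS
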