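import Pool.Agent.TreeS.Geh1

/-!
# The stopping radii
-/

set_option autoImplicit false

open MeasureTheory Set Metric Filter Topology
open scoped ENNReal

namespace Pool.Agent.TreeS

open Pool.Agent.RayM

variable {n : ℕ}

/-- A positive continuous function on a ball with the reverse Hölder inequality of `rh`. -/
structure RH (J : E n → ℝ) (x₀ : E n) (R k : ℝ) : Prop where
  meas : Measurable J
  pos : ∀ x ∈ ball x₀ R, 0 < J x
  cont : ContinuousOn J (ball x₀ R)
  one_le : 1 ≤ k
  rh : ∀ (y : E n) (r T : ℝ), 0 < r → 0 ≤ T → 2 * r < R - dist y x₀ →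
    ENNReal.ofReal (T * (wv n * r ^ n)) ≤ ∫⁻ x in closedBall y r, ENNReal.ofReal (J x) →
    ENNReal.ofReal (n * (wv n * r ^ n) * T ^ p0 n) ≤
      ENNReal.ofReal (k ^ p0 n) * ∫⁻ x in closedBall y (2 * r), ENNReal.ofReal (J x ^ p0 n)

variable {J : E n → ℝ} {x₀ : E n} {R k : ℝ}

theorem stop (h : RH J x₀ R k) {τ : ℝ} (hτ : 0 < τ)
    (hm : ∫⁻ x in ball x₀ R, ENNReal.ofReal (J x) ≤ ENNReal.ofReal (wv n * τ / 20 ^ n))
    {x : E n} (hx : x ∈ ball x₀ R) (hΦ : τ < (R - dist x x₀) ^ n * J x) :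
    ∃ r : ℝ, 0 < r ∧ 200 * r ≤ R - dist x x₀ ∧
      ENNReal.ofReal (τ / (R - dist x x₀) ^ n * (wv n * r ^ n)) ≤
        ∫⁻ z in closedBall x r, ENNReal.ofReal (J z) ∧
      ∫⁻ z in closedBall x (10 * r), ENNReal.ofReal (J z) ≤
        ENNReal.ofReal (τ / (R - dist x x₀) ^ n * (wv n * (10 * r) ^ n)) := by
  have hw := wv_pos (n := n)
  set δ := R - dist x x₀ with hδ
  have hδ0 : 0 < δ := by rw [hδ]; linarith [mem_ball.1 hx]
  set T := τ / δ ^ n with hT
  have hT0 : 0 < T := by positivity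
  have hTJ : T < J x := by
    rw [hT, div_lt_iff₀ (by positivity)]
    linarith
  set ρ : ℕ → ℝ := fun j => δ / 20 * (1 / 10) ^ j with hρ
  have hρ0 : ∀ j, 0 < ρ j := fun j => by positivity
  have hρs : ∀ j, ρ j = 10 * ρ (j + 1) := fun j => by rw [hρ]; simp only; rw [pow_succ]; ring
  have hρle : ∀ j, ρ j ≤ δ / 20 := fun j => by
    rw [hρ]
    simp only
    have : (1 / 10 : ℝ) ^ j ≤ 1 := pow_le_one₀ (by norm_num) (by norm_num)
    nlinarith
  -- small balls
  have hex : ∃ j, ENNReal.ofReal (T * (wv n * ρ (j + 1) ^ n)) ≤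
      ∫⁻ z in closedBall x (ρ (j + 1)), ENNReal.ofReal (J z) := by
    have hc := h.cont.continuousAt (isOpen_ball.mem_nhds hx)
    have h1 : ∀ᶠ z in 𝓝 x, T < J z := hc.eventually (lt_mem_nhds hTJ)
    obtain ⟨ε, hε, hεb⟩ := (nhds_basis_closedBall.mem_iff).1 h1
    have h2 : Tendsto ρ atTop (𝓝 0) := by
      have := (tendsto_pow_atTop_nhds_zero_of_lt_one (r := (1 / 10 : ℝ)) (by norm_num)
        (by norm_num)).const_mul (δ / 20)
      rwa [mul_zero] at this
    obtain ⟨j, hj⟩ := (((tendsto_add_atTop_iff_nat 1).2 h2).eventually (gt_mem_nhds hε)).exists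
    refine ⟨j, ?_⟩
    rw [ENNReal.ofReal_mul hT0.le, ← volume_closedBall_eq x (hρ0 _).le]
    calc ENNReal.ofReal T * volume (closedBall x (ρ (j + 1)))
        = ∫⁻ _ in closedBall x (ρ (j + 1)), ENNReal.ofReal T := by
          rw [lintegral_const, Measure.restrict_apply_univ]
      _ ≤ _ := by
          apply setLIntegral_mono' measurableSet_closedBall
          intro z hz
          exact ENNReal.ofReal_le_ofReal
            (hεb (closedBall_subset_closedBall (le_of_lt hj) hz)).le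
  classical
  set j := Nat.find hex with hj
  have hj1 := Nat.find_spec hex
  have hj2 : ∫⁻ z in closedBall x (ρ j), ENNReal.ofReal (J z) ≤
      ENNReal.ofReal (T * (wv n * ρ j ^ n)) := by
    rcases Nat.eq_zero_or_pos j with h0 | h0
    · rw [h0]
      have e1 : T * (wv n * ρ 0 ^ n) = wv n * τ / 20 ^ n := by
        rw [hT, hρ]
        simp only [pow_zero, mul_one, div_pow]
        field_simp
      rw [e1]
      refine le_trans (lintegral_mono_set ?_) hm
      intro z hz
      rw [mem_closedBall] at hz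
      rw [mem_ball]
      have h3 := dist_triangle z x x₀
      have h4 := hρle 0
      linarith
    · have h5 := Nat.find_min hex (m := j - 1) (by omega)
      rw [show j - 1 + 1 = j by omega] at h5
      exact (not_le.1 h5).le
  refine ⟨ρ (j + 1), hρ0 _, ?_, hj1, ?_⟩
  · have h4 := hρle j
    rw [hρs j] at h4
    linarith
  · rw [← hρs j]
    exact hj2

end Pool.Agent.TreeS
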