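import Pool.Agent.TreeS.Geh2

/-!
# The level inequality of Gehring
-/

set_option autoImplicit false

open MeasureTheory Set Metric Filter Topology
open scoped ENNReal

namespace Pool.Agent.TreeS

open Pool.Agent.RayM

variable {n : ℕ} {J : E n → ℝ} {x₀ : E n} {R k : ℝ}

/-- The function `dist(x, ∂B)^n J(x)`. -/
noncomputable def Ph (J : E n → ℝ) (x₀ : E n) (R : ℝ) (z : E n) : ℝ :=
  (R - dist z x₀) ^ n * J z

theorem measurable_Ph (h : RH J x₀ R k) : Measurable (Ph J x₀ R) := by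
  unfold Ph
  exact ((measurable_const.sub (measurable_id.dist measurable_const)).pow_const n).mul h.meas

theorem Ph_pos (h : RH J x₀ R k) {z : E n} (hz : z ∈ ball x₀ R) : 0 < Ph J x₀ R z := by
  have h1 : 0 < R - dist z x₀ := by linarith [mem_ball.1 hz]
  have h2 := h.pos z hz
  unfold Ph
  positivity

theorem pow_p0 (hn : 2 ≤ n) {z : ℝ} (hz : 0 ≤ z) : (z ^ n) ^ p0 n = z ^ (n - 1) := by
  have hn0 : (0 : ℝ) < n := by exact_mod_cast (by omega : 0 < n)
  have hcast : ((n - 1 : ℕ) : ℝ) = (n : ℝ) - 1 := by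
    push_cast [Nat.cast_sub (by omega : 1 ≤ n)]; ring
  rw [← Real.rpow_natCast z n, ← Real.rpow_mul hz, p0, mul_div_cancel₀ _ hn0.ne', ← hcast,
    Real.rpow_natCast]

theorem p0_pos (hn : 2 ≤ n) : 0 < p0 n := by
  have hn1 : (1 : ℝ) < n := by exact_mod_cast (by omega : 1 < n)
  exact div_pos (by linarith) (by linarith)

theorem local_est (hn : 2 ≤ n) (h : RH J x₀ R k) {τ : ℝ} (hτ : 0 < τ) {x : E n}
    {r : ℝ} (hr : 0 < r) (hrδ : 200 * r ≤ R - dist x x₀)
    (h1 : ENNReal.ofReal (τ / (R - dist x x₀) ^ n * (wv n * r ^ n)) ≤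
        ∫⁻ z in closedBall x r, ENNReal.ofReal (J z))
    (h2 : ∫⁻ z in closedBall x (10 * r), ENNReal.ofReal (J z) ≤
        ENNReal.ofReal (τ / (R - dist x x₀) ^ n * (wv n * (10 * r) ^ n))) :
    ∫⁻ z in closedBall x (10 * r), ENNReal.ofReal (Ph J x₀ R z) ≤
      ENNReal.ofReal (40 ^ n * k ^ p0 n * τ ^ (1 / (n : ℝ))) *
        ∫⁻ z in closedBall x (2 * r) ∩ {z | τ / (16 ^ n * k) < Ph J x₀ R z},
          ENNReal.ofReal (Ph J x₀ R z ^ p0 n) := by
  have hw := wv_pos (n := n)
  have hn0 : (0 : ℝ) < n := by exact_mod_cast (by omega : 0 < n)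
  have hn2 : (2 : ℝ) ≤ n := by exact_mod_cast hn
  have hp := p0_pos hn
  have hk1 := h.one_le
  have hk0 : 0 < k := by linarith
  set δ := R - dist x x₀ with hδ
  have hδ0 : 0 < δ := by linarith
  have hin : ∀ z ∈ closedBall x (10 * r), z ∈ ball x₀ R ∧ R - dist z x₀ ≤ 2 * δ ∧
      δ ≤ 2 * (R - dist z x₀) := by
    intro z hz
    rw [mem_closedBall] at hz
    have h3 := dist_triangle z x x₀
    have h4 := dist_triangle x z x₀
    rw [dist_comm x z] at h4
    refine ⟨?_, ?_, ?_⟩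
    · rw [mem_ball]; linarith
    · linarith
    · linarith
  set Φ := Ph J x₀ R with hΦ
  have hmΦ : Measurable Φ := measurable_Ph h
  -- (1)
  have s1 : ∫⁻ z in closedBall x (10 * r), ENNReal.ofReal (Φ z) ≤
      ENNReal.ofReal (20 ^ n * τ * (wv n * r ^ n)) := by
    calc ∫⁻ z in closedBall x (10 * r), ENNReal.ofReal (Φ z)
        ≤ ∫⁻ z in closedBall x (10 * r), ENNReal.ofReal ((2 * δ) ^ n) * ENNReal.ofReal (J z) := by
          apply setLIntegral_mono' measurableSet_closedBall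
          intro z hz
          obtain ⟨g1, g2, _⟩ := hin z hz
          rw [← ENNReal.ofReal_mul (by positivity)]
          apply ENNReal.ofReal_le_ofReal
          have g3 := h.pos z g1
          have g4 : 0 ≤ R - dist z x₀ := by linarith [mem_ball.1 g1]
          rw [hΦ]
          unfold Ph
          gcongr
      _ = ENNReal.ofReal ((2 * δ) ^ n) * ∫⁻ z in closedBall x (10 * r), ENNReal.ofReal (J z) :=
          lintegral_const_mul' _ _ ENNReal.ofReal_ne_top
      _ ≤ ENNReal.ofReal ((2 * δ) ^ n) *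
          ENNReal.ofReal (τ / δ ^ n * (wv n * (10 * r) ^ n)) := mul_le_mul_right h2 _
      _ = _ := by
          rw [← ENNReal.ofReal_mul (by positivity)]
          congr 1
          rw [mul_pow, mul_pow, show (20 : ℝ) = 2 * 10 by norm_num, mul_pow]
          field_simp
  -- (2)
  have s2 : ENNReal.ofReal (n * (wv n * r ^ n) * τ ^ p0 n) ≤
      ENNReal.ofReal (k ^ p0 n * 2 ^ (n - 1)) *
        ∫⁻ z in closedBall x (2 * r), ENNReal.ofReal (Φ z ^ p0 n) := by
    have g1 := h.rh x r (τ / δ ^ n) hr (by positivity) (by linarith) h1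
    have e1 : n * (wv n * r ^ n) * τ ^ p0 n =
        δ ^ (n - 1) * (n * (wv n * r ^ n) * (τ / δ ^ n) ^ p0 n) := by
      rw [Real.div_rpow hτ.le (by positivity), pow_p0 hn hδ0.le]
      field_simp
    rw [e1, ENNReal.ofReal_mul (by positivity)]
    calc ENNReal.ofReal (δ ^ (n - 1)) * ENNReal.ofReal (n * (wv n * r ^ n) * (τ / δ ^ n) ^ p0 n)
        ≤ ENNReal.ofReal (δ ^ (n - 1)) * (ENNReal.ofReal (k ^ p0 n) *
          ∫⁻ z in closedBall x (2 * r), ENNReal.ofReal (J z ^ p0 n)) := mul_le_mul_right g1 _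
      _ = ENNReal.ofReal (k ^ p0 n) * ∫⁻ z in closedBall x (2 * r),
          ENNReal.ofReal (δ ^ (n - 1)) * ENNReal.ofReal (J z ^ p0 n) := by
          rw [lintegral_const_mul' _ _ ENNReal.ofReal_ne_top]
          ring
      _ ≤ ENNReal.ofReal (k ^ p0 n) * ∫⁻ z in closedBall x (2 * r),
          ENNReal.ofReal (2 ^ (n - 1)) * ENNReal.ofReal (Φ z ^ p0 n) := by
          apply mul_le_mul_right
          apply setLIntegral_mono' measurableSet_closedBall
          intro z hz
          obtain ⟨g1, _, g3⟩ := hin z (closedBall_subset_closedBall (by linarith) hz)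
          have g4 := h.pos z g1
          have g5 : 0 ≤ R - dist z x₀ := by linarith [mem_ball.1 g1]
          rw [← ENNReal.ofReal_mul (by positivity), ← ENNReal.ofReal_mul (by positivity)]
          apply ENNReal.ofReal_le_ofReal
          rw [hΦ]
          unfold Ph
          rw [Real.mul_rpow (by positivity) g4.le, pow_p0 hn g5, ← mul_assoc, ← mul_pow]
          gcongr
      _ = _ := by
          rw [lintegral_const_mul' _ _ ENNReal.ofReal_ne_top, ← mul_assoc,
            ← ENNReal.ofReal_mul (by positivity)]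
  -- (3)
  set A : Set (E n) := {z | τ / (16 ^ n * k) < Φ z} with hA
  have hAm : MeasurableSet A := measurableSet_lt measurable_const hmΦ
  set Y := ∫⁻ z in closedBall x (2 * r) ∩ A, ENNReal.ofReal (Φ z ^ p0 n) with hY
  have s3 : ∫⁻ z in closedBall x (2 * r), ENNReal.ofReal (Φ z ^ p0 n) ≤
      Y + ENNReal.ofReal ((τ / (16 ^ n * k)) ^ p0 n * (wv n * (2 * r) ^ n)) := by
    rw [← lintegral_inter_add_sdiff _ _ hAm]
    apply add_le_add le_rfl
    calc ∫⁻ z in closedBall x (2 * r) \ A, ENNReal.ofReal (Φ z ^ p0 n)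
        ≤ ∫⁻ _ in closedBall x (2 * r) \ A, ENNReal.ofReal ((τ / (16 ^ n * k)) ^ p0 n) := by
          apply setLIntegral_mono' (measurableSet_closedBall.diff hAm)
          intro z hz
          apply ENNReal.ofReal_le_ofReal
          have g1 : z ∈ ball x₀ R := (hin z (closedBall_subset_closedBall (by linarith) hz.1)).1
          exact Real.rpow_le_rpow (Ph_pos h g1).le (not_lt.1 hz.2) hp.le
      _ = ENNReal.ofReal ((τ / (16 ^ n * k)) ^ p0 n) * volume (closedBall x (2 * r) \ A) := by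
          rw [lintegral_const, Measure.restrict_apply_univ]
      _ ≤ ENNReal.ofReal ((τ / (16 ^ n * k)) ^ p0 n) * volume (closedBall x (2 * r)) :=
          mul_le_mul_right (measure_mono sdiff_subset) _
      _ = _ := by
          rw [volume_closedBall_eq x (by positivity), ← ENNReal.ofReal_mul (by positivity)]
  -- (4)
  have s4 : k ^ p0 n * 2 ^ (n - 1) * ((τ / (16 ^ n * k)) ^ p0 n * (wv n * (2 * r) ^ n)) ≤
      n * (wv n * r ^ n) * τ ^ p0 n / 2 := by
    have e1 : (τ / (16 ^ n * k)) ^ p0 n = τ ^ p0 n / (16 ^ (n - 1) * k ^ p0 n) := by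
      rw [Real.div_rpow hτ.le (by positivity), Real.mul_rpow (by positivity) hk0.le,
        pow_p0 hn (by norm_num)]
    have e2 : (16 : ℝ) ^ (n - 1) = 4 ^ (n - 1) * (2 ^ (n - 1) * 2 ^ (n - 1)) := by
      rw [← mul_pow, ← mul_pow]; norm_num
    have e3 : (2 : ℝ) ^ n = 2 * 2 ^ (n - 1) := by
      rw [← pow_succ']; congr 1; omega
    have e4 : (4 : ℝ) ≤ 4 ^ (n - 1) := by
      calc (4 : ℝ) = 4 ^ 1 := by norm_num
        _ ≤ 4 ^ (n - 1) := pow_le_pow_right₀ (by norm_num) (by omega)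
    rw [e1, mul_pow, e3, e2]
    have hkp : 0 < k ^ p0 n := by positivity
    have hτp : 0 < τ ^ p0 n := by positivity
    calc k ^ p0 n * 2 ^ (n - 1) * (τ ^ p0 n / (4 ^ (n - 1) * (2 ^ (n - 1) * 2 ^ (n - 1)) *
          k ^ p0 n) * (wv n * (2 * 2 ^ (n - 1) * r ^ n)))
        = 2 / 4 ^ (n - 1) * (wv n * r ^ n * τ ^ p0 n) := by field_simp
      _ ≤ 1 / 2 * (wv n * r ^ n * τ ^ p0 n) := by
          apply mul_le_mul_of_nonneg_right _ (by positivity)
          rw [div_le_div_iff₀ (by positivity) (by norm_num)]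
          linarith
      _ ≤ n / 2 * (wv n * r ^ n * τ ^ p0 n) := by
          apply mul_le_mul_of_nonneg_right _ (by positivity)
          linarith
      _ = _ := by ring
  -- (5)
  have s5 : ENNReal.ofReal (n * (wv n * r ^ n) * τ ^ p0 n / 2) ≤
      ENNReal.ofReal (k ^ p0 n * 2 ^ (n - 1)) * Y := by
    have g1 : ENNReal.ofReal (n * (wv n * r ^ n) * τ ^ p0 n / 2) +
        ENNReal.ofReal (n * (wv n * r ^ n) * τ ^ p0 n / 2) ≤
        ENNReal.ofReal (k ^ p0 n * 2 ^ (n - 1)) * Y +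
          ENNReal.ofReal (n * (wv n * r ^ n) * τ ^ p0 n / 2) := by
      rw [← ENNReal.ofReal_add (by positivity) (by positivity), add_halves]
      refine s2.trans ?_
      refine (mul_le_mul_right s3 _).trans ?_
      rw [mul_add]
      apply add_le_add le_rfl
      rw [← ENNReal.ofReal_mul (by positivity)]
      exact ENNReal.ofReal_le_ofReal s4
    exact (ENNReal.add_le_add_iff_right ENNReal.ofReal_ne_top).1 g1
  -- (6)
  refine s1.trans ?_
  have hτs : τ = τ ^ (1 / (n : ℝ)) * τ ^ p0 n := by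
    rw [← Real.rpow_add hτ, p0, show 1 / (n : ℝ) + ((n : ℝ) - 1) / n = 1 by field_simp; ring,
      Real.rpow_one]
  have e6 : 20 ^ n * τ * (wv n * r ^ n) = 2 * 20 ^ n * τ ^ (1 / (n : ℝ)) / n *
      (n * (wv n * r ^ n) * τ ^ p0 n / 2) := by
    conv_lhs => rw [hτs]
    field_simp
  rw [e6, ENNReal.ofReal_mul (by positivity)]
  refine (mul_le_mul_right s5 _).trans ?_
  rw [← mul_assoc, ← ENNReal.ofReal_mul (by positivity)]
  apply mul_le_mul_left
  apply ENNReal.ofReal_le_ofReal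
  have e7 : (40 : ℝ) ^ n = 20 ^ n * (2 * 2 ^ (n - 1)) := by
    rw [← pow_succ', show n - 1 + 1 = n by omega, ← mul_pow]; norm_num
  rw [e7]
  calc 2 * 20 ^ n * τ ^ (1 / (n : ℝ)) / n * (k ^ p0 n * 2 ^ (n - 1))
      = (20 ^ n * (2 * 2 ^ (n - 1)) * k ^ p0 n * τ ^ (1 / (n : ℝ))) / n := by ring
    _ ≤ _ := div_le_self (by positivity) (by linarith)

/-- The level inequality. -/
theorem level (hn : 2 ≤ n) (h : RH J x₀ R k) {τ : ℝ} (hτ : 0 < τ)
    (hm : ∫⁻ x in ball x₀ R, ENNReal.ofReal (J x) ≤ ENNReal.ofReal (wv n * τ / 20 ^ n)) :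
    ∫⁻ z in ball x₀ R ∩ {z | τ < Ph J x₀ R z}, ENNReal.ofReal (Ph J x₀ R z) ≤
      ENNReal.ofReal (40 ^ n * k ^ p0 n * τ ^ (1 / (n : ℝ))) *
        ∫⁻ z in ball x₀ R ∩ {z | τ / (16 ^ n * k) < Ph J x₀ R z},
          ENNReal.ofReal (Ph J x₀ R z ^ p0 n) := by
  set Φ := Ph J x₀ R with hΦ
  have hmΦ : Measurable Φ := measurable_Ph h
  set t : Set (E n) := ball x₀ R ∩ {z | τ < Φ z} with ht
  have hst : ∀ x : E n, ∃ r : ℝ, x ∈ t → 0 < r ∧ 200 * r ≤ R - dist x x₀ ∧
      ENNReal.ofReal (τ / (R - dist x x₀) ^ n * (wv n * r ^ n)) ≤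
        ∫⁻ z in closedBall x r, ENNReal.ofReal (J z) ∧
      ∫⁻ z in closedBall x (10 * r), ENNReal.ofReal (J z) ≤
        ENNReal.ofReal (τ / (R - dist x x₀) ^ n * (wv n * (10 * r) ^ n)) := by
    intro x
    by_cases hx : x ∈ t
    · obtain ⟨r, h1⟩ := stop h hτ hm hx.1 hx.2
      exact ⟨r, fun _ => h1⟩
    · exact ⟨0, fun h' => absurd h' hx⟩
  choose ρ hρ using hst
  obtain ⟨u, hut, hdis, hcov⟩ := Vitali.exists_disjoint_subfamily_covering_enlargement_closedBall
    t (fun x : E n => x) (fun x => 2 * ρ x) R (fun x hx => by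
      obtain ⟨h1, h2, _⟩ := hρ x hx
      have := dist_nonneg (x := x) (y := x₀)
      linarith) 5 (by norm_num)
  have huc : u.Countable := by
    apply hdis.countable_of_nonempty_interior
    intro x hx
    obtain ⟨h1, _⟩ := hρ x (hut hx)
    exact ⟨x, ball_subset_interior_closedBall (mem_ball_self (by linarith))⟩
  have hcov' : t ⊆ ⋃ b ∈ u, closedBall b (10 * ρ b) := by
    intro x hx
    obtain ⟨b, hb, hsub⟩ := hcov x hx
    obtain ⟨h1, _⟩ := hρ x hx
    rw [mem_iUnion₂]
    refine ⟨b, hb, ?_⟩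
    have h3 := hsub (mem_closedBall_self (by linarith))
    rwa [show 5 * (2 * ρ b) = 10 * ρ b by ring] at h3
  have : Countable u := huc.to_subtype
  calc ∫⁻ z in t, ENNReal.ofReal (Φ z)
      ≤ ∫⁻ z in ⋃ b : u, closedBall (b : E n) (10 * ρ b), ENNReal.ofReal (Φ z) := by
        apply lintegral_mono_set
        rwa [biUnion_eq_iUnion] at hcov'
    _ ≤ ∑' b : u, ∫⁻ z in closedBall (b : E n) (10 * ρ b), ENNReal.ofReal (Φ z) :=
        lintegral_iUnion_le _ _
    _ ≤ ∑' b : u, ENNReal.ofReal (40 ^ n * k ^ p0 n * τ ^ (1 / (n : ℝ))) *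
        ∫⁻ z in closedBall (b : E n) (2 * ρ b) ∩ {z | τ / (16 ^ n * k) < Φ z},
          ENNReal.ofReal (Φ z ^ p0 n) := by
        apply ENNReal.tsum_le_tsum
        intro b
        obtain ⟨h1, h2, h3, h4⟩ := hρ b (hut b.2)
        exact local_est hn h hτ h1 h2 h3 h4
    _ = ENNReal.ofReal (40 ^ n * k ^ p0 n * τ ^ (1 / (n : ℝ))) *
        ∑' b : u, ∫⁻ z in closedBall (b : E n) (2 * ρ b) ∩ {z | τ / (16 ^ n * k) < Φ z},
          ENNReal.ofReal (Φ z ^ p0 n) := ENNReal.tsum_mul_left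
    _ ≤ _ := by
        apply mul_le_mul_right
        rw [← lintegral_iUnion]
        · apply lintegral_mono_set
          apply iUnion_subset
          intro b
          obtain ⟨h1, h2, _⟩ := hρ b (hut b.2)
          apply inter_subset_inter_left
          intro z hz
          rw [mem_closedBall] at hz
          rw [mem_ball]
          have := dist_triangle z b x₀
          linarith
        · intro b
          exact measurableSet_closedBall.inter (measurableSet_lt measurable_const hmΦ)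
        · intro b c hbc
          have h1 := hdis b.2 c.2 (fun h' => hbc (Subtype.ext h'))
          exact h1.mono inter_subset_left inter_subset_left

end Pool.Agent.TreeS
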