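import Pool.Agent.TreeS.Geh3

/-!
# Higher integrability
-/

set_option autoImplicit false

open MeasureTheory Set Metric Filter Topology
open scoped ENNReal

namespace Pool.Agent.TreeS

open Pool.Agent.RayM

variable {n : ℕ} {J : E n → ℝ} {x₀ : E n} {R k : ℝ}

theorem gehring (hn : 2 ≤ n) (h : RH J x₀ R k) (hR : 0 < R)
    (hb : ∃ D, ∀ x ∈ ball x₀ R, J x ≤ D) {σ : ℝ} (hσ0 : 0 < σ)
    (hσ1 : σ * (64 * n * 40 ^ n * k) ≤ 1) {m : ℝ} (hm0 : 0 < m)
    (hm : ∫⁻ x in ball x₀ R, ENNReal.ofReal (J x) = ENNReal.ofReal m) :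
    ∫⁻ x in ball x₀ (R / 2), ENNReal.ofReal (J x * (J x / (m / (wv n * R ^ n))) ^ σ) ≤
      ENNReal.ofReal (2 * 80 ^ n * m) := by
  have hw := wv_pos (n := n)
  have hn0 : (0 : ℝ) < n := by exact_mod_cast (by omega : 0 < n)
  have hn2 : (2 : ℝ) ≤ n := by exact_mod_cast hn
  have hp := p0_pos hn
  have hk1 := h.one_le
  have hk0 : 0 < k := by linarith
  have h40 : (1 : ℝ) ≤ 40 ^ n := one_le_pow₀ (by norm_num)
  have hσ1' : σ ≤ 1 := by
    have : 1 ≤ 64 * n * 40 ^ n * k := by
      have h1 : (1 : ℝ) ≤ 64 * n := by linarith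
      calc (1 : ℝ) = 1 * 1 * 1 := by norm_num
        _ ≤ _ := by gcongr
    calc σ = σ * 1 := (mul_one σ).symm
      _ ≤ σ * (64 * n * 40 ^ n * k) := by gcongr
      _ ≤ 1 := hσ1
  set Φ := Ph J x₀ R with hΦ
  have hmΦ : Measurable Φ := measurable_Ph h
  have hΦ0 : ∀ z ∈ ball x₀ R, 0 < Φ z := fun z hz => Ph_pos h hz
  set vr := (volume : Measure (E n)).restrict (ball x₀ R) with hvr
  have haeΦ : ∀ᵐ z ∂vr, 0 < Φ z := by
    filter_upwards [ae_restrict_mem measurableSet_ball] with z hz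
    exact hΦ0 z hz
  set ν := vr.withDensity (fun z => ENNReal.ofReal (Φ z)) with hν
  set ν' := vr.withDensity (fun z => ENNReal.ofReal (Φ z ^ p0 n)) with hν'
  have hmΦ' : Measurable (fun z => ENNReal.ofReal (Φ z)) := hmΦ.ennreal_ofReal
  have hmΦp : ∀ q : ℝ, Measurable (fun z => ENNReal.ofReal (Φ z ^ q)) :=
    fun q => (hmΦ.pow_const q).ennreal_ofReal
  have hν0 : 0 ≤ᵐ[ν] Φ := (withDensity_absolutelyContinuous _ _).ae_le
    (haeΦ.mono (fun z hz => hz.le))
  have hν'0 : 0 ≤ᵐ[ν'] Φ := (withDensity_absolutelyContinuous _ _).ae_le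
    (haeΦ.mono (fun z hz => hz.le))
  set X := ∫⁻ z in ball x₀ R, ENNReal.ofReal (Φ z ^ (1 + σ)) with hX
  set τ₀ := 20 ^ n * m / wv n with hτ₀
  have hτ0 : 0 < τ₀ := by positivity
  -- `X` is finite
  have hXfin : X ≠ ⊤ := by
    obtain ⟨D, hD⟩ := hb
    have h1 : X ≤ ∫⁻ _ in ball x₀ R, ENNReal.ofReal ((R ^ n * max D 0) ^ (1 + σ)) := by
      apply setLIntegral_mono' measurableSet_ball
      intro z hz
      apply ENNReal.ofReal_le_ofReal
      apply Real.rpow_le_rpow (hΦ0 z hz).le _ (by linarith)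
      have g1 : 0 ≤ R - dist z x₀ := by linarith [mem_ball.1 hz]
      have g2 : R - dist z x₀ ≤ R := by linarith [dist_nonneg (x := z) (y := x₀)]
      have g3 := h.pos z hz
      have g4 : J z ≤ max D 0 := (hD z hz).trans (le_max_left _ _)
      rw [hΦ]
      unfold Ph
      gcongr
    refine ne_top_of_le_ne_top ?_ h1
    rw [lintegral_const, Measure.restrict_apply_univ]
    exact ENNReal.mul_ne_top ENNReal.ofReal_ne_top measure_ball_lt_top.ne
  -- layer cake
  have hXν : X = ∫⁻ z, ENNReal.ofReal (Φ z ^ σ) ∂ν := by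
    rw [hν, lintegral_withDensity_eq_lintegral_mul _ hmΦ' (hmΦp σ), hX]
    apply lintegral_congr_ae
    filter_upwards [haeΦ] with z hz
    simp only [Pi.mul_apply]
    rw [← ENNReal.ofReal_mul hz.le, Real.rpow_add hz, Real.rpow_one]
  have hlay := lintegral_rpow_eq_lintegral_meas_lt_mul ν hν0 hmΦ.aemeasurable hσ0
  have hsplit : ∫⁻ t in Ioi (0 : ℝ), ν {a | t < Φ a} * ENNReal.ofReal (t ^ (σ - 1)) =
      (∫⁻ t in Ioc (0 : ℝ) τ₀, ν {a | t < Φ a} * ENNReal.ofReal (t ^ (σ - 1))) +
      ∫⁻ t in Ioi τ₀, ν {a | t < Φ a} * ENNReal.ofReal (t ^ (σ - 1)) := by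
    rw [← Ioc_union_Ioi_eq_Ioi hτ0.le, lintegral_union measurableSet_Ioi]
    exact Set.disjoint_left.2 (fun x hx1 hx2 => absurd hx1.2 (not_le.2 hx2))
  -- first part
  have p1 : ENNReal.ofReal σ * ∫⁻ t in Ioc (0 : ℝ) τ₀, ν {a | t < Φ a} *
      ENNReal.ofReal (t ^ (σ - 1)) ≤ ENNReal.ofReal (τ₀ ^ σ) * ν univ := by
    have hmin0 : 0 ≤ᵐ[ν] (fun z => min (Φ z) τ₀) :=
      hν0.mono (fun z hz => le_min hz hτ0.le)
    have g1 := lintegral_rpow_eq_lintegral_meas_lt_mul ν hmin0
      (hmΦ.min measurable_const).aemeasurable hσ0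
    calc ENNReal.ofReal σ * ∫⁻ t in Ioc (0 : ℝ) τ₀, ν {a | t < Φ a} *
          ENNReal.ofReal (t ^ (σ - 1))
        = ENNReal.ofReal σ * ∫⁻ t in Ioo (0 : ℝ) τ₀, ν {a | t < Φ a} *
          ENNReal.ofReal (t ^ (σ - 1)) := by
          congr 1
          exact (setLIntegral_congr Ioo_ae_eq_Ioc).symm
      _ ≤ ENNReal.ofReal σ * ∫⁻ t in Ioi (0 : ℝ), ν {a | t < min (Φ a) τ₀} *
          ENNReal.ofReal (t ^ (σ - 1)) := by
          apply mul_le_mul_right
          calc ∫⁻ t in Ioo (0 : ℝ) τ₀, ν {a | t < Φ a} * ENNReal.ofReal (t ^ (σ - 1))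
              = ∫⁻ t in Ioo (0 : ℝ) τ₀, ν {a | t < min (Φ a) τ₀} *
                ENNReal.ofReal (t ^ (σ - 1)) := by
                apply setLIntegral_congr_fun measurableSet_Ioo
                intro t ht
                simp only [lt_min_iff, ht.2, and_true]
            _ ≤ _ := lintegral_mono_set Ioo_subset_Ioi_self
      _ = ∫⁻ z, ENNReal.ofReal (min (Φ z) τ₀ ^ σ) ∂ν := g1.symm
      _ ≤ ∫⁻ _, ENNReal.ofReal (τ₀ ^ σ) ∂ν := by
          apply lintegral_mono_ae
          filter_upwards [hmin0] with z hz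
          exact ENNReal.ofReal_le_ofReal
            (Real.rpow_le_rpow hz (min_le_right _ _) hσ0.le)
      _ = _ := lintegral_const _
  -- second part
  set B := 16 ^ n * k with hB
  have hB0 : 0 < B := by positivity
  set s := σ + 1 / (n : ℝ) with hs
  have hs0 : 0 < s := by positivity
  set c := 40 ^ n * k ^ p0 n with hc
  have hc0 : 0 < c := by positivity
  have hlev : ∀ t, τ₀ < t → ν {a | t < Φ a} ≤
      ENNReal.ofReal (c * t ^ (1 / (n : ℝ))) * ν' {a | t < B * Φ a} := by
    intro t ht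
    have ht0 : 0 < t := hτ0.trans ht
    have g1 := level hn h ht0 (by
      rw [hm]
      apply ENNReal.ofReal_le_ofReal
      rw [le_div_iff₀ (by positivity)]
      rw [hτ₀, div_lt_iff₀ hw] at ht
      linarith)
    have e1 : ∀ A : Set (E n), MeasurableSet A → ν A =
        ∫⁻ z in ball x₀ R ∩ A, ENNReal.ofReal (Φ z) := by
      intro A hA
      rw [hν, withDensity_apply _ hA, hvr, Measure.restrict_restrict hA, inter_comm]
    have e2 : ∀ A : Set (E n), MeasurableSet A → ν' A =
        ∫⁻ z in ball x₀ R ∩ A, ENNReal.ofReal (Φ z ^ p0 n) := by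
      intro A hA
      rw [hν', withDensity_apply _ hA, hvr, Measure.restrict_restrict hA, inter_comm]
    have e3 : {a | t < B * Φ a} = {a | t / B < Φ a} := by
      ext a
      simp only [mem_ofPred_eq]
      rw [div_lt_iff₀ hB0, mul_comm]
    rw [e3, e1 _ (measurableSet_lt measurable_const hmΦ),
      e2 _ (measurableSet_lt measurable_const hmΦ)]
    exact g1
  have p2 : ENNReal.ofReal σ * ∫⁻ t in Ioi τ₀, ν {a | t < Φ a} * ENNReal.ofReal (t ^ (σ - 1)) ≤
      ENNReal.ofReal (σ * c * B ^ s / s) * X := by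
    have hB' : 0 ≤ᵐ[ν'] (fun z => B * Φ z) :=
      hν'0.mono (fun z hz => mul_nonneg hB0.le hz)
    have g1 := lintegral_rpow_eq_lintegral_meas_lt_mul ν' hB'
      (hmΦ.const_mul B).aemeasurable hs0
    have g2 : ∫⁻ z, ENNReal.ofReal ((B * Φ z) ^ s) ∂ν' = ENNReal.ofReal (B ^ s) * X := by
      rw [hν', lintegral_withDensity_eq_lintegral_mul _ (hmΦp _)
        ((hmΦ.const_mul B).pow_const s).ennreal_ofReal, hX,
        ← lintegral_const_mul' _ _ ENNReal.ofReal_ne_top]
      apply lintegral_congr_ae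
      filter_upwards [haeΦ] with z hz
      simp only [Pi.mul_apply]
      rw [← ENNReal.ofReal_mul (by positivity), ← ENNReal.ofReal_mul (by positivity)]
      congr 1
      rw [Real.mul_rpow hB0.le hz.le, mul_left_comm, ← Real.rpow_add hz]
      congr 2
      rw [hs, p0]
      field_simp
      ring
    have g3 : ∫⁻ t in Ioi τ₀, ν {a | t < Φ a} * ENNReal.ofReal (t ^ (σ - 1)) ≤
        ENNReal.ofReal c * ∫⁻ t in Ioi (0 : ℝ), ν' {a | t < B * Φ a} *
          ENNReal.ofReal (t ^ (s - 1)) := by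
      rw [← lintegral_const_mul' _ _ ENNReal.ofReal_ne_top]
      calc ∫⁻ t in Ioi τ₀, ν {a | t < Φ a} * ENNReal.ofReal (t ^ (σ - 1))
          ≤ ∫⁻ t in Ioi τ₀, ENNReal.ofReal c * (ν' {a | t < B * Φ a} *
            ENNReal.ofReal (t ^ (s - 1))) := by
            apply setLIntegral_mono' measurableSet_Ioi
            intro t ht
            have ht0 : 0 < t := hτ0.trans ht
            calc ν {a | t < Φ a} * ENNReal.ofReal (t ^ (σ - 1))
                ≤ (ENNReal.ofReal (c * t ^ (1 / (n : ℝ))) * ν' {a | t < B * Φ a}) *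
                  ENNReal.ofReal (t ^ (σ - 1)) := mul_le_mul_left (hlev t ht) _
              _ = _ := by
                  have e9 : ENNReal.ofReal (t ^ (s - 1)) = ENNReal.ofReal (t ^ (1 / (n : ℝ))) *
                      ENNReal.ofReal (t ^ (σ - 1)) := by
                    rw [show s - 1 = 1 / (n : ℝ) + (σ - 1) by rw [hs]; ring,
                      Real.rpow_add ht0, ENNReal.ofReal_mul (by positivity)]
                  rw [e9, ENNReal.ofReal_mul hc0.le]
                  generalize ENNReal.ofReal c = c'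
                  ring
        _ ≤ _ := lintegral_mono_set (Ioi_subset_Ioi hτ0.le)
    refine (mul_le_mul_right g3 _).trans (le_of_eq ?_)
    have g4 : ENNReal.ofReal (σ * c * B ^ s / s) = ENNReal.ofReal (σ * c / s) *
        ENNReal.ofReal (B ^ s) := by
      rw [← ENNReal.ofReal_mul (by positivity)]
      congr 1
      ring
    have g5 : ENNReal.ofReal σ * ENNReal.ofReal c = ENNReal.ofReal (σ * c / s) *
        ENNReal.ofReal s := by
      rw [← ENNReal.ofReal_mul hσ0.le, ← ENNReal.ofReal_mul (by positivity)]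
      congr 1
      field_simp
    rw [g4, mul_assoc, ← g2, g1, ← mul_assoc, ← mul_assoc, ← g5]
  -- the constant
  have hconst : σ * c * B ^ s / s ≤ 1 / 2 := by
    have g1 : B ^ σ ≤ 2 := by
      have g2 := _root_.rpow_one_add_le_one_add_mul_self (s := B - 1) (by linarith) hσ0.le hσ1'
      rw [show 1 + (B - 1) = B by ring] at g2
      have g3 : σ * B ≤ 1 := by
        refine le_trans ?_ hσ1
        apply mul_le_mul_of_nonneg_left _ hσ0.le
        rw [hB]
        have g4 : (16 : ℝ) ^ n ≤ 40 ^ n := by gcongr; norm_num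
        have g5 : (1 : ℝ) ≤ 64 * n := by linarith
        calc 16 ^ n * k = 1 * 16 ^ n * k := by ring
          _ ≤ 64 * n * 40 ^ n * k := by gcongr
      nlinarith
    have g2 : k ^ p0 n * B ^ (1 / (n : ℝ)) = 16 * k := by
      rw [hB, Real.mul_rpow (by positivity) hk0.le, ← Real.rpow_natCast (16 : ℝ) n,
        ← Real.rpow_mul (by norm_num), mul_one_div_cancel hn0.ne', Real.rpow_one, mul_left_comm,
        ← Real.rpow_add hk0, p0, show ((n : ℝ) - 1) / n + 1 / n = 1 by field_simp; ring,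
        Real.rpow_one]
    have g3 : σ * c * B ^ s = σ * 40 ^ n * (16 * k) * B ^ σ := by
      rw [hs, Real.rpow_add hB0, hc, ← g2]
      ring
    have g4 : 1 / (n : ℝ) ≤ s := by rw [hs]; linarith
    rw [div_le_iff₀ hs0]
    calc σ * c * B ^ s = σ * 40 ^ n * (16 * k) * B ^ σ := g3
      _ ≤ σ * 40 ^ n * (16 * k) * 2 := by gcongr
      _ = 1 / 2 * (1 / n) * (σ * (64 * n * 40 ^ n * k)) := by field_simp; ring
      _ ≤ 1 / 2 * (1 / n) * 1 := by gcongr
      _ ≤ 1 / 2 * s := by rw [mul_one]; gcongr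
  -- absorb
  have hνu : ν univ ≤ ENNReal.ofReal (R ^ n * m) := by
    rw [hν, withDensity_apply _ MeasurableSet.univ, Measure.restrict_univ, hvr]
    calc ∫⁻ z in ball x₀ R, ENNReal.ofReal (Φ z)
        ≤ ∫⁻ z in ball x₀ R, ENNReal.ofReal (R ^ n) * ENNReal.ofReal (J z) := by
          apply setLIntegral_mono' measurableSet_ball
          intro z hz
          rw [← ENNReal.ofReal_mul (by positivity)]
          apply ENNReal.ofReal_le_ofReal
          have g1 : 0 ≤ R - dist z x₀ := by linarith [mem_ball.1 hz]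
          have g2 : R - dist z x₀ ≤ R := by linarith [dist_nonneg (x := z) (y := x₀)]
          have g3 := h.pos z hz
          rw [hΦ]
          unfold Ph
          gcongr
      _ = ENNReal.ofReal (R ^ n * m) := by
          rw [lintegral_const_mul' _ _ ENNReal.ofReal_ne_top, hm, ENNReal.ofReal_mul (by positivity)]
  have hXle : X ≤ ENNReal.ofReal (2 * (τ₀ ^ σ * (R ^ n * m))) := by
    have g1 : X ≤ ENNReal.ofReal (τ₀ ^ σ * (R ^ n * m)) + ENNReal.ofReal (1 / 2) * X := by
      conv_lhs => rw [hXν, hlay, hsplit, mul_add]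
      apply add_le_add
      · refine p1.trans ((mul_le_mul_right hνu _).trans (le_of_eq ?_))
        rw [← ENNReal.ofReal_mul (by positivity)]
      · exact p2.trans (mul_le_mul_left (ENNReal.ofReal_le_ofReal hconst) _)
    rw [← ENNReal.ofReal_toReal hXfin, ← ENNReal.ofReal_mul (by norm_num),
      ← ENNReal.ofReal_add (by positivity) (by positivity),
      ENNReal.ofReal_le_ofReal_iff (by positivity)] at g1
    rw [← ENNReal.ofReal_toReal hXfin]
    apply ENNReal.ofReal_le_ofReal
    linarith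
  -- the half ball
  set μ := m / (wv n * R ^ n) with hμ
  have hμ0 : 0 < μ := by positivity
  calc ∫⁻ x in ball x₀ (R / 2), ENNReal.ofReal (J x * (J x / μ) ^ σ)
      ≤ ∫⁻ x in ball x₀ (R / 2), ENNReal.ofReal (80 ^ n / (R ^ n * τ₀ ^ σ)) *
          ENNReal.ofReal (Φ x ^ (1 + σ)) := by
        apply setLIntegral_mono' measurableSet_ball
        intro z hz
        have hz' : z ∈ ball x₀ R := ball_subset_ball (by linarith) hz
        have g3 := h.pos z hz'
        have g4 := hΦ0 z hz'
        rw [← ENNReal.ofReal_mul (by positivity)]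
        apply ENNReal.ofReal_le_ofReal
        have g1 : R / 2 ≤ R - dist z x₀ := by linarith [mem_ball.1 hz]
        have g2 : (R / 2) ^ n * J z ≤ Φ z := by
          rw [hΦ]
          unfold Ph
          gcongr
        have g5 : J z ≤ 2 ^ n / R ^ n * Φ z := by
          rw [div_pow] at g2
          rw [div_mul_eq_mul_div, le_div_iff₀ (by positivity)]
          have g6 : (0 : ℝ) < 2 ^ n := by positivity
          rw [div_mul_eq_mul_div, div_le_iff₀ g6] at g2
          linarith
        have g6 : J z / μ ≤ 40 ^ n * (Φ z / τ₀) := by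
          have e1 : 40 ^ n * (Φ z / τ₀) = (2 ^ n / R ^ n * Φ z) / μ := by
            rw [hτ₀, hμ, show (40 : ℝ) = 2 * 20 by norm_num, mul_pow]
            field_simp
          rw [e1]
          gcongr
        have g7 : (J z / μ) ^ σ ≤ 40 ^ n * (Φ z / τ₀) ^ σ := by
          calc (J z / μ) ^ σ ≤ (40 ^ n * (Φ z / τ₀)) ^ σ :=
                Real.rpow_le_rpow (by positivity) g6 hσ0.le
            _ = (40 ^ n) ^ σ * (Φ z / τ₀) ^ σ := Real.mul_rpow (by positivity) (by positivity)
            _ ≤ 40 ^ n * (Φ z / τ₀) ^ σ := by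
                apply mul_le_mul_of_nonneg_right _ (by positivity)
                calc ((40 : ℝ) ^ n) ^ σ ≤ (40 ^ n) ^ (1 : ℝ) :=
                      Real.rpow_le_rpow_of_exponent_le h40 hσ1'
                  _ = 40 ^ n := Real.rpow_one _
        calc J z * (J z / μ) ^ σ ≤ (2 ^ n / R ^ n * Φ z) * (40 ^ n * (Φ z / τ₀) ^ σ) := by
              gcongr
          _ = _ := by
              rw [Real.div_rpow g4.le hτ0.le, Real.rpow_add g4, Real.rpow_one,
                show (80 : ℝ) = 2 * 40 by norm_num, mul_pow]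
              field_simp
    _ = ENNReal.ofReal (80 ^ n / (R ^ n * τ₀ ^ σ)) * ∫⁻ x in ball x₀ (R / 2),
          ENNReal.ofReal (Φ x ^ (1 + σ)) := lintegral_const_mul' _ _ ENNReal.ofReal_ne_top
    _ ≤ ENNReal.ofReal (80 ^ n / (R ^ n * τ₀ ^ σ)) * X := by
        apply mul_le_mul_right
        exact lintegral_mono_set (ball_subset_ball (by linarith))
    _ ≤ ENNReal.ofReal (80 ^ n / (R ^ n * τ₀ ^ σ)) *
        ENNReal.ofReal (2 * (τ₀ ^ σ * (R ^ n * m))) := mul_le_mul_right hXle _
    _ = _ := by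
        rw [← ENNReal.ofReal_mul (by positivity)]
        congr 1
        field_simp

end Pool.Agent.TreeS
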