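import Pool.Agent.TreeS.Geh4
import Pool.Agent.TreeS.Real2

/-!
# The logarithmic estimate on the half ball
-/

set_option autoImplicit false

open MeasureTheory Set Metric Filter Topology
open scoped ENNReal

namespace Pool.Agent.TreeS

open Pool.Agent.RayM

variable {n : ℕ}

/-- An elementary inequality. -/
theorem log_split {α σ J μ : ℝ} (hα : 0 < α) (hσ : 0 < σ) (hσ1 : σ ≤ 1) (hJ : 0 ≤ J)
    (hμ : 0 < μ) :
    Real.log (Real.exp 1 + J) ^ α ≤ 2 ^ α * (Real.log (Real.exp 1 + μ) ^ α +
      2 * (α / σ) ^ α * (1 + (J / μ) ^ σ)) := by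
  have he : 0 < Real.exp 1 := Real.exp_pos 1
  have he1 : 1 ≤ Real.exp 1 := Real.one_le_exp (by norm_num)
  set t := J / μ with ht
  have ht0 : 0 ≤ t := by positivity
  have hJt : J = t * μ := by rw [ht]; field_simp
  set L := Real.log (Real.exp 1 + μ) with hL
  have hL1 : 1 ≤ L := one_le_log_exp_add hμ.le
  set M := Real.log (1 + t) with hM
  have hM0 : 0 ≤ M := Real.log_nonneg (by linarith)
  have h1 : Real.log (Real.exp 1 + J) ≤ L + M := by
    rw [hL, hM, ← Real.log_mul (by positivity) (by positivity)]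
    apply Real.log_le_log (by positivity)
    rw [hJt]
    nlinarith [mul_nonneg ht0 he.le]
  have h0 : 1 ≤ Real.log (Real.exp 1 + J) := one_le_log_exp_add hJ
  have h2 : Real.log (Real.exp 1 + J) ^ α ≤ 2 ^ α * (L ^ α + M ^ α) := by
    calc Real.log (Real.exp 1 + J) ^ α ≤ (L + M) ^ α :=
          Real.rpow_le_rpow (by linarith) h1 hα.le
      _ ≤ (2 * max L M) ^ α := by
          apply Real.rpow_le_rpow (by linarith) _ hα.le
          linarith [le_max_left L M, le_max_right L M]
      _ = 2 ^ α * max L M ^ α := Real.mul_rpow (by norm_num) (by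
          exact (show 0 ≤ L by linarith).trans (le_max_left _ _))
      _ ≤ 2 ^ α * (L ^ α + M ^ α) := by
          apply mul_le_mul_of_nonneg_left _ (by positivity)
          rcases max_choice L M with h | h
          · rw [h]
            have : 0 ≤ M ^ α := by positivity
            linarith
          · rw [h]
            have : 0 ≤ L ^ α := by positivity
            linarith
  have h3 : M ^ α ≤ 2 * (α / σ) ^ α * (1 + t ^ σ) := by
    have g1 : M ≤ (1 + t) ^ (σ / α) / (σ / α) :=
      Real.log_le_rpow_div (by linarith) (by positivity)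
    have g2 : M ^ α ≤ (1 + t) ^ σ * (α / σ) ^ α := by
      calc M ^ α ≤ ((1 + t) ^ (σ / α) / (σ / α)) ^ α := Real.rpow_le_rpow hM0 g1 hα.le
        _ = ((1 + t) ^ (σ / α) * (α / σ)) ^ α := by
            congr 1
            field_simp
        _ = ((1 + t) ^ (σ / α)) ^ α * (α / σ) ^ α :=
            Real.mul_rpow (by positivity) (by positivity)
        _ = (1 + t) ^ σ * (α / σ) ^ α := by
            rw [← Real.rpow_mul (by linarith), div_mul_cancel₀ _ hα.ne']
    have g3 : (1 + t) ^ σ ≤ 2 * (1 + t ^ σ) := by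
      calc (1 + t) ^ σ ≤ (2 * max 1 t) ^ σ := by
            apply Real.rpow_le_rpow (by linarith) _ hσ.le
            linarith [le_max_left 1 t, le_max_right 1 t]
        _ = 2 ^ σ * max 1 t ^ σ := Real.mul_rpow (by norm_num) (by
            exact zero_le_one.trans (le_max_left _ _))
        _ ≤ 2 * (1 + t ^ σ) := by
            have g4 : (2 : ℝ) ^ σ ≤ 2 := by
              calc (2 : ℝ) ^ σ ≤ 2 ^ (1 : ℝ) := Real.rpow_le_rpow_of_exponent_le (by norm_num) hσ1
                _ = 2 := Real.rpow_one _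
            have g5 : max 1 t ^ σ ≤ 1 + t ^ σ := by
              rcases max_choice 1 t with h | h
              · rw [h, Real.one_rpow]
                have : 0 ≤ t ^ σ := by positivity
                linarith
              · rw [h]
                linarith
            have g6 : 0 ≤ max 1 t ^ σ :=
              Real.rpow_nonneg (zero_le_one.trans (le_max_left _ _)) _
            have g7 : 0 ≤ t ^ σ := by positivity
            nlinarith
    calc M ^ α ≤ (1 + t) ^ σ * (α / σ) ^ α := g2
      _ ≤ (2 * (1 + t ^ σ)) * (α / σ) ^ α := by gcongr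
      _ = _ := by ring
  refine h2.trans ?_
  gcongr

/-- The logarithmic estimate on the half ball. -/
theorem jlog_half (hn : 2 ≤ n) {α : ℝ} (hα : 0 < α) :
    ∃ D : ℝ, 0 ≤ D ∧ ∀ (J : E n → ℝ) (x₀ : E n) (R k m : ℝ), RH J x₀ R k → 0 < R →
      (∃ D', ∀ x ∈ ball x₀ R, J x ≤ D') → 0 < m →
      ∫⁻ x in ball x₀ R, ENNReal.ofReal (J x) = ENNReal.ofReal m →
      ∫⁻ x in ball x₀ (R / 2), ENNReal.ofReal (J x * Real.log (Real.exp 1 + J x) ^ α) ≤
        ENNReal.ofReal (D * (Real.log (Real.exp 1 + m / (wv n * R ^ n)) ^ α + k ^ α) * m) := by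
  have hn0 : (0 : ℝ) < n := by exact_mod_cast (by omega : 0 < n)
  have hn2 : (2 : ℝ) ≤ n := by exact_mod_cast hn
  have h40 : (1 : ℝ) ≤ 40 ^ n := one_le_pow₀ (by norm_num)
  set C : ℝ := 64 * n * 40 ^ n with hC
  have hC1 : 1 ≤ C := by
    have h1 : (1 : ℝ) ≤ 64 * n := by linarith
    calc (1 : ℝ) = 1 * 1 := by norm_num
      _ ≤ _ := by rw [hC]; gcongr
  have hC0 : 0 < C := by linarith
  set Q := (α * C) ^ α with hQ
  have hQ0 : 0 ≤ Q := by positivity
  refine ⟨2 ^ α * (1 + (2 + 4 * 80 ^ n) * Q), by positivity, ?_⟩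
  intro J x₀ R k m h hR hb hm0 hm
  have hw := wv_pos (n := n)
  have hk1 := h.one_le
  have hk0 : 0 < k := by linarith
  set σ := 1 / (C * k) with hσ
  have hσ0 : 0 < σ := by positivity
  have hσ1 : σ ≤ 1 := by
    rw [hσ, div_le_one (by positivity)]
    calc (1 : ℝ) = 1 * 1 := by norm_num
      _ ≤ C * k := by gcongr
  have hσC : σ * (64 * n * 40 ^ n * k) ≤ 1 := by
    rw [hσ, ← hC]
    apply le_of_eq
    field_simp
  have hgeh := gehring hn h hR hb hσ0 hσC hm0 hm
  set μ := m / (wv n * R ^ n) with hμ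
  have hμ0 : 0 < μ := by positivity
  set L := Real.log (Real.exp 1 + μ) with hL
  have hL1 : 1 ≤ L := one_le_log_exp_add hμ0.le
  have hασ : (α / σ) ^ α = Q * k ^ α := by
    rw [hσ, hQ, ← Real.mul_rpow (by positivity) hk0.le]
    congr 1
    field_simp
  have hmJ := h.meas
  calc ∫⁻ x in ball x₀ (R / 2), ENNReal.ofReal (J x * Real.log (Real.exp 1 + J x) ^ α)
      ≤ ∫⁻ x in ball x₀ (R / 2), (ENNReal.ofReal (2 ^ α * (L ^ α + 2 * (Q * k ^ α))) *
          ENNReal.ofReal (J x) + ENNReal.ofReal (2 ^ α * (2 * (Q * k ^ α))) *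
          ENNReal.ofReal (J x * (J x / μ) ^ σ)) := by
        apply setLIntegral_mono' measurableSet_ball
        intro z hz
        have hz' : z ∈ ball x₀ R := ball_subset_ball (by linarith) hz
        have g3 := h.pos z hz'
        have g4 := log_split hα hσ0 hσ1 g3.le hμ0
        rw [hασ] at g4
        rw [← ENNReal.ofReal_mul (by positivity), ← ENNReal.ofReal_mul (by positivity),
          ← ENNReal.ofReal_add (by positivity) (by positivity)]
        apply ENNReal.ofReal_le_ofReal
        calc J z * Real.log (Real.exp 1 + J z) ^ α ≤ J z * (2 ^ α * (L ^ α +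
              2 * (Q * k ^ α) * (1 + (J z / μ) ^ σ))) := by gcongr
          _ = _ := by ring
    _ = ENNReal.ofReal (2 ^ α * (L ^ α + 2 * (Q * k ^ α))) *
          (∫⁻ x in ball x₀ (R / 2), ENNReal.ofReal (J x)) +
          ENNReal.ofReal (2 ^ α * (2 * (Q * k ^ α))) *
          ∫⁻ x in ball x₀ (R / 2), ENNReal.ofReal (J x * (J x / μ) ^ σ) := by
        rw [lintegral_add_left (hmJ.ennreal_ofReal.const_mul _),
          lintegral_const_mul' _ _ ENNReal.ofReal_ne_top,
          lintegral_const_mul' _ _ ENNReal.ofReal_ne_top]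
    _ ≤ ENNReal.ofReal (2 ^ α * (L ^ α + 2 * (Q * k ^ α))) * ENNReal.ofReal m +
          ENNReal.ofReal (2 ^ α * (2 * (Q * k ^ α))) * ENNReal.ofReal (2 * 80 ^ n * m) := by
        apply add_le_add
        · apply mul_le_mul_right
          rw [← hm]
          exact lintegral_mono_set (ball_subset_ball (by linarith))
        · exact mul_le_mul_right hgeh _
    _ = ENNReal.ofReal (2 ^ α * (L ^ α + (2 + 4 * 80 ^ n) * (Q * k ^ α)) * m) := by
        rw [← ENNReal.ofReal_mul (by positivity), ← ENNReal.ofReal_mul (by positivity),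
          ← ENNReal.ofReal_add (by positivity) (by positivity)]
        congr 1
        ring
    _ ≤ _ := by
        apply ENNReal.ofReal_le_ofReal
        apply mul_le_mul_of_nonneg_right _ hm0.le
        rw [mul_assoc]
        apply mul_le_mul_of_nonneg_left _ (by positivity)
        have g1 : 0 ≤ L ^ α := by positivity
        have g2 : 0 ≤ k ^ α := by positivity
        have g3 : (0 : ℝ) ≤ (2 + 4 * 80 ^ n) * Q := by positivity
        nlinarith [mul_nonneg g3 g1]

end Pool.Agent.TreeS
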