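import Pool.Agent.TreeS.Geh5

/-!
# Averaging over balls of the size of the distance to a closed set
-/

set_option autoImplicit false

open MeasureTheory Set Metric Filter Topology
open scoped ENNReal

namespace Pool.Agent.TreeS

open Pool.Agent.RayM

variable {n : ℕ}

theorem RH_of_emb (hn : 2 ≤ n) {f : E n → E n} {y : E n} {R k : ℝ} (hR : 0 < R)
    (hf : Emb f (ball y R)) (hs : ContDiffOn ℝ 1 f (ball y R))
    (hJ : ∀ x ∈ ball y R, 0 < jac f x) (hk : ∀ x ∈ ball y R, distortion f x ≤ k) :
    RH (jac f) y R k := by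
  have hop : IsOpen (ball y R) := isOpen_ball
  have hcD : ContinuousOn (fderiv ℝ f) (ball y R) := hs.continuousOn_fderiv_of_isOpen hop le_rfl
  refine ⟨measurable_jac f, hJ, ContinuousLinearMap.continuous_det.comp_continuousOn hcD,
    (one_le_distortion f y).trans (hk y (mem_ball_self hR)), ?_⟩
  intro y' r T hr hT h2r hm
  have hsub : ball y' (R - dist y' y) ⊆ ball y R := ball_subset_ball' (by linarith)
  exact rh hn hr h2r (hf.mono hsub) (hs.mono hsub) (fun x hx => hJ x (hsub hx))
    (fun x hx => hk x (hsub hx)) hT hm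

/-- Tonelli's theorem for a set of pairs. -/
theorem tonelli_set {T : Set (E n × E n)} (hT : MeasurableSet T) {g H : E n → ℝ≥0∞}
    (hg : Measurable g) (hH : Measurable H) :
    ∫⁻ y, g y * ∫⁻ x in {x | (y, x) ∈ T}, H x = ∫⁻ x, H x * ∫⁻ y in {y | (y, x) ∈ T}, g y := by
  have e1 : ∀ y, g y * ∫⁻ x in {x | (y, x) ∈ T}, H x =
      ∫⁻ x, T.indicator (fun p : E n × E n => g p.1 * H p.2) (y, x) := by
    intro y
    have hm : MeasurableSet {x | (y, x) ∈ T} := measurable_prodMk_left hT
    rw [← lintegral_indicator hm, ← lintegral_const_mul _ (hH.indicator hm)]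
    apply lintegral_congr
    intro x
    by_cases hx : (y, x) ∈ T
    · rw [indicator_of_mem (show x ∈ {x | (y, x) ∈ T} from hx), indicator_of_mem hx]
    · rw [indicator_of_notMem (show x ∉ {x | (y, x) ∈ T} from hx), indicator_of_notMem hx,
        mul_zero]
  have e2 : ∀ x, H x * ∫⁻ y in {y | (y, x) ∈ T}, g y =
      ∫⁻ y, T.indicator (fun p : E n × E n => g p.1 * H p.2) (y, x) := by
    intro x
    have hm : MeasurableSet {y | (y, x) ∈ T} := measurable_prodMk_right hT
    rw [← lintegral_indicator hm, ← lintegral_const_mul _ (hg.indicator hm)]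
    apply lintegral_congr
    intro y
    by_cases hx : (y, x) ∈ T
    · rw [indicator_of_mem (show y ∈ {y | (y, x) ∈ T} from hx), indicator_of_mem hx, mul_comm]
    · rw [indicator_of_notMem (show y ∉ {y | (y, x) ∈ T} from hx), indicator_of_notMem hx,
        mul_zero]
  simp_rw [e1, e2]
  apply lintegral_lintegral_swap
  exact (((hg.comp measurable_fst).mul (hH.comp measurable_snd)).indicator hT).aemeasurable

/-- The logarithmic weight. -/
noncomputable def ell (t : ℝ) : ℝ := 1 + Real.log (max 1 (1 / t))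

theorem one_le_ell (t : ℝ) : 1 ≤ ell t := by
  have := Real.log_nonneg (le_max_left 1 (1 / t))
  unfold ell
  linarith

theorem measurable_ell : Measurable ell := by
  unfold ell
  fun_prop

/-- Comparison of the weights at comparable distances. -/
theorem ell_le {s t : ℝ} (ht : 0 < t) (hs : t / 2 ≤ s) : ell s ≤ 2 * ell t := by
  have hs0 : 0 < s := by linarith
  have h1 : max 1 (1 / s) ≤ 2 * max 1 (1 / t) := by
    apply max_le
    · have := le_max_left 1 (1 / t)
      linarith
    · calc 1 / s ≤ 1 / (t / 2) := one_div_le_one_div_of_le (by linarith) hs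
        _ = 2 * (1 / t) := by field_simp
        _ ≤ _ := by
          apply mul_le_mul_of_nonneg_left (le_max_right _ _) (by norm_num)
  have h2 : 0 < max 1 (1 / t) := lt_of_lt_of_le one_pos (le_max_left _ _)
  have h3 : 0 < max 1 (1 / s) := lt_of_lt_of_le one_pos (le_max_left _ _)
  have h4 := Real.log_le_log h3 h1
  rw [Real.log_mul (by norm_num) h2.ne'] at h4
  have h5 : Real.log 2 ≤ 1 := by
    have := Real.log_two_lt_d9
    linarith
  have h6 := Real.log_nonneg (le_max_left 1 (1 / t))
  unfold ell
  linarith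

/-- The logarithm of the mean value is controlled by the weight. -/
theorem log_mean_le {A t : ℝ} (hA : 0 ≤ A) (ht : 0 < t) :
    Real.log (Real.exp 1 + A / t ^ n) ≤ (Real.log (Real.exp 1 + A) + n) * ell t := by
  have he := Real.exp_pos 1
  set b := max 1 (1 / t) with hb
  have hb1 : 1 ≤ b := le_max_left _ _
  have h1 : Real.exp 1 + A / t ^ n ≤ (Real.exp 1 + A) * b ^ n := by
    have h2 : (1 / t) ^ n ≤ b ^ n := by
      have : 1 / t ≤ b := le_max_right _ _
      gcongr
    have h3 : 1 ≤ b ^ n := one_le_pow₀ hb1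
    calc Real.exp 1 + A / t ^ n = Real.exp 1 * 1 + A * (1 / t) ^ n := by
          rw [div_pow, one_pow]; ring
      _ ≤ Real.exp 1 * b ^ n + A * b ^ n := by gcongr
      _ = _ := by ring
  have h4 : Real.log (Real.exp 1 + A / t ^ n) ≤ Real.log ((Real.exp 1 + A) * b ^ n) :=
    Real.log_le_log (by positivity) h1
  rw [Real.log_mul (by positivity) (by positivity), Real.log_pow] at h4
  have h5 : 1 ≤ Real.log (Real.exp 1 + A) := one_le_log_exp_add hA
  have h6 : 0 ≤ Real.log b := Real.log_nonneg hb1
  refine h4.trans ?_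
  have h7 : (0 : ℝ) ≤ n := Nat.cast_nonneg n
  unfold ell
  rw [← hb]
  nlinarith [mul_nonneg (show 0 ≤ Real.log (Real.exp 1 + A) by linarith) h6]

end Pool.Agent.TreeS
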