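import Pool.Agent.TreeS.Mink

/-!
# The isoperimetric inequality for the images of balls
-/

set_option autoImplicit false

open MeasureTheory Set Metric Filter Topology
open scoped ENNReal

namespace Pool.Agent.TreeS

open Pool.Agent.RayM

variable {n : ℕ}

theorem young (hn : 2 ≤ n) {z : ℝ} (hz : 0 ≤ z) :
    (n : ℝ) * z ^ (n - 1) ≤ ((n : ℝ) - 1) * z ^ n + 1 := by
  obtain ⟨m, rfl⟩ : ∃ m, n = m + 2 := ⟨n - 2, by omega⟩
  rcases eq_or_lt_of_le hz with h | h
  · rw [← h]
    simp
  · have hb := one_add_mul_le_pow (show (-2 : ℝ) ≤ z⁻¹ - 1 by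
      have : 0 < z⁻¹ := by positivity
      linarith) (m + 2)
    have h1 : (1 + ((m + 2 : ℕ) : ℝ) * (z⁻¹ - 1)) * z ^ (m + 2) ≤ (1 + (z⁻¹ - 1)) ^ (m + 2) * z ^ (m + 2) := by
      gcongr
    rw [show 1 + (z⁻¹ - 1) = z⁻¹ by ring, inv_pow, inv_mul_cancel₀ (by positivity)] at h1
    have h2 : z⁻¹ * z ^ (m + 2) = z ^ (m + 1) := by
      rw [show m + 2 = (m + 1) + 1 by ring, pow_succ]
      field_simp
    have h3 : (1 + ((m + 2 : ℕ) : ℝ) * (z⁻¹ - 1)) * z ^ (m + 2) =
        ((m + 2 : ℕ) : ℝ) * (z⁻¹ * z ^ (m + 2)) - (((m + 2 : ℕ) : ℝ) - 1) * z ^ (m + 2) := by ring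
    rw [h3, h2] at h1
    rw [show m + 2 - 1 = m + 1 by omega]
    linarith

theorem iso (hn : 2 ≤ n) {f : E n → E n} {a : E n} {r s R : ℝ} (hr : 0 < r) (hrs : r < s)
    (hsR : s < R) (hf : Emb f (ball a R))
    (hd : ∀ x, r ≤ dist x a → dist x a ≤ s → DifferentiableAt ℝ f x ∧ 0 < jac f x)
    (hc : ContinuousOn (fderiv ℝ f) {x | r ≤ dist x a ∧ dist x a ≤ s}) :
    (n : ℝ) * (volume (f '' closedBall a r)).toReal ≤ r * ∫ ω : sphere (0 : E n) 1,
        r ^ (n - 1) * ‖fderiv ℝ f (a + r • (ω : E n))‖ ^ n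
          ∂(volume : Measure (E n)).toSphere := by
  have hnt := nontrivial_E hn
  have hn0 : (0 : ℝ) < n := by exact_mod_cast (by omega : 0 < n)
  have hn1 : (1 : ℝ) < n := by exact_mod_cast (by omega : 1 < n)
  have hKc : IsCompact (f '' closedBall a r) :=
    (isCompact_closedBall a r).image_of_continuousOn
      (hf.cont.mono (closedBall_subset_ball (hrs.trans hsR)))
  set K := f '' closedBall a r with hK
  set v := (volume K).toReal with hv
  have hKt : volume K ≠ ⊤ := hKc.measure_lt_top.ne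
  set w := (volume (ball (0 : E n) 1)).toReal with hw
  have hwt : volume (ball (0 : E n) 1) ≠ ⊤ := measure_ball_lt_top.ne
  have hw0 : 0 < w := ENNReal.toReal_pos (measure_ball_pos _ _ one_pos).ne' hwt
  have hv0 : 0 < v := by
    apply ENNReal.toReal_pos _ hKt
    have h1 : IsOpen (f '' ball a r) := hf.opn _ isOpen_ball
      (ball_subset_ball (hrs.trans hsR).le)
    have h2 : (f '' ball a r).Nonempty := (nonempty_ball.2 hr).image f
    exact (lt_of_lt_of_le (h1.measure_pos volume h2)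
      (measure_mono (image_mono ball_subset_closedBall))).ne'
  -- the volume radius
  set ρ := (v / w) ^ ((n : ℝ)⁻¹) with hρ
  have hρ0 : 0 < ρ := by positivity
  have hρn : ρ ^ n = v / w := by
    rw [hρ]; exact Real.rpow_inv_natCast_pow (by positivity) (by omega)
  have hvρ : v = w * ρ ^ n := by rw [hρn]; field_simp
  have hball : volume (closedBall (0 : E n) ρ) = volume K := by
    rw [Measure.addHaar_closedBall _ _ hρ0.le, finrank_euclideanSpace, Fintype.card_fin, hρn,
      ← ENNReal.ofReal_toReal hwt, ← hw, ← ENNReal.ofReal_mul (by positivity),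
      div_mul_cancel₀ _ hw0.ne', hv, ENNReal.ofReal_toReal hKt]
  set A := {x : E n | r ≤ dist x a ∧ dist x a ≤ s} with hA
  have hsph : ∀ (ω : sphere (0 : E n) 1) (t : ℝ), 0 ≤ t → dist (a + t • (ω : E n)) a = t := by
    intro ω t ht
    rw [dist_eq_norm, add_sub_cancel_left, norm_smul, show ‖(ω : E n)‖ = 1 by simp, mul_one,
      Real.norm_of_nonneg ht]
  have hyc : Continuous (fun ω : sphere (0 : E n) 1 => ‖fderiv ℝ f (a + r • (ω : E n))‖) := by
    apply Continuous.norm
    apply hc.comp_continuous (by fun_prop)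
    intro ω
    change r ≤ dist _ a ∧ dist _ a ≤ s
    rw [hsph ω r hr.le]
    exact ⟨le_rfl, hrs.le⟩
  set y : sphere (0 : E n) 1 → ℝ := fun ω => ‖fderiv ℝ f (a + r • (ω : E n))‖ with hy
  have hint : ∀ j : ℕ, Integrable (fun ω => y ω ^ j) (volume : Measure (E n)).toSphere :=
    fun j => (hyc.pow j).integrable_of_hasCompactSupport (HasCompactSupport.of_compactSpace _)
  set I := ∫ ω, y ω ^ (n - 1) ∂(volume : Measure (E n)).toSphere with hI
  set B := ∫ ω, y ω ^ n ∂(volume : Measure (E n)).toSphere with hB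
  have hI' : (∫ ω : sphere (0 : E n) 1, r ^ (n - 1) *
      ‖fderiv ℝ f (a + r • (ω : E n))‖ ^ (n - 1) ∂(volume : Measure (E n)).toSphere) =
      r ^ (n - 1) * I := by rw [integral_const_mul]
  have hB' : (∫ ω : sphere (0 : E n) 1, r ^ (n - 1) *
      ‖fderiv ℝ f (a + r • (ω : E n))‖ ^ n ∂(volume : Measure (E n)).toSphere) =
      r ^ (n - 1) * B := by rw [integral_const_mul]
  rw [hB']
  have hI0 : 0 ≤ I := integral_nonneg (fun ω => by positivity)
  -- P3
  have P3 : (n : ℝ) * v ≤ ρ * (r ^ (n - 1) * I) := by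
    apply le_of_forall_pos_le_add
    intro δ' hδ'
    obtain ⟨ε₀, hε₀, hmk⟩ := mink hn hr hrs hsR hf hd hc (δ := δ' / ρ) (by positivity)
    rw [hI'] at hmk
    obtain ⟨m, hm⟩ := exists_nat_gt (max 1 (ρ / ε₀))
    have hm1 : (1 : ℝ) < m := lt_of_le_of_lt (le_max_left _ _) hm
    have hm0 : (0 : ℝ) < m := by linarith
    have hm2 : ρ / ε₀ < m := lt_of_le_of_lt (le_max_right _ _) hm
    have hm3 : ρ / m ≤ ε₀ := by
      rw [div_lt_iff₀ hε₀] at hm2
      rw [div_le_iff₀ hm0]
      linarith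
    have h1 := vol_cthickening_ge hKc hball (m := m) (by
      have : (1 : ℝ) ≤ m := hm1.le
      exact_mod_cast this)
    have h2 := h1.trans (hmk (ρ / m) (by positivity) hm3)
    have hLpos : 0 ≤ ρ / m * (r ^ (n - 1) * I + δ' / ρ) := by positivity
    rw [← ENNReal.ofReal_toReal hKt, ← hv, ← ENNReal.ofReal_mul (by positivity),
      ← ENNReal.ofReal_add hv0.le hLpos, ENNReal.ofReal_le_ofReal_iff (by positivity)] at h2
    have h3 : 1 + (n : ℝ) * (1 / m) ≤ (1 + 1 / (m : ℝ)) ^ n :=
      one_add_mul_le_pow (by have : (0 : ℝ) < 1 / m := by positivity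
                             linarith) n
    have h4 : (1 + (n : ℝ) * (1 / m)) * v ≤ (1 + 1 / (m : ℝ)) ^ n * v := by gcongr
    have h5 : (n : ℝ) * v * (1 / m) ≤ (ρ * (r ^ (n - 1) * I) + δ') * (1 / m) := by
      have e1 : ρ / m * (r ^ (n - 1) * I + δ' / ρ) = (ρ * (r ^ (n - 1) * I) + δ') * (1 / m) := by
        field_simp
      nlinarith
    exact le_of_mul_le_mul_right h5 (by positivity)
  -- P4
  have hσ : ((volume : Measure (E n)).toSphere).real univ = n * w := by
    rw [Measure.toSphere_real_apply_univ, finrank_euclideanSpace, Fintype.card_fin]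
    rfl
  set z := r / ρ with hz
  have hz0 : 0 < z := by positivity
  have hyo : (n : ℝ) * z ^ (n - 1) * I ≤ ((n : ℝ) - 1) * z ^ n * B + n * w := by
    have h1 : ∫ ω, (n : ℝ) * z ^ (n - 1) * y ω ^ (n - 1) ∂(volume : Measure (E n)).toSphere ≤
        ∫ ω, (((n : ℝ) - 1) * z ^ n * y ω ^ n + 1) ∂(volume : Measure (E n)).toSphere := by
      apply integral_mono ((hint _).const_mul _) (((hint _).const_mul _).add (integrable_const _))
      intro ω
      have := young hn (z := z * y ω) (by positivity)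
      simp only [mul_pow] at this
      change (n : ℝ) * z ^ (n - 1) * y ω ^ (n - 1) ≤ ((n : ℝ) - 1) * z ^ n * y ω ^ n + 1
      linarith
    rw [integral_const_mul, integral_add ((hint _).const_mul _) (integrable_const _),
      integral_const_mul, integral_const, hσ, smul_eq_mul, mul_one] at h1
    exact h1
  have h6 : (n : ℝ) * w ≤ z ^ (n - 1) * I := by
    have e1 : ρ ^ n = ρ * ρ ^ (n - 1) := by
      rw [← pow_succ']; congr 1; omega
    have h7 : (n : ℝ) * w * ρ ^ (n - 1) ≤ r ^ (n - 1) * I := by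
      rw [hvρ, e1] at P3
      have : ρ * ((n : ℝ) * w * ρ ^ (n - 1)) ≤ ρ * (r ^ (n - 1) * I) := by
        calc ρ * ((n : ℝ) * w * ρ ^ (n - 1)) = n * (w * (ρ * ρ ^ (n - 1))) := by ring
          _ ≤ _ := P3
      exact le_of_mul_le_mul_left this hρ0
    have e2 : z ^ (n - 1) * I = r ^ (n - 1) * I / ρ ^ (n - 1) := by
      rw [hz, div_pow]; ring
    rw [e2, le_div_iff₀ (by positivity)]
    exact h7
  have h8 : (n : ℝ) * w ≤ z ^ n * B := by
    have h9 : (n : ℝ) * (n * w) ≤ n * (z ^ (n - 1) * I) := by gcongr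
    have h10 : ((n : ℝ) - 1) * (n * w) ≤ ((n : ℝ) - 1) * (z ^ n * B) := by nlinarith
    exact le_of_mul_le_mul_left h10 (by linarith)
  have e3 : r * (r ^ (n - 1) * B) = ρ ^ n * (z ^ n * B) := by
    rw [hz, div_pow, ← mul_assoc, ← pow_succ', show n - 1 + 1 = n by omega]
    field_simp
  rw [e3, hvρ]
  calc (n : ℝ) * (w * ρ ^ n) = ρ ^ n * (n * w) := by ring
    _ ≤ ρ ^ n * (z ^ n * B) := by gcongr

/-- The basic inequality on spheres. -/
theorem v1 (hn : 2 ≤ n) {f : E n → E n} {a : E n} {r s R : ℝ} (hr : 0 < r) (hrs : r < s)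
    (hsR : s < R) (hf : Emb f (ball a R))
    (hae : ∀ᵐ x ∂((volume : Measure (E n)).restrict (ball a R)), DifferentiableAt ℝ f x ∧
      0 ≤ jac f x)
    (hd : ∀ x, r ≤ dist x a → dist x a ≤ s → DifferentiableAt ℝ f x ∧ 0 < jac f x)
    (hc : ContinuousOn (fderiv ℝ f) {x | r ≤ dist x a ∧ dist x a ≤ s}) :
    (n : ℝ≥0∞) * ∫⁻ x in closedBall a r, ENNReal.ofReal (jac f x) ≤
      ENNReal.ofReal r * ∫⁻ ω : sphere (0 : E n) 1,
        ENNReal.ofReal (r ^ (n - 1)) * ENNReal.ofReal (‖fderiv ℝ f (a + r • (ω : E n))‖ ^ n)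
          ∂(volume : Measure (E n)).toSphere := by
  have hnt := nontrivial_E hn
  have hsub : closedBall a r ⊆ ball a R := closedBall_subset_ball (hrs.trans hsR)
  set D : Set (E n) := closedBall a r ∩ ({x | DifferentiableAt ℝ f x} ∩ {x | 0 ≤ jac f x}) with hD
  have hDm : MeasurableSet D := measurableSet_closedBall.inter
    ((measurableSet_of_differentiableAt ℝ f).inter
      (measurableSet_le measurable_const (measurable_jac f)))
  have h1 : ∫⁻ x in closedBall a r, ENNReal.ofReal (jac f x) =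
      ∫⁻ x in D, ENNReal.ofReal (jac f x) := by
    apply setLIntegral_congr
    have h2 := ae_restrict_of_ae_restrict_of_subset hsub hae
    rw [ae_restrict_iff' measurableSet_closedBall] at h2
    filter_upwards [h2] with x hx
    apply propext
    constructor
    · intro h; exact ⟨h, hx h⟩
    · intro h; exact h.1
  have h2 : ∫⁻ x in D, ENNReal.ofReal (jac f x) = volume (f '' D) :=
    (vol_image_eq hf (inter_subset_left.trans hsub) hDm (fun x hx => hx.2)).symm
  have hKc : IsCompact (f '' closedBall a r) :=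
    (isCompact_closedBall a r).image_of_continuousOn (hf.cont.mono hsub)
  have hKt : volume (f '' closedBall a r) ≠ ⊤ := hKc.measure_lt_top.ne
  have h3 := iso hn hr hrs hsR hf hd hc
  have hsph : ∀ (ω : sphere (0 : E n) 1) (t : ℝ), 0 ≤ t → dist (a + t • (ω : E n)) a = t := by
    intro ω t ht
    rw [dist_eq_norm, add_sub_cancel_left, norm_smul, show ‖(ω : E n)‖ = 1 by simp, mul_one,
      Real.norm_of_nonneg ht]
  have hyc : Continuous (fun ω : sphere (0 : E n) 1 => ‖fderiv ℝ f (a + r • (ω : E n))‖) := by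
    apply Continuous.norm
    apply hc.comp_continuous (by fun_prop)
    intro ω
    change r ≤ dist _ a ∧ dist _ a ≤ s
    rw [hsph ω r hr.le]
    exact ⟨le_rfl, hrs.le⟩
  have hint : Integrable (fun ω : sphere (0 : E n) 1 =>
      r ^ (n - 1) * ‖fderiv ℝ f (a + r • (ω : E n))‖ ^ n) (volume : Measure (E n)).toSphere :=
    (continuous_const.mul (hyc.pow n)).integrable_of_hasCompactSupport
      (HasCompactSupport.of_compactSpace _)
  calc (n : ℝ≥0∞) * ∫⁻ x in closedBall a r, ENNReal.ofReal (jac f x)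
      ≤ n * volume (f '' closedBall a r) := by
        rw [h1, h2]
        gcongr
        exact inter_subset_left
    _ = ENNReal.ofReal ((n : ℝ) * (volume (f '' closedBall a r)).toReal) := by
        rw [ENNReal.ofReal_mul (by positivity), ENNReal.ofReal_natCast,
          ENNReal.ofReal_toReal hKt]
    _ ≤ ENNReal.ofReal (r * ∫ ω : sphere (0 : E n) 1,
        r ^ (n - 1) * ‖fderiv ℝ f (a + r • (ω : E n))‖ ^ n
          ∂(volume : Measure (E n)).toSphere) := ENNReal.ofReal_le_ofReal h3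
    _ = _ := by
        rw [ENNReal.ofReal_mul hr.le, ofReal_integral_eq_lintegral_ofReal hint
          (Filter.Eventually.of_forall (fun ω => by simp only [Pi.zero_apply]; positivity))]
        congr 1
        apply lintegral_congr
        intro ω
        rw [ENNReal.ofReal_mul (by positivity)]

end Pool.Agent.TreeS
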