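import Pool.Agent.TreeS.Sph

/-!
# The spherical mean of the distortion on a shell
-/

set_option autoImplicit false

open MeasureTheory Set Metric Filter Topology
open scoped ENNReal

namespace Pool.Agent.TreeS

open Pool.Agent.RayM

variable {n : ℕ}

theorem dist_sphere (a : E n) (ω : sphere (0 : E n) 1) {t : ℝ} (ht : 0 ≤ t) :
    dist (a + t • (ω : E n)) a = t := by
  rw [dist_eq_norm, add_sub_cancel_left, norm_smul, show ‖(ω : E n)‖ = 1 by simp, mul_one,
    Real.norm_of_nonneg ht]

/-- The inequality on spheres with the spherical mean. -/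
theorem v2 (hn : 2 ≤ n) {f : E n → E n} {a : E n} {r s R : ℝ} (hr : 0 < r) (hrs : r < s)
    (hsR : s < R) (hf : Emb f (ball a R))
    (hae : ∀ᵐ x ∂((volume : Measure (E n)).restrict (ball a R)), DifferentiableAt ℝ f x ∧
      0 ≤ jac f x)
    (hd : ∀ x, r ≤ dist x a → dist x a ≤ s → DifferentiableAt ℝ f x ∧ 0 < jac f x)
    (hc : ContinuousOn (fderiv ℝ f) {x | r ≤ dist x a ∧ dist x a ≤ s}) :
    (n : ℝ≥0∞) * ∫⁻ x in closedBall a r, ENNReal.ofReal (jac f x) ≤
      ENNReal.ofReal (r * kbar f a r) * ∫⁻ ω : sphere (0 : E n) 1,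
        ENNReal.ofReal (r ^ (n - 1)) * ENNReal.ofReal (jac f (a + r • (ω : E n)))
          ∂(volume : Measure (E n)).toSphere := by
  have hnt := nontrivial_E hn
  have hsub : closedBall a r ⊆ ball a R := closedBall_subset_ball (hrs.trans hsR)
  set D : Set (E n) := closedBall a r ∩ ({x | DifferentiableAt ℝ f x} ∩ {x | 0 ≤ jac f x}) with hD
  have hDm : MeasurableSet D := measurableSet_closedBall.inter
    ((measurableSet_of_differentiableAt ℝ f).inter
      (measurableSet_le measurable_const (measurable_jac f)))
  have h1 : ∫⁻ x in closedBall a r, ENNReal.ofReal (jac f x) =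
      ∫⁻ x in D, ENNReal.ofReal (jac f x) := by
    apply setLIntegral_congr
    have h2 := ae_restrict_of_ae_restrict_of_subset hsub hae
    rw [ae_restrict_iff' measurableSet_closedBall] at h2
    filter_upwards [h2] with x hx
    apply propext
    constructor
    · intro h; exact ⟨h, hx h⟩
    · intro h; exact h.1
  have h2 : ∫⁻ x in D, ENNReal.ofReal (jac f x) = volume (f '' D) :=
    (vol_image_eq hf (inter_subset_left.trans hsub) hDm (fun x hx => hx.2)).symm
  have hKc : IsCompact (f '' closedBall a r) :=
    (isCompact_closedBall a r).image_of_continuousOn (hf.cont.mono hsub)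
  have hKt : volume (f '' closedBall a r) ≠ ⊤ := hKc.measure_lt_top.ne
  have h3 := iso2 hn hr hrs hsR hf hd hc
  have hmem : ∀ ω : sphere (0 : E n) 1, r ≤ dist (a + r • (ω : E n)) a ∧
      dist (a + r • (ω : E n)) a ≤ s := by
    intro ω
    rw [dist_sphere a ω hr.le]
    exact ⟨le_rfl, hrs.le⟩
  have hfc : Continuous (fun ω : sphere (0 : E n) 1 => fderiv ℝ f (a + r • (ω : E n))) := by
    apply hc.comp_continuous (by fun_prop)
    exact hmem
  have hJc : Continuous (fun ω : sphere (0 : E n) 1 => jac f (a + r • (ω : E n))) :=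
    ContinuousLinearMap.continuous_det.comp hfc
  have hJp : ∀ ω : sphere (0 : E n) 1, 0 < jac f (a + r • (ω : E n)) := fun ω =>
    (hd _ (hmem ω).1 (hmem ω).2).2
  have hint : Integrable (fun ω : sphere (0 : E n) 1 =>
      r ^ (n - 1) * jac f (a + r • (ω : E n))) (volume : Measure (E n)).toSphere :=
    (continuous_const.mul hJc).integrable_of_hasCompactSupport
      (HasCompactSupport.of_compactSpace _)
  have hkb : 0 ≤ kbar f a r := by
    unfold kbar
    have := sig_pos hn
    apply Real.rpow_nonneg
    apply div_nonneg _ this.le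
    apply integral_nonneg
    intro ω
    have := one_le_distortion f (a + r • (ω : E n))
    positivity
  calc (n : ℝ≥0∞) * ∫⁻ x in closedBall a r, ENNReal.ofReal (jac f x)
      ≤ n * volume (f '' closedBall a r) := by
        rw [h1, h2]
        gcongr
        exact inter_subset_left
    _ = ENNReal.ofReal ((n : ℝ) * (volume (f '' closedBall a r)).toReal) := by
        rw [ENNReal.ofReal_mul (by positivity), ENNReal.ofReal_natCast,
          ENNReal.ofReal_toReal hKt]
    _ ≤ ENNReal.ofReal (r * kbar f a r * ∫ ω : sphere (0 : E n) 1,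
        r ^ (n - 1) * jac f (a + r • (ω : E n))
          ∂(volume : Measure (E n)).toSphere) := ENNReal.ofReal_le_ofReal h3
    _ = _ := by
        rw [ENNReal.ofReal_mul (by positivity), ofReal_integral_eq_lintegral_ofReal hint
          (Filter.Eventually.of_forall (fun ω => by
            have := hJp ω
            simp only [Pi.zero_apply]
            positivity))]
        congr 1
        apply lintegral_congr
        intro ω
        rw [ENNReal.ofReal_mul (by positivity)]

/-- The distortion is continuous on the shell. -/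
theorem continuousOn_distortion {f : E n → E n} {a : E n} {r R : ℝ}
    (hs : ContDiffOn ℝ 1 f (sh a r R)) (hJ : ∀ x ∈ sh a r R, 0 < jac f x) :
    ContinuousOn (distortion f) (sh a r R) := by
  have h1 := hs.continuousOn_fderiv_of_isOpen (isOpen_sh a r R) le_rfl
  have h2 : ContinuousOn (jac f) (sh a r R) :=
    ContinuousLinearMap.continuous_det.comp_continuousOn h1
  have h3 : ContinuousOn (fun x => ‖fderiv ℝ f x‖ ^ n / jac f x) (sh a r R) :=
    (h1.norm.pow n).div h2 (fun x hx => (hJ x hx).ne')
  exact h3.congr (fun x hx => distortion_eq (hJ x hx))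

theorem mem_sh_sphere {a : E n} {r R τ : ℝ} (hr : 0 < r) (hτ : τ ∈ Ioo r R)
    (ω : sphere (0 : E n) 1) : a + τ • (ω : E n) ∈ sh a r R := by
  unfold sh
  rw [mem_ofPred_eq, dist_sphere a ω (hr.trans hτ.1).le]
  exact hτ

theorem continuous_distortion_sphere {f : E n → E n} {a : E n} {r R : ℝ} (hr : 0 < r)
    (hs : ContDiffOn ℝ 1 f (sh a r R)) (hJ : ∀ x ∈ sh a r R, 0 < jac f x) {τ : ℝ}
    (hτ : τ ∈ Ioo r R) :
    Continuous (fun ω : sphere (0 : E n) 1 => distortion f (a + τ • (ω : E n))) :=
  (continuousOn_distortion hs hJ).comp_continuous (by fun_prop) (fun ω => mem_sh_sphere hr hτ ω)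

/-- The spherical mean is continuous on the shell. -/
theorem continuousOn_kbar (hn : 2 ≤ n) {f : E n → E n} {a : E n} {r R : ℝ} (hr : 0 < r)
    (hs : ContDiffOn ℝ 1 f (sh a r R)) (hJ : ∀ x ∈ sh a r R, 0 < jac f x) :
    ContinuousOn (kbar f a) (Ioo r R) := by
  have hσ := sig_pos hn
  have hn1 : (1 : ℝ) < n := by exact_mod_cast (by omega : 1 < n)
  have h1 : ContinuousOn (fun τ : ℝ => ∫ ω : sphere (0 : E n) 1,
      distortion f (a + τ • (ω : E n)) ^ (n - 1) ∂(volume : Measure (E n)).toSphere)
      (Ioo r R) := by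
    rw [continuousOn_iff_continuous_domRestrict]
    have hlc : LocallyCompactSpace (Ioo r R) := isOpen_Ioo.locallyCompactSpace
    have h2 : Continuous (Function.uncurry (fun (τ : Ioo r R) (ω : sphere (0 : E n) 1) =>
        distortion f (a + (τ : ℝ) • (ω : E n)) ^ (n - 1))) := by
      apply Continuous.pow
      have h3 : Continuous (fun p : Ioo r R × sphere (0 : E n) 1 =>
          a + (p.1 : ℝ) • (p.2 : E n)) := by fun_prop
      exact (continuousOn_distortion hs hJ).comp_continuous h3
        (fun p => mem_sh_sphere hr p.1.2 p.2)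
    have h4 := continuous_parametric_integral_of_continuous
      (μ := (volume : Measure (E n)).toSphere) h2 (s := univ) isCompact_univ
    simp only [Measure.restrict_univ] at h4
    exact h4
  unfold kbar
  apply ContinuousOn.rpow_const (h1.div_const _)
  intro τ _
  right
  apply div_nonneg zero_le_one
  linarith

theorem one_le_kbar (hn : 2 ≤ n) {f : E n → E n} {a : E n} {r R : ℝ} (hr : 0 < r)
    (hs : ContDiffOn ℝ 1 f (sh a r R)) (hJ : ∀ x ∈ sh a r R, 0 < jac f x) {τ : ℝ}
    (hτ : τ ∈ Ioo r R) : 1 ≤ kbar f a τ := by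
  have hσ := sig_pos hn
  have hn1 : (1 : ℝ) < n := by exact_mod_cast (by omega : 1 < n)
  unfold kbar
  apply Real.one_le_rpow
  · rw [le_div_iff₀ hσ, one_mul, ← real_univ_toSphere]
    have h1 : ∫ _ω : sphere (0 : E n) 1, (1 : ℝ) ∂(volume : Measure (E n)).toSphere ≤
        ∫ ω : sphere (0 : E n) 1, distortion f (a + τ • (ω : E n)) ^ (n - 1)
          ∂(volume : Measure (E n)).toSphere := by
      apply integral_mono (integrable_const _)
      · exact ((continuous_distortion_sphere hr hs hJ hτ).pow _).integrable_of_hasCompactSupport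
          (HasCompactSupport.of_compactSpace _)
      · intro ω
        exact one_le_pow₀ (one_le_distortion f _)
    rw [integral_const, smul_eq_mul, mul_one] at h1
    exact h1
  · apply div_nonneg zero_le_one
    linarith

end Pool.Agent.TreeS
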