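import Pool.Agent.TreeS.Kbar

/-!
# Exponential of the spherical mean
-/

set_option autoImplicit false

open MeasureTheory Set Metric Filter Topology
open scoped ENNReal

namespace Pool.Agent.TreeS

open Pool.Agent.RayM

variable {n : ℕ}

theorem kbar_pow (hn : 2 ≤ n) (f : E n → E n) (a : E n) (τ : ℝ) :
    sig n * kbar f a τ ^ (n - 1) = ∫ ω : sphere (0 : E n) 1,
      distortion f (a + τ • (ω : E n)) ^ (n - 1) ∂(volume : Measure (E n)).toSphere := by
  have hσ := sig_pos hn
  have hn1 : (1 : ℝ) < n := by exact_mod_cast (by omega : 1 < n)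
  have h0 : 0 ≤ (∫ ω : sphere (0 : E n) 1,
      distortion f (a + τ • (ω : E n)) ^ (n - 1) ∂(volume : Measure (E n)).toSphere) := by
    apply integral_nonneg
    intro ω
    have := one_le_distortion f (a + τ • (ω : E n))
    positivity
  unfold kbar
  rw [← Real.rpow_natCast, ← Real.rpow_mul (by positivity), show ((n - 1 : ℕ) : ℝ) = (n : ℝ) - 1 by
    push_cast [Nat.cast_sub (by omega : 1 ≤ n)]; ring, one_div,
    inv_mul_cancel₀ (by linarith), Real.rpow_one]
  field_simp

/-- The exponential of the mean is bounded by the mean of the exponential. -/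
theorem exp_mean (hn : 2 ≤ n) {b β : ℝ} (hb : 0 < b) (hbβ : b < β) :
    ∃ C : ℝ, 0 ≤ C ∧ ∀ (f : E n → E n) (a : E n) (r R τ : ℝ), 0 < r →
      ContDiffOn ℝ 1 f (sh a r R) → (∀ x ∈ sh a r R, 0 < jac f x) → τ ∈ Ioo r R →
      Real.exp (b * kbar f a τ) ≤ C * ∫ ω : sphere (0 : E n) 1,
        Real.exp (β * distortion f (a + τ • (ω : E n))) ∂(volume : Measure (E n)).toSphere := by
  have hβ : 0 < β := hb.trans hbβ
  have hσ := sig_pos hn
  set q := √(b / β) with hq
  have hbβ1 : b / β < 1 := by rw [div_lt_one hβ]; exact hbβ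
  have hq0 : 0 < q := Real.sqrt_pos.2 (by positivity)
  have hq1 : q < 1 := by
    rw [hq, Real.sqrt_lt' one_pos, one_pow]
    exact hbβ1
  have hq2 : q * q = b / β := Real.mul_self_sqrt (by positivity)
  set β₁ := q * β with hβ₁
  have hβ₁β : 0 < β - β₁ := by rw [hβ₁]; nlinarith
  have hβ₁q : β₁ * q = b := by
    rw [hβ₁, mul_assoc, mul_comm β q, ← mul_assoc, hq2]; field_simp
  have hβ₁0 : 0 < β₁ := by positivity
  have hqm : q ^ (n - 1) < 1 := pow_lt_one₀ hq0.le hq1 (by omega)
  obtain ⟨C, hC, hCx⟩ := rpow_le_exp ((n - 1 : ℕ) : ℝ) hβ₁β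
  have hden : 0 < sig n * (1 - q ^ (n - 1)) := mul_pos hσ (by linarith)
  refine ⟨C / (sig n * (1 - q ^ (n - 1))), by positivity, ?_⟩
  intro f a r R τ hr hs hJ hτ
  have hKc := continuous_distortion_sphere hr hs hJ hτ
  have hk1 := one_le_kbar hn hr hs hJ hτ
  have hkp := kbar_pow hn f a τ
  set K : sphere (0 : E n) 1 → ℝ := fun ω => distortion f (a + τ • (ω : E n)) with hK
  set k := kbar f a τ with hk
  have hK1 : ∀ ω, 1 ≤ K ω := fun ω => one_le_distortion f _
  have hi : ∀ g : sphere (0 : E n) 1 → ℝ, Continuous g →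
      Integrable g (volume : Measure (E n)).toSphere := fun g hg =>
    hg.integrable_of_hasCompactSupport (HasCompactSupport.of_compactSpace _)
  have hpt : ∀ ω, K ω ^ (n - 1) ≤ (q * k) ^ (n - 1) +
      Real.exp (-(b * k)) * (C * Real.exp (β * K ω)) := by
    intro ω
    have h1 : 1 ≤ K ω := hK1 ω
    rcases le_or_gt (K ω) (q * k) with h2 | h2
    · have h3 : K ω ^ (n - 1) ≤ (q * k) ^ (n - 1) := by gcongr
      have h4 : 0 ≤ Real.exp (-(b * k)) * (C * Real.exp (β * K ω)) := by positivity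
      linarith
    · have h3 : K ω ^ (n - 1) ≤ C * Real.exp ((β - β₁) * K ω) := by
        have := hCx (K ω) h1
        rwa [Real.rpow_natCast] at this
      have h4 : 1 ≤ Real.exp (β₁ * K ω - b * k) := by
        apply Real.one_le_exp
        rw [← hβ₁q]
        nlinarith
      have h5 : 0 ≤ (q * k) ^ (n - 1) := by positivity
      calc K ω ^ (n - 1) ≤ C * Real.exp ((β - β₁) * K ω) * 1 := by rw [mul_one]; exact h3
        _ ≤ C * Real.exp ((β - β₁) * K ω) * Real.exp (β₁ * K ω - b * k) := by gcongr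
        _ = Real.exp (-(b * k)) * (C * Real.exp (β * K ω)) := by
            rw [mul_assoc, ← Real.exp_add, mul_left_comm, ← Real.exp_add]
            ring_nf
        _ ≤ _ := by linarith
  have hcont : Continuous (fun ω => (q * k) ^ (n - 1) +
      Real.exp (-(b * k)) * (C * Real.exp (β * K ω))) := by fun_prop
  have h6 : ∫ ω, K ω ^ (n - 1) ∂(volume : Measure (E n)).toSphere ≤
      ∫ ω, ((q * k) ^ (n - 1) + Real.exp (-(b * k)) * (C * Real.exp (β * K ω)))
        ∂(volume : Measure (E n)).toSphere :=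
    integral_mono (hi _ (hKc.pow _)) (hi _ hcont) hpt
  have hce : Continuous (fun ω => Real.exp (-(b * k)) * (C * Real.exp (β * K ω))) := by fun_prop
  rw [integral_add (integrable_const _) (hi _ hce), integral_const, real_univ_toSphere,
    integral_const_mul, integral_const_mul, smul_eq_mul, ← hkp] at h6
  set T := ∫ ω, Real.exp (β * K ω) ∂(volume : Measure (E n)).toSphere with hT
  rw [mul_pow] at h6
  have h7 : sig n * (1 - q ^ (n - 1)) * k ^ (n - 1) ≤ Real.exp (-(b * k)) * (C * T) := by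
    nlinarith
  have h8 : sig n * (1 - q ^ (n - 1)) ≤ Real.exp (-(b * k)) * (C * T) := by
    refine le_trans ?_ h7
    have : 1 ≤ k ^ (n - 1) := one_le_pow₀ hk1
    nlinarith
  rw [div_mul_eq_mul_div, le_div_iff₀ hden]
  have h9 : Real.exp (b * k) * Real.exp (-(b * k)) = 1 := by
    rw [← Real.exp_add]; simp
  calc Real.exp (b * k) * (sig n * (1 - q ^ (n - 1)))
      ≤ Real.exp (b * k) * (Real.exp (-(b * k)) * (C * T)) := by gcongr
    _ = (Real.exp (b * k) * Real.exp (-(b * k))) * (C * T) := by ring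
    _ = C * T := by rw [h9, one_mul]

end Pool.Agent.TreeS
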