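import Pool.Agent.TreeS.Tree2
import Pool.Agent.TreeS.Mean

/-!
# Lower bounds for the weights
-/

set_option autoImplicit false

open MeasureTheory Set Metric Filter Topology
open scoped ENNReal

namespace Pool.Agent.TreeS

open Pool.Agent.RayM

variable {n : ℕ}

/-- The density of the error. -/
noncomputable def err (b κ c : ℝ) (f : E n → E n) (a : E n) (R τ : ℝ) : ℝ :=
  Real.exp (b * (kbar f a τ - κ * (c + Real.log (R / τ)))) / τ

theorem integral_log_weight {c R d : ℝ} (hc : 1 ≤ c) (hd : 0 < d) (hdR : d < R) :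
    IntegrableOn (fun τ => 1 / (τ * (c + Real.log (R / τ)))) (Ioo d R) ∧
    ∫ τ in Ioo d R, 1 / (τ * (c + Real.log (R / τ))) =
      Real.log (c + Real.log (R / d)) - Real.log c := by
  have hR : 0 < R := hd.trans hdR
  have hpos : ∀ τ ∈ Icc d R, 0 < τ ∧ 1 ≤ c + Real.log (R / τ) := by
    intro τ hτ
    have h1 : 0 < τ := hd.trans_le hτ.1
    refine ⟨h1, ?_⟩
    have : 0 ≤ Real.log (R / τ) := Real.log_nonneg (by rw [le_div_iff₀ h1, one_mul]; exact hτ.2)
    linarith
  have hcont : ContinuousOn (fun τ : ℝ => 1 / (τ * (c + Real.log (R / τ)))) (Icc d R) := by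
    intro τ hτ
    obtain ⟨h1, h2⟩ := hpos τ hτ
    apply ContinuousAt.continuousWithinAt
    have h3 : ContinuousAt (fun τ : ℝ => c + Real.log (R / τ)) τ := by
      apply ContinuousAt.add continuousAt_const
      exact (continuousAt_const.div continuousAt_id h1.ne').log (div_pos hR h1).ne'
    have h4 : 0 < c + Real.log (R / τ) := by linarith
    exact continuousAt_const.div (continuousAt_id.mul h3) (mul_pos h1 h4).ne'
  have hderiv : ∀ τ ∈ uIcc d R, HasDerivAt (fun τ : ℝ => -Real.log (c + Real.log (R / τ)))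
      (1 / (τ * (c + Real.log (R / τ)))) τ := by
    intro τ hτ
    rw [uIcc_of_le hdR.le] at hτ
    obtain ⟨h1, h2⟩ := hpos τ hτ
    have h3 : HasDerivAt (fun τ : ℝ => c + Real.log (R / τ)) (-(1 / τ)) τ := by
      have h4 : HasDerivAt (fun τ : ℝ => c + (Real.log R - Real.log τ)) (-(1 / τ)) τ := by
        have := ((Real.hasDerivAt_log h1.ne').const_sub (Real.log R)).const_add c
        rwa [← one_div] at this
      apply h4.congr_of_eventuallyEq
      filter_upwards [lt_mem_nhds h1] with z hz
      rw [Real.log_div hR.ne' hz.ne']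
    have h5 : c + Real.log (R / τ) ≠ 0 := by linarith
    have h6 := (h3.log h5).fun_neg
    refine h6.congr_deriv ?_
    field_simp
  have hint : IntervalIntegrable (fun τ : ℝ => 1 / (τ * (c + Real.log (R / τ))))
      volume d R := (by rwa [uIcc_of_le hdR.le] : ContinuousOn _ (uIcc d R)).intervalIntegrable
  have h6 := intervalIntegral.integral_eq_sub_of_hasDerivAt hderiv hint
  rw [div_self hR.ne', Real.log_one, add_zero, intervalIntegral.integral_of_le hdR.le,
    integral_Ioc_eq_integral_Ioo] at h6
  refine ⟨hcont.integrableOn_Icc.mono_set Ioo_subset_Icc_self, ?_⟩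
  rw [h6]
  ring

theorem phi_lower (hn : 2 ≤ n) {f : E n → E n} {a : E n} {r R : ℝ} (h : GoodShell f a r R)
    {b κ c e : ℝ} (hb : 0 < b) (hκ : 0 < κ) (hc : 1 ≤ c) (he0 : 0 ≤ e)
    (he : ∫⁻ τ in Ioo r R, ENNReal.ofReal (err b κ c f a R τ) ≤ ENNReal.ofReal e)
    {d : ℝ} (hd : r ≤ d) (hdR : d < R) :
    (Real.log (c + Real.log (R / d)) - Real.log c - e) / κ ≤ phiK f a r R d := by
  have hd0 : 0 < d := h.pos.trans_le hd
  have hR : 0 < R := hd0.trans hdR
  obtain ⟨hA, hAv⟩ := integral_log_weight hc hd0 hdR
  have hsub : Ioo d R ⊆ Ioo r R := Ioo_subset_Ioo_left hd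
  have herr0 : ∀ τ ∈ Ioo r R, 0 ≤ err b κ c f a R τ := by
    intro τ hτ
    unfold err
    have : 0 < τ := h.pos.trans hτ.1
    positivity
  have hmerr : AEStronglyMeasurable (err b κ c f a R) (volume.restrict (Ioo r R)) := by
    apply ContinuousOn.aestronglyMeasurable _ measurableSet_Ioo
    unfold err
    have h1 := continuousOn_kbar hn h.pos h.smooth h.jpos
    have h2 : ContinuousOn (fun τ : ℝ => c + Real.log (R / τ)) (Ioo r R) := by
      intro τ hτ
      have h1 : 0 < τ := h.pos.trans hτ.1
      apply ContinuousAt.continuousWithinAt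
      apply ContinuousAt.add continuousAt_const
      exact (continuousAt_const.div continuousAt_id h1.ne').log (div_pos hR h1).ne'
    apply ContinuousOn.div _ continuousOn_id
    · intro τ hτ
      exact (h.pos.trans hτ.1).ne'
    · exact Real.continuous_exp.comp_continuousOn
        (continuousOn_const.mul (h1.sub (continuousOn_const.mul h2)))
  have hB : IntegrableOn (err b κ c f a R) (Ioo r R) := by
    refine ⟨hmerr, ?_⟩
    rw [hasFiniteIntegral_iff_ofReal]
    · exact lt_of_le_of_lt he ENNReal.ofReal_lt_top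
    · rw [EventuallyLE, ae_restrict_iff' measurableSet_Ioo]
      filter_upwards with τ hτ
      exact herr0 τ hτ
  have hBv : ∫ τ in Ioo d R, err b κ c f a R τ ≤ e := by
    have h1 : ∫ τ in Ioo d R, err b κ c f a R τ ≤ ∫ τ in Ioo r R, err b κ c f a R τ := by
      apply setIntegral_mono_set hB
      · rw [EventuallyLE, ae_restrict_iff' measurableSet_Ioo]
        filter_upwards with τ hτ
        exact herr0 τ hτ
      · exact hsub.eventuallyLE
    refine h1.trans ?_
    rw [← ENNReal.ofReal_le_ofReal_iff he0, ofReal_integral_eq_lintegral_ofReal hB]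
    · exact he
    · rw [EventuallyLE, ae_restrict_iff' measurableSet_Ioo]
      filter_upwards with τ hτ
      exact herr0 τ hτ
  have hB' : IntegrableOn (err b κ c f a R) (Ioo d R) := hB.mono_set hsub
  have hpt : ∀ τ ∈ Ioo d R, 1 / κ * (1 / (τ * (c + Real.log (R / τ))) - err b κ c f a R τ) ≤
      gk f a r R τ := by
    intro τ hτ
    have hτ' := hsub hτ
    have hτ0 : 0 < τ := h.pos.trans hτ'.1
    have hk1 := one_le_kbar hn h.pos h.smooth h.jpos hτ'
    have hlog : 0 ≤ Real.log (R / τ) :=
      Real.log_nonneg (by rw [le_div_iff₀ hτ0, one_mul]; exact hτ.2.le)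
    have ht1 : 1 ≤ c + Real.log (R / τ) := by linarith
    unfold gk
    rw [indicator_of_mem hτ']
    unfold err
    set t := c + Real.log (R / τ) with htd
    set k := kbar f a τ with hkd
    have ht0 : 0 < t := by linarith
    have hk0 : 0 < k := by linarith
    rcases le_or_gt k (κ * t) with h1 | h1
    · have h2 : 0 ≤ Real.exp (b * (k - κ * t)) / τ := by positivity
      calc 1 / κ * (1 / (τ * t) - Real.exp (b * (k - κ * t)) / τ) ≤ 1 / κ * (1 / (τ * t)) := by
            apply mul_le_mul_of_nonneg_left _ (by positivity)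
            linarith
        _ = 1 / (τ * (κ * t)) := by field_simp
        _ ≤ 1 / (τ * k) := by
            apply one_div_le_one_div_of_le (by positivity)
            gcongr
    · have h2 : 1 ≤ Real.exp (b * (k - κ * t)) := by
        apply Real.one_le_exp
        apply mul_nonneg hb.le
        linarith
      have h3 : 1 / (τ * t) - Real.exp (b * (k - κ * t)) / τ ≤ 0 := by
        have h4 : 1 / (τ * t) ≤ 1 / τ := by
          apply one_div_le_one_div_of_le hτ0
          nlinarith
        have h5 : 1 / τ ≤ Real.exp (b * (k - κ * t)) / τ := by gcongr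
        linarith
      calc 1 / κ * (1 / (τ * t) - Real.exp (b * (k - κ * t)) / τ) ≤ 0 :=
            mul_nonpos_of_nonneg_of_nonpos (by positivity) h3
        _ ≤ 1 / (τ * k) := by positivity
  have hmain : ∫ τ in Ioo d R, 1 / κ * (1 / (τ * (c + Real.log (R / τ))) -
      err b κ c f a R τ) ≤ ∫ τ in Ioo d R, gk f a r R τ :=
    setIntegral_mono_on ((hA.sub hB').const_mul _) (integrable_gk hn h).integrableOn
      measurableSet_Ioo hpt
  rw [integral_const_mul, integral_sub hA hB', hAv] at hmain
  have hphi : phiK f a r R d = ∫ τ in Ioo d R, gk f a r R τ := by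
    unfold phiK
    rw [intervalIntegral.integral_of_le hdR.le, integral_Ioc_eq_integral_Ioo]
  rw [hphi]
  refine le_trans ?_ hmain
  rw [div_eq_mul_one_div, mul_comm]
  apply mul_le_mul_of_nonneg_left _ (by positivity)
  linarith

end Pool.Agent.TreeS
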