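import Pool.Agent.TreeS.Path

/-!
# The outer Minkowski content of the image of a ball
-/

set_option autoImplicit false

open MeasureTheory Set Metric Filter Topology
open scoped ENNReal

namespace Pool.Agent.TreeS

open Pool.Agent.RayM

variable {n : ℕ}

theorem thick_subset {f : E n → E n} {a : E n} {r s R : ℝ} (hrs : r < s) (hsR : s < R)
    (hf : Emb f (ball a R))
    (hd : ∀ x, r ≤ dist x a → dist x a ≤ s → DifferentiableAt ℝ f x ∧ 0 < jac f x)
    {k ε η : ℝ} (hk0 : 0 ≤ k) (hε : 0 ≤ ε) (hη0 : 0 ≤ η)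
    (hk : ∀ x, r ≤ dist x a → dist x a ≤ s → kap f x ≤ k) (hke : k * ε < s - r)
    (hη : ∀ z w, r ≤ dist z a → dist z a ≤ s → r ≤ dist w a → dist w a ≤ s →
      dist z w ≤ k * ε → kap f z ≤ kap f w + η)
    (hV : cthickening ε (f '' closedBall a r) ⊆ f '' ball a R) :
    cthickening ε (f '' closedBall a r) ⊆ f '' closedBall a r ∪
      f '' {x | r < dist x a ∧ dist x a ≤ s ∧ dist x a ≤ r + ε * (kap f x + η)} := by
  intro y hy
  by_cases hyK : y ∈ f '' closedBall a r
  · exact Or.inl hyK
  right
  have hKc : IsCompact (f '' closedBall a r) :=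
    (isCompact_closedBall a r).image_of_continuousOn
      (hf.cont.mono (closedBall_subset_ball (hrs.trans hsR)))
  rcases (f '' closedBall a r).eq_empty_or_nonempty with hem | hne
  · rw [hem, cthickening_empty] at hy
    exact absurd hy (notMem_empty _)
  obtain ⟨e, he, hed⟩ := hKc.exists_infDist_eq_dist hne y
  have hye : dist y e ≤ ε := by
    rw [← hed]
    exact ENNReal.toReal_le_of_le_ofReal hε (mem_cthickening_iff.1 hy)
  have hne' : y ≠ e := fun h => hyK (h ▸ he)
  have hpos : 0 < dist y e := dist_pos.2 hne'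
  have hdist : ∀ τ : ℝ, dist y (e + τ • (y - e)) = |1 - τ| * dist y e := by
    intro τ
    rw [dist_eq_norm, dist_eq_norm, show y - (e + τ • (y - e)) = (1 - τ) • (y - e) by
      rw [sub_smul, one_smul]; abel, norm_smul, Real.norm_eq_abs]
  have hdist' : ∀ τ : ℝ, dist (e + τ • (y - e)) e = |τ| * dist y e := by
    intro τ
    rw [dist_self_add_left, dist_eq_norm, norm_smul, Real.norm_eq_abs]
  obtain ⟨x, hxy, h1, h2, h3⟩ := path hsR hf hd hk0 hη0 hk hke hη hye he (by
      intro τ hτ hcon
      have h1 := infDist_le_dist_of_mem (x := y) hcon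
      rw [hed, hdist, abs_of_nonneg (by linarith [hτ.2])] at h1
      nlinarith [hτ.1]) (by
      intro τ hτ
      apply hV
      apply mem_cthickening_of_dist_le _ e _ _ he
      rw [hdist', abs_of_nonneg hτ.1]
      nlinarith [hτ.2])
  exact ⟨x, ⟨h1, h2, h3⟩, hxy⟩

theorem measurable_kap (f : E n → E n) : Measurable (kap f) :=
  ((measurable_norm_fderiv f).pow_const _).div (measurable_jac f)

/-- The area formula for the embedded set. -/
theorem vol_image_eq {f : E n → E n} {U X : Set (E n)} (hf : Emb f U) (hXU : X ⊆ U)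
    (hX : MeasurableSet X) (hd : ∀ x ∈ X, DifferentiableAt ℝ f x ∧ 0 ≤ jac f x) :
    volume (f '' X) = ∫⁻ x in X, ENNReal.ofReal (jac f x) := by
  rw [← lintegral_abs_det_fderiv_eq_addHaar_image (volume : Measure (E n)) hX
    (fun x hx => (hd x hx).1.hasFDerivAt.hasFDerivWithinAt) (hf.inj.mono hXU)]
  apply setLIntegral_congr_fun hX
  intro x hx
  have := (hd x hx).2
  unfold jac at this ⊢
  simp only
  rw [abs_of_nonneg this]

theorem mink (hn : 2 ≤ n) {f : E n → E n} {a : E n} {r s R : ℝ} (hr : 0 < r) (hrs : r < s)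
    (hsR : s < R) (hf : Emb f (ball a R))
    (hd : ∀ x, r ≤ dist x a → dist x a ≤ s → DifferentiableAt ℝ f x ∧ 0 < jac f x)
    (hc : ContinuousOn (fderiv ℝ f) {x | r ≤ dist x a ∧ dist x a ≤ s}) {δ : ℝ} (hδ : 0 < δ) :
    ∃ ε₀ > 0, ∀ ε, 0 < ε → ε ≤ ε₀ → volume (cthickening ε (f '' closedBall a r)) ≤
      volume (f '' closedBall a r) + ENNReal.ofReal (ε * ((∫ ω : sphere (0 : E n) 1,
        r ^ (n - 1) * ‖fderiv ℝ f (a + r • (ω : E n))‖ ^ (n - 1)
          ∂(volume : Measure (E n)).toSphere) + δ)) := by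
  have hnt := nontrivial_E hn
  set A : Set (E n) := {x | r ≤ dist x a ∧ dist x a ≤ s} with hA
  have hAc : IsCompact A := by
    have h1 : A = closedBall a s ∩ {x | r ≤ dist x a} := by
      ext x; simp [hA, and_comm]
    rw [h1]
    exact (isCompact_closedBall a s).inter_right (isClosed_le continuous_const (by fun_prop))
  have hsph : ∀ (ω : sphere (0 : E n) 1) (t : ℝ), 0 ≤ t → dist (a + t • (ω : E n)) a = t := by
    intro ω t ht
    rw [dist_eq_norm, add_sub_cancel_left, norm_smul, show ‖(ω : E n)‖ = 1 by simp, mul_one,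
      Real.norm_of_nonneg ht]
  have hJc : ContinuousOn (jac f) A := by
    unfold jac
    exact ContinuousLinearMap.continuous_det.comp_continuousOn hc
  have hkc : ContinuousOn (kap f) A := by
    unfold kap
    exact (hc.norm.pow _).div hJc (fun x hx => (hd x hx.1 hx.2).2.ne')
  have hHc : ContinuousOn (fun x => dist x a ^ (n - 1) * jac f x) A := by
    exact ((continuous_id.dist continuous_const).pow _).continuousOn.mul hJc
  -- bounds
  obtain ⟨k, hk⟩ := hAc.exists_bound_of_continuousOn hkc
  obtain ⟨H, hH⟩ := hAc.exists_bound_of_continuousOn hHc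
  have hk' : ∀ x, r ≤ dist x a → dist x a ≤ s → kap f x ≤ k := fun x h1 h2 =>
    (le_abs_self _).trans (hk x ⟨h1, h2⟩)
  have hH' : ∀ x, r ≤ dist x a → dist x a ≤ s → dist x a ^ (n - 1) * jac f x ≤ H := fun x h1 h2 =>
    (le_abs_self _).trans (hH x ⟨h1, h2⟩)
  obtain ⟨ω₀⟩ : Nonempty (sphere (0 : E n) 1) := by
    have := NormedSpace.sphere_nonempty (E := E n) (x := 0) (r := 1)
    exact (this.2 zero_le_one).to_subtype
  have hmemA : ∀ (ω : sphere (0 : E n) 1) (t : ℝ), r ≤ t → t ≤ s → a + t • (ω : E n) ∈ A := by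
    intro ω t h1 h2
    change r ≤ dist _ a ∧ dist _ a ≤ s
    rw [hsph ω t (by linarith)]
    exact ⟨h1, h2⟩
  have hk0 : 0 ≤ k := (norm_nonneg _).trans (hk _ (hmemA ω₀ r le_rfl hrs.le))
  have hH0 : 0 ≤ H := (norm_nonneg _).trans (hH _ (hmemA ω₀ r le_rfl hrs.le))
  set σ := ((volume : Measure (E n)).toSphere).real univ with hσ
  have hσ0 : 0 ≤ σ := measureReal_nonneg
  -- choice of η
  set η : ℝ := min 1 (δ / ((2 * H + k + 2) * (σ + 1))) with hηdef
  have hden : 0 < (2 * H + k + 2) * (σ + 1) := by positivity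
  have hη0 : 0 < η := lt_min one_pos (by positivity)
  have hη1 : η ≤ 1 := min_le_left _ _
  have hη2 : η * ((2 * H + k + 2) * (σ + 1)) ≤ δ := by
    have : η ≤ δ / ((2 * H + k + 2) * (σ + 1)) := min_le_right _ _
    rwa [le_div_iff₀ hden] at this
  -- uniform continuity
  obtain ⟨d₁, hd₁, hd₁'⟩ := Metric.uniformContinuousOn_iff.1
    (hAc.uniformContinuousOn_of_continuous hkc) η hη0
  obtain ⟨d₂, hd₂, hd₂'⟩ := Metric.uniformContinuousOn_iff.1
    (hAc.uniformContinuousOn_of_continuous hHc) η hη0
  -- the open set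
  have hKc : IsCompact (f '' closedBall a r) :=
    (isCompact_closedBall a r).image_of_continuousOn
      (hf.cont.mono (closedBall_subset_ball (hrs.trans hsR)))
  have hVo : IsOpen (f '' ball a R) := hf.opn _ isOpen_ball subset_rfl
  obtain ⟨d₃, hd₃, hd₃'⟩ := hKc.exists_cthickening_subset_open hVo
    (image_mono (closedBall_subset_ball (hrs.trans hsR)))
  set d := min (min d₁ d₂) (s - r) with hddef
  have hd0 : 0 < d := lt_min (lt_min hd₁ hd₂) (by linarith)
  set ε₀ := min d₃ (d / (2 * (k + 2))) with hε₀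
  have hε₀0 : 0 < ε₀ := lt_min hd₃ (by positivity)
  refine ⟨ε₀, hε₀0, fun ε hε hεε₀ => ?_⟩
  have hεd : ε * (k + 2) < d := by
    have h1 : ε ≤ d / (2 * (k + 2)) := hεε₀.trans (min_le_right _ _)
    rw [le_div_iff₀ (by positivity)] at h1
    nlinarith
  have hd1 : d ≤ d₁ := (min_le_left _ _).trans (min_le_left _ _)
  have hd2 : d ≤ d₂ := (min_le_left _ _).trans (min_le_right _ _)
  have hds : d ≤ s - r := min_le_right _ _
  have hkε : k * ε < d := by nlinarith
  have hsub := thick_subset hrs hsR hf hd hk0 hε.le hη0.le hk' (by linarith)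
    (fun z w hz1 hz2 hw1 hw2 hzw => by
      have := hd₁' z ⟨hz1, hz2⟩ w ⟨hw1, hw2⟩ (by linarith)
      rw [Real.dist_eq] at this
      linarith [(abs_lt.1 this).2])
    ((cthickening_mono (hεε₀.trans (min_le_left _ _)) _).trans hd₃')
  set X : Set (E n) := {x | r < dist x a ∧ dist x a ≤ s ∧ dist x a ≤ r + ε * (kap f x + η)}
    with hX
  have hXm : MeasurableSet X := by
    have hdm : Measurable (fun x : E n => dist x a) := (continuous_id.dist continuous_const).measurable
    refine (measurableSet_lt measurable_const hdm).inter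
      ((measurableSet_le hdm measurable_const).inter (measurableSet_le hdm ?_))
    exact measurable_const.add (((measurable_kap f).add_const _).const_mul _)
  have hXU : X ⊆ ball a R := fun x hx => lt_of_le_of_lt hx.2.1 hsR
  have hXv : volume (f '' X) = ∫⁻ x in X, ENNReal.ofReal (jac f x) :=
    vol_image_eq hf hXU hXm (fun x hx => ⟨(hd x hx.1.le hx.2.1).1, (hd x hx.1.le hx.2.1).2.le⟩)
  refine (measure_mono hsub).trans ((measure_union_le _ _).trans ?_)
  gcongr
  rw [hXv]
  -- polar coordinates
  have hint : Measurable (X.indicator (fun x => ENNReal.ofReal (jac f x))) :=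
    (measurable_jac f).ennreal_ofReal.indicator hXm
  have h1 : ∫⁻ x in X, ENNReal.ofReal (jac f x) =
      ∫⁻ x in closedBall a s, X.indicator (fun x => ENNReal.ofReal (jac f x)) x := by
    rw [lintegral_indicator hXm, Measure.restrict_restrict hXm]
    congr 2
    exact (inter_eq_left.2 (fun x hx => hx.2.1)).symm
  rw [h1, polar_ball hn a s _ hint]
  set I : sphere (0 : E n) 1 → ℝ := fun ω =>
    r ^ (n - 1) * ‖fderiv ℝ f (a + r • (ω : E n))‖ ^ (n - 1) with hI
  have hIc : Continuous I := by
    have : Continuous (fun ω : sphere (0 : E n) 1 => fderiv ℝ f (a + r • (ω : E n))) := by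
      apply hc.comp_continuous (by fun_prop)
      intro ω
      exact hmemA ω r le_rfl hrs.le
    exact continuous_const.mul (this.norm.pow _)
  have hIint : Integrable I (volume : Measure (E n)).toSphere :=
    hIc.integrable_of_hasCompactSupport (HasCompactSupport.of_compactSpace _)
  -- the inner integral
  have hinner : ∀ ω : sphere (0 : E n) 1, (∫⁻ t in Ioc (0 : ℝ) s, ENNReal.ofReal (t ^ (n - 1)) *
      X.indicator (fun x => ENNReal.ofReal (jac f x)) (a + t • (ω : E n))) ≤
      ENNReal.ofReal (ε * (I ω + η * (2 * H + k + 2))) := by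
    intro ω
    set κ₀ := kap f (a + r • (ω : E n)) with hκ₀
    set b := r + ε * (κ₀ + 2 * η) with hb
    have hA0 : a + r • (ω : E n) ∈ A := hmemA ω r le_rfl hrs.le
    have hκ0 : 0 ≤ κ₀ := by
      rw [hκ₀]; unfold kap
      have := (hd _ hA0.1 hA0.2).2
      positivity
    have hκk : κ₀ ≤ k := hk' _ hA0.1 hA0.2
    have hJ0 : 0 < jac f (a + r • (ω : E n)) := (hd _ hA0.1 hA0.2).2
    have hdt : ∀ t, r ≤ t → t - r < d → dist (a + t • (ω : E n)) (a + r • (ω : E n)) < d := by
      intro t ht htd
      rw [dist_add_left, dist_eq_norm, ← sub_smul, norm_smul, show ‖(ω : E n)‖ = 1 by simp,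
        mul_one, Real.norm_of_nonneg (by linarith)]
      exact htd
    set c₀ := r ^ (n - 1) * jac f (a + r • (ω : E n)) + η with hc₀
    have hpt : ∀ t ∈ Ioc (0 : ℝ) s, ENNReal.ofReal (t ^ (n - 1)) *
        X.indicator (fun x => ENNReal.ofReal (jac f x)) (a + t • (ω : E n)) ≤
        (Ioc r b).indicator (fun _ => ENNReal.ofReal c₀) t := by
      intro t ht
      by_cases htX : a + t • (ω : E n) ∈ X
      · have hX' := htX
        rw [hX] at htX
        change r < dist _ a ∧ dist _ a ≤ s ∧ dist _ a ≤ _ at htX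
        rw [hsph ω t ht.1.le] at htX
        obtain ⟨h1, h2, h3⟩ := htX
        have hk1 := hk' (a + t • (ω : E n)) (by rw [hsph ω t ht.1.le]; exact h1.le)
          (by rw [hsph ω t ht.1.le]; exact h2)
        have htd : t - r < d := by nlinarith
        have hu1 := hd₁' _ (hmemA ω t h1.le h2) _ hA0 ((hdt t h1.le htd).trans_le hd1)
        have hu2 := hd₂' _ (hmemA ω t h1.le h2) _ hA0 ((hdt t h1.le htd).trans_le hd2)
        rw [Real.dist_eq] at hu1 hu2
        simp only [hsph ω t ht.1.le, hsph ω r hr.le] at hu2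
        have hu1' := (abs_lt.1 hu1).2
        have hu2' := (abs_lt.1 hu2).2
        rw [indicator_of_mem hX', indicator_of_mem (show t ∈ Ioc r b from ⟨h1, by
          rw [hb]; nlinarith⟩), ← ENNReal.ofReal_mul (by have := ht.1; positivity)]
        apply ENNReal.ofReal_le_ofReal
        linarith
      · rw [indicator_of_notMem htX, mul_zero]; exact zero_le
    calc (∫⁻ t in Ioc (0 : ℝ) s, ENNReal.ofReal (t ^ (n - 1)) *
          X.indicator (fun x => ENNReal.ofReal (jac f x)) (a + t • (ω : E n)))
        ≤ ∫⁻ t in Ioc (0 : ℝ) s, (Ioc r b).indicator (fun _ => ENNReal.ofReal c₀) t :=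
          setLIntegral_mono' measurableSet_Ioc hpt
      _ ≤ ∫⁻ t, (Ioc r b).indicator (fun _ => ENNReal.ofReal c₀) t :=
          setLIntegral_le_lintegral _ _
      _ = ENNReal.ofReal c₀ * ENNReal.ofReal (b - r) := by
          rw [lintegral_indicator measurableSet_Ioc, setLIntegral_const, Real.volume_Ioc]
      _ = ENNReal.ofReal (c₀ * (b - r)) := by
          rw [← ENNReal.ofReal_mul (by positivity)]
      _ ≤ ENNReal.ofReal (ε * (I ω + η * (2 * H + k + 2))) := by
          apply ENNReal.ofReal_le_ofReal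
          have hbr : b - r = ε * (κ₀ + 2 * η) := by rw [hb]; ring
          have hI' : I ω = κ₀ * (r ^ (n - 1) * jac f (a + r • (ω : E n))) := by
            simp only [hI, hκ₀]; unfold kap
            field_simp
          have hH1 : r ^ (n - 1) * jac f (a + r • (ω : E n)) ≤ H := by
            have := hH' _ hA0.1 hA0.2
            rwa [hsph ω r hr.le] at this
          set j := r ^ (n - 1) * jac f (a + r • (ω : E n)) with hj
          have hj0 : 0 ≤ j := by positivity
          rw [hbr, hI', hc₀]
          have : (j + η) * (κ₀ + 2 * η) ≤ κ₀ * j + η * (2 * H + k + 2) := by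
            nlinarith
          calc (j + η) * (ε * (κ₀ + 2 * η)) = ε * ((j + η) * (κ₀ + 2 * η)) := by ring
            _ ≤ ε * (κ₀ * j + η * (2 * H + k + 2)) := by gcongr
  calc ∫⁻ ω : sphere (0 : E n) 1, (∫⁻ t in Ioc (0 : ℝ) s, ENNReal.ofReal (t ^ (n - 1)) *
        X.indicator (fun x => ENNReal.ofReal (jac f x)) (a + t • (ω : E n)))
        ∂(volume : Measure (E n)).toSphere
      ≤ ∫⁻ ω : sphere (0 : E n) 1, ENNReal.ofReal (ε * (I ω + η * (2 * H + k + 2)))
        ∂(volume : Measure (E n)).toSphere := lintegral_mono hinner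
    _ = ENNReal.ofReal (∫ ω : sphere (0 : E n) 1, ε * (I ω + η * (2 * H + k + 2))
        ∂(volume : Measure (E n)).toSphere) := by
        rw [ofReal_integral_eq_lintegral_ofReal]
        · exact (hIint.add (integrable_const _)).const_mul _
        · apply Filter.Eventually.of_forall
          intro ω
          have : 0 ≤ I ω := by simp only [hI]; positivity
          simp only [Pi.zero_apply]
          positivity
    _ ≤ ENNReal.ofReal (ε * ((∫ ω : sphere (0 : E n) 1, I ω ∂(volume : Measure (E n)).toSphere) +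
        δ)) := by
        apply ENNReal.ofReal_le_ofReal
        rw [integral_const_mul, integral_add hIint (integrable_const _), integral_const,
          smul_eq_mul, ← hσ]
        gcongr
        nlinarith [mul_nonneg hη0.le (show 0 ≤ 2 * H + k + 2 by positivity)]

end Pool.Agent.TreeS
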