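import Pool.Agent.TreeS.Tight
import Pool.Agent.RayM.Upper

/-!
# Diffeomorphisms off a shellable closed set
-/

set_option autoImplicit false

open MeasureTheory Set Metric Filter Topology
open scoped ENNReal

namespace Pool.Agent.TreeS

open Pool.Agent.RayM

variable {n : ℕ}

/-- `S` is shellable in `U` with constant `lam`: for every `ε ∈ (0, 1)` there is a nested family
of round shells in `U`, centred at points of `S` and disjoint from `S`, whose depth `T` satisfies
`(1 - ε) log (1 / dist(x, S)) ≤ lam T(x) + M` for all `x ∈ U \ S`. -/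
def Shellable (lam : ℝ) (S U : Set (E n)) : Prop :=
  ∀ ε : ℝ, 0 < ε → ε < 1 → ∃ (M : ℝ) (a : ℕ → E n) (r R : ℕ → ℝ), Nested U a r R ∧
    (∀ i, a i ∈ S) ∧ (∀ i, Disjoint (sh (a i) (r i) (R i)) S) ∧
    ∀ x ∈ U \ S, ∃ N : ℕ, (1 - ε) * Real.log (1 / infDist x S) ≤ lam * depth a r R N x + M

/-- `f` is a local diffeomorphism off `S`, a local homeomorphism near the points of `S`, with
polynomially bounded Jacobian, and `S` is shellable near each of its points. -/
structure DiffeoOff (lam : ℝ) (S Ω : Set (E n)) (f : E n → E n) : Prop where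
  isOpen_off : IsOpen (Ω \ S)
  null : volume (S ∩ Ω) = 0
  cont : ContinuousOn f Ω
  smooth : ContDiffOn ℝ 1 f (Ω \ S)
  jac_pos : ∀ x ∈ Ω \ S, 0 < jac f x
  near : ∀ x ∈ Ω ∩ S, ∃ U : Set (E n), IsOpen U ∧ x ∈ U ∧ IsCompact (closure U) ∧
    closure U ⊆ Ω ∧ Emb f U ∧ Shellable lam S U ∧
    ∀ ε : ℝ, 0 < ε → ∃ M : ℝ, ∀ y ∈ U \ S,
      jac f y ≤ M * infDist y S ^ (-M) * Real.exp (ε * distortion f y)

/-- From the weighted bounds to the logarithm of the Jacobian. -/
theorem jlog_of_weighted {f : E n → E n} {U : Set (E n)} (hU : IsOpen U)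
    (hae : ∀ᵐ x ∂((volume : Measure (E n)).restrict U), 0 ≤ jac f x)
    {a : ℕ → E n} {r R : ℕ → ℝ} {α β ε A M B : ℝ} (hα : 0 < α) (hε0 : 0 < ε) (hεβ : ε < β)
    (hA : 0 < A) (hM0 : 0 ≤ M)
    (hg : ∀ᵐ x ∂((volume : Measure (E n)).restrict U), ∃ N : ℕ,
      jac f x ≤ M * Real.exp (A * depth a r R N x + ε * distortion f x))
    (hB : ∀ N, ∫⁻ x in U, ENNReal.ofReal (jac f x) *
      ENNReal.ofReal ((1 + depth a r R N x) ^ α) ≤ ENNReal.ofReal B)
    (hexp : IntegrableOn (fun x => Real.exp (β * distortion f x)) U) :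
    IntegrableOn (fun x => jac f x * Real.log (Real.exp 1 + jac f x) ^ α) U := by
  have hexp' : ∫⁻ x in U, ENNReal.ofReal (Real.exp (β * distortion f x)) < ⊤ := by
    have h1 := hexp.2
    rwa [hasFiniteIntegral_iff_ofReal (Filter.Eventually.of_forall (fun x => by
      simp only [Pi.zero_apply]; positivity))] at h1
  have hmJ : Measurable (fun x : E n => ENNReal.ofReal (jac f x)) :=
    (measurable_jac f).ennreal_ofReal
  have hmono : ∀ x, Monotone (fun N : ℕ => ENNReal.ofReal ((1 + depth a r R N x) ^ α)) := by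
    intro x N N' hN
    apply ENNReal.ofReal_le_ofReal
    have h2 := depth_nonneg (a := a) (r := r) (R := R) N x
    have h3 : depth a r R N x ≤ depth a r R N' x := depth_mono x hN
    exact Real.rpow_le_rpow (by linarith) (by linarith) hα.le
  set S : E n → ℝ≥0∞ := fun x => ⨆ N : ℕ, ENNReal.ofReal (jac f x) *
    ENNReal.ofReal ((1 + depth a r R N x) ^ α) with hS
  have hSint : ∫⁻ x in U, S x < ⊤ := by
    rw [hS, lintegral_iSup]
    · exact lt_of_le_of_lt (iSup_le hB) ENNReal.ofReal_lt_top
    · intro N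
      exact hmJ.mul (((measurable_depth N).const_add 1).pow_const α).ennreal_ofReal
    · intro N N' hN x
      exact mul_le_mul_right (hmono x hN) _
  obtain ⟨C, hC0, hC⟩ := jlog_le' (α := α) (β := β) (ε := ε) (A := A) (M := M) hα hε0
    hεβ hA hM0
  refine ⟨(measurable_jlog f α).aestronglyMeasurable, ?_⟩
  rw [hasFiniteIntegral_iff_ofReal]
  · have hle : ∫⁻ x in U, ENNReal.ofReal (jac f x * Real.log (Real.exp 1 + jac f x) ^ α) ≤
        ∫⁻ x in U, (ENNReal.ofReal C * S x +
          ENNReal.ofReal C * ENNReal.ofReal (Real.exp (β * distortion f x))) := by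
      apply setLIntegral_mono_ae' hU.measurableSet
      rw [ae_restrict_iff' hU.measurableSet] at hae hg
      filter_upwards [hae, hg] with x h3 h4 hx
      have hJ0 := h3 hx
      obtain ⟨N, hN⟩ := h4 hx
      have hdn := depth_nonneg (a := a) (r := r) (R := R) N x
      have h5 := hC (1 + depth a r R N x) (jac f x) (distortion f x) (by linarith) hJ0
        (one_le_distortion f x) (by
          rw [add_sub_cancel_left]
          exact hN)
      refine (ENNReal.ofReal_le_ofReal h5).trans ?_
      rw [mul_add, ENNReal.ofReal_add (by positivity) (by positivity), ENNReal.ofReal_mul hC0,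
        ENNReal.ofReal_mul hC0, ENNReal.ofReal_mul hJ0]
      gcongr
      exact le_iSup (fun N : ℕ => ENNReal.ofReal (jac f x) *
        ENNReal.ofReal ((1 + depth a r R N x) ^ α)) N
    refine lt_of_le_of_lt hle ?_
    have hm2 : Measurable (fun x : E n => ENNReal.ofReal C *
        ENNReal.ofReal (Real.exp (β * distortion f x))) :=
      ((((measurable_distortion f).const_mul β).exp).ennreal_ofReal).const_mul _
    rw [lintegral_add_right _ hm2, lintegral_const_mul' _ _ ENNReal.ofReal_ne_top,
      lintegral_const_mul' _ _ ENNReal.ofReal_ne_top]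
    exact ENNReal.add_lt_top.2 ⟨ENNReal.mul_lt_top ENNReal.ofReal_lt_top hSint,
      ENNReal.mul_lt_top ENNReal.ofReal_lt_top hexp'⟩
  · rw [Filter.EventuallyLE]
    filter_upwards [hae] with x hx
    have h8 := one_le_log_exp_add hx
    simp only [Pi.zero_apply]
    positivity

/-- The relevant open set near a point of `S`. -/
theorem jlog_near_S (hn : 2 ≤ n) {lam : ℝ} (hlam : 0 < lam) {S Ω U : Set (E n)}
    {f : E n → E n} (hf : DiffeoOff lam S Ω f) (hU : IsOpen U) (hcU : IsCompact (closure U))
    (hUΩ : closure U ⊆ Ω) (hemb : Emb f U) (hsh : Shellable lam S U)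
    (hg : ∀ ε : ℝ, 0 < ε → ∃ M : ℝ, ∀ y ∈ U \ S,
      jac f y ≤ M * infDist y S ^ (-M) * Real.exp (ε * distortion f y))
    {α β : ℝ} (hα : 0 < α) (hβ : 0 < β) (hαβ : lam * α < β)
    (hexp : IntegrableOn (fun x => Real.exp (β * distortion f x)) U) :
    IntegrableOn (fun x => jac f x * Real.log (Real.exp 1 + jac f x) ^ α) U := by
  have hUΩ' : U ⊆ Ω := subset_closure.trans hUΩ
  have hSnull : ∀ᵐ x ∂((volume : Measure (E n)).restrict U), x ∉ S := by
    rw [ae_restrict_iff' hU.measurableSet, ae_iff]
    refine measure_mono_null ?_ hf.null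
    intro x hx
    simp only [mem_ofPred_eq, not_forall, not_not] at hx
    obtain ⟨h1, h2⟩ := hx
    exact ⟨h2, hUΩ' h1⟩
  have hmemU : ∀ᵐ x ∂((volume : Measure (E n)).restrict U), x ∈ U :=
    ae_restrict_mem hU.measurableSet
  have hae : ∀ᵐ x ∂((volume : Measure (E n)).restrict U), DifferentiableAt ℝ f x ∧
      0 ≤ jac f x := by
    filter_upwards [hSnull, hmemU] with x h1 h2
    have h3 : x ∈ Ω \ S := ⟨hUΩ' h2, h1⟩
    exact ⟨(hf.smooth.contDiffAt (hf.isOpen_off.mem_nhds h3)).differentiableAt (by norm_num),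
      (hf.jac_pos x h3).le⟩
  have hfin := lintegral_jac_lt_top hU hcU (hf.cont.mono hUΩ) hemb hae
  have hexp' : ∫⁻ x in U, ENNReal.ofReal (Real.exp (β * distortion f x)) < ⊤ := by
    have h1 := hexp.2
    rwa [hasFiniteIntegral_iff_ofReal (Filter.Eventually.of_forall (fun x => by
      simp only [Pi.zero_apply]; positivity))] at h1
  -- parameters
  set q := lam * α / β with hq
  have hq0 : 0 < q := by positivity
  have hq1 : q < 1 := by rw [hq, div_lt_one hβ]; exact hαβ
  set η := (1 - q) / 3 with hη
  have hη0 : 0 < η := by rw [hη]; linarith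
  have hη1 : η < 1 := by rw [hη]; linarith
  have hη3 : lam * α ≤ (1 - η) ^ 3 * β := by
    have h1 : q ≤ (1 - η) ^ 3 := by
      have h2 : q = 1 - 3 * η := by rw [hη]; ring
      rw [h2]
      nlinarith [sq_nonneg η, mul_pos hη0 hη0, mul_pos (mul_pos hη0 hη0) hη0,
        mul_nonneg (sq_nonneg η) (show 0 ≤ 3 - η by linarith)]
    calc lam * α = q * β := by rw [hq]; field_simp
      _ ≤ _ := by gcongr
  set ε := min η (β / 2) with hε
  have hε0 : 0 < ε := lt_min hη0 (by positivity)
  have hεη : ε ≤ η := min_le_left _ _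
  have hεβ : ε < β := (min_le_right _ _).trans_lt (by linarith)
  have hε1 : ε < 1 := by linarith
  have hε' : 0 < 1 - ε := by linarith
  obtain ⟨M₁, a, r, R, hnest, haS, hdis, hT⟩ := hsh ε hε0 hε1
  have hshU : ∀ i, sh (a i) (r i) (R i) ⊆ U \ S := by
    intro i x hx
    exact ⟨sh_sub hnest i hx, fun hxS => Set.disjoint_left.1 (hdis i) hx hxS⟩
  have hshΩ : ∀ i, sh (a i) (r i) (R i) ⊆ Ω \ S := fun i x hx =>
    ⟨hUΩ' (hshU i hx).1, (hshU i hx).2⟩
  have hgood : GoodFam f U a r R :=
    { toNested := hnest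
      good := fun i => ⟨hnest.pos i, hf.smooth.mono (hshΩ i),
        fun x hx => hf.jac_pos x (hshΩ i hx)⟩ }
  have hSne : S.Nonempty := ⟨a 0, haS 0⟩
  have hdpos : ∀ x ∈ U \ S, 0 < infDist x S := by
    intro x hx
    have h1 : Ω \ S ∈ 𝓝 x := hf.isOpen_off.mem_nhds ⟨hUΩ' hx.1, hx.2⟩
    have h2 : x ∉ closure S := by
      intro hcl
      obtain ⟨y, hy1, hy2⟩ := mem_closure_iff_nhds.1 hcl _ h1
      exact hy1.2 hy2
    have h3 : 0 < infDist x (closure S) :=
      (isClosed_closure.notMem_iff_infDist_pos hSne.closure).1 h2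
    rwa [infDist_closure] at h3
  have htight : TightFam lam ε M₁ a r R := by
    intro i x hx
    have hxU := hshU i hx
    obtain ⟨N, hN⟩ := hT x hxU
    have h1 := depth_le_of_sh hnest N hx
    have hd := hdpos x hxU
    have h2 : infDist x S ≤ dist x (a i) := infDist_le_dist_of_mem (haS i)
    have h3 : Real.log (1 / dist x (a i)) ≤ Real.log (1 / infDist x S) := by
      apply Real.log_le_log
      · have : 0 < dist x (a i) := hd.trans_le h2
        positivity
      · exact one_div_le_one_div_of_le hd h2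
    calc (1 - ε) * Real.log (1 / dist x (a i)) ≤ (1 - ε) * Real.log (1 / infDist x S) := by
          gcongr
      _ ≤ lam * depth a r R N x + M₁ := hN
      _ ≤ lam * depth a r R (i + 1) x + M₁ := by gcongr
  obtain ⟨B, hB⟩ := weighted_bound2 hn hU hemb hae hgood hlam hε0 hεη hη1 htight hβ hη3
    hfin.ne hexp'.ne
  obtain ⟨M₂, hM₂⟩ := hg ε hε0
  -- growth
  set M₃ := |M₂| with hM₃
  have hgr : ∀ᵐ x ∂((volume : Measure (E n)).restrict U), ∃ N : ℕ,
      jac f x ≤ M₃ * Real.exp (M₃ * M₁ / (1 - ε)) *
        Real.exp ((M₃ * lam / (1 - ε) + 1) * depth a r R N x + ε * distortion f x) := by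
    filter_upwards [hSnull, hmemU] with x h1 h2
    have hxU : x ∈ U \ S := ⟨h2, h1⟩
    obtain ⟨N, hN⟩ := hT x hxU
    refine ⟨N, ?_⟩
    have hd := hdpos x hxU
    have hJ := hf.jac_pos x ⟨hUΩ' h2, h1⟩
    have h3 := hM₂ x hxU
    have hM₂0 : 0 < M₂ := by
      by_contra hcon
      push Not at hcon
      have : M₂ * infDist x S ^ (-M₂) * Real.exp (ε * distortion f x) ≤ 0 := by
        apply mul_nonpos_of_nonpos_of_nonneg _ (Real.exp_pos _).le
        exact mul_nonpos_of_nonpos_of_nonneg hcon (by positivity)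
      linarith
    have hM₃e : M₃ = M₂ := abs_of_pos hM₂0
    rw [hM₃e]
    have hdn := depth_nonneg (a := a) (r := r) (R := R) N x
    have e1 : infDist x S ^ (-M₂) = Real.exp (M₂ * Real.log (1 / infDist x S)) := by
      rw [Real.rpow_def_of_pos hd, one_div, Real.log_inv]
      ring_nf
    have h4 : Real.log (1 / infDist x S) ≤ (lam * depth a r R N x + M₁) / (1 - ε) := by
      rw [le_div_iff₀ hε']
      linarith
    calc jac f x ≤ M₂ * infDist x S ^ (-M₂) * Real.exp (ε * distortion f x) := h3
      _ ≤ M₂ * Real.exp (M₂ * ((lam * depth a r R N x + M₁) / (1 - ε))) *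
          Real.exp (ε * distortion f x) := by
          rw [e1]; gcongr
      _ = M₂ * Real.exp (M₂ * M₁ / (1 - ε)) *
          Real.exp ((M₂ * lam / (1 - ε)) * depth a r R N x + ε * distortion f x) := by
          rw [mul_assoc, mul_assoc, ← Real.exp_add, ← Real.exp_add]
          congr 2
          field_simp
          ring
      _ ≤ _ := by
          gcongr
          linarith
  exact jlog_of_weighted hU (hae.mono (fun x hx => hx.2)) hα hε0 hεβ (by positivity)
    (by positivity) hgr hB hexp

/-- **Higher integrability below the threshold for diffeomorphisms off a shellable set.** -/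
theorem regular_off (hn : 2 ≤ n) {lam : ℝ} (hlam : 0 < lam) {S Ω : Set (E n)}
    {f : E n → E n} (hf : DiffeoOff lam S Ω f) {α β : ℝ} (hβ : 0 < β) (hαβ : lam * α < β)
    (hexp : LocallyIntegrableOn (fun x => Real.exp (β * distortion f x)) Ω) :
    Regular α Ω f := by
  set α' := max α (β / (2 * lam)) with hα'
  have h1 : 0 < α' := lt_max_of_lt_right (by positivity)
  have h2 : lam * α' < β := by
    rcases le_total α (β / (2 * lam)) with h | h
    · rw [hα', max_eq_right h]
      have : lam * (β / (2 * lam)) = β / 2 := by field_simp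
      linarith
    · rw [hα', max_eq_left h]; exact hαβ
  have h3 : α ≤ α' := le_max_left _ _
  have key : ∀ x ∈ Ω, ∃ V ∈ nhds x,
      IntegrableOn (fun x => jac f x * Real.log (Real.exp 1 + jac f x) ^ α) V ∧
      IntegrableOn (fun x => ‖fderiv ℝ f x‖ ^ n *
        Real.log (Real.exp 1 + ‖fderiv ℝ f x‖) ^ (α - 1)) V := by
    intro x hx
    by_cases hxS : x ∈ S
    · obtain ⟨U, hU, hxU, hcU, hUΩ, hemb, hsh, hg⟩ := hf.near x ⟨hx, hxS⟩
      have hUΩ' : U ⊆ Ω := subset_closure.trans hUΩ
      have hexpU : IntegrableOn (fun x => Real.exp (β * distortion f x)) U :=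
        (hexp.integrableOn_compact_subset hUΩ hcU).mono_set subset_closure
      have hj := jlog_near_S hn hlam hf hU hcU hUΩ hemb hsh hg h1 hβ h2 hexpU
      have hSnull : ∀ᵐ x ∂((volume : Measure (E n)).restrict U), x ∉ S := by
        rw [ae_restrict_iff' hU.measurableSet, ae_iff]
        refine measure_mono_null ?_ hf.null
        intro x hx
        simp only [mem_ofPred_eq, not_forall, not_not] at hx
        obtain ⟨h1, h2⟩ := hx
        exact ⟨h2, hUΩ' h1⟩
      have hpos : ∀ᵐ y ∂((volume : Measure (E n)).restrict U), 0 < jac f y := by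
        filter_upwards [hSnull, ae_restrict_mem hU.measurableSet] with y hy1 hy2
        exact hf.jac_pos y ⟨hUΩ' hy2, hy1⟩
      refine ⟨U, hU.mem_nhds hxU, ?_, ?_⟩
      · refine Integrable.mono' hj (measurable_jlog f α).aestronglyMeasurable ?_
        filter_upwards [hpos] with y hy
        have h6 := one_le_log_exp_add hy.le
        rw [Real.norm_of_nonneg (by positivity)]
        exact mul_le_mul_of_nonneg_left (Real.rpow_le_rpow_of_exponent_le h6 h3) hy.le
      · obtain ⟨C, hC0, hC⟩ := dlog_le (n := n) (by omega) α' hβ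
        refine Integrable.mono' ((hj.add hexpU).const_mul C)
          (measurable_dlog f α).aestronglyMeasurable ?_
        filter_upwards [hpos] with y hy
        have h8 := one_le_log_exp_add (norm_nonneg (fderiv ℝ f y))
        rw [Real.norm_of_nonneg (by positivity)]
        have h9 := hC _ _ _ (norm_nonneg _) hy.le (one_le_distortion f y)
          (norm_eq hn hy.le (fun h => absurd h hy.ne'))
        refine le_trans ?_ h9
        exact mul_le_mul_of_nonneg_left (Real.rpow_le_rpow_of_exponent_le h8 (by linarith))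
          (by positivity)
    · obtain ⟨δ, hδ, hδΩ⟩ := (nhds_basis_closedBall.mem_iff).1
        (hf.isOpen_off.mem_nhds ⟨hx, hxS⟩)
      refine ⟨closedBall x δ, closedBall_mem_nhds x hδ, ?_, ?_⟩
      · have hc1 : ContinuousOn (fderiv ℝ f) (closedBall x δ) :=
          (hf.smooth.continuousOn_fderiv_of_isOpen hf.isOpen_off le_rfl).mono hδΩ
        have hcj : ContinuousOn (jac f) (closedBall x δ) :=
          ContinuousLinearMap.continuous_det.comp_continuousOn hc1
        apply ContinuousOn.integrableOn_compact (isCompact_closedBall _ _)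
        apply hcj.mul
        apply ContinuousOn.rpow_const
        · apply (continuousOn_const.add hcj).log
          intro y hy
          exact (add_pos (Real.exp_pos 1) (hf.jac_pos y (hδΩ hy))).ne'
        · intro y hy
          left
          have := one_le_log_exp_add (hf.jac_pos y (hδΩ hy)).le
          linarith
      · have hc1 : ContinuousOn (fderiv ℝ f) (closedBall x δ) :=
          (hf.smooth.continuousOn_fderiv_of_isOpen hf.isOpen_off le_rfl).mono hδΩ
        apply ContinuousOn.integrableOn_compact (isCompact_closedBall _ _)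
        apply (hc1.norm.pow n).mul
        apply ContinuousOn.rpow_const
        · apply (continuousOn_const.add hc1.norm).log
          intro y _
          exact (add_pos_of_pos_of_nonneg (Real.exp_pos 1) (norm_nonneg _)).ne'
        · intro y _
          left
          have := one_le_log_exp_add (norm_nonneg (fderiv ℝ f y))
          linarith
  constructor
  · intro x hx
    obtain ⟨V, hV, h4, _⟩ := key x hx
    exact ⟨V, mem_nhdsWithin_of_mem_nhds hV, h4⟩
  · intro x hx
    obtain ⟨V, hV, _, h4⟩ := key x hx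
    exact ⟨V, mem_nhdsWithin_of_mem_nhds hV, h4⟩

end Pool.Agent.TreeS
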