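import Pool.Agent.TreeS.Off
import Pool.Agent.TreeS.Example

/-!
# Isolated points are shellable; the radial example
-/

set_option autoImplicit false

open MeasureTheory Set Metric Filter Topology
open scoped ENNReal

namespace Pool.Agent.TreeS

open Pool.Agent.RayM

variable {n : ℕ}

/-- Isolated points are shellable with constant one. -/
theorem shellable_point {S : Set (E n)} {a : E n} {ρ : ℝ} (hρ : 0 < ρ)
    (hS : S ∩ ball a (2 * ρ) = {a}) : Shellable 1 S (ball a ρ) := by
  intro ε hε0 hε1
  have haS : a ∈ S := by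
    have : a ∈ S ∩ ball a (2 * ρ) := by rw [hS]; exact mem_singleton a
    exact this.1
  have hother : ∀ y ∈ S, y ≠ a → 2 * ρ ≤ dist y a := by
    intro y hy hya
    by_contra hcon
    have : y ∈ S ∩ ball a (2 * ρ) := ⟨hy, not_le.1 hcon⟩
    rw [hS] at this
    exact hya this
  have hdist : ∀ x ∈ ball a ρ, infDist x S = dist x a := by
    intro x hx
    rw [mem_ball] at hx
    apply le_antisymm (infDist_le_dist_of_mem haS)
    rw [le_infDist ⟨a, haS⟩]
    intro y hy
    by_cases hya : y = a
    · rw [hya]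
    · have h1 := hother y hy hya
      have h2 := dist_triangle y x a
      rw [dist_comm y x] at h2
      linarith
  refine ⟨|Real.log ρ|, fun _ => a, fun i => ρ / 2 ^ (i + 1), fun i => ρ / 2 ^ i,
    nested_dyadic hρ, fun _ => haS, ?_, ?_⟩
  · intro i
    rw [Set.disjoint_left]
    intro x hx hxS
    have h1 : 0 < dist x a := lt_trans (by positivity) hx.1
    have h2 : dist x a < ρ := (nested_dyadic (n := n) (a := a) hρ).sub i hx.2
    have h3 := hother x hxS (dist_pos.1 h1)
    linarith
  · rintro x ⟨hxU, hxS⟩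
    have hxa : x ≠ a := fun h => hxS (h ▸ haS)
    have hd : 0 < dist x a := dist_pos.2 hxa
    have hdρ : dist x a < ρ := hxU
    obtain ⟨N, hN⟩ := exists_pow_lt_of_lt_one (div_pos hd hρ) (by norm_num : (1 / 2 : ℝ) < 1)
    refine ⟨N, ?_⟩
    rw [hdist x hxU, depth_dyadic hρ N hdρ, max_eq_right, one_mul, Real.log_div hρ.ne' hd.ne',
      one_div, Real.log_inv]
    · have h1 : Real.log (dist x a) < Real.log ρ := Real.log_lt_log hd hdρ
      have h2 := neg_abs_le (Real.log ρ)
      have h3 := le_abs_self (Real.log ρ)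
      rcases le_or_gt 0 (-Real.log (dist x a)) with h4 | h4
      · nlinarith
      · nlinarith
    · rw [div_pow, one_pow, div_lt_div_iff₀ (by positivity) hρ] at hN
      rw [div_le_iff₀ (by positivity)]
      linarith

theorem diffeoOff_radF (hn : 2 ≤ n) {β : ℝ} (hβ : 0 < β) :
    DiffeoOff 1 {0} (ball (0 : E n) (Real.exp (-(4 + 2 * β)))) (radF n β) where
  isOpen_off := isOpen_ball.sdiff isClosed_singleton
  null := by
    have := nontrivial_E hn
    exact measure_mono_null inter_subset_left (measure_singleton _)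
  cont := continuousOn_exG hn (angular_id hn) hβ
  smooth := by
    rintro z ⟨hz, hz0⟩
    exact (contDiffAt_radF hβ hz0 (mem_ball_zero_iff.1 hz)).contDiffWithinAt
  jac_pos := by
    rintro z ⟨hz, hz0⟩
    exact jac_radF_pos hn hβ hz0 (mem_ball_zero_iff.1 hz)
  near := by
    rintro x ⟨_, hx0⟩
    rw [mem_singleton_iff] at hx0
    subst hx0
    set R₀ := Real.exp (-(4 + 2 * β)) with hR₀
    have hR0 : 0 < R₀ := Real.exp_pos _
    have hR1 : R₀ < 1 := by rw [hR₀, Real.exp_lt_one_iff]; linarith
    set ρ := R₀ / 2 with hρ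
    have hρ0 : 0 < ρ := by positivity
    have hρR : ρ < R₀ := by linarith
    have hρ1 : ρ < 1 := hρR.trans hR1
    have hcl : closure (ball (0 : E n) ρ) ⊆ closedBall 0 ρ := closure_ball_subset_closedBall
    have hsub : ball (0 : E n) ρ ⊆ ball 0 R₀ := ball_subset_ball hρR.le
    refine ⟨ball 0 ρ, isOpen_ball, mem_ball_self hρ0,
      (isCompact_closedBall (0 : E n) ρ).of_isClosed_subset isClosed_closure hcl,
      hcl.trans (closedBall_subset_ball hρR), (emb_radF hn hβ).mono hsub,
      shellable_point hρ0 ?_, ?_⟩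
    · rw [inter_eq_left]
      intro y hy
      rw [mem_singleton_iff] at hy
      rw [hy]
      exact mem_ball_self (by positivity)
    · intro ε hε
      refine ⟨n, ?_⟩
      rintro z ⟨hz, hz0⟩
      have hz0' : z ≠ 0 := hz0
      have hzR := mem_ball_zero_iff.1 (hsub hz)
      have hr : 0 < ‖z‖ := norm_pos_iff.2 hz0'
      obtain ⟨_, hs, _⟩ := t_facts hβ hr hzR
      have h1 := phi_pos (n := n) (β := β) hs
      have h2 := one_le_kk hn hβ hr hzR
      have h3 := phi_le_one hn hβ hs
      rw [jac_radF hn hβ hz0' hzR, infDist_singleton, dist_zero_right]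
      have h4 : 1 ≤ Real.exp (ε * distortion (radF n β) z) := by
        apply Real.one_le_exp
        have := one_le_distortion (radF n β) z
        positivity
      have hn1 : (1 : ℝ) ≤ n := by exact_mod_cast (by omega : 1 ≤ n)
      calc (phi n β ‖z‖ / ‖z‖) ^ n / kk n β ‖z‖ ≤ (phi n β ‖z‖ / ‖z‖) ^ n :=
            div_le_self (by positivity) h2
        _ ≤ (1 / ‖z‖) ^ n := by gcongr
        _ = ‖z‖ ^ (-(n : ℝ)) := by
            rw [Real.rpow_neg hr.le, Real.rpow_natCast, one_div, inv_pow]
        _ = 1 * ‖z‖ ^ (-(n : ℝ)) * 1 := by ring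
        _ ≤ _ := by gcongr

end Pool.Agent.TreeS
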