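import Mathlib

/-!
# The Prekopa-Leindler inequality with weights `m / (m + 1)` and `1 / (m + 1)`

`Pool.Agent.TreeS.PLm.prekopa_leindler`: if `f x ^ m * g y ≤ h ((m x + y) / (m + 1)) ^ (m + 1)` for
all `x, y`, then `(∫⁻ f) ^ m * ∫⁻ g ≤ (∫⁻ h) ^ (m + 1)`, for measurable
`f g h : (Fin n → ℝ) → ℝ≥0∞`. The proof follows `Pool.Agent.Lib.PrekopaLeindler` (midpoint case).
-/

set_option autoImplicit false

open MeasureTheory Set
open scoped ENNReal

namespace Pool.Agent.TreeS.PLm

/-- The two weights. -/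
noncomputable def w₁ (m : ℕ) : ℝ := m / (m + 1)

noncomputable def w₂ (m : ℕ) : ℝ := 1 / (m + 1)

lemma w₁_nonneg (m : ℕ) : 0 ≤ w₁ m := by unfold w₁; positivity

lemma w₂_nonneg (m : ℕ) : 0 ≤ w₂ m := by unfold w₂; positivity

lemma w_add (m : ℕ) : w₁ m + w₂ m = 1 := by unfold w₁ w₂; field_simp

/-- One dimensional Brunn-Minkowski, compact case. -/
lemma volume_wt_compact (m : ℕ) {A B C : Set ℝ} (hA : IsCompact A) (hB : IsCompact B)
    (hAne : A.Nonempty) (hBne : B.Nonempty) (hC : ∀ a ∈ A, ∀ b ∈ B, w₁ m * a + w₂ m * b ∈ C) :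
    ENNReal.ofReal (w₁ m) * volume A + ENNReal.ofReal (w₂ m) * volume B ≤ volume C := by
  obtain ⟨α, hα, hαmax⟩ := hA.exists_isMaxOn hAne continuousOn_id
  obtain ⟨β, hβ, hβmin⟩ := hB.exists_isMinOn hBne continuousOn_id
  have hw := w_add m
  have hw1 := w₁_nonneg m
  have hw2 := w₂_nonneg m
  set S₁ : Set ℝ := (AffineMap.homothety β (w₁ m)) '' A with hS₁
  set S₂ : Set ℝ := (AffineMap.homothety α (w₂ m)) '' B with hS₂
  have hv₁ : volume S₁ = ENNReal.ofReal (w₁ m) * volume A := by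
    rw [hS₁, Measure.addHaar_image_homothety]
    rw [Module.finrank_self, pow_one, abs_of_nonneg hw1]
  have hv₂ : volume S₂ = ENNReal.ofReal (w₂ m) * volume B := by
    rw [hS₂, Measure.addHaar_image_homothety]
    rw [Module.finrank_self, pow_one, abs_of_nonneg hw2]
  have hm₂ : MeasurableSet S₂ := by
    apply IsCompact.measurableSet
    apply hB.image
    exact AffineMap.homothety_continuous _ _
  have hdis : AEDisjoint volume S₁ S₂ := by
    have : S₁ ∩ S₂ ⊆ {w₁ m * α + w₂ m * β} := by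
      rintro x ⟨⟨a, ha, rfl⟩, ⟨b, hb, hab⟩⟩
      have h1 : a ≤ α := hαmax ha
      have h2 : β ≤ b := hβmin hb
      simp only [AffineMap.homothety_apply, vsub_eq_sub, smul_eq_mul, vadd_eq_add] at hab ⊢
      simp only [mem_singleton_iff]
      have h3 : w₁ m * a ≤ w₁ m * α := by gcongr
      have h4 : w₂ m * β ≤ w₂ m * b := by gcongr
      have e1 : w₁ m = 1 - w₂ m := by linarith
      rw [e1] at h3 ⊢
      rw [e1] at hab
      linarith
    exact measure_mono_null this (by simp)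
  have hun : volume (S₁ ∪ S₂) = volume S₁ + volume S₂ :=
    measure_union₀ hm₂.nullMeasurableSet hdis
  rw [← hv₁, ← hv₂, ← hun]
  apply measure_mono
  have e1 : w₁ m = 1 - w₂ m := by linarith
  rintro x (⟨a, ha, rfl⟩ | ⟨b, hb, rfl⟩)
  · have := hC a ha β hβ
    simp only [AffineMap.homothety_apply, vsub_eq_sub, smul_eq_mul, vadd_eq_add]
    convert this using 1
    rw [e1]
    ring
  · have := hC α hα b hb
    simp only [AffineMap.homothety_apply, vsub_eq_sub, smul_eq_mul, vadd_eq_add]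
    convert this using 1
    rw [e1]
    ring

/-- One dimensional Brunn-Minkowski. -/
lemma volume_wt (m : ℕ) {A B C : Set ℝ} (hA : MeasurableSet A) (hB : MeasurableSet B)
    (hAne : A.Nonempty) (hBne : B.Nonempty) (hC : ∀ a ∈ A, ∀ b ∈ B, w₁ m * a + w₂ m * b ∈ C) :
    ENNReal.ofReal (w₁ m) * volume A + ENNReal.ofReal (w₂ m) * volume B ≤ volume C := by
  obtain ⟨a₀, ha₀⟩ := hAne
  obtain ⟨b₀, hb₀⟩ := hBne
  have key : ∀ K₁ ⊆ A, IsCompact K₁ → ∀ K₂ ⊆ B, IsCompact K₂ →
      ENNReal.ofReal (w₁ m) * volume K₁ + ENNReal.ofReal (w₂ m) * volume K₂ ≤ volume C := by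
    intro K₁ hK₁ hc₁ K₂ hK₂ hc₂
    have h := volume_wt_compact m (A := insert a₀ K₁) (B := insert b₀ K₂) (C := C)
      (hc₁.insert a₀) (hc₂.insert b₀) ⟨a₀, mem_insert _ _⟩ ⟨b₀, mem_insert _ _⟩
      (fun a ha b hb => hC a (insert_subset ha₀ hK₁ ha) b (insert_subset hb₀ hK₂ hb))
    refine le_trans ?_ h
    gcongr
    · exact subset_insert _ _
    · exact subset_insert _ _
  have hA' : volume A = ⨆ K : {K : Set ℝ // K ⊆ A ∧ IsCompact K}, volume K.1 := by
    rw [hA.measure_eq_iSup_isCompact]; simp [iSup_subtype, iSup_and]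
  have hB' : volume B = ⨆ K : {K : Set ℝ // K ⊆ B ∧ IsCompact K}, volume K.1 := by
    rw [hB.measure_eq_iSup_isCompact]; simp [iSup_subtype, iSup_and]
  have : Nonempty {K : Set ℝ // K ⊆ A ∧ IsCompact K} :=
    ⟨⟨∅, empty_subset _, isCompact_empty⟩⟩
  have : Nonempty {K : Set ℝ // K ⊆ B ∧ IsCompact K} :=
    ⟨⟨∅, empty_subset _, isCompact_empty⟩⟩
  rw [hA', hB']
  simp only [ENNReal.mul_iSup]
  refine ENNReal.iSup_add_iSup_le ?_
  rintro ⟨K₁, hK₁, hc₁⟩ ⟨K₂, hK₂, hc₂⟩
  exact key K₁ hK₁ hc₁ K₂ hK₂ hc₂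

/-- One dimensional inequality with equal suprema. -/
lemma pl_one_eq {m : ℕ} (hm : 1 ≤ m) {f g h : ℝ → ℝ≥0∞} (hf : Measurable f) (hg : Measurable g)
    (hh : Measurable h) {c : ℝ≥0∞} (hc : c ≠ ∞) (hfc : ∀ x, f x ≤ c) (hgc : ∀ x, g x ≤ c)
    (hfs : ∀ t < c, ∃ x, t < f x) (hgs : ∀ t < c, ∃ x, t < g x)
    (H : ∀ x y, f x ^ m * g y ≤ h (w₁ m * x + w₂ m * y) ^ (m + 1)) :
    ENNReal.ofReal (w₁ m) * (∫⁻ x, f x) + ENNReal.ofReal (w₂ m) * (∫⁻ x, g x) ≤ ∫⁻ x, h x := by
  have lay : ∀ {F : ℝ → ℝ≥0∞}, Measurable F → (∀ x, F x ≤ c) →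
      ∫⁻ x, F x = ∫⁻ t in Ioi (0:ℝ), volume {x | ENNReal.ofReal t < F x} := by
    intro F hF hFc
    have hFfin : ∀ x, F x ≠ ∞ := fun x => ne_top_of_le_ne_top hc (hFc x)
    have h1 : ∀ x, F x = ENNReal.ofReal ((F x).toReal) := fun x =>
      (ENNReal.ofReal_toReal (hFfin x)).symm
    have h2 := lintegral_eq_lintegral_meas_lt (f := fun x => (F x).toReal) volume
      (Filter.Eventually.of_forall (fun x => ENNReal.toReal_nonneg))
      (hF.ennreal_toReal.aemeasurable)
    rw [lintegral_congr h1, h2]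
    refine setLIntegral_congr_fun measurableSet_Ioi ?_
    intro t ht
    simp only
    congr 1
    ext x
    simp only [mem_ofPred_eq]
    rw [ENNReal.ofReal_lt_iff_lt_toReal (le_of_lt ht) (hFfin x)]
  set h' : ℝ → ℝ≥0∞ := fun x => min (h x) c with hh'
  have hh'm : Measurable h' := hh.min measurable_const
  have hh'c : ∀ x, h' x ≤ c := fun x => min_le_right _ _
  calc ENNReal.ofReal (w₁ m) * (∫⁻ x, f x) + ENNReal.ofReal (w₂ m) * (∫⁻ x, g x)
      = ∫⁻ t in Ioi (0:ℝ), (ENNReal.ofReal (w₁ m) * volume {x | ENNReal.ofReal t < f x}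
          + ENNReal.ofReal (w₂ m) * volume {x | ENNReal.ofReal t < g x}) := by
        rw [lay hf hfc, lay hg hgc]
        have hmf : Measurable fun t : ℝ => volume {x | ENNReal.ofReal t < f x} := by
          apply Antitone.measurable
          intro s t hst
          exact measure_mono (fun x hx => lt_of_le_of_lt (ENNReal.ofReal_le_ofReal hst) hx)
        rw [lintegral_add_left (by exact hmf.const_mul _)]
        rw [lintegral_const_mul' _ _ ENNReal.ofReal_ne_top,
          lintegral_const_mul' _ _ ENNReal.ofReal_ne_top]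
    _ ≤ ∫⁻ t in Ioi (0:ℝ), volume {x | ENNReal.ofReal t < h' x} := by
        refine setLIntegral_mono' measurableSet_Ioi ?_
        intro t ht
        by_cases htc : ENNReal.ofReal t < c
        · apply volume_wt
          · exact measurableSet_lt measurable_const hf
          · exact measurableSet_lt measurable_const hg
          · exact hfs _ htc
          · exact hgs _ htc
          · intro a ha b hb
            simp only [mem_ofPred_eq] at ha hb ⊢
            refine lt_min ?_ htc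
            by_contra hcon
            push Not at hcon
            have h1 := H a b
            have h2 : h (w₁ m * a + w₂ m * b) ^ (m + 1) ≤ (ENNReal.ofReal t) ^ (m + 1) := by
              gcongr
            have h3 : (ENNReal.ofReal t) ^ (m + 1) < f a ^ m * g b := by
              rw [pow_succ]
              exact ENNReal.mul_lt_mul (ENNReal.pow_lt_pow_left (by omega) ha) hb
            exact absurd (h3.trans_le (h1.trans h2)) (lt_irrefl _)
        · have e1 : {x | ENNReal.ofReal t < f x} = ∅ := by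
            ext x
            simp only [mem_ofPred_eq, mem_empty_iff_false, iff_false, not_lt]
            exact (hfc x).trans (not_lt.mp htc)
          have e2 : {x | ENNReal.ofReal t < g x} = ∅ := by
            ext x
            simp only [mem_ofPred_eq, mem_empty_iff_false, iff_false, not_lt]
            exact (hgc x).trans (not_lt.mp htc)
          rw [e1, e2]
          simp
    _ = ∫⁻ x, h' x := (lay hh'm hh'c).symm
    _ ≤ ∫⁻ x, h x := lintegral_mono (fun x => min_le_left _ _)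

/-- Weighted AM-GM in `ℝ≥0∞`. -/
lemma amgm {m : ℕ} (hm : 1 ≤ m) (x y : ℝ≥0∞) :
    x ^ m * y ≤ (ENNReal.ofReal (w₁ m) * x + ENNReal.ofReal (w₂ m) * y) ^ (m + 1) := by
  have hw1 : 0 < w₁ m := by
    unfold w₁
    have : (0 : ℝ) < m := by exact_mod_cast hm
    positivity
  have hw2 : 0 < w₂ m := by unfold w₂; positivity
  by_cases hx : x = ∞
  · have : ENNReal.ofReal (w₁ m) * x + ENNReal.ofReal (w₂ m) * y = ∞ := by
      rw [hx, ENNReal.mul_top (by simpa using hw1)]
      simp
    rw [this]; simp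
  by_cases hy : y = ∞
  · have : ENNReal.ofReal (w₁ m) * x + ENNReal.ofReal (w₂ m) * y = ∞ := by
      rw [hy, ENNReal.mul_top (by simpa using hw2)]
      simp
    rw [this]; simp
  have hx' := (ENNReal.ofReal_toReal hx).symm
  have hy' := (ENNReal.ofReal_toReal hy).symm
  set X := x.toReal with hX
  set Y := y.toReal with hY
  have hX0 : 0 ≤ X := ENNReal.toReal_nonneg
  have hY0 : 0 ≤ Y := ENNReal.toReal_nonneg
  rw [hx', hy', ← ENNReal.ofReal_mul hw1.le, ← ENNReal.ofReal_mul hw2.le,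
    ← ENNReal.ofReal_add (by positivity) (by positivity), ← ENNReal.ofReal_pow (by positivity),
    ← ENNReal.ofReal_pow (by positivity), ← ENNReal.ofReal_mul (by positivity)]
  apply ENNReal.ofReal_le_ofReal
  have h1 := Real.geom_mean_le_arith_mean2_weighted hw1.le hw2.le hX0 hY0 (w_add m)
  have h2 : (X ^ (w₁ m) * Y ^ (w₂ m)) ^ (m + 1) ≤ (w₁ m * X + w₂ m * Y) ^ (m + 1) := by
    gcongr
  refine le_trans (le_of_eq ?_) h2
  rw [mul_pow, ← Real.rpow_natCast (X ^ (w₁ m)), ← Real.rpow_natCast (Y ^ (w₂ m)),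
    ← Real.rpow_mul hX0, ← Real.rpow_mul hY0]
  have e1 : w₁ m * ((m + 1 : ℕ) : ℝ) = m := by unfold w₁; push_cast; field_simp
  have e2 : w₂ m * ((m + 1 : ℕ) : ℝ) = 1 := by unfold w₂; push_cast; field_simp
  rw [e1, e2, Real.rpow_natCast, Real.rpow_one]

/-- One dimensional Prekopa-Leindler for bounded functions. -/
lemma pl_one_bdd {m : ℕ} (hm : 1 ≤ m) {f g h : ℝ → ℝ≥0∞} (hf : Measurable f) (hg : Measurable g)
    (hh : Measurable h) (hfb : (⨆ x, f x) ≠ ∞) (hgb : (⨆ x, g x) ≠ ∞)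
    (H : ∀ x y, f x ^ m * g y ≤ h (w₁ m * x + w₂ m * y) ^ (m + 1)) :
    (∫⁻ x, f x) ^ m * (∫⁻ x, g x) ≤ (∫⁻ x, h x) ^ (m + 1) := by
  set a := ⨆ x, f x with ha
  set b := ⨆ x, g x with hb
  have hm0 : m ≠ 0 := by omega
  by_cases ha0 : a = 0
  · have : ∀ x, f x = 0 := fun x => by
      have := le_iSup f x
      rw [← ha, ha0] at this
      exact le_antisymm this zero_le
    simp [this, hm0]
  by_cases hb0 : b = 0
  · have : ∀ x, g x = 0 := fun x => by
      have := le_iSup g x
      rw [← hb, hb0] at this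
      exact le_antisymm this zero_le
    simp [this]
  have e : ((b ^ m * a) ^ (1 / (m + 1 : ℕ) : ℝ)) ^ (m + 1) = b ^ m * a := by
    rw [← ENNReal.rpow_natCast, ← ENNReal.rpow_mul]
    rw [one_div, inv_mul_cancel₀ (by positivity), ENNReal.rpow_one]
  have h1 := pl_one_eq hm (f := fun x => b * f x) (g := fun x => a * g x)
    (h := fun x => (b ^ m * a) ^ (1 / (m + 1 : ℕ) : ℝ) * h x) (hf.const_mul _) (hg.const_mul _)
    (hh.const_mul _)
    (c := a * b) (ENNReal.mul_ne_top hfb hgb)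
    (fun x => by rw [mul_comm a b]; gcongr; exact le_iSup f x)
    (fun x => by gcongr; exact le_iSup g x)
    (by
      intro t ht
      have : t / b < a := by
        rw [ENNReal.div_lt_iff (Or.inl hb0) (Or.inl hgb)]
        exact ht
      obtain ⟨x, hx⟩ := lt_iSup_iff.mp this
      refine ⟨x, ?_⟩
      rw [ENNReal.div_lt_iff (Or.inl hb0) (Or.inl hgb)] at hx
      rwa [mul_comm]
      )
    (by
      intro t ht
      have : t / a < b := by
        rw [ENNReal.div_lt_iff (Or.inl ha0) (Or.inl hfb), mul_comm b a]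
        exact ht
      obtain ⟨x, hx⟩ := lt_iSup_iff.mp this
      refine ⟨x, ?_⟩
      rw [ENNReal.div_lt_iff (Or.inl ha0) (Or.inl hfb)] at hx
      rwa [mul_comm]
      )
    (by
      intro x y
      calc (b * f x) ^ m * (a * g y) = (b ^ m * a) * (f x ^ m * g y) := by ring
        _ ≤ (b ^ m * a) * (h (w₁ m * x + w₂ m * y)) ^ (m + 1) := by gcongr; exact H x y
        _ = _ := by rw [mul_pow, e])
  have h2 : (b ^ m * a) * ((∫⁻ x, f x) ^ m * (∫⁻ x, g x)) ≤
      (b ^ m * a) * (∫⁻ x, h x) ^ (m + 1) := by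
    calc (b ^ m * a) * ((∫⁻ x, f x) ^ m * (∫⁻ x, g x))
        = (∫⁻ x, b * f x) ^ m * (∫⁻ x, a * g x) := by
          rw [lintegral_const_mul _ hf, lintegral_const_mul _ hg]; ring
      _ ≤ (ENNReal.ofReal (w₁ m) * (∫⁻ x, b * f x) +
            ENNReal.ofReal (w₂ m) * (∫⁻ x, a * g x)) ^ (m + 1) := amgm hm _ _
      _ ≤ (∫⁻ x, (b ^ m * a) ^ (1 / (m + 1 : ℕ) : ℝ) * h x) ^ (m + 1) := by gcongr
      _ = (b ^ m * a) * (∫⁻ x, h x) ^ (m + 1) := by
          rw [lintegral_const_mul _ hh, mul_pow, e]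
  have hab0 : b ^ m * a ≠ 0 := mul_ne_zero (pow_ne_zero _ hb0) ha0
  have habt : b ^ m * a ≠ ∞ := ENNReal.mul_ne_top (ENNReal.pow_ne_top hgb) hfb
  exact (ENNReal.mul_le_mul_iff_right hab0 habt).mp h2

/-- One dimensional Prekopa-Leindler. -/
lemma pl_one {m : ℕ} (hm : 1 ≤ m) {f g h : ℝ → ℝ≥0∞} (hf : Measurable f) (hg : Measurable g)
    (hh : Measurable h) (H : ∀ x y, f x ^ m * g y ≤ h (w₁ m * x + w₂ m * y) ^ (m + 1)) :
    (∫⁻ x, f x) ^ m * (∫⁻ x, g x) ≤ (∫⁻ x, h x) ^ (m + 1) := by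
  have lim : ∀ {F : ℝ → ℝ≥0∞}, Measurable F →
      ∫⁻ x, F x = ⨆ N : ℕ, ∫⁻ x, min (F x) N := by
    intro F hF
    rw [← lintegral_iSup (fun N => hF.min measurable_const)]
    · refine lintegral_congr (fun x => ?_)
      apply le_antisymm
      · refine le_of_forall_lt (fun t ht => ?_)
        obtain ⟨N, hN⟩ := ENNReal.exists_nat_gt (ne_top_of_lt ht)
        exact lt_iSup_iff.mpr ⟨N, lt_min ht hN⟩
      · exact iSup_le (fun N => min_le_left _ _)
    · intro N M hNM x
      simp only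
      gcongr
  have hpow : (⨆ N : ℕ, ∫⁻ x, min (f x) N) ^ m = ⨆ N : ℕ, (∫⁻ x, min (f x) N) ^ m := by
    apply Monotone.map_iSup_of_continuousAt (f := fun x : ℝ≥0∞ => x ^ m)
    · exact (ENNReal.continuous_pow m).continuousAt
    · exact fun x y hxy => pow_le_pow_left' hxy m
    · simp only [bot_eq_zero]
      exact zero_pow (by omega)
  rw [lim hf, lim hg, hpow, ENNReal.iSup_mul]
  refine iSup_le (fun N => ?_)
  rw [ENNReal.mul_iSup]
  refine iSup_le (fun M => ?_)
  apply pl_one_bdd hm (hf.min measurable_const) (hg.min measurable_const) hh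
  · exact ne_top_of_le_ne_top (ENNReal.natCast_ne_top N) (iSup_le (fun x => min_le_right _ _))
  · exact ne_top_of_le_ne_top (ENNReal.natCast_ne_top M) (iSup_le (fun x => min_le_right _ _))
  · intro x y
    refine le_trans ?_ (H x y)
    gcongr <;> exact min_le_left _ _

/-- Prekopa-Leindler with weights `m / (m + 1)`, `1 / (m + 1)` on `Fin n → ℝ`. -/
theorem prekopa_leindler {m : ℕ} (hm : 1 ≤ m) : ∀ (n : ℕ) {f g h : (Fin n → ℝ) → ℝ≥0∞}
    (_ : Measurable f) (_ : Measurable g) (_ : Measurable h)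
    (_ : ∀ x y, f x ^ m * g y ≤ h (w₁ m • x + w₂ m • y) ^ (m + 1)),
    (∫⁻ x, f x) ^ m * (∫⁻ x, g x) ≤ (∫⁻ x, h x) ^ (m + 1) := by
  intro n
  induction n with
  | zero =>
    intro f g h hf hg hh H
    have : ∀ F : (Fin 0 → ℝ) → ℝ≥0∞, Measurable F → ∫⁻ x, F x = F 0 := by
      intro F hF
      have hv : (volume : Measure (Fin 0 → ℝ)) = Measure.dirac 0 := by
        rw [volume_pi, Measure.pi_of_empty (fun _ => volume) 0]
      rw [hv, lintegral_dirac' _ hF]
    rw [this f hf, this g hg, this h hh]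
    have := H 0 0
    simpa using this
  | succ n ih =>
    intro f g h hf hg hh H
    set e := (MeasurableEquiv.piFinSuccAbove (fun _ : Fin (n+1) => ℝ) 0).symm with he
    have hmp : MeasurePreserving e (volume.prod volume) volume :=
      (volume_preserving_piFinSuccAbove (fun _ : Fin (n+1) => ℝ) 0).symm
    have fub : ∀ F : (Fin (n+1) → ℝ) → ℝ≥0∞, Measurable F →
        ∫⁻ x, F x = ∫⁻ s : ℝ, ∫⁻ x : Fin n → ℝ, F (e (s, x)) := by
      intro F hF
      rw [← hmp.lintegral_comp hF]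
      exact lintegral_prod (fun z => F (e z)) (hF.comp e.measurable).aemeasurable
    have meas : ∀ F : (Fin (n+1) → ℝ) → ℝ≥0∞, Measurable F →
        Measurable (fun s : ℝ => ∫⁻ x : Fin n → ℝ, F (e (s, x))) := by
      intro F hF
      exact (hF.comp e.measurable).lintegral_prod_right'
    rw [fub f hf, fub g hg, fub h hh]
    apply pl_one hm (meas f hf) (meas g hg) (meas h hh)
    intro s t
    apply ih
    · exact (hf.comp e.measurable).comp (measurable_const.prodMk measurable_id)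
    · exact (hg.comp e.measurable).comp (measurable_const.prodMk measurable_id)
    · exact (hh.comp e.measurable).comp (measurable_const.prodMk measurable_id)
    · intro x y
      have := H (e (s, x)) (e (t, y))
      convert this using 3
      ext i
      refine Fin.cases ?_ (fun j => ?_) i
      · simp [he, MeasurableEquiv.piFinSuccAbove]
      · simp [he, MeasurableEquiv.piFinSuccAbove]

end Pool.Agent.TreeS.PLm
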