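import Pool.Agent.TreeS.BM
import Pool.Agent.RayM.Center

/-!
# Lifting short segments
-/

set_option autoImplicit false

open MeasureTheory Set Metric Filter Topology
open scoped ENNReal

namespace Pool.Agent.TreeS

open Pool.Agent.RayM

variable {n : ℕ}

/-- The quantity `|Df|^(n-1) / J_f`, a bound for the norm of the inverse of `Df`. -/
noncomputable def kap (f : E n → E n) (x : E n) : ℝ := ‖fderiv ℝ f x‖ ^ (n - 1) / jac f x

/-- `f` is continuous and injective on `U` with open images of open subsets. -/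
structure Emb (f : E n → E n) (U : Set (E n)) : Prop where
  cont : ContinuousOn f U
  inj : InjOn f U
  opn : ∀ V, IsOpen V → V ⊆ U → IsOpen (f '' V)

theorem Emb.mono {f : E n → E n} {U V : Set (E n)} (h : Emb f U) (hVU : V ⊆ U) : Emb f V :=
  ⟨h.cont.mono hVU, h.inj.mono hVU, fun W hW hWV => h.opn W hW (hWV.trans hVU)⟩

theorem Emb.continuousAt_inv {f : E n → E n} {U : Set (E n)} (hU : IsOpen U) (h : Emb f U)
    {x : E n} (hx : x ∈ U) : ContinuousAt (Function.invFunOn f U) (f x) := by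
  have hgx : Function.invFunOn f U (f x) = x := h.inj.leftInvOn_invFunOn hx
  intro N hN
  rw [hgx] at hN
  obtain ⟨W, hWN, hWo, hxW⟩ := _root_.mem_nhds_iff.1 (Filter.inter_mem hN (hU.mem_nhds hx))
  have hopen : IsOpen (f '' W) := h.opn W hWo (fun z hz => (hWN hz).2)
  rw [mem_map]
  filter_upwards [hopen.mem_nhds (mem_image_of_mem f hxW)] with y hy
  obtain ⟨z, hz, rfl⟩ := hy
  rw [mem_preimage, h.inj.leftInvOn_invFunOn (hWN hz).2]
  exact (hWN hz).1

theorem Emb.hasFDerivAt_inv {f : E n → E n} {U : Set (E n)} (hU : IsOpen U) (h : Emb f U)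
    {x : E n} (hx : x ∈ U) (hd : DifferentiableAt ℝ f x) (hJ : 0 < jac f x) :
    ∃ B : E n →L[ℝ] E n, ‖B‖ ≤ kap f x ∧ HasFDerivAt (Function.invFunOn f U) B (f x) := by
  have hgx : Function.invFunOn f U (f x) = x := h.inj.leftInvOn_invFunOn hx
  have hne : (fderiv ℝ f x).det ≠ 0 := hJ.ne'
  set L : E n ≃L[ℝ] E n := ContinuousLinearMap.toContinuousLinearEquivOfDetNeZero (fderiv ℝ f x) hne
    with hL
  have hLe : (L : E n →L[ℝ] E n) = fderiv ℝ f x := by
    rw [hL]; ext v; simp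
  refine ⟨(L.symm : E n →L[ℝ] E n), ?_, ?_⟩
  · apply norm_inv_le hJ
    intro u
    rw [← hLe]
    simp
  · apply HasFDerivAt.of_local_left_inverse (h.continuousAt_inv hU hx)
    · rw [hgx, hLe]; exact hd.hasFDerivAt
    · filter_upwards [(h.opn U hU subset_rfl).mem_nhds (mem_image_of_mem f hx)] with y hy
      obtain ⟨z, hz, rfl⟩ := hy
      rw [h.inj.leftInvOn_invFunOn hz]

theorem path {f : E n → E n} {a : E n} {r s R : ℝ} (hsR : s < R)
    (hf : Emb f (ball a R))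
    (hd : ∀ x, r ≤ dist x a → dist x a ≤ s → DifferentiableAt ℝ f x ∧ 0 < jac f x)
    {k ε η : ℝ} (hk0 : 0 ≤ k) (hη0 : 0 ≤ η)
    (hk : ∀ x, r ≤ dist x a → dist x a ≤ s → kap f x ≤ k) (hke : k * ε < s - r)
    (hη : ∀ z w, r ≤ dist z a → dist z a ≤ s → r ≤ dist w a → dist w a ≤ s →
      dist z w ≤ k * ε → kap f z ≤ kap f w + η)
    {e y : E n} (hy : dist y e ≤ ε) (he : e ∈ f '' closedBall a r)
    (hseg : ∀ τ ∈ Ioc (0 : ℝ) 1, e + τ • (y - e) ∉ f '' closedBall a r)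
    (hV : ∀ τ ∈ Icc (0 : ℝ) 1, e + τ • (y - e) ∈ f '' ball a R) :
    ∃ x, f x = y ∧ r < dist x a ∧ dist x a ≤ s ∧ dist x a ≤ r + ε * (kap f x + η) := by
  set g := Function.invFunOn f (ball a R) with hg
  have hε : 0 ≤ ε := dist_nonneg.trans hy
  have hgf : ∀ x ∈ ball a R, g (f x) = x := fun x hx => hf.inj.leftInvOn_invFunOn hx
  have hfg : ∀ z ∈ f '' ball a R, g z ∈ ball a R ∧ f (g z) = z := by
    rintro _ ⟨x, hx, rfl⟩
    rw [hgf x hx]; exact ⟨hx, rfl⟩
  set p : ℝ → E n := fun τ => e + τ • (y - e) with hp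
  set X : ℝ → E n := fun τ => g (p τ) with hX
  have hXb : ∀ τ ∈ Icc (0 : ℝ) 1, X τ ∈ ball a R ∧ f (X τ) = p τ := fun τ hτ => hfg _ (hV τ hτ)
  have hpc : Continuous p := by fun_prop
  have hXc : ContinuousOn X (Icc 0 1) := by
    intro τ hτ
    have h1 : ContinuousAt g (p τ) := by
      rw [← (hXb τ hτ).2]
      exact hf.continuousAt_inv isOpen_ball (hXb τ hτ).1
    exact (ContinuousAt.comp (f := p) h1 hpc.continuousAt).continuousWithinAt
  -- the starting point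
  have hX0 : dist (X 0) a ≤ r := by
    obtain ⟨x, hx, hxe⟩ := he
    have h0 : p 0 = e := by simp [hp]
    have hxR : x ∈ ball a R := by
      by_contra hcon
      -- `x` is in the closed ball of radius `r < R` or `r` is large; use `r < s`
      rw [mem_closedBall] at hx
      rw [mem_ball, not_lt] at hcon
      have : s < r := by linarith
      nlinarith [mul_nonneg hk0 hε]
    have : X 0 = x := by
      simp only [hX, h0, ← hxe]
      exact hgf x hxR
    rw [this]; exact hx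
  have hXr : ∀ τ ∈ Ioc (0 : ℝ) 1, r < dist (X τ) a := by
    intro τ hτ
    by_contra hcon
    push Not at hcon
    exact hseg τ hτ ⟨X τ, hcon, (hXb τ ⟨hτ.1.le, hτ.2⟩).2⟩
  have hXr' : ∀ τ ∈ Icc (0 : ℝ) 1, r ≤ dist (X τ) a := by
    intro τ hτ
    rcases eq_or_lt_of_le hτ.1 with h | h
    · rw [← h]
      have hcw : ContinuousWithinAt (fun τ => dist (X τ) a) (Icc 0 1) 0 :=
        Filter.Tendsto.dist (hXc 0 ⟨le_rfl, zero_le_one⟩) continuousWithinAt_const
      have hcw' : Tendsto (fun τ => dist (X τ) a) (𝓝[Ioc 0 1] (0 : ℝ)) (𝓝 (dist (X 0) a)) :=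
        (hcw.mono Ioc_subset_Icc_self).tendsto
      have hne : (𝓝[Ioc 0 1] (0 : ℝ)).NeBot := by
        have : (𝓝[Ioc (0 : ℝ) 1] (0 : ℝ)) = 𝓝[>] 0 := nhdsWithin_Ioc_eq_nhdsGT zero_lt_one
        rw [this]; infer_instance
      exact ge_of_tendsto hcw' (eventually_mem_nhdsWithin.mono (fun τ hτ => (hXr τ hτ).le))
    · exact (hXr τ ⟨h, hτ.2⟩).le
  have hder : ∀ τ ∈ Icc (0 : ℝ) 1, dist (X τ) a ≤ s →
      ∃ v : E n, ‖v‖ ≤ kap f (X τ) * dist y e ∧ HasDerivAt X v τ := by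
    intro τ hτ hs
    obtain ⟨hD, hJ⟩ := hd (X τ) (hXr' τ hτ) hs
    obtain ⟨B, hB, hBd⟩ := hf.hasFDerivAt_inv isOpen_ball (hXb τ hτ).1 hD hJ
    rw [(hXb τ hτ).2] at hBd
    have hpd : HasDerivAt p (y - e) τ := by
      have := ((hasDerivAt_id τ).smul_const (y - e)).const_add e
      simpa [hp] using this
    refine ⟨B (y - e), ?_, hBd.comp_hasDerivAt τ hpd⟩
    calc ‖B (y - e)‖ ≤ ‖B‖ * ‖y - e‖ := B.le_opNorm _
      _ ≤ kap f (X τ) * dist y e := by rw [dist_eq_norm]; gcongr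
  -- the curve stays in the annulus
  have hstay : ∀ τ ∈ Icc (0 : ℝ) 1, dist (X τ) a ≤ s := by
    by_contra hcon
    push Not at hcon
    obtain ⟨τ₁, hτ₁, hτ₁s⟩ := hcon
    set B : Set ℝ := Icc 0 1 ∩ (fun τ => dist (X τ) a) ⁻¹' Ici s with hB
    have hBc : IsCompact B := by
      have : IsClosed B := (show ContinuousOn (fun τ => dist (X τ) a) (Icc 0 1) from fun τ hτ => Filter.Tendsto.dist (hXc τ hτ) continuousWithinAt_const).preimage_isClosed_of_isClosed isClosed_Icc isClosed_Ici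
      exact isCompact_Icc.of_isClosed_subset this inter_subset_left
    have hBne : B.Nonempty := ⟨τ₁, hτ₁, hτ₁s.le⟩
    obtain ⟨τ, hτB, hτmin⟩ := hBc.exists_isLeast hBne
    have hτ01 : τ ∈ Icc (0 : ℝ) 1 := hτB.1
    have hτs : s ≤ dist (X τ) a := hτB.2
    have hin : ∀ σ ∈ Icc 0 τ, dist (X σ) a ≤ s := by
      have hlt : ∀ σ ∈ Ico 0 τ, dist (X σ) a < s := by
        intro σ hσ
        by_contra hc
        push Not at hc
        have := hτmin (show σ ∈ B from ⟨⟨hσ.1, hσ.2.le.trans hτ01.2⟩, hc⟩)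
        exact absurd hσ.2 (not_lt.2 this)
      intro σ hσ
      rcases eq_or_lt_of_le hσ.2 with h | h
      · rw [h]
        rcases eq_or_lt_of_le hτ01.1 with h0 | h0
        · -- `τ = 0`
          rw [← h0] at hτs ⊢
          nlinarith [mul_nonneg hk0 hε]
        · have hcw : Tendsto (fun τ => dist (X τ) a) (𝓝[Ico 0 τ] τ) (𝓝 (dist (X τ) a)) :=
            ((show ContinuousWithinAt (fun τ => dist (X τ) a) (Icc 0 1) τ from Filter.Tendsto.dist (hXc τ hτ01) continuousWithinAt_const).mono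
              (fun z hz => ⟨hz.1, hz.2.le.trans hτ01.2⟩)).tendsto
          have hne : (𝓝[Ico 0 τ] τ).NeBot := by
            have : (𝓝[Ico 0 τ] τ) = 𝓝[<] τ := nhdsWithin_Ico_eq_nhdsLT h0
            rw [this]; infer_instance
          exact le_of_tendsto hcw (eventually_mem_nhdsWithin.mono (fun z hz => (hlt z hz).le))
      · exact (hlt σ ⟨hσ.1, h⟩).le
    have hmv : ‖X τ - X 0‖ ≤ (k * ε) * ‖τ - 0‖ := by
      have hex : ∀ σ, ∃ v : E n, σ ∈ Icc 0 τ → (‖v‖ ≤ k * ε ∧ HasDerivAt X v σ) := by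
        intro σ
        by_cases hσ : σ ∈ Icc 0 τ
        · have hσ1 : σ ∈ Icc (0 : ℝ) 1 := ⟨hσ.1, hσ.2.trans hτ01.2⟩
          obtain ⟨v, hv, hvd⟩ := hder σ hσ1 (hin σ hσ)
          refine ⟨v, fun _ => ⟨hv.trans ?_, hvd⟩⟩
          have := hk (X σ) (hXr' σ hσ1) (hin σ hσ)
          gcongr
        · exact ⟨0, fun h => absurd h hσ⟩
      choose v hv using hex
      exact (convex_Icc 0 τ).norm_image_sub_le_of_norm_hasDerivWithin_le (f := X) (f' := v)
        (fun σ hσ => ((hv σ hσ).2).hasDerivWithinAt) (fun σ hσ => (hv σ hσ).1)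
        ⟨le_rfl, hτ01.1⟩ ⟨hτ01.1, le_rfl⟩
    have h1 : ‖τ - 0‖ ≤ 1 := by
      rw [sub_zero, Real.norm_of_nonneg hτ01.1]; exact hτ01.2
    have h2 : ‖X τ - X 0‖ ≤ k * ε := by
      refine hmv.trans ?_
      have : 0 ≤ k * ε := mul_nonneg hk0 hε
      nlinarith
    have h3 : dist (X τ) a ≤ dist (X τ) (X 0) + dist (X 0) a := dist_triangle _ _ _
    rw [dist_eq_norm (X τ) (X 0)] at h3
    linarith
  -- the final estimate
  have h01 : (1 : ℝ) ∈ Icc (0 : ℝ) 1 := ⟨zero_le_one, le_rfl⟩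
  have hp1 : p 1 = y := by simp [hp]
  have hclose : ∀ σ ∈ Icc (0 : ℝ) 1, dist (X σ) (X 1) ≤ k * ε := by
    intro σ hσ
    have hex : ∀ σ, ∃ v : E n, σ ∈ Icc (0 : ℝ) 1 → (‖v‖ ≤ k * ε ∧ HasDerivAt X v σ) := by
      intro σ
      by_cases hσ : σ ∈ Icc (0 : ℝ) 1
      · obtain ⟨v, hv, hvd⟩ := hder σ hσ (hstay σ hσ)
        refine ⟨v, fun _ => ⟨hv.trans ?_, hvd⟩⟩
        have := hk (X σ) (hXr' σ hσ) (hstay σ hσ)
        gcongr
      · exact ⟨0, fun h => absurd h hσ⟩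
    choose v hv using hex
    have hmv := (convex_Icc (0 : ℝ) 1).norm_image_sub_le_of_norm_hasDerivWithin_le (f := X)
      (f' := v)
      (fun σ hσ => ((hv σ hσ).2).hasDerivWithinAt) (fun σ hσ => (hv σ hσ).1) h01 hσ
    rw [dist_eq_norm]
    refine hmv.trans ?_
    have h1 : ‖σ - 1‖ ≤ 1 := by
      rw [Real.norm_eq_abs, abs_le]; constructor <;> linarith [hσ.1, hσ.2]
    have : 0 ≤ k * ε := mul_nonneg hk0 hε
    nlinarith
  have hkX : 0 ≤ kap f (X 1) := by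
    unfold kap
    have := (hd (X 1) (hXr' 1 h01) (hstay 1 h01)).2
    positivity
  have hmv : ‖X 1 - X 0‖ ≤ (ε * (kap f (X 1) + η)) * ‖(1 : ℝ) - 0‖ := by
    have hex : ∀ σ, ∃ v : E n, σ ∈ Icc (0 : ℝ) 1 →
        (‖v‖ ≤ ε * (kap f (X 1) + η) ∧ HasDerivAt X v σ) := by
      intro σ
      by_cases hσ : σ ∈ Icc (0 : ℝ) 1
      · obtain ⟨v, hv, hvd⟩ := hder σ hσ (hstay σ hσ)
        refine ⟨v, fun _ => ⟨hv.trans ?_, hvd⟩⟩
        have h1 := hη (X σ) (X 1) (hXr' σ hσ) (hstay σ hσ) (hXr' 1 h01) (hstay 1 h01) (hclose σ hσ)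
        calc kap f (X σ) * dist y e ≤ (kap f (X 1) + η) * ε := by gcongr
          _ = _ := by ring
      · exact ⟨0, fun h => absurd h hσ⟩
    choose v hv using hex
    exact (convex_Icc (0 : ℝ) 1).norm_image_sub_le_of_norm_hasDerivWithin_le (f := X) (f' := v)
      (fun σ hσ => ((hv σ hσ).2).hasDerivWithinAt) (fun σ hσ => (hv σ hσ).1)
      ⟨le_rfl, zero_le_one⟩ h01
  refine ⟨X 1, ?_, hXr 1 ⟨zero_lt_one, le_rfl⟩, hstay 1 h01, ?_⟩
  · rw [(hXb 1 h01).2, hp1]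
  · have h3 : dist (X 1) a ≤ dist (X 1) (X 0) + dist (X 0) a := dist_triangle _ _ _
    rw [dist_eq_norm (X 1) (X 0)] at h3
    rw [sub_zero, norm_one, mul_one] at hmv
    linarith

end Pool.Agent.TreeS
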