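import Pool.Agent.TreeS.Upper2
import Pool.Agent.RayM.Final

/-!
# Shells about one point; the class contains maps with isolated singularities
-/

set_option autoImplicit false

open MeasureTheory Set Metric Filter Topology
open scoped ENNReal

namespace Pool.Agent.TreeS

open Pool.Agent.RayM

variable {n : ℕ}

/-- The depth in dyadic shells about one point. -/
theorem depth_dyadic {a : E n} {ρ : ℝ} (hρ : 0 < ρ) (N : ℕ) {x : E n} (hx : dist x a < ρ) :
    depth (fun _ => a) (fun i => ρ / 2 ^ (i + 1)) (fun i => ρ / 2 ^ i) N x =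
      Real.log (ρ / max (ρ / 2 ^ N) (dist x a)) := by
  induction N with
  | zero =>
    rw [pow_zero, div_one, max_eq_left hx.le, div_self hρ.ne', Real.log_one]
    simp [depth]
  | succ N ih =>
    rw [depth_succ, ih]
    have h2 : ρ / 2 ^ (N + 1) < ρ / 2 ^ N := by
      rw [pow_succ]
      apply div_lt_div_of_pos_left hρ (by positivity)
      have : (0 : ℝ) < 2 ^ N := by positivity
      linarith
    rcases lt_or_ge (dist x a) (ρ / 2 ^ N) with h | h
    · have hm : 0 < max (ρ / 2 ^ (N + 1)) (dist x a) := lt_max_of_lt_left (by positivity)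
      rw [dep_of_lt (by positivity) h2 h, max_eq_left h.le, ← Real.log_mul (by positivity)
        (by positivity)]
      congr 1
      field_simp
    · have h3 : 0 < dist x a := lt_of_lt_of_le (by positivity) h
      rw [dep_of_ge (by positivity) h, add_zero, max_eq_right h, max_eq_right (h2.le.trans h)]

theorem nested_dyadic {a : E n} {ρ : ℝ} (hρ : 0 < ρ) :
    Nested (ball a ρ) (fun _ => a) (fun i => ρ / 2 ^ (i + 1)) (fun i => ρ / 2 ^ i) where
  pos := fun i => by positivity
  sub := by
    intro i
    apply ball_subset_ball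
    apply div_le_self hρ.le
    exact one_le_pow₀ (by norm_num)
  nest := by
    intro i j hij
    right
    refine ball_subset_closedBall.trans (closedBall_subset_closedBall ?_)
    apply div_le_div_of_nonneg_left hρ.le (by positivity)
    exact pow_le_pow_right₀ (by norm_num) hij

/-- Shell control near an isolated singular point. -/
theorem shellBound_point (hn : 2 ≤ n) {lam ε M : ℝ} (hε : 0 ≤ lam * n + ε) {f : E n → E n}
    {a : E n} {ρ : ℝ} (hρ : 0 < ρ)
    (hs : ContDiffOn ℝ 1 f (ball a ρ \ {a})) (hJ : ∀ x ∈ ball a ρ, x ≠ a → 0 < jac f x)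
    (hg : ∀ᵐ x ∂(volume : Measure (E n)), x ∈ ball a ρ →
      jac f x ≤ M * (dist x a) ^ (-(lam * n + ε)) * Real.exp (ε * distortion f x)) :
    ShellBound lam ε (M * ρ ^ (-(lam * n + ε))) f (ball a ρ) (fun _ => a)
      (fun i => ρ / 2 ^ (i + 1)) (fun i => ρ / 2 ^ i) where
  toNested := nested_dyadic hρ
  smooth := by
    intro i
    apply hs.mono
    intro x hx
    have h1 : 0 < dist x a := lt_trans (by positivity) hx.1
    refine ⟨(nested_dyadic hρ).sub i hx.2, ?_⟩
    intro h2
    rw [mem_singleton_iff] at h2
    rw [h2, dist_self] at h1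
    exact lt_irrefl _ h1
  jac_pos := by
    intro i x hx
    have h1 : 0 < dist x a := lt_trans (by positivity) hx.1
    exact hJ x ((nested_dyadic hρ).sub i hx.2) (dist_pos.1 h1)
  growth := by
    rw [ae_restrict_iff' measurableSet_ball]
    filter_upwards [hg, ne_ae hn a] with x h1 h2 h3
    have hd : 0 < dist x a := dist_pos.2 h2
    have hdρ : dist x a < ρ := h3
    obtain ⟨N, hN⟩ := exists_pow_lt_of_lt_one (div_pos hd hρ) (by norm_num : (1 / 2 : ℝ) < 1)
    refine ⟨N, (h1 h3).trans (le_of_eq ?_)⟩
    rw [depth_dyadic hρ N hdρ, max_eq_right]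
    · have e1 : Real.exp ((lam * n + ε) * Real.log (ρ / dist x a) + ε * distortion f x) =
          (ρ / dist x a) ^ (lam * n + ε) * Real.exp (ε * distortion f x) := by
        rw [Real.exp_add, Real.rpow_def_of_pos (by positivity), mul_comm (lam * n + ε)]
      rw [e1, Real.div_rpow hρ.le hd.le, Real.rpow_neg hρ.le, Real.rpow_neg hd.le]
      have : 0 < ρ ^ (lam * n + ε) := by positivity
      field_simp
    · rw [div_pow, one_pow, div_lt_div_iff₀ (by positivity) hρ] at hN
      rw [div_le_iff₀ (by positivity)]
      linarith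

end Pool.Agent.TreeS
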