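import Pool.Agent.TreeS.Iso
import Pool.Agent.RayM.Polar

/-!
# The weighted inequality for one shell
-/

set_option autoImplicit false

open MeasureTheory Set Metric Filter Topology
open scoped ENNReal

namespace Pool.Agent.TreeS

open Pool.Agent.RayM

variable {n : ℕ}

/-- The weight. -/
theorem lintegral_weight {α c R d : ℝ} (hα : 0 < α) (hc : 1 ≤ c) (hd : 0 < d) (hdR : d < R) :
    ∫⁻ ρ in Ioo d R, ENNReal.ofReal (α * (c + Real.log (R / ρ)) ^ (α - 1) / ρ) =
      ENNReal.ofReal ((c + Real.log (R / d)) ^ α - c ^ α) := by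
  have hR : 0 < R := hd.trans hdR
  have hpos : ∀ ρ ∈ Icc d R, 0 < ρ ∧ 1 ≤ c + Real.log (R / ρ) := by
    intro ρ hρ
    have h1 : 0 < ρ := hd.trans_le hρ.1
    refine ⟨h1, ?_⟩
    have : 0 ≤ Real.log (R / ρ) := Real.log_nonneg (by rw [le_div_iff₀ h1, one_mul]; exact hρ.2)
    linarith
  have hcont : ContinuousOn (fun ρ : ℝ => α * (c + Real.log (R / ρ)) ^ (α - 1) / ρ) (Icc d R) := by
    intro ρ hρ
    obtain ⟨h1, h2⟩ := hpos ρ hρ
    apply ContinuousAt.continuousWithinAt
    have h3 : ContinuousAt (fun ρ : ℝ => c + Real.log (R / ρ)) ρ := by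
      apply ContinuousAt.add continuousAt_const
      exact (continuousAt_const.div continuousAt_id h1.ne').log (div_pos hR h1).ne'
    exact (continuousAt_const.mul (h3.rpow_const (Or.inl (by linarith)))).div continuousAt_id h1.ne'
  have hderiv : ∀ ρ ∈ uIcc d R, HasDerivAt (fun ρ : ℝ => -(c + Real.log (R / ρ)) ^ α)
      (α * (c + Real.log (R / ρ)) ^ (α - 1) / ρ) ρ := by
    intro ρ hρ
    rw [uIcc_of_le hdR.le] at hρ
    obtain ⟨h1, h2⟩ := hpos ρ hρ
    have h3 : HasDerivAt (fun ρ : ℝ => c + Real.log (R / ρ)) (-(1 / ρ)) ρ := by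
      have h4 : HasDerivAt (fun ρ : ℝ => c + (Real.log R - Real.log ρ)) (-(1 / ρ)) ρ := by
        have := ((Real.hasDerivAt_log h1.ne').const_sub (Real.log R)).const_add c
        rwa [← one_div] at this
      apply h4.congr_of_eventuallyEq
      filter_upwards [lt_mem_nhds h1] with z hz
      rw [Real.log_div hR.ne' hz.ne']
    have h5 := (h3.rpow_const (p := α) (Or.inl (by linarith))).fun_neg
    refine h5.congr_deriv ?_
    ring
  have hint : IntervalIntegrable (fun ρ : ℝ => α * (c + Real.log (R / ρ)) ^ (α - 1) / ρ)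
      volume d R := (by rwa [uIcc_of_le hdR.le] : ContinuousOn _ (uIcc d R)).intervalIntegrable
  have h6 := intervalIntegral.integral_eq_sub_of_hasDerivAt hderiv hint
  rw [div_self hR.ne', Real.log_one, add_zero] at h6
  rw [show (c + Real.log (R / d)) ^ α - c ^ α = -c ^ α - -(c + Real.log (R / d)) ^ α by ring,
    ← h6, intervalIntegral.integral_of_le hdR.le, ← integral_Ioc_eq_integral_Ioo.symm,
    ofReal_integral_eq_lintegral_ofReal]
  · exact (hcont.integrableOn_Icc).mono_set Ioo_subset_Icc_self
  · rw [EventuallyLE, ae_restrict_iff' measurableSet_Ioo]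
    filter_upwards with ρ hρ
    obtain ⟨h1, h2⟩ := hpos ρ (Ioo_subset_Icc_self hρ)
    simp only [Pi.zero_apply]
    positivity

/-- The logarithmic depth inside one shell: `log (R / max (r, |x - a|))`, cut off at zero. -/
noncomputable def dep (a : E n) (r R : ℝ) (x : E n) : ℝ :=
  Real.log (max 1 (R / max r (dist x a)))

/-- The open shell. -/
def sh (a : E n) (r R : ℝ) : Set (E n) := {x | r < dist x a ∧ dist x a < R}

theorem dep_nonneg (a : E n) (r R : ℝ) (x : E n) : 0 ≤ dep a r R x :=
  Real.log_nonneg (le_max_left _ _)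

theorem measurable_dep (a : E n) (r R : ℝ) : Measurable (dep a r R) := by
  unfold dep
  fun_prop

theorem isOpen_sh (a : E n) (r R : ℝ) : IsOpen (sh a r R) := by
  unfold sh
  have h1 : Continuous (fun x : E n => dist x a) := by fun_prop
  exact (isOpen_lt continuous_const h1).inter (isOpen_lt h1 continuous_const)

theorem dep_of_lt {a : E n} {r R : ℝ} (hr : 0 < r) (hrR : r < R) {x : E n} (hx : dist x a < R) :
    dep a r R x = Real.log (R / max r (dist x a)) := by
  unfold dep
  have h1 : 0 < max r (dist x a) := lt_max_of_lt_left hr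
  have h2 : max r (dist x a) < R := max_lt hrR hx
  have h3 : 1 ≤ R / max r (dist x a) := by rw [le_div_iff₀ h1]; linarith
  rw [max_eq_right h3]

theorem dep_of_sh {a : E n} {r R : ℝ} (hr : 0 < r) {x : E n} (hx : x ∈ sh a r R) :
    dep a r R x = Real.log (R / dist x a) := by
  have h1 := dep_of_lt hr (hx.1.trans hx.2) hx.2
  rw [h1, max_eq_right hx.1.le]

theorem dep_of_ge {a : E n} {r R : ℝ} (hr : 0 < r) {x : E n} (hx : R ≤ dist x a) :
    dep a r R x = 0 := by
  unfold dep
  have h1 : 0 < max r (dist x a) := lt_max_of_lt_left hr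
  have h3 : R / max r (dist x a) ≤ 1 := by
    rw [div_le_one h1]; exact hx.trans (le_max_right _ _)
  rw [max_eq_left h3, Real.log_one]

theorem dep_of_inner {a : E n} {r R : ℝ} {x : E n} (hx : dist x a ≤ r) :
    dep a r R x = Real.log (max 1 (R / r)) := by
  unfold dep
  rw [max_eq_left hx]

theorem translate_lintegral (F : E n → ℝ≥0∞) (a : E n) :
    ∫⁻ x, F (a + x) ∂(volume : Measure (E n)) = ∫⁻ x, F x ∂(volume : Measure (E n)) := by
  exact lintegral_add_left_eq_self F a

/-- Polar coordinates about `a` on the shell, the radius outside. -/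
theorem polar_shell [Nontrivial (E n)] {G : E n → ℝ≥0∞} (hG : Measurable G) {a : E n}
    {r R : ℝ} (hr : 0 < r) :
    ∫⁻ ρ in Ioo r R, ∫⁻ ω : sphere (0 : E n) 1, ENNReal.ofReal (ρ ^ (n - 1)) *
        G (a + ρ • (ω : E n)) ∂(volume : Measure (E n)).toSphere =
      ∫⁻ x in sh a r R, G x := by
  have hm : MeasurableSet (sh a r R) := (isOpen_sh a r R).measurableSet
  have h1 : ∫⁻ x in sh a r R, G x = ∫⁻ x, (sh a r R).indicator G (a + x) := by
    rw [translate_lintegral, lintegral_indicator hm]
  have h2 : Measurable (fun x : E n => (sh a r R).indicator G (a + x)) :=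
    (hG.indicator hm).comp (measurable_const_add a)
  rw [h1, polar_lintegral _ h2, lintegral_lintegral_swap]
  · apply lintegral_congr
    intro ω
    rw [← lintegral_indicator measurableSet_Ioo, ← lintegral_indicator measurableSet_Ioi]
    apply lintegral_congr
    intro ρ
    have hmem : ∀ ρ : ℝ, 0 < ρ → (a + ρ • (ω : E n) ∈ sh a r R ↔ ρ ∈ Ioo r R) := by
      intro ρ hρ
      have : dist (a + ρ • (ω : E n)) a = ρ := by
        rw [dist_eq_norm, add_sub_cancel_left, norm_smul, show ‖(ω : E n)‖ = 1 by simp, mul_one,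
          Real.norm_of_nonneg hρ.le]
      unfold sh
      rw [mem_ofPred_eq, this]
      rfl
    by_cases h3 : ρ ∈ Ioo r R
    · have h4 : 0 < ρ := hr.trans h3.1
      rw [indicator_of_mem h3, indicator_of_mem (show ρ ∈ Ioi (0 : ℝ) from h4),
        indicator_of_mem ((hmem ρ h4).2 h3)]
    · rw [indicator_of_notMem h3]
      by_cases h4 : 0 < ρ
      · rw [indicator_of_mem (show ρ ∈ Ioi (0 : ℝ) from h4),
          indicator_of_notMem (fun h => h3 ((hmem ρ h4).1 h)), mul_zero]
      · rw [indicator_of_notMem (show ρ ∉ Ioi (0 : ℝ) from h4)]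
  · apply Measurable.aemeasurable
    have h5 : Measurable (fun p : ℝ × sphere (0 : E n) 1 => a + p.1 • (p.2 : E n)) := by
      have : Continuous (fun p : ℝ × sphere (0 : E n) 1 => a + p.1 • (p.2 : E n)) := by fun_prop
      exact this.measurable
    have h6 : Measurable (fun p : ℝ × sphere (0 : E n) 1 => ENNReal.ofReal (p.1 ^ (n - 1))) := by
      fun_prop
    exact h6.mul (hG.comp h5)

/-- **The weighted inequality for one shell.** -/
theorem shell (hn : 2 ≤ n) {f : E n → E n} {a : E n} {r R : ℝ} (hr : 0 < r) (hrR : r < R)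
    (hf : Emb f (ball a R))
    (hae : ∀ᵐ x ∂((volume : Measure (E n)).restrict (ball a R)), DifferentiableAt ℝ f x ∧
      0 ≤ jac f x)
    (hs : ContDiffOn ℝ 1 f (sh a r R)) (hJ : ∀ x ∈ sh a r R, 0 < jac f x)
    {α c : ℝ} (hα : 0 < α) (hc : 1 ≤ c) :
    (n : ℝ≥0∞) * ∫⁻ x in ball a R, ENNReal.ofReal (jac f x) *
        ENNReal.ofReal ((c + dep a r R x) ^ α - c ^ α) ≤
      ∫⁻ x in sh a r R, ENNReal.ofReal (α * (c + dep a r R x) ^ (α - 1)) *
        ENNReal.ofReal (‖fderiv ℝ f x‖ ^ n) := by
  have hnt := nontrivial_E hn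
  have hR : 0 < R := hr.trans hrR
  have hmJ : Measurable (fun x : E n => ENNReal.ofReal (jac f x)) :=
    (measurable_jac f).ennreal_ofReal
  set w : ℝ → ℝ≥0∞ := fun ρ => ENNReal.ofReal (α * (c + Real.log (R / ρ)) ^ (α - 1) / ρ) with hw
  have hwm : Measurable w := by
    rw [hw]
    apply Measurable.ennreal_ofReal
    exact (((Measurable.pow_const (by fun_prop) (α - 1)).const_mul α)).div measurable_id
  -- the weight as an integral
  have h1 : ∀ x ∈ ball a R, ENNReal.ofReal ((c + dep a r R x) ^ α - c ^ α) =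
      ∫⁻ ρ in Ioo r R, (Ioi (dist x a)).indicator w ρ := by
    intro x hx
    rw [mem_ball] at hx
    rw [dep_of_lt hr hrR hx, ← lintegral_weight hα hc (lt_max_of_lt_left hr) (max_lt hrR hx),
      lintegral_indicator measurableSet_Ioi, Measure.restrict_restrict measurableSet_Ioi]
    congr 2
    ext ρ
    simp only [mem_Ioo, mem_inter_iff, mem_Ioi, max_lt_iff]
    tauto
  -- the inequality on spheres
  have h2 : ∀ ρ ∈ Ioo r R, (n : ℝ≥0∞) * ∫⁻ x in closedBall a ρ, ENNReal.ofReal (jac f x) ≤
      ENNReal.ofReal ρ * ∫⁻ ω : sphere (0 : E n) 1, ENNReal.ofReal (ρ ^ (n - 1)) *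
        ENNReal.ofReal (‖fderiv ℝ f (a + ρ • (ω : E n))‖ ^ n)
          ∂(volume : Measure (E n)).toSphere := by
    intro ρ hρ
    have hmem : ∀ x, ρ ≤ dist x a → dist x a ≤ (ρ + R) / 2 → x ∈ sh a r R := by
      intro x h3 h4
      exact ⟨hρ.1.trans_le h3, by linarith [hρ.2]⟩
    apply v1 hn (hr.trans hρ.1) (s := (ρ + R) / 2) (R := R) (by linarith [hρ.2])
      (by linarith [hρ.2]) hf hae
    · intro x h3 h4
      have h5 := hmem x h3 h4
      exact ⟨(hs.contDiffAt ((isOpen_sh a r R).mem_nhds h5)).differentiableAt (by norm_num),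
        hJ x h5⟩
    · exact (hs.continuousOn_fderiv_of_isOpen (isOpen_sh a r R) le_rfl).mono
        (fun x hx => hmem x hx.1 hx.2)
  calc (n : ℝ≥0∞) * ∫⁻ x in ball a R, ENNReal.ofReal (jac f x) *
        ENNReal.ofReal ((c + dep a r R x) ^ α - c ^ α)
      = (n : ℝ≥0∞) * ∫⁻ x in ball a R, ∫⁻ ρ in Ioo r R, ENNReal.ofReal (jac f x) *
          (Ioi (dist x a)).indicator w ρ := by
        congr 1
        apply setLIntegral_congr_fun measurableSet_ball
        intro x hx
        simp only
        rw [h1 x hx, lintegral_const_mul]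
        exact hwm.indicator measurableSet_Ioi
    _ = (n : ℝ≥0∞) * ∫⁻ ρ in Ioo r R, ∫⁻ x in ball a R, ENNReal.ofReal (jac f x) *
          (Ioi (dist x a)).indicator w ρ := by
        congr 1
        apply lintegral_lintegral_swap
        apply Measurable.aemeasurable
        have h3 : Measurable (fun p : E n × ℝ => (Ioi (dist p.1 a)).indicator w p.2) := by
          have h4 : MeasurableSet {p : E n × ℝ | dist p.1 a < p.2} :=
            measurableSet_lt (by fun_prop) measurable_snd
          have h5 : (fun p : E n × ℝ => (Ioi (dist p.1 a)).indicator w p.2) =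
              {p : E n × ℝ | dist p.1 a < p.2}.indicator (fun p => w p.2) := by
            ext p
            simp only [indicator, mem_Ioi, mem_ofPred_eq]
          rw [h5]
          exact (hwm.comp measurable_snd).indicator h4
        exact (hmJ.comp measurable_fst).mul h3
    _ = ∫⁻ ρ in Ioo r R, w ρ * ((n : ℝ≥0∞) * ∫⁻ x in ball a ρ, ENNReal.ofReal (jac f x)) := by
        rw [← lintegral_const_mul' _ _ (ENNReal.natCast_ne_top n)]
        apply setLIntegral_congr_fun measurableSet_Ioo
        intro ρ hρ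
        simp only
        have h6 : ∀ x, ENNReal.ofReal (jac f x) * (Ioi (dist x a)).indicator w ρ =
            w ρ * (ball a ρ).indicator (fun x => ENNReal.ofReal (jac f x)) x := by
          intro x
          by_cases h7 : dist x a < ρ
          · rw [indicator_of_mem (show ρ ∈ Ioi (dist x a) from h7),
              indicator_of_mem (show x ∈ ball a ρ from h7), mul_comm]
          · rw [indicator_of_notMem (show ρ ∉ Ioi (dist x a) from h7),
              indicator_of_notMem (show x ∉ ball a ρ from h7), mul_zero, mul_zero]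
        simp_rw [h6]
        rw [lintegral_const_mul _ (hmJ.indicator measurableSet_ball),
          lintegral_indicator measurableSet_ball, Measure.restrict_restrict measurableSet_ball,
          inter_eq_left.2 (ball_subset_ball hρ.2.le)]
        ring
    _ ≤ ∫⁻ ρ in Ioo r R, ∫⁻ ω : sphere (0 : E n) 1, ENNReal.ofReal (ρ ^ (n - 1)) *
          (ENNReal.ofReal (α * (c + dep a r R (a + ρ • (ω : E n))) ^ (α - 1)) *
            ENNReal.ofReal (‖fderiv ℝ f (a + ρ • (ω : E n))‖ ^ n))
            ∂(volume : Measure (E n)).toSphere := by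
        apply setLIntegral_mono' measurableSet_Ioo
        intro ρ hρ
        have hρ0 : 0 < ρ := hr.trans hρ.1
        have h8 : ∀ ω : sphere (0 : E n) 1, dist (a + ρ • (ω : E n)) a = ρ := by
          intro ω
          rw [dist_eq_norm, add_sub_cancel_left, norm_smul, show ‖(ω : E n)‖ = 1 by simp, mul_one,
            Real.norm_of_nonneg hρ0.le]
        have h9 : ∀ ω : sphere (0 : E n) 1, dep a r R (a + ρ • (ω : E n)) = Real.log (R / ρ) := by
          intro ω
          rw [dep_of_sh hr (x := a + ρ • (ω : E n)) (by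
            unfold sh; rw [mem_ofPred_eq, h8]; exact hρ), h8]
        have hlog : 0 ≤ Real.log (R / ρ) :=
          Real.log_nonneg (by rw [le_div_iff₀ hρ0, one_mul]; exact hρ.2.le)
        have h10 : w ρ * ENNReal.ofReal ρ =
            ENNReal.ofReal (α * (c + Real.log (R / ρ)) ^ (α - 1)) := by
          rw [hw]
          simp only
          rw [← ENNReal.ofReal_mul (by positivity)]
          congr 1
          field_simp
        calc w ρ * ((n : ℝ≥0∞) * ∫⁻ x in ball a ρ, ENNReal.ofReal (jac f x))
            ≤ w ρ * ((n : ℝ≥0∞) * ∫⁻ x in closedBall a ρ, ENNReal.ofReal (jac f x)) := by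
              have h11 : ∫⁻ x in ball a ρ, ENNReal.ofReal (jac f x) ≤
                  ∫⁻ x in closedBall a ρ, ENNReal.ofReal (jac f x) :=
                lintegral_mono_set ball_subset_closedBall
              exact mul_le_mul_right (mul_le_mul_right h11 _) _
          _ ≤ w ρ * (ENNReal.ofReal ρ * ∫⁻ ω : sphere (0 : E n) 1, ENNReal.ofReal (ρ ^ (n - 1)) *
                ENNReal.ofReal (‖fderiv ℝ f (a + ρ • (ω : E n))‖ ^ n)
                  ∂(volume : Measure (E n)).toSphere) := by
              exact mul_le_mul_right (h2 ρ hρ) _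
          _ = ENNReal.ofReal (α * (c + Real.log (R / ρ)) ^ (α - 1)) *
                ∫⁻ ω : sphere (0 : E n) 1, ENNReal.ofReal (ρ ^ (n - 1)) *
                ENNReal.ofReal (‖fderiv ℝ f (a + ρ • (ω : E n))‖ ^ n)
                  ∂(volume : Measure (E n)).toSphere := by
              rw [← mul_assoc, h10]
          _ = ∫⁻ ω : sphere (0 : E n) 1, ENNReal.ofReal (α * (c + Real.log (R / ρ)) ^ (α - 1)) *
                (ENNReal.ofReal (ρ ^ (n - 1)) *
                ENNReal.ofReal (‖fderiv ℝ f (a + ρ • (ω : E n))‖ ^ n))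
                  ∂(volume : Measure (E n)).toSphere :=
              (lintegral_const_mul' _ _ ENNReal.ofReal_ne_top).symm
          _ ≤ _ := by
              apply le_of_eq
              apply lintegral_congr
              intro ω
              rw [h9 ω]
              ring
    _ = _ := by
        apply polar_shell (G := fun x => ENNReal.ofReal (α * (c + dep a r R x) ^ (α - 1)) *
          ENNReal.ofReal (‖fderiv ℝ f x‖ ^ n)) _ hr
        exact ((((measurable_dep a r R).const_add c).pow_const _).const_mul α).ennreal_ofReal.mul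
          ((measurable_norm_fderiv f).pow_const n).ennreal_ofReal

end Pool.Agent.TreeS
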