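import Pool.Agent.TreeS.Kbar

/-!
# The weighted inequality for one shell, with the weight of the differential equation
-/

set_option autoImplicit false

open MeasureTheory Set Metric Filter Topology
open scoped ENNReal Interval

namespace Pool.Agent.TreeS

open Pool.Agent.RayM

variable {n : ℕ}

/-- The density `1 / (τ k(τ))` on the shell. -/
noncomputable def gk (f : E n → E n) (a : E n) (r R τ : ℝ) : ℝ :=
  (Ioo r R).indicator (fun τ => 1 / (τ * kbar f a τ)) τ

/-- The integral of the density from `ρ` to `R`. -/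
noncomputable def phiK (f : E n → E n) (a : E n) (r R ρ : ℝ) : ℝ := ∫ τ in ρ..R, gk f a r R τ

/-- The hypotheses on one shell. -/
structure GoodShell (f : E n → E n) (a : E n) (r R : ℝ) : Prop where
  pos : 0 < r
  smooth : ContDiffOn ℝ 1 f (sh a r R)
  jpos : ∀ x ∈ sh a r R, 0 < jac f x

theorem gk_nonneg (hn : 2 ≤ n) {f : E n → E n} {a : E n} {r R : ℝ} (h : GoodShell f a r R)
    (τ : ℝ) : 0 ≤ gk f a r R τ := by
  unfold gk
  apply indicator_nonneg
  intro τ hτ
  have h1 := one_le_kbar hn h.pos h.smooth h.jpos hτ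
  have h2 : 0 < τ := h.pos.trans hτ.1
  positivity

theorem gk_le (hn : 2 ≤ n) {f : E n → E n} {a : E n} {r R : ℝ} (h : GoodShell f a r R)
    (τ : ℝ) : gk f a r R τ ≤ (Ioo r R).indicator (fun _ => 1 / r) τ := by
  unfold gk
  by_cases hτ : τ ∈ Ioo r R
  · rw [indicator_of_mem hτ, indicator_of_mem hτ]
    have h1 := one_le_kbar hn h.pos h.smooth h.jpos hτ
    have h2 : 0 < τ := h.pos.trans hτ.1
    have hr := h.pos
    apply one_div_le_one_div_of_le hr
    nlinarith [hτ.1]
  · rw [indicator_of_notMem hτ, indicator_of_notMem hτ]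

theorem measurable_gk (hn : 2 ≤ n) {f : E n → E n} {a : E n} {r R : ℝ} (h : GoodShell f a r R) :
    Measurable (gk f a r R) := by
  have h1 : ContinuousOn (fun τ => 1 / (τ * kbar f a τ)) (Ioo r R) := by
    apply ContinuousOn.div continuousOn_const
    · exact continuousOn_id.mul (continuousOn_kbar hn h.pos h.smooth h.jpos)
    · intro τ hτ
      have h1 := one_le_kbar hn h.pos h.smooth h.jpos hτ
      have h2 : 0 < τ := h.pos.trans hτ.1
      positivity
  have h2 := h1.measurable_piecewise (g := fun _ => (0 : ℝ)) continuousOn_const measurableSet_Ioo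
  convert h2 using 1
  ext τ
  by_cases hτ : τ ∈ Ioo r R
  · rw [gk, indicator_of_mem hτ, piecewise_eq_of_mem _ _ _ hτ]
  · rw [gk, indicator_of_notMem hτ, piecewise_eq_of_notMem _ _ _ hτ]

theorem integrable_gk (hn : 2 ≤ n) {f : E n → E n} {a : E n} {r R : ℝ} (h : GoodShell f a r R) :
    Integrable (gk f a r R) := by
  have h1 : Integrable ((Ioo r R).indicator (fun _ => 1 / r)) :=
    (integrable_indicator_iff measurableSet_Ioo).2 (integrableOn_const (by simp))
  apply h1.mono' (measurable_gk hn h).aestronglyMeasurable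
  filter_upwards with τ
  rw [Real.norm_of_nonneg (gk_nonneg hn h τ)]
  exact gk_le hn h τ

theorem continuous_phiK (hn : 2 ≤ n) {f : E n → E n} {a : E n} {r R : ℝ}
    (h : GoodShell f a r R) : Continuous (phiK f a r R) := by
  have h1 := intervalIntegral.continuous_primitive
    (fun a' b' => (integrable_gk hn h).intervalIntegrable (a := a') (b := b')) R
  have h2 : phiK f a r R = fun ρ => -∫ τ in R..ρ, gk f a r R τ := by
    ext ρ
    unfold phiK
    rw [intervalIntegral.integral_symm]
  rw [h2]
  exact h1.neg

theorem gk_zero {f : E n → E n} {a : E n} {r R τ : ℝ} (h : τ ≤ r ∨ R ≤ τ) :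
    gk f a r R τ = 0 := by
  unfold gk
  apply indicator_of_notMem
  rintro ⟨h1, h2⟩
  rcases h with h | h <;> linarith

theorem phiK_of_le (hn : 2 ≤ n) {f : E n → E n} {a : E n} {r R ρ : ℝ}
    (h : GoodShell f a r R) (hρ : ρ ≤ r) : phiK f a r R ρ = phiK f a r R r := by
  unfold phiK
  rw [← intervalIntegral.integral_add_adjacent_intervals (b := r)
    (integrable_gk hn h).intervalIntegrable (integrable_gk hn h).intervalIntegrable]
  have h1 : ∫ τ in ρ..r, gk f a r R τ = 0 := by
    rw [intervalIntegral.integral_of_le hρ]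
    rw [setIntegral_congr_fun (g := fun _ => (0 : ℝ)) measurableSet_Ioc]
    · simp
    · intro τ hτ
      exact gk_zero (Or.inl hτ.2)
  rw [h1, zero_add]

theorem phiK_of_ge {f : E n → E n} {a : E n} {r R ρ : ℝ} (hρ : R ≤ ρ) :
    phiK f a r R ρ = 0 := by
  unfold phiK
  rw [intervalIntegral.integral_symm, intervalIntegral.integral_of_le hρ]
  rw [setIntegral_congr_fun (g := fun _ => (0 : ℝ)) measurableSet_Ioc]
  · simp
  · intro τ hτ
    exact gk_zero (Or.inr hτ.1.le)

theorem phiK_nonneg (hn : 2 ≤ n) {f : E n → E n} {a : E n} {r R : ℝ}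
    (h : GoodShell f a r R) (ρ : ℝ) : 0 ≤ phiK f a r R ρ := by
  rcases le_or_gt R ρ with h1 | h1
  · rw [phiK_of_ge h1]
  · unfold phiK
    rw [intervalIntegral.integral_of_le h1.le]
    exact integral_nonneg (fun τ => gk_nonneg hn h τ)

theorem phiK_le (hn : 2 ≤ n) {f : E n → E n} {a : E n} {r R : ℝ}
    (h : GoodShell f a r R) (ρ : ℝ) : phiK f a r R ρ ≤ phiK f a r R r := by
  rcases le_or_gt ρ r with h1 | h1
  · rw [phiK_of_le hn h h1]
  · have h2 : phiK f a r R r = (∫ τ in r..ρ, gk f a r R τ) + phiK f a r R ρ := by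
      unfold phiK
      rw [intervalIntegral.integral_add_adjacent_intervals
        (integrable_gk hn h).intervalIntegrable (integrable_gk hn h).intervalIntegrable]
    rw [h2, intervalIntegral.integral_of_le h1.le]
    have h3 : 0 ≤ ∫ τ in Ioc r ρ, gk f a r R τ := integral_nonneg (fun τ => gk_nonneg hn h τ)
    linarith

theorem hasDerivAt_phiK (hn : 2 ≤ n) {f : E n → E n} {a : E n} {r R ρ : ℝ}
    (h : GoodShell f a r R) (hρ : ρ ∈ Ioo r R) :
    HasDerivAt (phiK f a r R) (-gk f a r R ρ) ρ := by
  have hcont : ContinuousAt (gk f a r R) ρ := by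
    have h1 : ContinuousAt (fun τ => 1 / (τ * kbar f a τ)) ρ := by
      have h1 := one_le_kbar hn h.pos h.smooth h.jpos hρ
      have h2 : 0 < ρ := h.pos.trans hρ.1
      have h3 := (continuousOn_kbar hn h.pos h.smooth h.jpos).continuousAt
        (Ioo_mem_nhds hρ.1 hρ.2)
      exact continuousAt_const.div (continuousAt_id.mul h3) (by positivity)
    apply h1.congr
    filter_upwards [Ioo_mem_nhds hρ.1 hρ.2] with τ hτ
    unfold gk
    rw [indicator_of_mem hτ]
  exact intervalIntegral.integral_hasDerivAt_left (integrable_gk hn h).intervalIntegrable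
    (measurable_gk hn h).stronglyMeasurable.stronglyMeasurableAtFilter hcont

/-- The integral of the weight. -/
theorem lintegral_weight2 (hn : 2 ≤ n) {f : E n → E n} {a : E n} {r R d θ : ℝ}
    (h : GoodShell f a r R) (hθ : 0 < θ) (hd : r ≤ d) (hdR : d < R) :
    ∫⁻ τ in Ioo d R, ENNReal.ofReal (θ * gk f a r R τ * Real.exp (θ * phiK f a r R τ)) =
      ENNReal.ofReal (Real.exp (θ * phiK f a r R d) - 1) := by
  have hc := continuous_phiK hn h
  have hderiv : ∀ τ ∈ Ioo d R, HasDerivAt (fun τ => -Real.exp (θ * phiK f a r R τ))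
      (θ * gk f a r R τ * Real.exp (θ * phiK f a r R τ)) τ := by
    intro τ hτ
    have h1 := hasDerivAt_phiK hn h (ρ := τ) ⟨hd.trans_lt hτ.1, hτ.2⟩
    have h2 := ((h1.const_mul θ).exp).fun_neg
    refine h2.congr_deriv ?_
    ring
  have hmeas : Measurable (fun τ => θ * gk f a r R τ * Real.exp (θ * phiK f a r R τ)) :=
    ((measurable_gk hn h).const_mul θ).mul ((hc.measurable.const_mul θ).exp)
  have hint : Integrable (fun τ => θ * gk f a r R τ * Real.exp (θ * phiK f a r R τ)) := by
    apply ((integrable_gk hn h).const_mul (θ * Real.exp (θ * phiK f a r R r))).mono'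
      hmeas.aestronglyMeasurable
    filter_upwards with τ
    have h1 := gk_nonneg hn h τ
    rw [Real.norm_of_nonneg (by positivity)]
    have h2 : Real.exp (θ * phiK f a r R τ) ≤ Real.exp (θ * phiK f a r R r) := by
      apply Real.exp_le_exp.2
      exact mul_le_mul_of_nonneg_left (phiK_le hn h τ) hθ.le
    calc θ * gk f a r R τ * Real.exp (θ * phiK f a r R τ)
        ≤ θ * gk f a r R τ * Real.exp (θ * phiK f a r R r) := by gcongr
      _ = _ := by ring
  have hcont : ContinuousOn (fun τ => -Real.exp (θ * phiK f a r R τ)) (Icc d R) := by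
    have : Continuous (fun τ => -Real.exp (θ * phiK f a r R τ)) := by fun_prop
    exact this.continuousOn
  have h3 := intervalIntegral.integral_eq_sub_of_hasDerivAt_of_le hdR.le hcont hderiv
    hint.intervalIntegrable
  rw [phiK_of_ge le_rfl, mul_zero, Real.exp_zero] at h3
  rw [show Real.exp (θ * phiK f a r R d) - 1 = -1 - -Real.exp (θ * phiK f a r R d) by ring,
    ← h3, intervalIntegral.integral_of_le hdR.le, ← integral_Ioc_eq_integral_Ioo.symm,
    ofReal_integral_eq_lintegral_ofReal]
  · exact hint.integrableOn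
  · filter_upwards with τ
    have := gk_nonneg hn h τ
    simp only [Pi.zero_apply]
    positivity

/-- **The weighted inequality for one shell.** -/
theorem shell2 (hn : 2 ≤ n) {f : E n → E n} {a : E n} {r R : ℝ} (h : GoodShell f a r R)
    (hrR : r < R) (hf : Emb f (ball a R))
    (hae : ∀ᵐ x ∂((volume : Measure (E n)).restrict (ball a R)), DifferentiableAt ℝ f x ∧
      0 ≤ jac f x) {θ : ℝ} (hθ : 0 < θ) :
    (n : ℝ≥0∞) * ∫⁻ x in ball a R, ENNReal.ofReal (jac f x) *
        ENNReal.ofReal (Real.exp (θ * phiK f a r R (dist x a)) - 1) ≤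
      ∫⁻ x in sh a r R, ENNReal.ofReal (θ * Real.exp (θ * phiK f a r R (dist x a))) *
        ENNReal.ofReal (jac f x) := by
  have hnt := nontrivial_E hn
  have hr := h.pos
  have hs := h.smooth
  have hJ := h.jpos
  have hR : 0 < R := hr.trans hrR
  have hmJ : Measurable (fun x : E n => ENNReal.ofReal (jac f x)) :=
    (measurable_jac f).ennreal_ofReal
  have hc := continuous_phiK hn h
  set w : ℝ → ℝ≥0∞ := fun τ =>
    ENNReal.ofReal (θ * gk f a r R τ * Real.exp (θ * phiK f a r R τ)) with hw
  have hwm : Measurable w :=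
    (((measurable_gk hn h).const_mul θ).mul ((hc.measurable.const_mul θ).exp)).ennreal_ofReal
  -- the weight as an integral
  have h1 : ∀ x ∈ ball a R, ENNReal.ofReal (Real.exp (θ * phiK f a r R (dist x a)) - 1) =
      ∫⁻ ρ in Ioo r R, (Ioi (dist x a)).indicator w ρ := by
    intro x hx
    rw [mem_ball] at hx
    have e1 : phiK f a r R (dist x a) = phiK f a r R (max r (dist x a)) := by
      rcases le_total (dist x a) r with h2 | h2
      · rw [max_eq_left h2, phiK_of_le hn h h2]
      · rw [max_eq_right h2]
    rw [e1, ← lintegral_weight2 hn h hθ (le_max_left _ _) (max_lt hrR hx),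
      lintegral_indicator measurableSet_Ioi, Measure.restrict_restrict measurableSet_Ioi]
    congr 2
    ext ρ
    simp only [mem_Ioo, mem_inter_iff, mem_Ioi, max_lt_iff]
    tauto
  -- the inequality on spheres
  have h2 : ∀ ρ ∈ Ioo r R, (n : ℝ≥0∞) * ∫⁻ x in closedBall a ρ, ENNReal.ofReal (jac f x) ≤
      ENNReal.ofReal (ρ * kbar f a ρ) * ∫⁻ ω : sphere (0 : E n) 1,
        ENNReal.ofReal (ρ ^ (n - 1)) * ENNReal.ofReal (jac f (a + ρ • (ω : E n)))
          ∂(volume : Measure (E n)).toSphere := by
    intro ρ hρ
    have hmem : ∀ x, ρ ≤ dist x a → dist x a ≤ (ρ + R) / 2 → x ∈ sh a r R := by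
      intro x h3 h4
      exact ⟨hρ.1.trans_le h3, by linarith [hρ.2]⟩
    apply v2 hn (hr.trans hρ.1) (s := (ρ + R) / 2) (R := R) (by linarith [hρ.2])
      (by linarith [hρ.2]) hf hae
    · intro x h3 h4
      have h5 := hmem x h3 h4
      exact ⟨(hs.contDiffAt ((isOpen_sh a r R).mem_nhds h5)).differentiableAt (by norm_num),
        hJ x h5⟩
    · exact (hs.continuousOn_fderiv_of_isOpen (isOpen_sh a r R) le_rfl).mono
        (fun x hx => hmem x hx.1 hx.2)
  calc (n : ℝ≥0∞) * ∫⁻ x in ball a R, ENNReal.ofReal (jac f x) *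
        ENNReal.ofReal (Real.exp (θ * phiK f a r R (dist x a)) - 1)
      = (n : ℝ≥0∞) * ∫⁻ x in ball a R, ∫⁻ ρ in Ioo r R, ENNReal.ofReal (jac f x) *
          (Ioi (dist x a)).indicator w ρ := by
        congr 1
        apply setLIntegral_congr_fun measurableSet_ball
        intro x hx
        simp only
        rw [h1 x hx, lintegral_const_mul]
        exact hwm.indicator measurableSet_Ioi
    _ = (n : ℝ≥0∞) * ∫⁻ ρ in Ioo r R, ∫⁻ x in ball a R, ENNReal.ofReal (jac f x) *
          (Ioi (dist x a)).indicator w ρ := by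
        congr 1
        apply lintegral_lintegral_swap
        apply Measurable.aemeasurable
        have h3 : Measurable (fun p : E n × ℝ => (Ioi (dist p.1 a)).indicator w p.2) := by
          have h4 : MeasurableSet {p : E n × ℝ | dist p.1 a < p.2} :=
            measurableSet_lt (by fun_prop) measurable_snd
          have h5 : (fun p : E n × ℝ => (Ioi (dist p.1 a)).indicator w p.2) =
              {p : E n × ℝ | dist p.1 a < p.2}.indicator (fun p => w p.2) := by
            ext p
            simp only [indicator, mem_Ioi, mem_ofPred_eq]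
          rw [h5]
          exact (hwm.comp measurable_snd).indicator h4
        exact (hmJ.comp measurable_fst).mul h3
    _ = ∫⁻ ρ in Ioo r R, w ρ * ((n : ℝ≥0∞) * ∫⁻ x in ball a ρ, ENNReal.ofReal (jac f x)) := by
        rw [← lintegral_const_mul' _ _ (ENNReal.natCast_ne_top n)]
        apply setLIntegral_congr_fun measurableSet_Ioo
        intro ρ hρ
        simp only
        have h6 : ∀ x, ENNReal.ofReal (jac f x) * (Ioi (dist x a)).indicator w ρ =
            w ρ * (ball a ρ).indicator (fun x => ENNReal.ofReal (jac f x)) x := by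
          intro x
          by_cases h7 : dist x a < ρ
          · rw [indicator_of_mem (show ρ ∈ Ioi (dist x a) from h7),
              indicator_of_mem (show x ∈ ball a ρ from h7), mul_comm]
          · rw [indicator_of_notMem (show ρ ∉ Ioi (dist x a) from h7),
              indicator_of_notMem (show x ∉ ball a ρ from h7), mul_zero, mul_zero]
        simp_rw [h6]
        rw [lintegral_const_mul _ (hmJ.indicator measurableSet_ball),
          lintegral_indicator measurableSet_ball, Measure.restrict_restrict measurableSet_ball,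
          inter_eq_left.2 (ball_subset_ball hρ.2.le)]
        ring
    _ ≤ ∫⁻ ρ in Ioo r R, ∫⁻ ω : sphere (0 : E n) 1, ENNReal.ofReal (ρ ^ (n - 1)) *
          (ENNReal.ofReal (θ * Real.exp (θ * phiK f a r R (dist (a + ρ • (ω : E n)) a))) *
            ENNReal.ofReal (jac f (a + ρ • (ω : E n))))
            ∂(volume : Measure (E n)).toSphere := by
        apply setLIntegral_mono' measurableSet_Ioo
        intro ρ hρ
        have hρ0 : 0 < ρ := hr.trans hρ.1
        have hk1 := one_le_kbar hn hr hs hJ hρ
        have h10 : w ρ * ENNReal.ofReal (ρ * kbar f a ρ) =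
            ENNReal.ofReal (θ * Real.exp (θ * phiK f a r R ρ)) := by
          rw [hw]
          simp only
          have hg : gk f a r R ρ = 1 / (ρ * kbar f a ρ) := by
            unfold gk; rw [indicator_of_mem hρ]
          rw [← ENNReal.ofReal_mul (by
            have := gk_nonneg hn h ρ
            positivity), hg]
          congr 1
          have : kbar f a ρ ≠ 0 := by linarith
          field_simp
        calc w ρ * ((n : ℝ≥0∞) * ∫⁻ x in ball a ρ, ENNReal.ofReal (jac f x))
            ≤ w ρ * ((n : ℝ≥0∞) * ∫⁻ x in closedBall a ρ, ENNReal.ofReal (jac f x)) := by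
              have h11 : ∫⁻ x in ball a ρ, ENNReal.ofReal (jac f x) ≤
                  ∫⁻ x in closedBall a ρ, ENNReal.ofReal (jac f x) :=
                lintegral_mono_set ball_subset_closedBall
              exact mul_le_mul_right (mul_le_mul_right h11 _) _
          _ ≤ w ρ * (ENNReal.ofReal (ρ * kbar f a ρ) * ∫⁻ ω : sphere (0 : E n) 1,
                ENNReal.ofReal (ρ ^ (n - 1)) * ENNReal.ofReal (jac f (a + ρ • (ω : E n)))
                  ∂(volume : Measure (E n)).toSphere) := by
              exact mul_le_mul_right (h2 ρ hρ) _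
          _ = ENNReal.ofReal (θ * Real.exp (θ * phiK f a r R ρ)) *
                ∫⁻ ω : sphere (0 : E n) 1, ENNReal.ofReal (ρ ^ (n - 1)) *
                ENNReal.ofReal (jac f (a + ρ • (ω : E n)))
                  ∂(volume : Measure (E n)).toSphere := by
              rw [← mul_assoc, h10]
          _ = ∫⁻ ω : sphere (0 : E n) 1, ENNReal.ofReal (θ * Real.exp (θ * phiK f a r R ρ)) *
                (ENNReal.ofReal (ρ ^ (n - 1)) *
                ENNReal.ofReal (jac f (a + ρ • (ω : E n))))
                  ∂(volume : Measure (E n)).toSphere :=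
              (lintegral_const_mul' _ _ ENNReal.ofReal_ne_top).symm
          _ ≤ _ := by
              apply le_of_eq
              apply lintegral_congr
              intro ω
              rw [dist_sphere a ω hρ0.le]
              ring
    _ = _ := by
        apply polar_shell (G := fun x => ENNReal.ofReal (θ * Real.exp (θ *
          phiK f a r R (dist x a))) * ENNReal.ofReal (jac f x)) _ hr
        have h12 : Measurable (fun x : E n => phiK f a r R (dist x a)) :=
          hc.measurable.comp (by fun_prop)
        exact (((h12.const_mul θ).exp).const_mul θ).ennreal_ofReal.mul hmJ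

end Pool.Agent.TreeS
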