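import Pool.Agent.TreeS.Asd7
import Pool.Agent.TreeS.OffEx

/-!
# Maps smooth off a set of Assouad dimension zero
-/

set_option autoImplicit false

open MeasureTheory Set Metric Filter Topology
open scoped ENNReal

namespace Pool.Agent.TreeS

open Pool.Agent.RayM

variable {n : ℕ}

/-- `f` is continuous on `Ω` and a local diffeomorphism off the relatively closed set `S`; near
every point of `Ω ∩ S` the set `S` has Assouad dimension zero, `f` is a homeomorphism onto an open
set, and either its distortion grows at most logarithmically or its Jacobian grows at most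
polynomially in the distance to `S` (the latter up to a factor `exp (ε K_f)`, for every
`ε > 0`). -/
structure SmoothOff (S Ω : Set (E n)) (f : E n → E n) : Prop where
  isOpen_off : IsOpen (Ω \ S)
  cont : ContinuousOn f Ω
  smooth : ContDiffOn ℝ 1 f (Ω \ S)
  jac_pos : ∀ x ∈ Ω \ S, 0 < jac f x
  near : ∀ x ∈ Ω ∩ S, AssouadZeroAt S x ∧ ∃ U : Set (E n), IsOpen U ∧ x ∈ U ∧ Emb f U ∧
    ((∃ M : ℝ, ∀ y ∈ U \ S, distortion f y ≤ M * (1 + Real.log (max 1 (1 / infDist y S)))) ∨
      ∀ ε : ℝ, 0 < ε → ∃ M : ℝ, ∀ y ∈ U \ S,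
        jac f y ≤ M * infDist y S ^ (-M) * Real.exp (ε * distortion f y))

theorem SmoothOff.null (hn : 2 ≤ n) {S Ω : Set (E n)} {f : E n → E n} (hf : SmoothOff S Ω f) :
    volume (S ∩ Ω) = 0 := by
  apply measure_null_of_locally_null
  intro x hx
  obtain ⟨ρ, hρ, h0⟩ := null_of_assouad hn hx.1 (hf.near x ⟨hx.2, hx.1⟩).1
  refine ⟨S ∩ Ω ∩ ball x ρ, inter_mem_nhdsWithin _ (ball_mem_nhds x hρ), ?_⟩
  exact measure_mono_null (inter_subset_inter_left _ inter_subset_left) h0

/-- The estimate near a point of `S`. -/
theorem SmoothOff.jlog (hn : 2 ≤ n) {S Ω : Set (E n)} {f : E n → E n} (hf : SmoothOff S Ω f)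
    (hΩ : IsOpen Ω) {x₁ : E n} (hx : x₁ ∈ Ω ∩ S) {α β : ℝ} (hα : 0 < α) (hαβ : α < β)
    (hexp : LocallyIntegrableOn (fun x => Real.exp (β * distortion f x)) Ω) :
    ∃ V : Set (E n), IsOpen V ∧ x₁ ∈ V ∧ V ⊆ Ω ∧
      IntegrableOn (fun x => Real.exp (β * distortion f x)) V ∧
      IntegrableOn (fun x => jac f x * Real.log (Real.exp 1 + jac f x) ^ α) V := by
  obtain ⟨hS, U₀, hU₀, hxU₀, hemb₀, hgrowth⟩ := hf.near x₁ hx
  obtain ⟨δ, hδ, hδΩ⟩ := (nhds_basis_closedBall.mem_iff).1 (hΩ.mem_nhds hx.1)
  set U := U₀ ∩ ball x₁ δ with hU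
  have hUo : IsOpen U := hU₀.inter isOpen_ball
  have hxU : x₁ ∈ U := ⟨hxU₀, mem_ball_self hδ⟩
  have hclU : closure U ⊆ closedBall x₁ δ :=
    (closure_mono inter_subset_right).trans closure_ball_subset_closedBall
  have hcU : IsCompact (closure U) :=
    (isCompact_closedBall x₁ δ).of_isClosed_subset isClosed_closure hclU
  have hUΩ : closure U ⊆ Ω := hclU.trans hδΩ
  have hUΩ' : U ⊆ Ω := subset_closure.trans hUΩ
  have hemb : Emb f U := hemb₀.mono inter_subset_left
  have hUS : IsOpen (U \ S) := by
    have : U \ S = U ∩ (Ω \ S) := by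
      ext z
      exact ⟨fun h => ⟨h.1, hUΩ' h.1, h.2⟩, fun h => ⟨h.1, h.2.2⟩⟩
    rw [this]
    exact hUo.inter hf.isOpen_off
  have hsub : U \ S ⊆ Ω \ S := fun z hz => ⟨hUΩ' hz.1, hz.2⟩
  have hsm : ContDiffOn ℝ 1 f (U \ S) := hf.smooth.mono hsub
  have hJ : ∀ x ∈ U \ S, 0 < jac f x := fun x hx => hf.jac_pos x (hsub hx)
  have hnull : volume (S ∩ U) = 0 :=
    measure_mono_null (inter_subset_inter_right _ hUΩ') (hf.null hn)
  have hSnull : ∀ᵐ x ∂((volume : Measure (E n)).restrict U), x ∉ S := by
    rw [ae_restrict_iff' hUo.measurableSet, ae_iff]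
    refine measure_mono_null ?_ hnull
    intro x hx
    simp only [mem_ofPred_eq, not_forall, not_not] at hx
    obtain ⟨h1, h2⟩ := hx
    exact ⟨h2, h1⟩
  have hae : ∀ᵐ x ∂((volume : Measure (E n)).restrict U), DifferentiableAt ℝ f x ∧
      0 ≤ jac f x := by
    filter_upwards [hSnull, ae_restrict_mem hUo.measurableSet] with x h1 h2
    have h3 : x ∈ U \ S := ⟨h2, h1⟩
    exact ⟨(hsm.contDiffAt (hUS.mem_nhds h3)).differentiableAt (by norm_num), (hJ x h3).le⟩
  have hfin := lintegral_jac_lt_top hUo hcU (hf.cont.mono hUΩ) hemb hae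
  have hexpU : IntegrableOn (fun x => Real.exp (β * distortion f x)) U :=
    (hexp.integrableOn_compact_subset hUΩ hcU).mono_set subset_closure
  have hexp' : ∫⁻ x in U, ENNReal.ofReal (Real.exp (β * distortion f x)) < ⊤ := by
    have h1 := hexpU.2
    rwa [hasFiniteIntegral_iff_ofReal (Filter.Eventually.of_forall (fun x => by
      simp only [Pi.zero_apply]; positivity))] at h1
  obtain ⟨ρ, hρ, hρU, hell⟩ := ell_integrable hn hx.2 hS hUo hxU hUS hemb hsm hJ hnull hα hαβ
    hfin.ne hexp'.ne
  have hsub' : ball x₁ ρ \ S ⊆ U \ S := fun z hz => ⟨hρU hz.1, hz.2⟩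
  have hdpos : ∀ x ∈ U \ S, 0 < infDist x S := by
    intro x hx'
    have h2 : x ∉ closure S := by
      intro hcl
      obtain ⟨y, hy1, hy2⟩ := mem_closure_iff_nhds.1 hcl _ (hUS.mem_nhds hx')
      exact hy1.2 hy2
    have hSne : S.Nonempty := ⟨x₁, hx.2⟩
    have h3 : 0 < infDist x (closure S) :=
      (isClosed_closure.notMem_iff_infDist_pos hSne.closure).1 h2
    rwa [infDist_closure] at h3
  rcases hgrowth with ⟨M, hM⟩ | hg
  · -- distortion of logarithmic growth
    have hw := whitney hn (U := ball x₁ ρ) (hemb.mono hρU) (hsm.mono hsub')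
      (fun x hx => hJ x (hsub' hx)) (M := |M|) (abs_nonneg M) (fun x hx => by
        have h1 := hM x ⟨(hρU hx.1).1, hx.2⟩
        have h2 := one_le_ell (infDist x S)
        have h3 := le_abs_self M
        unfold ell at h2 ⊢
        nlinarith) (ne_top_of_le_ne_top hfin.ne (lintegral_mono_set hρU)) hα hx.2
      (Subset.refl _) hell
    have hV : ball x₁ (ρ / 4) ⊆ U := (ball_subset_ball (by linarith)).trans hρU
    refine ⟨ball x₁ (ρ / 4), isOpen_ball, mem_ball_self (by linarith), hV.trans hUΩ',
      hexpU.mono_set hV, (measurable_jlog f α).aestronglyMeasurable, ?_⟩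
    have hpos : ∀ᵐ x ∂((volume : Measure (E n)).restrict (ball x₁ (ρ / 4))), 0 ≤ jac f x :=
      (ae_restrict_of_ae_restrict_of_subset hV hae).mono (fun x hx => hx.2)
    rw [hasFiniteIntegral_iff_ofReal]
    · have heq : ∫⁻ x in ball x₁ (ρ / 4),
          ENNReal.ofReal (jac f x * Real.log (Real.exp 1 + jac f x) ^ α) =
          ∫⁻ x in ball x₁ (ρ / 4) ∩ {x | 0 < infDist x S},
          ENNReal.ofReal (jac f x * Real.log (Real.exp 1 + jac f x) ^ α) := by
        apply setLIntegral_congr
        have h1 := ae_restrict_of_ae_restrict_of_subset hV hSnull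
        rw [ae_restrict_iff' measurableSet_ball] at h1
        filter_upwards [h1] with x hx
        apply propext
        constructor
        · intro h; exact ⟨h, hdpos x ⟨hV h, hx h⟩⟩
        · intro h; exact h.1
      rw [heq]
      exact lt_top_iff_ne_top.2 hw
    · filter_upwards [hpos] with x hx
      have h8 := one_le_log_exp_add hx
      simp only [Pi.zero_apply]
      positivity
  · -- Jacobian of polynomial growth
    have hβ : 0 < β := hα.trans hαβ
    obtain ⟨M, hM⟩ := hg (β / 2) (by positivity)
    refine ⟨ball x₁ ρ, isOpen_ball, mem_ball_self hρ, hρU.trans hUΩ', hexpU.mono_set hρU,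
      (measurable_jlog f α).aestronglyMeasurable, ?_⟩
    have hpos : ∀ᵐ x ∂((volume : Measure (E n)).restrict (ball x₁ ρ)), 0 ≤ jac f x :=
      (ae_restrict_of_ae_restrict_of_subset hρU hae).mono (fun x hx => hx.2)
    have hnS := ae_restrict_of_ae_restrict_of_subset hρU hSnull
    obtain ⟨C, hC0, hC⟩ := jlog_le' (α := α) (β := β) (ε := β / 2) (A := |M| + 1) (M := |M|) hα
      (by positivity) (by linarith) (by positivity) (abs_nonneg M)
    rw [hasFiniteIntegral_iff_ofReal]
    · have hle : ∫⁻ x in ball x₁ ρ,
          ENNReal.ofReal (jac f x * Real.log (Real.exp 1 + jac f x) ^ α) ≤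
          ∫⁻ x in ball x₁ ρ, (ENNReal.ofReal C * (ENNReal.ofReal (jac f x) *
            ENNReal.ofReal (ell (infDist x S) ^ α)) +
            ENNReal.ofReal C * ENNReal.ofReal (Real.exp (β * distortion f x))) := by
        apply setLIntegral_mono_ae' measurableSet_ball
        rw [ae_restrict_iff' measurableSet_ball] at hpos hnS
        filter_upwards [hpos, hnS] with x h3 h4 hx'
        have hJ0 := h3 hx'
        have hxS : x ∈ U \ S := hsub' ⟨hx', h4 hx'⟩
        have hd := hdpos x hxS
        have h5 := hM x ⟨hxS.1.1, hxS.2⟩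
        have hell1 := one_le_ell (infDist x S)
        have hlog : Real.log (1 / infDist x S) ≤ ell (infDist x S) - 1 := by
          unfold ell
          rw [add_sub_cancel_left]
          exact Real.log_le_log (by positivity) (le_max_right _ _)
        have hlog0 : 0 ≤ ell (infDist x S) - 1 := by linarith
        have hpw : infDist x S ^ (-M) ≤ Real.exp ((|M| + 1) * (ell (infDist x S) - 1)) ∨
            M ≤ 0 := by
          rcases le_or_gt M 0 with hM0 | hM0
          · exact Or.inr hM0
          · left
            rw [Real.rpow_def_of_pos hd]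
            apply Real.exp_le_exp.2
            rw [abs_of_pos hM0]
            rw [one_div, Real.log_inv] at hlog
            nlinarith
        have h6 := hC (ell (infDist x S)) (jac f x) (distortion f x) hell1 hJ0
          (one_le_distortion f x) (by
            rw [Real.exp_add]
            rcases hpw with h7 | h7
            · calc jac f x ≤ M * infDist x S ^ (-M) * Real.exp (β / 2 * distortion f x) := h5
                _ ≤ |M| * Real.exp ((|M| + 1) * (ell (infDist x S) - 1)) *
                    Real.exp (β / 2 * distortion f x) := by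
                    gcongr
                    exact le_abs_self M
                _ = _ := by ring
            · refine h5.trans ?_
              have h8 : M * infDist x S ^ (-M) * Real.exp (β / 2 * distortion f x) ≤ 0 := by
                apply mul_nonpos_of_nonpos_of_nonneg _ (Real.exp_pos _).le
                exact mul_nonpos_of_nonpos_of_nonneg h7 (by positivity)
              exact h8.trans (by positivity))
        refine (ENNReal.ofReal_le_ofReal h6).trans ?_
        rw [mul_add, ENNReal.ofReal_add (by positivity) (by positivity), ENNReal.ofReal_mul hC0,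
          ENNReal.ofReal_mul hC0, ENNReal.ofReal_mul hJ0]
      refine lt_of_le_of_lt hle ?_
      have hm2 : Measurable (fun x : E n => ENNReal.ofReal C *
          ENNReal.ofReal (Real.exp (β * distortion f x))) :=
        ((((measurable_distortion f).const_mul β).exp).ennreal_ofReal).const_mul _
      rw [lintegral_add_right _ hm2, lintegral_const_mul' _ _ ENNReal.ofReal_ne_top,
        lintegral_const_mul' _ _ ENNReal.ofReal_ne_top]
      exact ENNReal.add_lt_top.2 ⟨ENNReal.mul_lt_top ENNReal.ofReal_lt_top
        (lt_top_iff_ne_top.2 hell), ENNReal.mul_lt_top ENNReal.ofReal_lt_top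
        (lt_of_le_of_lt (lintegral_mono_set hρU) hexp')⟩
    · filter_upwards [hpos] with x hx
      have h8 := one_le_log_exp_add hx
      simp only [Pi.zero_apply]
      positivity

/-- **Higher integrability below the threshold for maps smooth off a set of Assouad dimension
zero.** -/
theorem regular_smoothOff (hn : 2 ≤ n) {S Ω : Set (E n)} (hΩ : IsOpen Ω)
    {f : E n → E n} (hf : SmoothOff S Ω f) {α β : ℝ} (hβ : 0 < β) (hαβ : α < β)
    (hexp : LocallyIntegrableOn (fun x => Real.exp (β * distortion f x)) Ω) :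
    Regular α Ω f := by
  set α' := max α (β / 2) with hα'
  have h1 : 0 < α' := lt_max_of_lt_right (by positivity)
  have h2 : α' < β := max_lt hαβ (by linarith)
  have h3 : α ≤ α' := le_max_left _ _
  have key : ∀ x ∈ Ω, ∃ V ∈ nhds x,
      IntegrableOn (fun x => jac f x * Real.log (Real.exp 1 + jac f x) ^ α) V ∧
      IntegrableOn (fun x => ‖fderiv ℝ f x‖ ^ n *
        Real.log (Real.exp 1 + ‖fderiv ℝ f x‖) ^ (α - 1)) V := by
    intro x hx
    by_cases hxS : x ∈ S
    · obtain ⟨U, hU, hxU, hUΩ', hexpU, hj⟩ := hf.jlog hn hΩ ⟨hx, hxS⟩ h1 h2 hexp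
      have hSnull : ∀ᵐ x ∂((volume : Measure (E n)).restrict U), x ∉ S := by
        rw [ae_restrict_iff' hU.measurableSet, ae_iff]
        refine measure_mono_null ?_ (hf.null hn)
        intro x hx
        simp only [mem_ofPred_eq, not_forall, not_not] at hx
        obtain ⟨h1, h2⟩ := hx
        exact ⟨h2, hUΩ' h1⟩
      have hpos : ∀ᵐ y ∂((volume : Measure (E n)).restrict U), 0 < jac f y := by
        filter_upwards [hSnull, ae_restrict_mem hU.measurableSet] with y hy1 hy2
        exact hf.jac_pos y ⟨hUΩ' hy2, hy1⟩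
      refine ⟨U, hU.mem_nhds hxU, ?_, ?_⟩
      · refine Integrable.mono' hj (measurable_jlog f α).aestronglyMeasurable ?_
        filter_upwards [hpos] with y hy
        have h6 := one_le_log_exp_add hy.le
        rw [Real.norm_of_nonneg (by positivity)]
        exact mul_le_mul_of_nonneg_left (Real.rpow_le_rpow_of_exponent_le h6 h3) hy.le
      · obtain ⟨C, hC0, hC⟩ := dlog_le (n := n) (by omega) α' hβ
        refine Integrable.mono' ((hj.add hexpU).const_mul C)
          (measurable_dlog f α).aestronglyMeasurable ?_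
        filter_upwards [hpos] with y hy
        have h8 := one_le_log_exp_add (norm_nonneg (fderiv ℝ f y))
        rw [Real.norm_of_nonneg (by positivity)]
        have h9 := hC _ _ _ (norm_nonneg _) hy.le (one_le_distortion f y)
          (norm_eq hn hy.le (fun h => absurd h hy.ne'))
        refine le_trans ?_ h9
        exact mul_le_mul_of_nonneg_left (Real.rpow_le_rpow_of_exponent_le h8 (by linarith))
          (by positivity)
    · obtain ⟨δ, hδ, hδΩ⟩ := (nhds_basis_closedBall.mem_iff).1
        (hf.isOpen_off.mem_nhds ⟨hx, hxS⟩)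
      refine ⟨closedBall x δ, closedBall_mem_nhds x hδ, ?_, ?_⟩
      · have hc1 : ContinuousOn (fderiv ℝ f) (closedBall x δ) :=
          (hf.smooth.continuousOn_fderiv_of_isOpen hf.isOpen_off le_rfl).mono hδΩ
        have hcj : ContinuousOn (jac f) (closedBall x δ) :=
          ContinuousLinearMap.continuous_det.comp_continuousOn hc1
        apply ContinuousOn.integrableOn_compact (isCompact_closedBall _ _)
        apply hcj.mul
        apply ContinuousOn.rpow_const
        · apply (continuousOn_const.add hcj).log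
          intro y hy
          exact (add_pos (Real.exp_pos 1) (hf.jac_pos y (hδΩ hy))).ne'
        · intro y hy
          left
          have := one_le_log_exp_add (hf.jac_pos y (hδΩ hy)).le
          linarith
      · have hc1 : ContinuousOn (fderiv ℝ f) (closedBall x δ) :=
          (hf.smooth.continuousOn_fderiv_of_isOpen hf.isOpen_off le_rfl).mono hδΩ
        apply ContinuousOn.integrableOn_compact (isCompact_closedBall _ _)
        apply (hc1.norm.pow n).mul
        apply ContinuousOn.rpow_const
        · apply (continuousOn_const.add hc1.norm).log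
          intro y _
          exact (add_pos_of_pos_of_nonneg (Real.exp_pos 1) (norm_nonneg _)).ne'
        · intro y _
          left
          have := one_le_log_exp_add (norm_nonneg (fderiv ℝ f y))
          linarith
  constructor
  · intro x hx
    obtain ⟨V, hV, h4, _⟩ := key x hx
    exact ⟨V, mem_nhdsWithin_of_mem_nhds hV, h4⟩
  · intro x hx
    obtain ⟨V, hV, _, h4⟩ := key x hx
    exact ⟨V, mem_nhdsWithin_of_mem_nhds hV, h4⟩

/-- A one-point set has Assouad dimension zero. -/
theorem assouadZeroAt_singleton (a : E n) : AssouadZeroAt {a} a := by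
  refine ⟨1, one_pos, fun θ hθ => ⟨1, ?_⟩⟩
  rintro s ⟨hs, _⟩ r R hr hrR _
  rw [mem_singleton_iff] at hs
  subst hs
  refine ⟨{s}, ?_, ?_⟩
  · rw [Finset.card_singleton, Nat.cast_one, one_mul]
    exact Real.one_le_rpow (by rw [le_div_iff₀ hr, one_mul]; exact hrR) hθ.le
  · rintro y ⟨hy, _⟩
    rw [mem_singleton_iff] at hy
    subst hy
    rw [mem_iUnion₂]
    exact ⟨y, Finset.mem_singleton_self y, mem_closedBall_self hr.le⟩

theorem smoothOff_radF (hn : 2 ≤ n) {β : ℝ} (hβ : 0 < β) :
    SmoothOff {0} (ball (0 : E n) (Real.exp (-(4 + 2 * β)))) (radF n β) where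
  isOpen_off := isOpen_ball.sdiff isClosed_singleton
  cont := continuousOn_exG hn (angular_id hn) hβ
  smooth := by
    rintro z ⟨hz, hz0⟩
    exact (contDiffAt_radF hβ hz0 (mem_ball_zero_iff.1 hz)).contDiffWithinAt
  jac_pos := by
    rintro z ⟨hz, hz0⟩
    exact jac_radF_pos hn hβ hz0 (mem_ball_zero_iff.1 hz)
  near := by
    rintro x ⟨_, hx0⟩
    rw [mem_singleton_iff] at hx0
    subst hx0
    refine ⟨assouadZeroAt_singleton 0, _, isOpen_ball, mem_ball_self (Real.exp_pos _),
      emb_radF hn hβ, Or.inl ⟨n / β, ?_⟩⟩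
    rintro z ⟨hz, hz0⟩
    have hz0' : z ≠ 0 := hz0
    have hzR := mem_ball_zero_iff.1 hz
    have hr : 0 < ‖z‖ := norm_pos_iff.2 hz0'
    obtain ⟨_, hs, _⟩ := t_facts hβ hr hzR
    have hle : distortion (radF n β) z ≤ 1 * kk n β ‖z‖ := by
      refine distortion_exG_le hn one_pos (angular_id hn) hβ hz0' hzR ?_ ?_
      · exact differentiableAt_id
      · have h1 : fderiv ℝ (fun x : E n => x) z = ContinuousLinearMap.id ℝ (E n) := fderiv_fun_id
        have h2 : jac (fun x : E n => x) z = 1 := by
          unfold jac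
          rw [h1]
          unfold ContinuousLinearMap.det
          simp
        rw [h2, h1, mul_one]
        exact pow_le_one₀ (norm_nonneg _) ContinuousLinearMap.norm_id_le
    rw [infDist_singleton, dist_zero_right]
    refine hle.trans ?_
    unfold kk
    rw [one_mul]
    have hβn : 0 ≤ (n : ℝ) / β := by positivity
    apply mul_le_mul_of_nonneg_left _ hβn
    have h4 : -Real.log ‖z‖ ≤ Real.log (max 1 (1 / ‖z‖)) := by
      rw [← Real.log_inv, ← one_div]
      exact Real.log_le_log (by positivity) (le_max_right _ _)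
    linarith

end Pool.Agent.TreeS
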