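import Pool.Agent.TreeS.Tree
import Pool.Agent.TreeS.Real2
import Pool.Agent.RayM.Upper

/-!
# Higher integrability for shelled maps
-/

set_option autoImplicit false

open MeasureTheory Set Metric Filter Topology
open scoped ENNReal

namespace Pool.Agent.TreeS

open Pool.Agent.RayM

variable {n : ℕ}

/-- The family of shells `(a, r, R)` in `U` controls `f` up to `ε`: it is nested, `f` is
continuously differentiable with positive Jacobian on each open shell, and the Jacobian is at most
`M exp ((lam n + ε) T + ε K_f)` almost everywhere in `U`, where `T` is the depth of the point in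
(finitely many of) the shells. -/
structure ShellBound (lam ε M : ℝ) (f : E n → E n) (U : Set (E n)) (a : ℕ → E n)
    (r R : ℕ → ℝ) : Prop extends Nested U a r R where
  smooth : ∀ i, ContDiffOn ℝ 1 f (sh (a i) (r i) (R i))
  jac_pos : ∀ i, ∀ x ∈ sh (a i) (r i) (R i), 0 < jac f x
  growth : ∀ᵐ x ∂((volume : Measure (E n)).restrict U), ∃ N : ℕ,
    jac f x ≤ M * Real.exp ((lam * n + ε) * depth a r R N x + ε * distortion f x)

/-- The class of maps on `Ω`. -/
structure LocallyShelled (lam : ℝ) (Ω : Set (E n)) (f : E n → E n) : Prop where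
  cont : ContinuousOn f Ω
  diff : ∀ᵐ x ∂((volume : Measure (E n)).restrict Ω), DifferentiableAt ℝ f x ∧ 0 ≤ jac f x ∧
    (jac f x = 0 → fderiv ℝ f x = 0)
  near : ∀ x ∈ Ω, ∃ U : Set (E n), IsOpen U ∧ x ∈ U ∧ IsCompact (closure U) ∧ closure U ⊆ Ω ∧
    Emb f U ∧ ∀ ε : ℝ, 0 < ε → ∃ (M : ℝ) (a : ℕ → E n) (r R : ℕ → ℝ),
      ShellBound lam ε M f U a r R

theorem one_le_distortion (f : E n → E n) (x : E n) : 1 ≤ distortion f x := by
  unfold distortion
  by_cases hJ : 0 < jac f x
  · rw [if_pos hJ, le_div_iff₀ hJ, one_mul]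
    exact (le_abs_self _).trans (abs_det_le _)
  · rw [if_neg hJ]

theorem norm_eq (hn : 2 ≤ n) {f : E n → E n} {x : E n} (h6 : 0 ≤ jac f x)
    (h7 : jac f x = 0 → fderiv ℝ f x = 0) :
    ‖fderiv ℝ f x‖ ^ n = distortion f x * jac f x := by
  unfold distortion
  by_cases hJ : 0 < jac f x
  · rw [if_pos hJ]; field_simp
  · have hJ0 : jac f x = 0 := le_antisymm (not_lt.1 hJ) h6
    rw [if_neg hJ, h7 hJ0, hJ0]
    simp
    omega

/-- The integral of the Jacobian is finite. -/
theorem lintegral_jac_lt_top {f : E n → E n} {U : Set (E n)} (hU : IsOpen U)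
    (hc : IsCompact (closure U)) (hcf : ContinuousOn f (closure U)) (hf : Emb f U)
    (hae : ∀ᵐ x ∂((volume : Measure (E n)).restrict U), DifferentiableAt ℝ f x ∧ 0 ≤ jac f x) :
    ∫⁻ x in U, ENNReal.ofReal (jac f x) < ⊤ := by
  set D : Set (E n) := U ∩ ({x | DifferentiableAt ℝ f x} ∩ {x | 0 ≤ jac f x}) with hD
  have hDm : MeasurableSet D := hU.measurableSet.inter
    ((measurableSet_of_differentiableAt ℝ f).inter
      (measurableSet_le measurable_const (measurable_jac f)))
  have h1 : ∫⁻ x in U, ENNReal.ofReal (jac f x) = ∫⁻ x in D, ENNReal.ofReal (jac f x) := by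
    apply setLIntegral_congr
    rw [ae_restrict_iff' hU.measurableSet] at hae
    filter_upwards [hae] with x hx
    apply propext
    constructor
    · intro h; exact ⟨h, hx h⟩
    · intro h; exact h.1
  rw [h1, ← vol_image_eq hf inter_subset_left hDm (fun x hx => hx.2)]
  refine lt_of_le_of_lt (measure_mono ?_) (hc.image_of_continuousOn hcf).measure_lt_top
  exact image_mono (inter_subset_left.trans subset_closure)

/-- The uniform bound for the weighted integrals. -/
theorem weighted_bound (hn : 2 ≤ n) {f : E n → E n} {U : Set (E n)} (hU : IsOpen U)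
    (hf : Emb f U)
    (hae : ∀ᵐ x ∂((volume : Measure (E n)).restrict U), DifferentiableAt ℝ f x ∧ 0 ≤ jac f x ∧
      (jac f x = 0 → fderiv ℝ f x = 0))
    {lam ε M₀ : ℝ} {a : ℕ → E n} {r R : ℕ → ℝ} (h : ShellBound lam ε M₀ f U a r R)
    {α β s C : ℝ} (hα : 0 < α) (hlam : 0 < lam) (hε : 0 < ε) (hs0 : 0 < s) (hs1 : s < 1)
    (hC0 : 0 ≤ C)
    (hC : ∀ t J K : ℝ, 1 ≤ t → 0 ≤ J → 1 ≤ K →
        J ≤ max M₀ 0 * Real.exp ((lam * n + ε) * (t - 1) + ε * K) →
        α * t ^ (α - 1) * (K * J) ≤ s * n * (J * t ^ α) + C * Real.exp (β * K))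
    (hfin : ∫⁻ x in U, ENNReal.ofReal (jac f x) ≠ ⊤)
    (hexp : ∫⁻ x in U, ENNReal.ofReal (Real.exp (β * distortion f x)) ≠ ⊤) :
    ∃ B : ℝ, ∀ N, ∫⁻ x in U, ENNReal.ofReal (jac f x) *
      ENNReal.ofReal ((1 + depth a r R N x) ^ α) ≤ ENNReal.ofReal B := by
  have hM₀ := h.growth
  set M := max M₀ 0 with hM
  have hM0 : 0 ≤ M := le_max_right _ _
  have hnpos : (0 : ℝ) < n := by exact_mod_cast (by omega : 0 < n)
  set A := (∫⁻ x in U, ENNReal.ofReal (jac f x)).toReal with hA
  set e := (∫⁻ x in U, ENNReal.ofReal (Real.exp (β * distortion f x))).toReal with he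
  refine ⟨(n * A + C * e) / ((1 - s) * n), ?_⟩
  intro N
  set X := ∫⁻ x in U, ENNReal.ofReal (jac f x) *
      ENNReal.ofReal ((1 + depth a r R N x) ^ α) with hX
  have hmJ : Measurable (fun x : E n => ENNReal.ofReal (jac f x)) :=
    (measurable_jac f).ennreal_ofReal
  have hmd := measurable_depth (a := a) (r := r) (R := R) N
  have hmX : Measurable (fun x : E n => ENNReal.ofReal (jac f x) *
      ENNReal.ofReal ((1 + depth a r R N x) ^ α)) :=
    hmJ.mul ((hmd.const_add 1).pow_const α).ennreal_ofReal
  -- finiteness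
  have hXfin : X ≠ ⊤ := by
    obtain ⟨D, hD⟩ := depth_le h.toNested N
    have h1 : X ≤ ∫⁻ x in U, ENNReal.ofReal (jac f x) * ENNReal.ofReal ((1 + D) ^ α) := by
      apply lintegral_mono
      intro x
      have h2 := depth_nonneg (a := a) (r := r) (R := R) N x
      have h3 := hD x
      apply mul_le_mul_right
      apply ENNReal.ofReal_le_ofReal
      exact Real.rpow_le_rpow (by linarith) (by linarith) hα.le
    refine ne_top_of_le_ne_top ?_ h1
    rw [lintegral_mul_const _ hmJ]
    exact ENNReal.mul_ne_top hfin ENNReal.ofReal_ne_top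
  have htel := telescope hn hU hf (hae.mono (fun x hx => ⟨hx.1, hx.2.1⟩)) h.toNested h.smooth
    h.jac_pos hα N
  -- the right side
  set G : E n → ℝ≥0∞ := fun x => ENNReal.ofReal (s * n) * (ENNReal.ofReal (jac f x) *
      ENNReal.ofReal ((1 + depth a r R N x) ^ α)) +
      ENNReal.ofReal C * ENNReal.ofReal (Real.exp (β * distortion f x)) with hG
  have hsum : ∑ k ∈ Finset.range N, ∫⁻ x in sh (a k) (r k) (R k),
        ENNReal.ofReal (α * (1 + depth a r R (k + 1) x) ^ (α - 1)) *
          ENNReal.ofReal (‖fderiv ℝ f x‖ ^ n) ≤ ∫⁻ x in U, G x := by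
    calc ∑ k ∈ Finset.range N, ∫⁻ x in sh (a k) (r k) (R k),
          ENNReal.ofReal (α * (1 + depth a r R (k + 1) x) ^ (α - 1)) *
          ENNReal.ofReal (‖fderiv ℝ f x‖ ^ n)
        ≤ ∑ k ∈ Finset.range N, ∫⁻ x in sh (a k) (r k) (R k), G x := by
          apply Finset.sum_le_sum
          intro k hk
          rw [Finset.mem_range] at hk
          have hsU := sh_sub h.toNested k
          apply setLIntegral_mono_ae' (isOpen_sh _ _ _).measurableSet
          have h1 := ae_restrict_of_ae_restrict_of_subset hsU hae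
          have h2 := ae_restrict_of_ae_restrict_of_subset hsU hM₀
          rw [ae_restrict_iff' (isOpen_sh _ _ _).measurableSet] at h1 h2
          filter_upwards [h1, h2] with x h3 h4 hx
          obtain ⟨hd, hJ0, hJ⟩ := h3 hx
          obtain ⟨N', hN'⟩ := h4 hx
          have hdep : depth a r R N x = depth a r R (k + 1) x := depth_of_sh h.toNested hk hx
          have hdep' := depth_le_of_sh h.toNested N' hx
          have hdn := depth_nonneg (a := a) (r := r) (R := R) (k + 1) x
          have hK := one_le_distortion f x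
          have h5 := hC (1 + depth a r R (k + 1) x) (jac f x) (distortion f x) (by linarith) hJ0 hK
            (by
              have hexple : Real.exp ((lam * n + ε) * depth a r R N' x + ε * distortion f x) ≤
                  Real.exp ((lam * n + ε) * (1 + depth a r R (k + 1) x - 1) + ε * distortion f x) := by
                apply Real.exp_le_exp.2
                have : (lam * n + ε) * depth a r R N' x ≤
                    (lam * n + ε) * (1 + depth a r R (k + 1) x - 1) := by
                  apply mul_le_mul_of_nonneg_left _ (by positivity)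
                  linarith
                linarith
              calc jac f x ≤ M₀ * Real.exp ((lam * n + ε) * depth a r R N' x + ε * distortion f x) :=
                    hN'
                _ ≤ M * Real.exp ((lam * n + ε) * depth a r R N' x + ε * distortion f x) := by
                    gcongr
                    exact le_max_left _ _
                _ ≤ _ := by gcongr)
          rw [← norm_eq hn hJ0 hJ] at h5
          rw [← ENNReal.ofReal_mul (by positivity)]
          refine (ENNReal.ofReal_le_ofReal h5).trans ?_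
          rw [ENNReal.ofReal_add (by positivity) (by positivity), ENNReal.ofReal_mul (by positivity),
            ENNReal.ofReal_mul hJ0, ENNReal.ofReal_mul hC0, hG]
          simp only
          rw [hdep]
      _ = ∫⁻ x in ⋃ k ∈ Finset.range N, sh (a k) (r k) (R k), G x :=
          (lintegral_biUnion_finset (sh_pairwise h.toNested _)
            (fun k _ => (isOpen_sh _ _ _).measurableSet) G).symm
      _ ≤ ∫⁻ x in U, G x := by
          apply lintegral_mono_set
          exact iUnion₂_subset (fun k _ => sh_sub h.toNested k)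
  have hGi : ∫⁻ x in U, G x = ENNReal.ofReal (s * n) * X +
      ENNReal.ofReal C * ∫⁻ x in U, ENNReal.ofReal (Real.exp (β * distortion f x)) := by
    rw [hG]
    have hm1 : Measurable (fun x : E n => ENNReal.ofReal (s * n) * (ENNReal.ofReal (jac f x) *
      ENNReal.ofReal ((1 + depth a r R N x) ^ α))) := hmX.const_mul _
    rw [lintegral_add_left hm1, lintegral_const_mul _ hmX,
      lintegral_const_mul' _ _ ENNReal.ofReal_ne_top]
  have hmain : (n : ℝ≥0∞) * X ≤ (n : ℝ≥0∞) * (∫⁻ x in U, ENNReal.ofReal (jac f x)) +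
      (ENNReal.ofReal (s * n) * X +
      ENNReal.ofReal C * ∫⁻ x in U, ENNReal.ofReal (Real.exp (β * distortion f x))) := by
    rw [← hGi]
    exact htel.trans (add_le_add le_rfl hsum)
  have hA' : ∫⁻ x in U, ENNReal.ofReal (jac f x) = ENNReal.ofReal A :=
    (ENNReal.ofReal_toReal hfin).symm
  have he' : ∫⁻ x in U, ENNReal.ofReal (Real.exp (β * distortion f x)) = ENNReal.ofReal e :=
    (ENNReal.ofReal_toReal hexp).symm
  have hA0 : 0 ≤ A := ENNReal.toReal_nonneg
  have he0 : 0 ≤ e := ENNReal.toReal_nonneg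
  have hX' : X = ENNReal.ofReal X.toReal := (ENNReal.ofReal_toReal hXfin).symm
  have hX0 : 0 ≤ X.toReal := ENNReal.toReal_nonneg
  rw [hX', hA', he', ← ENNReal.ofReal_natCast, ← ENNReal.ofReal_mul hnpos.le,
    ← ENNReal.ofReal_mul hnpos.le, ← ENNReal.ofReal_mul (by positivity),
    ← ENNReal.ofReal_mul hC0, ← ENNReal.ofReal_add (by positivity) (by positivity),
    ← ENNReal.ofReal_add (by positivity) (by positivity),
    ENNReal.ofReal_le_ofReal_iff (by positivity)] at hmain
  rw [hX']
  apply ENNReal.ofReal_le_ofReal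
  rw [le_div_iff₀ (mul_pos (by linarith) hnpos)]
  nlinarith

/-- Integrability of `J log^α (e + J)` on `U`. -/
theorem jlog_on (hn : 2 ≤ n) {f : E n → E n} {U : Set (E n)} (hU : IsOpen U)
    (hf : Emb f U)
    (hae : ∀ᵐ x ∂((volume : Measure (E n)).restrict U), DifferentiableAt ℝ f x ∧ 0 ≤ jac f x ∧
      (jac f x = 0 → fderiv ℝ f x = 0))
    {lam : ℝ} (hlam : 0 < lam)
    (h : ∀ ε : ℝ, 0 < ε → ∃ (M : ℝ) (a : ℕ → E n) (r R : ℕ → ℝ), ShellBound lam ε M f U a r R)
    {α β : ℝ} (hα : 0 < α) (hαβ : lam * α < β)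
    (hfin : ∫⁻ x in U, ENNReal.ofReal (jac f x) ≠ ⊤)
    (hexp : IntegrableOn (fun x => Real.exp (β * distortion f x)) U) :
    IntegrableOn (fun x => jac f x * Real.log (Real.exp 1 + jac f x) ^ α) U := by
  obtain ⟨ε, s, hε0, hεβ, hs0, hs1, hab⟩ := absorb (n := n) (by omega) hα hlam hαβ
  obtain ⟨M₀, a, r, R, h⟩ := h ε hε0
  have hM₀ := h.growth
  set M := max M₀ 0 with hM
  have hM0 : 0 ≤ M := le_max_right _ _
  obtain ⟨C₁, hC₁0, hC₁⟩ := hab M hM0
  have hexp' : ∫⁻ x in U, ENNReal.ofReal (Real.exp (β * distortion f x)) < ⊤ := by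
    have h1 := hexp.2
    rwa [hasFiniteIntegral_iff_ofReal (Filter.Eventually.of_forall (fun x => by
      simp only [Pi.zero_apply]; positivity))] at h1
  obtain ⟨B, hB⟩ := weighted_bound hn hU hf hae h hα hlam hε0 hs0 hs1 hC₁0 hC₁ hfin hexp'.ne
  have hmJ : Measurable (fun x : E n => ENNReal.ofReal (jac f x)) :=
    (measurable_jac f).ennreal_ofReal
  have hmono : ∀ x, Monotone (fun N : ℕ => ENNReal.ofReal ((1 + depth a r R N x) ^ α)) := by
    intro x N N' hN
    apply ENNReal.ofReal_le_ofReal
    have h2 := depth_nonneg (a := a) (r := r) (R := R) N x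
    have h3 : depth a r R N x ≤ depth a r R N' x := depth_mono x hN
    exact Real.rpow_le_rpow (by linarith) (by linarith) hα.le
  set S : E n → ℝ≥0∞ := fun x => ⨆ N : ℕ, ENNReal.ofReal (jac f x) *
    ENNReal.ofReal ((1 + depth a r R N x) ^ α) with hS
  have hSint : ∫⁻ x in U, S x < ⊤ := by
    rw [hS, lintegral_iSup]
    · exact lt_of_le_of_lt (iSup_le hB) ENNReal.ofReal_lt_top
    · intro N
      exact hmJ.mul (((measurable_depth N).const_add 1).pow_const α).ennreal_ofReal
    · intro N N' hN x
      exact mul_le_mul_right (hmono x hN) _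
  -- the growth condition
  obtain ⟨C, hC0, hC⟩ := jlog_le' (α := α) (β := β) (ε := ε) (A := lam * n + ε) (M := M) hα hε0
    hεβ (by positivity) hM0
  refine ⟨(measurable_jlog f α).aestronglyMeasurable, ?_⟩
  rw [hasFiniteIntegral_iff_ofReal]
  · have hle : ∫⁻ x in U, ENNReal.ofReal (jac f x * Real.log (Real.exp 1 + jac f x) ^ α) ≤
        ∫⁻ x in U, (ENNReal.ofReal C * S x +
          ENNReal.ofReal C * ENNReal.ofReal (Real.exp (β * distortion f x))) := by
      apply setLIntegral_mono_ae' hU.measurableSet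
      rw [ae_restrict_iff' hU.measurableSet] at hae hM₀
      filter_upwards [hae, hM₀] with x h3 h4 hx
      obtain ⟨hd, hJ0, hJ⟩ := h3 hx
      obtain ⟨N, hN⟩ := h4 hx
      have hdn := depth_nonneg (a := a) (r := r) (R := R) N x
      have h5 := hC (1 + depth a r R N x) (jac f x) (distortion f x) (by linarith) hJ0
        (one_le_distortion f x) (by
          rw [add_sub_cancel_left]
          refine hN.trans ?_
          gcongr
          exact le_max_left _ _)
      refine (ENNReal.ofReal_le_ofReal h5).trans ?_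
      rw [mul_add, ENNReal.ofReal_add (by positivity) (by positivity), ENNReal.ofReal_mul hC0,
        ENNReal.ofReal_mul hC0, ENNReal.ofReal_mul hJ0]
      gcongr
      exact le_iSup (fun N : ℕ => ENNReal.ofReal (jac f x) *
        ENNReal.ofReal ((1 + depth a r R N x) ^ α)) N
    refine lt_of_le_of_lt hle ?_
    have hm2 : Measurable (fun x : E n => ENNReal.ofReal C *
        ENNReal.ofReal (Real.exp (β * distortion f x))) :=
      ((((measurable_distortion f).const_mul β).exp).ennreal_ofReal).const_mul _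
    rw [lintegral_add_right _ hm2, lintegral_const_mul' _ _ ENNReal.ofReal_ne_top,
      lintegral_const_mul' _ _ ENNReal.ofReal_ne_top]
    exact ENNReal.add_lt_top.2 ⟨ENNReal.mul_lt_top ENNReal.ofReal_lt_top hSint,
      ENNReal.mul_lt_top ENNReal.ofReal_lt_top hexp'⟩
  · rw [Filter.EventuallyLE]
    filter_upwards [hae] with x hx
    have h8 := one_le_log_exp_add hx.2.1
    have h9 := hx.2.1
    simp only [Pi.zero_apply]
    positivity

/-- **Higher integrability below the threshold for locally shelled maps.** -/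
theorem regular_of_lt (hn : 2 ≤ n) {lam : ℝ} (hlam : 0 < lam) {Ω : Set (E n)}
    {f : E n → E n} (hf : LocallyShelled lam Ω f) {α β : ℝ} (hβ : 0 < β) (hαβ : lam * α < β)
    (hexp : LocallyIntegrableOn (fun x => Real.exp (β * distortion f x)) Ω) :
    Regular α Ω f := by
  set α' := max α (β / (2 * lam)) with hα'
  have h1 : 0 < α' := lt_max_of_lt_right (by positivity)
  have h2 : lam * α' < β := by
    rcases le_total α (β / (2 * lam)) with h | h
    · rw [hα', max_eq_right h]
      have : lam * (β / (2 * lam)) = β / 2 := by field_simp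
      linarith
    · rw [hα', max_eq_left h]; exact hαβ
  have h3 : α ≤ α' := le_max_left _ _
  have key : ∀ x ∈ Ω, ∃ V ∈ nhds x,
      IntegrableOn (fun x => jac f x * Real.log (Real.exp 1 + jac f x) ^ α) V ∧
      IntegrableOn (fun x => ‖fderiv ℝ f x‖ ^ n *
        Real.log (Real.exp 1 + ‖fderiv ℝ f x‖) ^ (α - 1)) V := by
    intro x hx
    obtain ⟨U, hU, hxU, hcU, hUΩ, hemb, hs⟩ := hf.near x hx
    have hUΩ' : U ⊆ Ω := subset_closure.trans hUΩ
    have hae := ae_restrict_of_ae_restrict_of_subset hUΩ' hf.diff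
    have hfin := lintegral_jac_lt_top hU hcU (hf.cont.mono hUΩ) hemb
      (hae.mono (fun x hx => ⟨hx.1, hx.2.1⟩))
    have hexpU : IntegrableOn (fun x => Real.exp (β * distortion f x)) U :=
      (hexp.integrableOn_compact_subset hUΩ hcU).mono_set subset_closure
    have hj := jlog_on hn hU hemb hae hlam hs h1 h2 hfin.ne hexpU
    refine ⟨U, hU.mem_nhds hxU, ?_, ?_⟩
    · refine Integrable.mono' hj (measurable_jlog f α).aestronglyMeasurable ?_
      filter_upwards [hae] with y hy
      have hJ0 := hy.2.1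
      have h6 := one_le_log_exp_add hJ0
      rw [Real.norm_of_nonneg (by positivity)]
      exact mul_le_mul_of_nonneg_left (Real.rpow_le_rpow_of_exponent_le h6 h3) hJ0
    · obtain ⟨C, hC0, hC⟩ := dlog_le (n := n) (by omega) α' hβ
      refine Integrable.mono' ((hj.add hexpU).const_mul C)
        (measurable_dlog f α).aestronglyMeasurable ?_
      filter_upwards [hae] with y hy
      have h8 := one_le_log_exp_add (norm_nonneg (fderiv ℝ f y))
      rw [Real.norm_of_nonneg (by positivity)]
      have h9 := hC _ _ _ (norm_nonneg _) hy.2.1 (one_le_distortion f y) (norm_eq hn hy.2.1 hy.2.2)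
      refine le_trans ?_ h9
      exact mul_le_mul_of_nonneg_left (Real.rpow_le_rpow_of_exponent_le h8 (by linarith))
        (by positivity)
  constructor
  · intro x hx
    obtain ⟨V, hV, h4, _⟩ := key x hx
    exact ⟨V, mem_nhdsWithin_of_mem_nhds hV, h4⟩
  · intro x hx
    obtain ⟨V, hV, _, h4⟩ := key x hx
    exact ⟨V, mem_nhdsWithin_of_mem_nhds hV, h4⟩

end Pool.Agent.TreeS
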