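import Pool.Agent.TreeS.Iso
import Pool.Agent.TreeS.Upper2

/-!
# The isoperimetric inequality with the spherical mean of the distortion
-/

set_option autoImplicit false

open MeasureTheory Set Metric Filter Topology
open scoped ENNReal

namespace Pool.Agent.TreeS

open Pool.Agent.RayM

variable {n : ℕ}

theorem iso1 (hn : 2 ≤ n) {f : E n → E n} {a : E n} {r s R : ℝ} (hr : 0 < r) (hrs : r < s)
    (hsR : s < R) (hf : Emb f (ball a R))
    (hd : ∀ x, r ≤ dist x a → dist x a ≤ s → DifferentiableAt ℝ f x ∧ 0 < jac f x)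
    (hc : ContinuousOn (fderiv ℝ f) {x | r ≤ dist x a ∧ dist x a ≤ s}) :
    ∃ ρ : ℝ, 0 < ρ ∧ (volume (f '' closedBall a r)).toReal =
        (volume (ball (0 : E n) 1)).toReal * ρ ^ n ∧
      (n : ℝ) * (volume (ball (0 : E n) 1)).toReal * ρ ^ (n - 1) ≤
        r ^ (n - 1) * ∫ ω : sphere (0 : E n) 1, ‖fderiv ℝ f (a + r • (ω : E n))‖ ^ (n - 1)
          ∂(volume : Measure (E n)).toSphere := by
  have hnt := nontrivial_E hn
  have hn0 : (0 : ℝ) < n := by exact_mod_cast (by omega : 0 < n)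
  have hn1 : (1 : ℝ) < n := by exact_mod_cast (by omega : 1 < n)
  have hKc : IsCompact (f '' closedBall a r) :=
    (isCompact_closedBall a r).image_of_continuousOn
      (hf.cont.mono (closedBall_subset_ball (hrs.trans hsR)))
  set K := f '' closedBall a r with hK
  set v := (volume K).toReal with hv
  have hKt : volume K ≠ ⊤ := hKc.measure_lt_top.ne
  set w := (volume (ball (0 : E n) 1)).toReal with hw
  have hwt : volume (ball (0 : E n) 1) ≠ ⊤ := measure_ball_lt_top.ne
  have hw0 : 0 < w := ENNReal.toReal_pos (measure_ball_pos _ _ one_pos).ne' hwt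
  have hv0 : 0 < v := by
    apply ENNReal.toReal_pos _ hKt
    have h1 : IsOpen (f '' ball a r) := hf.opn _ isOpen_ball
      (ball_subset_ball (hrs.trans hsR).le)
    have h2 : (f '' ball a r).Nonempty := (nonempty_ball.2 hr).image f
    exact (lt_of_lt_of_le (h1.measure_pos volume h2)
      (measure_mono (image_mono ball_subset_closedBall))).ne'
  -- the volume radius
  set ρ := (v / w) ^ ((n : ℝ)⁻¹) with hρ
  have hρ0 : 0 < ρ := by positivity
  have hρn : ρ ^ n = v / w := by
    rw [hρ]; exact Real.rpow_inv_natCast_pow (by positivity) (by omega)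
  have hvρ : v = w * ρ ^ n := by rw [hρn]; field_simp
  have hball : volume (closedBall (0 : E n) ρ) = volume K := by
    rw [Measure.addHaar_closedBall _ _ hρ0.le, finrank_euclideanSpace, Fintype.card_fin, hρn,
      ← ENNReal.ofReal_toReal hwt, ← hw, ← ENNReal.ofReal_mul (by positivity),
      div_mul_cancel₀ _ hw0.ne', hv, ENNReal.ofReal_toReal hKt]
  set A := {x : E n | r ≤ dist x a ∧ dist x a ≤ s} with hA
  have hsph : ∀ (ω : sphere (0 : E n) 1) (t : ℝ), 0 ≤ t → dist (a + t • (ω : E n)) a = t := by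
    intro ω t ht
    rw [dist_eq_norm, add_sub_cancel_left, norm_smul, show ‖(ω : E n)‖ = 1 by simp, mul_one,
      Real.norm_of_nonneg ht]
  have hyc : Continuous (fun ω : sphere (0 : E n) 1 => ‖fderiv ℝ f (a + r • (ω : E n))‖) := by
    apply Continuous.norm
    apply hc.comp_continuous (by fun_prop)
    intro ω
    change r ≤ dist _ a ∧ dist _ a ≤ s
    rw [hsph ω r hr.le]
    exact ⟨le_rfl, hrs.le⟩
  set y : sphere (0 : E n) 1 → ℝ := fun ω => ‖fderiv ℝ f (a + r • (ω : E n))‖ with hy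
  have hint : ∀ j : ℕ, Integrable (fun ω => y ω ^ j) (volume : Measure (E n)).toSphere :=
    fun j => (hyc.pow j).integrable_of_hasCompactSupport (HasCompactSupport.of_compactSpace _)
  set I := ∫ ω, y ω ^ (n - 1) ∂(volume : Measure (E n)).toSphere with hI
  set B := ∫ ω, y ω ^ n ∂(volume : Measure (E n)).toSphere with hB
  have hI' : (∫ ω : sphere (0 : E n) 1, r ^ (n - 1) *
      ‖fderiv ℝ f (a + r • (ω : E n))‖ ^ (n - 1) ∂(volume : Measure (E n)).toSphere) =
      r ^ (n - 1) * I := by rw [integral_const_mul]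
  have hB' : (∫ ω : sphere (0 : E n) 1, r ^ (n - 1) *
      ‖fderiv ℝ f (a + r • (ω : E n))‖ ^ n ∂(volume : Measure (E n)).toSphere) =
      r ^ (n - 1) * B := by rw [integral_const_mul]
  have hI0 : 0 ≤ I := integral_nonneg (fun ω => by positivity)
  -- P3
  have P3 : (n : ℝ) * v ≤ ρ * (r ^ (n - 1) * I) := by
    apply le_of_forall_pos_le_add
    intro δ' hδ'
    obtain ⟨ε₀, hε₀, hmk⟩ := mink hn hr hrs hsR hf hd hc (δ := δ' / ρ) (by positivity)
    rw [hI'] at hmk
    obtain ⟨m, hm⟩ := exists_nat_gt (max 1 (ρ / ε₀))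
    have hm1 : (1 : ℝ) < m := lt_of_le_of_lt (le_max_left _ _) hm
    have hm0 : (0 : ℝ) < m := by linarith
    have hm2 : ρ / ε₀ < m := lt_of_le_of_lt (le_max_right _ _) hm
    have hm3 : ρ / m ≤ ε₀ := by
      rw [div_lt_iff₀ hε₀] at hm2
      rw [div_le_iff₀ hm0]
      linarith
    have h1 := vol_cthickening_ge hKc hball (m := m) (by
      have : (1 : ℝ) ≤ m := hm1.le
      exact_mod_cast this)
    have h2 := h1.trans (hmk (ρ / m) (by positivity) hm3)
    have hLpos : 0 ≤ ρ / m * (r ^ (n - 1) * I + δ' / ρ) := by positivity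
    rw [← ENNReal.ofReal_toReal hKt, ← hv, ← ENNReal.ofReal_mul (by positivity),
      ← ENNReal.ofReal_add hv0.le hLpos, ENNReal.ofReal_le_ofReal_iff (by positivity)] at h2
    have h3 : 1 + (n : ℝ) * (1 / m) ≤ (1 + 1 / (m : ℝ)) ^ n :=
      one_add_mul_le_pow (by have : (0 : ℝ) < 1 / m := by positivity
                             linarith) n
    have h4 : (1 + (n : ℝ) * (1 / m)) * v ≤ (1 + 1 / (m : ℝ)) ^ n * v := by gcongr
    have h5 : (n : ℝ) * v * (1 / m) ≤ (ρ * (r ^ (n - 1) * I) + δ') * (1 / m) := by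
      have e1 : ρ / m * (r ^ (n - 1) * I + δ' / ρ) = (ρ * (r ^ (n - 1) * I) + δ') * (1 / m) := by
        field_simp
      nlinarith
    exact le_of_mul_le_mul_right h5 (by positivity)
  have h7 : (n : ℝ) * w * ρ ^ (n - 1) ≤ r ^ (n - 1) * I := by
    have e1 : ρ ^ n = ρ * ρ ^ (n - 1) := by
      rw [← pow_succ']; congr 1; omega
    rw [hvρ, e1] at P3
    have : ρ * ((n : ℝ) * w * ρ ^ (n - 1)) ≤ ρ * (r ^ (n - 1) * I) := by
      calc ρ * ((n : ℝ) * w * ρ ^ (n - 1)) = n * (w * (ρ * ρ ^ (n - 1))) := by ring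
        _ ≤ _ := P3
    exact le_of_mul_le_mul_left this hρ0
  exact ⟨ρ, hρ0, hvρ, h7⟩

/-- The measure of the unit sphere. -/
noncomputable def sig (n : ℕ) : ℝ := (n : ℝ) * (volume (ball (0 : E n) 1)).toReal

theorem sig_pos (hn : 2 ≤ n) : 0 < sig n := by
  have hn0 : (0 : ℝ) < n := by exact_mod_cast (by omega : 0 < n)
  exact mul_pos hn0 (ENNReal.toReal_pos (measure_ball_pos _ _ one_pos).ne' measure_ball_lt_top.ne)

theorem real_univ_toSphere : ((volume : Measure (E n)).toSphere).real univ = sig n := by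
  rw [Measure.toSphere_real_apply_univ, finrank_euclideanSpace, Fintype.card_fin]
  rfl

/-- The spherical mean of order `n - 1` of the distortion. -/
noncomputable def kbar (f : E n → E n) (a : E n) (τ : ℝ) : ℝ :=
  ((∫ ω : sphere (0 : E n) 1, distortion f (a + τ • (ω : E n)) ^ (n - 1)
    ∂(volume : Measure (E n)).toSphere) / sig n) ^ (1 / ((n : ℝ) - 1))

theorem distortion_eq {f : E n → E n} {x : E n} (h : 0 < jac f x) :
    distortion f x = ‖fderiv ℝ f x‖ ^ n / jac f x := by
  unfold distortion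
  rw [if_pos h]

theorem iso2 (hn : 2 ≤ n) {f : E n → E n} {a : E n} {r s R : ℝ} (hr : 0 < r) (hrs : r < s)
    (hsR : s < R) (hf : Emb f (ball a R))
    (hd : ∀ x, r ≤ dist x a → dist x a ≤ s → DifferentiableAt ℝ f x ∧ 0 < jac f x)
    (hc : ContinuousOn (fderiv ℝ f) {x | r ≤ dist x a ∧ dist x a ≤ s}) :
    (n : ℝ) * (volume (f '' closedBall a r)).toReal ≤ r * kbar f a r *
      ∫ ω : sphere (0 : E n) 1, r ^ (n - 1) * jac f (a + r • (ω : E n))
          ∂(volume : Measure (E n)).toSphere := by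
  obtain ⟨ρ, hρ0, hv, hI⟩ := iso1 hn hr hrs hsR hf hd hc
  have hσ := sig_pos hn
  have hn0 : (0 : ℝ) < n := by exact_mod_cast (by omega : 0 < n)
  have hn1 : (1 : ℝ) < n := by exact_mod_cast (by omega : 1 < n)
  set w := (volume (ball (0 : E n) 1)).toReal with hw
  have hsig : sig n = n * w := rfl
  have hsph : ∀ (ω : sphere (0 : E n) 1) (t : ℝ), 0 ≤ t → dist (a + t • (ω : E n)) a = t := by
    intro ω t ht
    rw [dist_eq_norm, add_sub_cancel_left, norm_smul, show ‖(ω : E n)‖ = 1 by simp, mul_one,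
      Real.norm_of_nonneg ht]
  have hmem : ∀ ω : sphere (0 : E n) 1, r ≤ dist (a + r • (ω : E n)) a ∧
      dist (a + r • (ω : E n)) a ≤ s := by
    intro ω
    rw [hsph ω r hr.le]
    exact ⟨le_rfl, hrs.le⟩
  have hfc : Continuous (fun ω : sphere (0 : E n) 1 => fderiv ℝ f (a + r • (ω : E n))) := by
    apply hc.comp_continuous (by fun_prop)
    exact hmem
  have hJc : Continuous (fun ω : sphere (0 : E n) 1 => jac f (a + r • (ω : E n))) :=
    ContinuousLinearMap.continuous_det.comp hfc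
  have hJp : ∀ ω : sphere (0 : E n) 1, 0 < jac f (a + r • (ω : E n)) := fun ω =>
    (hd _ (hmem ω).1 (hmem ω).2).2
  have hKe : ∀ ω : sphere (0 : E n) 1, distortion f (a + r • (ω : E n)) =
      ‖fderiv ℝ f (a + r • (ω : E n))‖ ^ n / jac f (a + r • (ω : E n)) :=
    fun ω => distortion_eq (hJp ω)
  have hKc : Continuous (fun ω : sphere (0 : E n) 1 => distortion f (a + r • (ω : E n))) := by
    simp_rw [hKe]
    exact (hfc.norm.pow n).div hJc (fun ω => (hJp ω).ne')
  set J : sphere (0 : E n) 1 → ℝ := fun ω => jac f (a + r • (ω : E n)) with hJ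
  set K : sphere (0 : E n) 1 → ℝ := fun ω => distortion f (a + r • (ω : E n)) with hK
  have hJ0 : ∀ ω, 0 < J ω := hJp
  have hK0 : ∀ ω, 0 < K ω := fun ω => zero_lt_one.trans_le (one_le_distortion f _)
  set m : ℝ := (n : ℝ) - 1 with hm
  have hm0 : 0 < m := by linarith
  set A := ∫ ω, J ω ∂(volume : Measure (E n)).toSphere with hA
  set B := ∫ ω, K ω ^ (n - 1) ∂(volume : Measure (E n)).toSphere with hB
  have hA0 : 0 ≤ A := integral_nonneg (fun ω => (hJ0 ω).le)
  have hB0 : 0 ≤ B := integral_nonneg (fun ω => by have := hK0 ω; positivity)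
  have hcast : ((n - 1 : ℕ) : ℝ) = m := by rw [hm]; push_cast [Nat.cast_sub (by omega : 1 ≤ n)]; ring
  -- Hölder
  have hH : ∫ ω : sphere (0 : E n) 1, ‖fderiv ℝ f (a + r • (ω : E n))‖ ^ (n - 1)
      ∂(volume : Measure (E n)).toSphere ≤ A ^ (1 / (n / m)) * B ^ (1 / (n : ℝ)) := by
    have hpq : (n / m : ℝ).HolderConjugate n := by
      rw [Real.holderConjugate_iff]
      constructor
      · rw [lt_div_iff₀ hm0]; linarith
      · rw [hm]; field_simp; ring
    have hcJ : Continuous (fun ω => J ω ^ (m / n)) :=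
      hJc.rpow_const (fun ω => Or.inl (hJ0 ω).ne')
    have hcK : Continuous (fun ω => K ω ^ (m / n)) :=
      hKc.rpow_const (fun ω => Or.inl (hK0 ω).ne')
    have h1 := integral_mul_le_Lp_mul_Lq_of_nonneg (μ := (volume : Measure (E n)).toSphere) hpq
      (f := fun ω => J ω ^ (m / n)) (g := fun ω => K ω ^ (m / n))
      (Filter.Eventually.of_forall (fun ω => by have := hJ0 ω; simp only [Pi.zero_apply]; positivity))
      (Filter.Eventually.of_forall (fun ω => by have := hK0 ω; simp only [Pi.zero_apply]; positivity))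
      (hcJ.memLp_of_hasCompactSupport (HasCompactSupport.of_compactSpace _))
      (hcK.memLp_of_hasCompactSupport (HasCompactSupport.of_compactSpace _))
    have e1 : ∀ ω, (J ω ^ (m / n)) ^ (n / m : ℝ) = J ω := by
      intro ω
      rw [← Real.rpow_mul (hJ0 ω).le, show m / n * (n / m) = 1 by field_simp, Real.rpow_one]
    have e2 : ∀ ω, (K ω ^ (m / n)) ^ (n : ℝ) = K ω ^ (n - 1) := by
      intro ω
      rw [← Real.rpow_mul (hK0 ω).le, show m / n * (n : ℝ) = m by field_simp, ← hcast,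
        Real.rpow_natCast]
    have e3 : ∀ ω : sphere (0 : E n) 1, ‖fderiv ℝ f (a + r • (ω : E n))‖ ^ (n - 1) =
        J ω ^ (m / n) * K ω ^ (m / n) := by
      intro ω
      have e4 : J ω * K ω = ‖fderiv ℝ f (a + r • (ω : E n))‖ ^ n := by
        have h0 := (hJ0 ω).ne'
        rw [show K ω = ‖fderiv ℝ f (a + r • (ω : E n))‖ ^ n / J ω from hKe ω]
        field_simp
      rw [← Real.mul_rpow (hJ0 ω).le (hK0 ω).le, e4,
        ← Real.rpow_natCast ‖fderiv ℝ f (a + r • (ω : E n))‖ n, ← Real.rpow_mul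
        (norm_nonneg _), show (n : ℝ) * (m / n) = m by field_simp, ← hcast, Real.rpow_natCast]
    simp_rw [e1, e2] at h1
    simp_rw [e3]
    exact h1
  set I := ∫ ω : sphere (0 : E n) 1, ‖fderiv ℝ f (a + r • (ω : E n))‖ ^ (n - 1)
      ∂(volume : Measure (E n)).toSphere with hIdef
  have hI0 : 0 ≤ I := integral_nonneg (fun ω => by positivity)
  set p : ℝ := n / m with hp
  have hp0 : 0 < p := by positivity
  have hw0 : 0 < w := by
    have : 0 < (n : ℝ) * w := hσ
    exact pos_of_mul_pos_right this hn0.le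
  have h2 : I ^ p ≤ A * B ^ (1 / m) := by
    calc I ^ p ≤ (A ^ (1 / p) * B ^ (1 / (n : ℝ))) ^ p := Real.rpow_le_rpow hI0 hH hp0.le
      _ = A * B ^ (1 / m) := by
        rw [Real.mul_rpow (by positivity) (by positivity), ← Real.rpow_mul hA0,
          ← Real.rpow_mul hB0, show 1 / p * p = 1 by field_simp, Real.rpow_one]
        congr 2
        rw [hp]; field_simp
  have h3 : (n * w * ρ ^ (n - 1)) ^ p ≤ (r ^ (n - 1) * I) ^ p :=
    Real.rpow_le_rpow (by positivity) hI hp0.le
  have hpow : ∀ y : ℝ, 0 ≤ y → (y ^ (n - 1)) ^ p = y ^ n := by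
    intro y hy
    rw [← Real.rpow_natCast y (n - 1), hcast, ← Real.rpow_mul hy, show m * p = n by
      rw [hp]; field_simp, Real.rpow_natCast]
  rw [Real.mul_rpow (by positivity) (by positivity), Real.mul_rpow (by positivity) hI0,
    hpow ρ hρ0.le, hpow r hr.le] at h3
  have hps : p = 1 + 1 / m := by
    have hnm : (n : ℝ) = m + 1 := by rw [hm]; ring
    rw [hp, hnm]
    field_simp
  have h4 : (n * w : ℝ) ^ p = (n * w) * (n * w) ^ (1 / m) := by
    rw [hps, Real.rpow_add (by positivity), Real.rpow_one]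
  have hkb : kbar f a r = B ^ (1 / m) / (n * w) ^ (1 / m) := by
    unfold kbar
    rw [Real.div_rpow hB0 hσ.le]
    rfl
  rw [hv, integral_const_mul, hkb]
  have h5 : 0 < (n * w : ℝ) ^ (1 / m) := by positivity
  have e5 : r ^ n = r * r ^ (n - 1) := by
    rw [← pow_succ']; congr 1; omega
  calc (n : ℝ) * (w * ρ ^ n) = ((n * w) ^ p * ρ ^ n) / (n * w) ^ (1 / m) := by
        rw [h4]; field_simp
    _ ≤ (r ^ n * I ^ p) / (n * w) ^ (1 / m) := by gcongr
    _ ≤ (r ^ n * (A * B ^ (1 / m))) / (n * w) ^ (1 / m) := by gcongr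
    _ = _ := by rw [e5]; ring

end Pool.Agent.TreeS
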