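import Pool.Agent.TreeS.Shell2

/-!
# The telescoping inequality with product weights
-/

set_option autoImplicit false

open MeasureTheory Set Metric Filter Topology
open scoped ENNReal

namespace Pool.Agent.TreeS

open Pool.Agent.RayM

variable {n : ℕ} {U : Set (E n)} {a : ℕ → E n} {r R : ℕ → ℝ} {f : E n → E n}

/-- The sum of the weights of the first `N` shells. -/
noncomputable def pk (f : E n → E n) (a : ℕ → E n) (r R : ℕ → ℝ) (N : ℕ) (x : E n) : ℝ :=
  ∑ i ∈ Finset.range N, phiK f (a i) (r i) (R i) (dist x (a i))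

/-- A nested family on which `f` is continuously differentiable with positive Jacobian. -/
structure GoodFam (f : E n → E n) (U : Set (E n)) (a : ℕ → E n) (r R : ℕ → ℝ) : Prop
    extends Nested U a r R where
  good : ∀ i, GoodShell f (a i) (r i) (R i)

theorem pk_succ (N : ℕ) (x : E n) :
    pk f a r R (N + 1) x = pk f a r R N x + phiK f (a N) (r N) (R N) (dist x (a N)) :=
  Finset.sum_range_succ _ _

theorem pk_nonneg (hn : 2 ≤ n) (h : GoodFam f U a r R) (N : ℕ) (x : E n) :
    0 ≤ pk f a r R N x :=
  Finset.sum_nonneg (fun i _ => phiK_nonneg hn (h.good i) _)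

theorem measurable_pk (hn : 2 ≤ n) (h : GoodFam f U a r R) (N : ℕ) :
    Measurable (pk f a r R N) := by
  unfold pk
  exact Finset.measurable_fun_sum _ (fun i _ =>
    (continuous_phiK hn (h.good i)).measurable.comp (by fun_prop))

theorem pk_le (hn : 2 ≤ n) (h : GoodFam f U a r R) (N : ℕ) :
    ∃ D : ℝ, ∀ x, pk f a r R N x ≤ D :=
  ⟨∑ i ∈ Finset.range N, phiK f (a i) (r i) (R i) (r i), fun _ =>
    Finset.sum_le_sum (fun i _ => phiK_le hn (h.good i) _)⟩

theorem pk_const (hn : 2 ≤ n) (h : GoodFam f U a r R) (N : ℕ) {x y : E n}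
    (hx : x ∈ ball (a N) (R N)) (hy : y ∈ ball (a N) (R N)) :
    pk f a r R N x = pk f a r R N y := by
  unfold pk
  apply Finset.sum_congr rfl
  intro i hi
  rw [Finset.mem_range] at hi
  rcases h.nest i N hi with hd | hs
  · have h1 : ∀ z ∈ ball (a N) (R N), R i ≤ dist z (a i) := by
      intro z hz
      by_contra hcon
      exact (Set.disjoint_left.1 hd) (show z ∈ ball (a i) (R i) from not_le.1 hcon) hz
    rw [phiK_of_ge (h1 x hx), phiK_of_ge (h1 y hy)]
  · rw [phiK_of_le hn (h.good i) (hs hx), phiK_of_le hn (h.good i) (hs hy)]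

theorem pk_of_sh (h : GoodFam f U a r R) {k N : ℕ} (hkN : k < N) {x : E n}
    (hx : x ∈ sh (a k) (r k) (R k)) : pk f a r R N x = pk f a r R (k + 1) x := by
  induction N, hkN using Nat.le_induction with
  | base => rfl
  | succ N hN ih =>
    rw [pk_succ, ih]
    have hkN' : k < N := hN
    have h1 : R N ≤ dist x (a N) := by
      by_contra hcon
      have hxN : x ∈ ball (a N) (R N) := not_le.1 hcon
      rcases h.nest k N hkN' with hd | hs
      · exact (Set.disjoint_left.1 hd) (show x ∈ ball (a k) (R k) from hx.2) hxN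
      · exact absurd (mem_closedBall.1 (hs hxN)) (not_le.2 hx.1)
    rw [phiK_of_ge h1, add_zero]

/-- The telescoping inequality. -/
theorem telescope2 (hn : 2 ≤ n) (hU : IsOpen U) (hf : Emb f U)
    (hae : ∀ᵐ x ∂((volume : Measure (E n)).restrict U), DifferentiableAt ℝ f x ∧ 0 ≤ jac f x)
    (h : GoodFam f U a r R) {θ : ℝ} (hθ : 0 < θ) (N : ℕ) :
    (n : ℝ≥0∞) * ∫⁻ x in U, ENNReal.ofReal (jac f x) *
        ENNReal.ofReal (Real.exp (θ * pk f a r R N x)) ≤
      (n : ℝ≥0∞) * (∫⁻ x in U, ENNReal.ofReal (jac f x)) +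
      ∑ k ∈ Finset.range N, ∫⁻ x in sh (a k) (r k) (R k),
        ENNReal.ofReal (θ * Real.exp (θ * pk f a r R (k + 1) x)) *
          ENNReal.ofReal (jac f x) := by
  induction N with
  | zero => simp [pk]
  | succ N ih =>
    rw [Finset.sum_range_succ]
    have hmJ : Measurable (fun x : E n => ENNReal.ofReal (jac f x)) :=
      (measurable_jac f).ennreal_ofReal
    have hmp := measurable_pk hn h N
    have hphn := fun x : E n => phiK_nonneg hn (h.good N) (dist x (a N))
    set br : E n → ℝ := fun x => Real.exp (θ * pk f a r R N x) *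
      (Real.exp (θ * phiK f (a N) (r N) (R N) (dist x (a N))) - 1) with hbr
    have hbr0 : ∀ x, 0 ≤ br x := by
      intro x
      apply mul_nonneg (Real.exp_pos _).le
      have h1 := hphn x
      have : 1 ≤ Real.exp (θ * phiK f (a N) (r N) (R N) (dist x (a N))) :=
        Real.one_le_exp (by positivity)
      linarith
    have e1 : ∫⁻ x in U, ENNReal.ofReal (jac f x) *
        ENNReal.ofReal (Real.exp (θ * pk f a r R (N + 1) x)) =
        (∫⁻ x in U, ENNReal.ofReal (jac f x) * ENNReal.ofReal (Real.exp (θ * pk f a r R N x))) +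
        ∫⁻ x in U, ENNReal.ofReal (jac f x) * ENNReal.ofReal (br x) := by
      have hm1 : Measurable (fun x : E n => ENNReal.ofReal (jac f x) *
          ENNReal.ofReal (Real.exp (θ * pk f a r R N x))) :=
        hmJ.mul ((hmp.const_mul θ).exp).ennreal_ofReal
      rw [← lintegral_add_left hm1]
      apply lintegral_congr
      intro x
      rw [← mul_add, ← ENNReal.ofReal_add (Real.exp_pos _).le (hbr0 x)]
      congr 2
      rw [hbr, pk_succ, mul_add, Real.exp_add]
      ring
    have hbrz : ∀ x, x ∉ ball (a N) (R N) → br x = 0 := by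
      intro x hx
      have h1 : R N ≤ dist x (a N) := not_lt.1 hx
      rw [hbr]
      simp only
      rw [phiK_of_ge h1, mul_zero, Real.exp_zero, sub_self, mul_zero]
    have e2 : ∫⁻ x in U, ENNReal.ofReal (jac f x) * ENNReal.ofReal (br x) =
        ∫⁻ x in ball (a N) (R N), ENNReal.ofReal (jac f x) * ENNReal.ofReal (br x) := by
      rw [← lintegral_indicator hU.measurableSet, ← lintegral_indicator measurableSet_ball]
      apply lintegral_congr
      intro x
      by_cases hx : x ∈ ball (a N) (R N)
      · rw [indicator_of_mem hx, indicator_of_mem (h.sub N hx)]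
      · rw [indicator_of_notMem hx]
        by_cases hxU : x ∈ U
        · rw [indicator_of_mem hxU, hbrz x hx, ENNReal.ofReal_zero, mul_zero]
        · rw [indicator_of_notMem hxU]
    have e3 : (n : ℝ≥0∞) * ∫⁻ x in ball (a N) (R N), ENNReal.ofReal (jac f x) *
        ENNReal.ofReal (br x) ≤ ∫⁻ x in sh (a N) (r N) (R N),
        ENNReal.ofReal (θ * Real.exp (θ * pk f a r R (N + 1) x)) *
          ENNReal.ofReal (jac f x) := by
      rcases le_or_gt (R N) (r N) with hle | hlt
      · have h1 : ∀ x ∈ ball (a N) (R N), ENNReal.ofReal (jac f x) * ENNReal.ofReal (br x) = 0 := by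
          intro x hx
          have h3 : phiK f (a N) (r N) (R N) (dist x (a N)) = 0 := by
            rw [phiK_of_le hn (h.good N) ((mem_ball.1 hx).le.trans hle), phiK_of_ge hle]
          have h4 : br x = 0 := by
            rw [hbr]
            simp only
            rw [h3, mul_zero, Real.exp_zero, sub_self, mul_zero]
          rw [h4, ENNReal.ofReal_zero, mul_zero]
        rw [setLIntegral_congr_fun measurableSet_ball h1]
        simp
      · have hR0 : 0 < R N := (h.pos N).trans hlt
        have hcen : a N ∈ ball (a N) (R N) := mem_ball_self hR0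
        have hc : ∀ x ∈ ball (a N) (R N), pk f a r R N x = pk f a r R N (a N) :=
          fun x hx => pk_const hn h N hx hcen
        set c := pk f a r R N (a N) with hcdef
        have key := shell2 hn (h.good N) hlt (hf.mono (h.sub N))
          (ae_restrict_of_ae_restrict_of_subset (h.sub N) hae) hθ
        calc (n : ℝ≥0∞) * ∫⁻ x in ball (a N) (R N), ENNReal.ofReal (jac f x) *
              ENNReal.ofReal (br x)
            = (n : ℝ≥0∞) * ∫⁻ x in ball (a N) (R N), ENNReal.ofReal (Real.exp (θ * c)) *
                (ENNReal.ofReal (jac f x) *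
                ENNReal.ofReal (Real.exp (θ * phiK f (a N) (r N) (R N) (dist x (a N))) - 1)) := by
              congr 1
              apply setLIntegral_congr_fun measurableSet_ball
              intro x hx
              simp only [hbr]
              rw [hc x hx, ENNReal.ofReal_mul (Real.exp_pos _).le]
              ring
          _ = ENNReal.ofReal (Real.exp (θ * c)) * ((n : ℝ≥0∞) * ∫⁻ x in ball (a N) (R N),
                ENNReal.ofReal (jac f x) *
                ENNReal.ofReal (Real.exp (θ * phiK f (a N) (r N) (R N) (dist x (a N))) - 1)) := by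
              rw [lintegral_const_mul' _ _ ENNReal.ofReal_ne_top]
              ring
          _ ≤ ENNReal.ofReal (Real.exp (θ * c)) * ∫⁻ x in sh (a N) (r N) (R N),
                ENNReal.ofReal (θ * Real.exp (θ * phiK f (a N) (r N) (R N) (dist x (a N)))) *
                ENNReal.ofReal (jac f x) := mul_le_mul_right key _
          _ = ∫⁻ x in sh (a N) (r N) (R N), ENNReal.ofReal (Real.exp (θ * c)) *
                (ENNReal.ofReal (θ * Real.exp (θ * phiK f (a N) (r N) (R N) (dist x (a N)))) *
                ENNReal.ofReal (jac f x)) :=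
              (lintegral_const_mul' _ _ ENNReal.ofReal_ne_top).symm
          _ = _ := by
              apply setLIntegral_congr_fun (isOpen_sh _ _ _).measurableSet
              intro x hx
              simp only
              rw [← mul_assoc, ← ENNReal.ofReal_mul (Real.exp_pos _).le]
              congr 2
              rw [pk_succ, hc x hx.2, mul_add, Real.exp_add]
              ring
    rw [e1, e2, mul_add]
    calc _ ≤ ((n : ℝ≥0∞) * (∫⁻ x in U, ENNReal.ofReal (jac f x)) +
        ∑ k ∈ Finset.range N, ∫⁻ x in sh (a k) (r k) (R k),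
          ENNReal.ofReal (θ * Real.exp (θ * pk f a r R (k + 1) x)) *
            ENNReal.ofReal (jac f x)) + ∫⁻ x in sh (a N) (r N) (R N),
        ENNReal.ofReal (θ * Real.exp (θ * pk f a r R (N + 1) x)) *
          ENNReal.ofReal (jac f x) := add_le_add ih e3
      _ = _ := by rw [add_assoc]

/-- **The weighted integrals are bounded**, for every nested family. -/
theorem star (hn : 2 ≤ n) (hU : IsOpen U) (hf : Emb f U)
    (hae : ∀ᵐ x ∂((volume : Measure (E n)).restrict U), DifferentiableAt ℝ f x ∧ 0 ≤ jac f x)
    (h : GoodFam f U a r R) {θ : ℝ} (hθ : 0 < θ) (hθn : θ < n)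
    (hfin : ∫⁻ x in U, ENNReal.ofReal (jac f x) ≠ ⊤) (N : ℕ) :
    ∫⁻ x in U, ENNReal.ofReal (jac f x) * ENNReal.ofReal (Real.exp (θ * pk f a r R N x)) ≤
      ENNReal.ofReal (n * (∫⁻ x in U, ENNReal.ofReal (jac f x)).toReal / (n - θ)) := by
  have hnpos : (0 : ℝ) < n := by exact_mod_cast (by omega : 0 < n)
  set A := (∫⁻ x in U, ENNReal.ofReal (jac f x)).toReal with hA
  set X := ∫⁻ x in U, ENNReal.ofReal (jac f x) *
      ENNReal.ofReal (Real.exp (θ * pk f a r R N x)) with hX
  have hmJ : Measurable (fun x : E n => ENNReal.ofReal (jac f x)) :=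
    (measurable_jac f).ennreal_ofReal
  have hmp := measurable_pk hn h N
  have hmX : Measurable (fun x : E n => ENNReal.ofReal (jac f x) *
      ENNReal.ofReal (Real.exp (θ * pk f a r R N x))) :=
    hmJ.mul ((hmp.const_mul θ).exp).ennreal_ofReal
  have hXfin : X ≠ ⊤ := by
    obtain ⟨D, hD⟩ := pk_le hn h N
    have h1 : X ≤ ∫⁻ x in U, ENNReal.ofReal (jac f x) * ENNReal.ofReal (Real.exp (θ * D)) := by
      apply lintegral_mono
      intro x
      apply mul_le_mul_right
      apply ENNReal.ofReal_le_ofReal
      apply Real.exp_le_exp.2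
      exact mul_le_mul_of_nonneg_left (hD x) hθ.le
    refine ne_top_of_le_ne_top ?_ h1
    rw [lintegral_mul_const _ hmJ]
    exact ENNReal.mul_ne_top hfin ENNReal.ofReal_ne_top
  have htel := telescope2 hn hU hf hae h hθ N
  have hsum : ∑ k ∈ Finset.range N, ∫⁻ x in sh (a k) (r k) (R k),
        ENNReal.ofReal (θ * Real.exp (θ * pk f a r R (k + 1) x)) *
          ENNReal.ofReal (jac f x) ≤ ENNReal.ofReal θ * X := by
    calc ∑ k ∈ Finset.range N, ∫⁻ x in sh (a k) (r k) (R k),
          ENNReal.ofReal (θ * Real.exp (θ * pk f a r R (k + 1) x)) *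
          ENNReal.ofReal (jac f x)
        = ∑ k ∈ Finset.range N, ∫⁻ x in sh (a k) (r k) (R k),
          ENNReal.ofReal θ * (ENNReal.ofReal (jac f x) *
            ENNReal.ofReal (Real.exp (θ * pk f a r R N x))) := by
          apply Finset.sum_congr rfl
          intro k hk
          rw [Finset.mem_range] at hk
          apply setLIntegral_congr_fun (isOpen_sh _ _ _).measurableSet
          intro x hx
          simp only
          rw [pk_of_sh h hk hx, ENNReal.ofReal_mul hθ.le]
          ring
      _ = ∫⁻ x in ⋃ k ∈ Finset.range N, sh (a k) (r k) (R k), ENNReal.ofReal θ *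
            (ENNReal.ofReal (jac f x) * ENNReal.ofReal (Real.exp (θ * pk f a r R N x))) :=
          (lintegral_biUnion_finset (sh_pairwise h.toNested _)
            (fun k _ => (isOpen_sh _ _ _).measurableSet) _).symm
      _ ≤ ∫⁻ x in U, ENNReal.ofReal θ *
            (ENNReal.ofReal (jac f x) * ENNReal.ofReal (Real.exp (θ * pk f a r R N x))) := by
          apply lintegral_mono_set
          exact iUnion₂_subset (fun k _ => sh_sub h.toNested k)
      _ = ENNReal.ofReal θ * X := lintegral_const_mul _ hmX
  have hmain : (n : ℝ≥0∞) * X ≤ (n : ℝ≥0∞) * (∫⁻ x in U, ENNReal.ofReal (jac f x)) +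
      ENNReal.ofReal θ * X := htel.trans (add_le_add le_rfl hsum)
  have hA' : ∫⁻ x in U, ENNReal.ofReal (jac f x) = ENNReal.ofReal A :=
    (ENNReal.ofReal_toReal hfin).symm
  have hA0 : 0 ≤ A := ENNReal.toReal_nonneg
  have hX' : X = ENNReal.ofReal X.toReal := (ENNReal.ofReal_toReal hXfin).symm
  have hX0 : 0 ≤ X.toReal := ENNReal.toReal_nonneg
  rw [hX', hA', ← ENNReal.ofReal_natCast, ← ENNReal.ofReal_mul hnpos.le,
    ← ENNReal.ofReal_mul hnpos.le, ← ENNReal.ofReal_mul hθ.le,
    ← ENNReal.ofReal_add (by positivity) (by positivity),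
    ENNReal.ofReal_le_ofReal_iff (by positivity)] at hmain
  rw [hX']
  apply ENNReal.ofReal_le_ofReal
  rw [le_div_iff₀ (by linarith)]
  nlinarith

end Pool.Agent.TreeS
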